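import Pool.Agent.Work.MP_2b9663_nt.Nf.Defs
import Pool.Agent.Work.MP_2b9663_nt.He.DefsO

set_option autoImplicit false

/-!
Families of twists by Hecke characters and by eigenforms.
-/

namespace Pool.Agent.Work.MP_2b9663_nt

open NumberField IsDedekindDomain

/-- A normalised eigenform of some weight `≥ 1`, some level and some character. -/
structure Eigenform where
  weight : ℕ
  level : ℕ
  char : DirichletCharacter ℂ level
  coeff : ℕ → ℂ
  weight_pos : 1 ≤ weight
  level_pos : 0 < level
  isEigenform : Nf.IsEigenform weight level char coeff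

/-- The eigenforms `f` and `g` are different: they have different weights, or their coefficients at
some prime not dividing the levels are different. -/
def Eigenform.Differ (f g : Eigenform) : Prop :=
  f.weight ≠ g.weight ∨
    ∃ p : ℕ, p.Prime ∧ ¬ p ∣ f.level ∧ ¬ p ∣ g.level ∧ f.coeff p ≠ g.coeff p

/-- The trace of the `k`-th power of the Frobenius element at a prime of norm `q = p ^ n` of a number
field on the representation of the eigenform `f`, normalised to be unitary: it is
`(α ^ (n k) + β ^ (n k)) / p ^ (n k (weight - 1) / 2)`, `1 - coeff p * X + char p * p ^ (weight - 1) *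
X ^ 2 = (1 - α X) (1 - β X)`. -/
noncomputable def Eigenform.trace (f : Eigenform) (q k : ℕ) : ℂ :=
  Nf.ntr f.weight f.level f.char f.coeff q.minFac (k * q.factorization q.minFac)

section

variable {K : Type} [Field K] [NumberField K]

/-- the traces of the twist of the system `t` by the sum of the eigenforms `f r` -/
noncomputable def twistF {w : ℕ} (t : HeightOneSpectrum (𝓞 K) → ℕ → ℂ) (f : Fin w → Eigenform)
    (v : HeightOneSpectrum (𝓞 K)) (k : ℕ) : ℂ :=
  t v k * ∑ r, (f r).trace (Ideal.absNorm v.asIdeal) k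

end

section

variable {κ κ' : Type} [Fintype κ] [Fintype κ'] {K₀ : Type} [Field K₀] [NumberField K₀]
  {K : κ → Type} [∀ j, Field (K j)] [∀ j, NumberField (K j)]
  {L : κ' → Type} [∀ j, Field (L j)] [∀ j, NumberField (L j)]

/-- `F` is a meromorphic continuation to a neighbourhood of `s₀ = i / 2 + 1` of the product of the
`L`-function of the system `t₀` over `K₀`, of the `L`-functions of the systems `t j` over the number
fields `K j`, twisted by the sums of the Hecke characters `ψ j r` of `K j`, and of the `L`-functions of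
the systems `u j` over the number fields `L j`, twisted by the sums of the eigenforms `f j r`. -/
def IsTwistContinuation (S₀ : Finset (HeightOneSpectrum (𝓞 K₀)))
    (t₀ : HeightOneSpectrum (𝓞 K₀) → ℕ → ℂ) (S : ∀ j, Finset (HeightOneSpectrum (𝓞 (K j))))
    (t : ∀ j, HeightOneSpectrum (𝓞 (K j)) → ℕ → ℂ)
    (R : ∀ j, Finset (HeightOneSpectrum (𝓞 (L j))))
    (u : ∀ j, HeightOneSpectrum (𝓞 (L j)) → ℕ → ℂ) (i : ℕ) {w : κ → ℕ} {z : κ' → ℕ}
    (ψ : ∀ j, Fin (w j) → HeckeChar (K j)) (f : ∀ j, Fin (z j) → Eigenform) (F : ℂ → ℂ) : Prop :=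
  MeromorphicAt F ((i : ℂ) / 2 + 1) ∧ ∃ (E₀ : ℂ → ℂ) (E : κ → ℂ → ℂ) (E' : κ' → ℂ → ℂ),
    IsEulerK S₀ t₀ i E₀ ∧ (∀ j, IsEulerK (S j) (twistK (t j) (ψ j)) i (E j)) ∧
    (∀ j, IsEulerK (R j) (twistF (u j) (f j)) i (E' j)) ∧
    ∀ s : ℂ, (i : ℝ) / 2 + 1 < s.re → F s = E₀ s * (∏ j, E j s) * ∏ j, E' j s

/-- For all `j` with `δ j ≠ 0`, no two of the eigenforms `f a j r` are equal. -/
def DistinctForms {ι : Type} {z : κ' → ℕ} (δ : κ' → ℝ) (f : ι → ∀ j, Fin (z j) → Eigenform) :
    Prop :=
  ∀ j, δ j ≠ 0 → ∀ (a a' : ι) (r r' : Fin (z j)), (a, r) ≠ (a', r') →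
    (f a j r).Differ (f a' j r')

end

end Pool.Agent.Work.MP_2b9663_nt
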