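import Pool.Agent.Work.MP_2b9663_nt.He.MeanK
import Pool.Agent.Work.MP_2b9663_nt.Asymp
import Pool.Agent.Work.MP_2b9663_nt.Zeta1

set_option autoImplicit false

/-! Sums over the primes of a number field and sums over the rational primes. -/

namespace Pool.Agent.Work.MP_2b9663_nt.Nf

open NumberField Ideal Filter Topology IsDedekindDomain

variable {K : Type} [Field K] [NumberField K]

theorem exists_below (v : HeightOneSpectrum (𝓞 K)) : ∃ p : Nat.Primes,
    (((p : ℕ) : 𝓞 K) ∈ v.asIdeal) ∧ ∃ n : ℕ, 0 < n ∧ absNorm v.asIdeal = (p : ℕ) ^ n := by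
  haveI : v.asIdeal.IsMaximal := v.isMaximal
  obtain ⟨p, n, hn, hp, hpp, h⟩ := Ideal.exists_prime_and_absNorm_eq_pow v.asIdeal
  exact ⟨⟨p, hpp⟩, hp, n, hn, h⟩

/-- The rational prime below a prime ideal. -/
noncomputable def below (v : HeightOneSpectrum (𝓞 K)) : Nat.Primes := (exists_below v).choose

theorem below_mem (v : HeightOneSpectrum (𝓞 K)) : (((below v : Nat.Primes) : ℕ) : 𝓞 K) ∈ v.asIdeal :=
  (exists_below v).choose_spec.1

theorem below_norm (v : HeightOneSpectrum (𝓞 K)) :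
    ∃ n : ℕ, 0 < n ∧ absNorm v.asIdeal = ((below v : Nat.Primes) : ℕ) ^ n :=
  (exists_below v).choose_spec.2

theorem below_card (s : Finset (HeightOneSpectrum (𝓞 K))) (p : Nat.Primes)
    [DecidablePred fun v : HeightOneSpectrum (𝓞 K) => below v = p] :
    (s.filter fun v => below v = p).card ≤ Module.finrank ℚ K := by
  classical
  have h1 : ((s.filter fun v => below v = p).image HeightOneSpectrum.asIdeal).card =
      (s.filter fun v => below v = p).card := by
    apply Finset.card_image_of_injective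
    intro v w h
    exact HeightOneSpectrum.ext h
  rw [← h1, ← RingOfIntegers.rank K]
  apply above_card_le p.2
  intro Q hQ
  rw [Finset.mem_image] at hQ
  obtain ⟨v, hv, rfl⟩ := hQ
  rw [Finset.mem_filter] at hv
  refine ⟨v.isPrime, ?_⟩
  have h2 := below_mem v
  rw [hv.2] at h2
  exact h2

theorem primes_summable_sq : Summable fun p : Nat.Primes => ((p : ℕ) : ℝ) ^ (-2 : ℝ) :=
  Nat.Primes.summable_rpow.2 (by norm_num)

theorem SR_le {K : Type} [Field K] [NumberField K] {u : HeightOneSpectrum (𝓞 K) → ℝ}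
    {c : Nat.Primes → ℝ} {B : ℝ} (hu0 : ∀ v, 0 ≤ u v) (huB : ∀ v, u v ≤ B) (hc0 : ∀ p, 0 ≤ c p)
    (hcB : ∀ p, c p ≤ B)
    (huc : ∀ (v : HeightOneSpectrum (𝓞 K)) (p : Nat.Primes),
      Ideal.absNorm v.asIdeal = (p : ℕ) → u v = c p) :
    ∃ C : ℝ, ∀ ε : ℝ, 0 < ε → He.SR u ε ≤ Module.finrank ℚ K * PS c ε + C := by
  classical
  have hB : 0 ≤ B := (hc0 ⟨2, Nat.prime_two⟩).trans (hcB _)
  refine ⟨Module.finrank ℚ K * (B * ∑' p : Nat.Primes, ((p : ℕ) : ℝ) ^ (-2 : ℝ)), fun ε hε => ?_⟩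
  set g : Nat.Primes → ℝ := fun p =>
    c p * ((p : ℕ) : ℝ) ^ (-(1 + ε)) + B * ((p : ℕ) : ℝ) ^ (-2 : ℝ) with hg
  have hp1 : ∀ p : Nat.Primes, (1 : ℝ) ≤ ((p : ℕ) : ℝ) := fun p => by exact_mod_cast p.2.one_lt.le
  have hp0 : ∀ p : Nat.Primes, (0 : ℝ) ≤ ((p : ℕ) : ℝ) := fun p => zero_le_one.trans (hp1 p)
  have hg0 : ∀ p, 0 ≤ g p := fun p => by
    rw [hg]
    exact add_nonneg (mul_nonneg (hc0 p) (Real.rpow_nonneg (hp0 p) _))
      (mul_nonneg hB (Real.rpow_nonneg (hp0 p) _))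
  have hsum1 : Summable fun p : Nat.Primes => c p * ((p : ℕ) : ℝ) ^ (-(1 + ε)) := by
    have h1 : Summable fun p : Nat.Primes => B * ((p : ℕ) : ℝ) ^ (-(1 + ε)) :=
      (Nat.Primes.summable_rpow.2 (by linarith)).mul_left B
    exact h1.of_nonneg_of_le (fun p => mul_nonneg (hc0 p) (Real.rpow_nonneg (hp0 p) _))
      (fun p => mul_le_mul_of_nonneg_right (hcB p) (Real.rpow_nonneg (hp0 p) _))
  have hsum2 : Summable fun p : Nat.Primes => B * ((p : ℕ) : ℝ) ^ (-2 : ℝ) :=
    primes_summable_sq.mul_left B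
  have hgs : Summable g := hsum1.add hsum2
  have hterm : ∀ v : HeightOneSpectrum (𝓞 K), u v * He.qn v ^ (-(1 + ε)) ≤ g (below v) := by
    intro v
    obtain ⟨n, hn, hv⟩ := below_norm v
    have hq : He.qn v = (((below v : Nat.Primes) : ℕ) : ℝ) ^ n := by
      unfold He.qn
      rw [hv]
      push_cast
      rfl
    by_cases h1 : n = 1
    · have h2 : u v = c (below v) := huc v _ (by rw [hv, h1, pow_one])
      rw [h2, hq, h1, pow_one, hg]
      simp only
      linarith [mul_nonneg hB (Real.rpow_nonneg (hp0 (below v)) (-2 : ℝ))]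
    · have h2 : 2 ≤ n := by omega
      have h3 : He.qn v ^ (-(1 + ε)) ≤ (((below v : Nat.Primes) : ℕ) : ℝ) ^ (-2 : ℝ) := by
        rw [hq, ← Real.rpow_natCast, ← Real.rpow_mul (hp0 _)]
        apply Real.rpow_le_rpow_of_exponent_le (hp1 _)
        have h4 : (2 : ℝ) ≤ n := by exact_mod_cast h2
        nlinarith
      have h5 : u v * He.qn v ^ (-(1 + ε)) ≤
          B * (((below v : Nat.Primes) : ℕ) : ℝ) ^ (-2 : ℝ) :=
        mul_le_mul (huB v) h3 (Real.rpow_nonneg (He.qn_pos v).le _) hB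
      rw [hg]
      simp only
      linarith [mul_nonneg (hc0 (below v)) (Real.rpow_nonneg (hp0 (below v)) (-(1 + ε)))]
  have hBK : He.BK u := ⟨B, fun v => by rw [abs_of_nonneg (hu0 v)]; exact huB v⟩
  have htot : He.SR u ε ≤ Module.finrank ℚ K * ∑' p, g p := by
    unfold He.SR
    apply (He.SR_summable hBK hε).tsum_le_of_sum_le
    intro s
    calc ∑ v ∈ s, u v * He.qn v ^ (-(1 + ε)) ≤ ∑ v ∈ s, g (below v) :=
          Finset.sum_le_sum fun v _ => hterm v
      _ = ∑ p ∈ s.image below, (s.filter fun v => below v = p).card • g p := by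
          rw [Finset.sum_comp]
      _ ≤ ∑ p ∈ s.image below, (Module.finrank ℚ K : ℝ) * g p := by
          apply Finset.sum_le_sum
          intro p _
          rw [nsmul_eq_mul]
          apply mul_le_mul_of_nonneg_right _ (hg0 p)
          exact_mod_cast below_card s p
      _ = Module.finrank ℚ K * ∑ p ∈ s.image below, g p := by rw [Finset.mul_sum]
      _ ≤ Module.finrank ℚ K * ∑' p, g p := by
          apply mul_le_mul_of_nonneg_left _ (Nat.cast_nonneg _)
          exact hgs.sum_le_tsum _ (fun p _ => hg0 p)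
  refine htot.trans (le_of_eq ?_)
  rw [hg, hsum1.tsum_add hsum2, tsum_mul_left, mul_add]
  rfl

end Pool.Agent.Work.MP_2b9663_nt.Nf
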