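import Pool.Agent.Work.MP_2b9663_nt.Nf.RS
import Pool.Agent.Work.MP_2b9663_nt.Nf.Field
import Pool.Agent.Work.MP_2b9663_nt.He.Orbit

set_option autoImplicit false

/-!
Bessel's inequality for families of twists by eigenforms.
-/

namespace Pool.Agent.Work.MP_2b9663_nt.Nf

open NumberField Ideal Filter Topology IsDedekindDomain He

section Forms

lemma trace_norm_le (f : Eigenform) {q k : ℕ} (hq : q ≠ 1) (hq0 : q ≠ 0) (hk : k ≠ 0) :
    ‖f.trace q k‖ ≤ 2 := by
  unfold Eigenform.trace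
  have hp : q.minFac.Prime := Nat.minFac_prime hq
  have h1 : 1 ≤ q.factorization q.minFac :=
    (hp.factorization_pos_of_dvd hq0 q.minFac_dvd)
  exact ntr_norm_le f.weight_pos f.isEigenform hp
    (Nat.one_le_iff_ne_zero.2 (Nat.mul_ne_zero hk (by omega)))

lemma trace_prime (f : Eigenform) (p : Nat.Primes) : f.trace p 1 = lam f.weight f.coeff p := by
  unfold Eigenform.trace
  rw [p.2.minFac_eq, p.2.factorization_self, mul_one, ntr_one]

variable {ρ : Type} (P : Finset ρ) (y : ρ → ℝ) (f : ρ → Eigenform)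

/-- a finite combination of eigenforms -/
noncomputable def WF (q : ℕ) : ℂ := ∑ r ∈ P, (y r : ℂ) * (f r).trace q 1

lemma norm_WF_le {q : ℕ} (hq : q ≠ 1) (hq0 : q ≠ 0) : ‖WF P y f q‖ ≤ 2 * ∑ r ∈ P, |y r| := by
  unfold WF
  rw [Finset.mul_sum]
  refine (norm_sum_le _ _).trans (Finset.sum_le_sum fun r _ => ?_)
  rw [norm_mul, Complex.norm_real, Real.norm_eq_abs, mul_comm]
  exact mul_le_mul_of_nonneg_right (trace_norm_le (f r) hq hq0 one_ne_zero) (abs_nonneg _)

lemma WF_sq (p : Nat.Primes) : ‖WF P y f p‖ ^ 2 =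
    ∑ r ∈ P, ∑ r' ∈ P, y r * y r' * rc (f r).weight (f r').weight (f r).coeff (f r').coeff p := by
  have h1 : ‖WF P y f p‖ ^ 2 = (starRingEnd ℂ (WF P y f p) * WF P y f p).re := by
    rw [← Complex.normSq_eq_conj_mul_self, Complex.ofReal_re, Complex.normSq_eq_norm_sq]
  rw [h1]
  unfold WF
  rw [map_sum, Finset.sum_mul_sum, Complex.re_sum]
  refine Finset.sum_congr rfl fun r _ => ?_
  rw [Complex.re_sum]
  refine Finset.sum_congr rfl fun r' _ => ?_
  rw [map_mul, Complex.conj_ofReal, trace_prime, trace_prime]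
  unfold rc
  have h2 : (y r : ℂ) * starRingEnd ℂ (lam (f r).weight (f r).coeff p) *
      ((y r' : ℂ) * lam (f r').weight (f r').coeff p) = ((y r * y r' : ℝ) : ℂ) *
      (starRingEnd ℂ (lam (f r).weight (f r).coeff p) * lam (f r').weight (f r').coeff p) := by
    push_cast
    ring
  rw [h2, Complex.re_ofReal_mul]

/-- the mean value of the square of a combination of different eigenforms -/
theorem WF_LA (h : ∀ r ∈ P, ∀ r' ∈ P, r ≠ r' → (f r).Differ (f r')) :
    LA (PS fun p : Nat.Primes => ‖WF P y f p‖ ^ 2) (∑ r ∈ P, y r ^ 2) := by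
  classical
  have h1 : ∀ r ∈ P, ∀ r' ∈ P, LA (PS fun p => y r * y r' *
      rc (f r).weight (f r').weight (f r).coeff (f r').coeff p) (if r = r' then y r * y r' else 0) := by
    intro r hr r' hr'
    split_ifs with he
    · subst he
      have := (orth_self (f r)).PS_const_mul (y r * y r)
      rwa [mul_one] at this
    · have := (orth_differ (h r hr r' hr' he)).PS_const_mul (y r * y r')
      rwa [mul_zero] at this
  have hB : ∀ r r' : ρ, ∀ p : Nat.Primes, |y r * y r' *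
      rc (f r).weight (f r').weight (f r).coeff (f r').coeff p| ≤ |y r * y r'| * 4 := by
    intro r r' p
    rw [abs_mul]
    exact mul_le_mul_of_nonneg_left (rc_le (f r).weight_pos (f r').weight_pos (f r).isEigenform
      (f r').isEigenform p) (abs_nonneg _)
  have h2 := LA.PS_sum P (c := fun r p => ∑ r' ∈ P, y r * y r' *
      rc (f r).weight (f r').weight (f r).coeff (f r').coeff p)
      (B := fun r => ∑ r' ∈ P, |y r * y r'| * 4) (κ := fun r => ∑ r' ∈ P,
      if r = r' then y r * y r' else 0) (fun r _ p => (Finset.abs_sum_le_sum_abs _ _).trans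
        (Finset.sum_le_sum fun r' _ => hB r r' p))
      (fun r hr => LA.PS_sum P (fun r' _ p => hB r r' p) (fun r' hr' => h1 r hr r' hr'))
  have h3 : ∑ r ∈ P, ∑ r' ∈ P, (if r = r' then y r * y r' else 0) = ∑ r ∈ P, y r ^ 2 := by
    refine Finset.sum_congr rfl fun r hr => ?_
    rw [Finset.sum_ite_eq, if_pos hr, sq]
  rw [h3] at h2
  have h4 : (fun p : Nat.Primes => ∑ r ∈ P, ∑ r' ∈ P, y r * y r' *
      rc (f r).weight (f r').weight (f r).coeff (f r').coeff p) = fun p : Nat.Primes => ‖WF P y f p‖ ^ 2 := by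
    funext p
    exact (WF_sq P y f p).symm
  rw [h4] at h2
  exact h2

end Forms

section One

variable {K : Type} [Field K] [NumberField K] {S : Finset (HeightOneSpectrum (𝓞 K))}
  {t : HeightOneSpectrum (𝓞 K) → ℕ → ℂ} {i : ℕ}

lemma absNorm_ne_one (v : HeightOneSpectrum (𝓞 K)) : absNorm v.asIdeal ≠ 1 := by
  rw [Ne, Ideal.absNorm_eq_one_iff]
  exact v.isPrime.ne_top

lemma absNorm_ne_zero (v : HeightOneSpectrum (𝓞 K)) : absNorm v.asIdeal ≠ 0 :=
  (absNorm_pos' v).ne'

lemma norm_sum_trace_le {w : ℕ} (f : Fin w → Eigenform) (v : HeightOneSpectrum (𝓞 K)) {k : ℕ}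
    (hk : k ≠ 0) : ‖∑ r, (f r).trace (absNorm v.asIdeal) k‖ ≤ 2 * w := by
  refine (norm_sum_le _ _).trans ?_
  refine (Finset.sum_le_sum fun r _ =>
    trace_norm_le (f r) (absNorm_ne_one v) (absNorm_ne_zero v) hk).trans ?_
  simp [mul_comm]

lemma weil_twistF {w : ℕ} {d : ℝ} (hd : 0 ≤ d) (h : WeilK S t i d) (f : Fin w → Eigenform) :
    WeilK S (twistF t f) i (d * (2 * w)) := by
  intro v hv k hk
  unfold twistF
  rw [norm_mul]
  have h1 := norm_sum_trace_le f v hk
  have h2 := h v hv k hk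
  calc ‖t v k‖ * ‖∑ r, (f r).trace (absNorm v.asIdeal) k‖
      ≤ (d * Real.sqrt ((absNorm v.asIdeal : ℝ) ^ k) ^ i) * (2 * w) :=
        mul_le_mul h2 h1 (norm_nonneg _) ((norm_nonneg _).trans h2)
    _ = _ := by ring

lemma nk_twistF {w : ℕ} (f : Fin w → Eigenform) (v : HeightOneSpectrum (𝓞 K)) :
    nk S (twistF t f) i v = nk S t i v * ∑ r, (f r).trace (absNorm v.asIdeal) 1 := by
  unfold nk twistF
  split_ifs
  · rw [zero_mul]
  · rw [mul_div_right_comm]

/-- the mean value over the primes of `K` -/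
theorem WF_mean {ρ : Type} (P : Finset ρ) (y : ρ → ℝ) (f : ρ → Eigenform)
    (h : ∀ r ∈ P, ∀ r' ∈ P, r ≠ r' → (f r).Differ (f r')) {η : ℝ} (hη : 0 < η) :
    ∀ᶠ ε : ℝ in 𝓝[>] 0, MR (fun v : HeightOneSpectrum (𝓞 K) => ‖WF P y f (absNorm v.asIdeal)‖ ^ 2) ε ≤
      (Module.finrank ℚ K : ℝ) * ∑ r ∈ P, y r ^ 2 + η := by
  set B : ℝ := (2 * ∑ r ∈ P, |y r|) ^ 2 with hB
  have hle : ∀ q : ℕ, q ≠ 1 → q ≠ 0 → ‖WF P y f q‖ ^ 2 ≤ B := fun q hq hq0 =>
    pow_le_pow_left₀ (norm_nonneg _) (norm_WF_le P y f hq hq0) 2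
  obtain ⟨C, hC⟩ := SR_le (K := K) (u := fun v => ‖WF P y f (absNorm v.asIdeal)‖ ^ 2)
    (c := fun p : Nat.Primes => ‖WF P y f p‖ ^ 2) (B := B) (fun v => by positivity)
    (fun v => hle _ (absNorm_ne_one v) (absNorm_ne_zero v)) (fun p => by positivity)
    (fun p => hle _ p.2.one_lt.ne' p.2.ne_zero) (fun v p hvp => by rw [hvp])
  obtain ⟨C', hC'⟩ := WF_LA P y f h
  set n : ℝ := ((Module.finrank ℚ K : ℕ) : ℝ) with hn
  have hn0 : 0 ≤ n := by rw [hn]; positivity
  have h1 : Tendsto (fun ε : ℝ => (n * C' + C) / (-Real.log ε)) (𝓝[>] 0) (𝓝 0) :=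
    tendsto_div_log (C := |n * C' + C|) (Eventually.of_forall fun _ => le_rfl)
  filter_upwards [hC', eventually_unit, h1.eventually (gt_mem_nhds hη)] with ε h2 hε h3
  have hlog := neglog_pos' hε.1 hε.2
  unfold MR
  rw [div_le_iff₀ hlog]
  rw [div_lt_iff₀ hlog] at h3
  have h4 := hC ε hε.1
  have h5 := (abs_le.1 h2).2
  have h6 : n * PS (fun p : Nat.Primes => ‖WF P y f p‖ ^ 2) ε ≤
      n * (C' + (∑ r ∈ P, y r ^ 2) * (-Real.log ε)) := mul_le_mul_of_nonneg_left (by linarith) hn0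
  nlinarith

/-- **The bound for one component**, abstract form. -/
theorem component_abs {d δ B ν : ℝ} (hd : 0 ≤ d) (h : WeilK S t i d)
    (hδ : SecondMoment S t i d δ) {W : HeightOneSpectrum (𝓞 K) → ℂ} (hWB : ∀ v, ‖W v‖ ≤ B)
    (hν0 : 0 ≤ ν) (hW : δ ≠ 0 → ∀ η : ℝ, 0 < η → ∀ᶠ ε : ℝ in 𝓝[>] 0,
      MR (fun v => ‖W v‖ ^ 2) ε ≤ ν + η) {η : ℝ} (hη : 0 < η) :
    ∀ᶠ ε : ℝ in 𝓝[>] 0, MR (fun v => (nk S t i v * W v).re) ε ≤ Real.sqrt (δ * ν) + η := by
  obtain ⟨g, hg, hgδ⟩ := second_moment hd h hδ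
  have hBKa : BK fun v => ‖nk S t i v‖ ^ 2 := ⟨d ^ 2, fun v => by
    rw [abs_of_nonneg (by positivity)]
    exact pow_le_pow_left₀ (norm_nonneg _) (nk_norm_le hd h v) 2⟩
  have hBKW : BK fun v => ‖W v‖ ^ 2 := ⟨B ^ 2, fun v => by
    rw [abs_of_nonneg (by positivity)]
    exact pow_le_pow_left₀ (norm_nonneg _) (hWB v) 2⟩
  have hBKp : BK fun v => (nk S t i v * W v).re := ⟨d * B, fun v => by
    refine (Complex.abs_re_le_norm _).trans ?_
    rw [norm_mul]
    exact mul_le_mul (nk_norm_le hd h v) (hWB v) (norm_nonneg _) hd⟩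
  -- the pointwise inequality
  have key : ∀ lam : ℝ, 0 < lam → ∀ᶠ ε : ℝ in 𝓝[>] 0,
      MR (fun v => (nk S t i v * W v).re) ε ≤
        lam / 2 * g ε + 1 / (2 * lam) * MR (fun v => ‖W v‖ ^ 2) ε := by
    intro lam hlam
    filter_upwards [hg, eventually_unit] with ε h1 hε
    have h2 : MR (fun v => (nk S t i v * W v).re) ε ≤
        MR (fun v => lam / 2 * ‖nk S t i v‖ ^ 2 + 1 / (2 * lam) * ‖W v‖ ^ 2) ε := by
      refine MR_mono hBKp ((hBKa.const_mul _).add (hBKW.const_mul _)) (fun v => ?_) hε.1 hε.2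
      refine (Complex.re_le_norm _).trans ?_
      rw [norm_mul]
      set a := ‖nk S t i v‖
      set b := ‖W v‖
      have h3 : lam / 2 * a ^ 2 + 1 / (2 * lam) * b ^ 2 - a * b =
          (lam * a - b) ^ 2 / (2 * lam) := by
        field_simp
        ring
      have h4 : 0 ≤ (lam * a - b) ^ 2 / (2 * lam) := by positivity
      linarith
    rw [MR_add (hBKa.const_mul _) (hBKW.const_mul _) hε.1, MR_const_mul, MR_const_mul] at h2
    have h5 := mul_le_mul_of_nonneg_left h1 (by positivity : 0 ≤ lam / 2)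
    linarith
  by_cases hδ0 : δ = 0
  · -- no condition on the functions
    rw [hδ0, zero_mul, Real.sqrt_zero, zero_add]
    set lam : ℝ := (B ^ 2 * 2 + 1) / η with hlam
    have hlam0 : 0 < lam := by positivity
    have h1 : Tendsto (fun ε => lam / 2 * g ε + 1 / (2 * lam) * (B ^ 2 *
        MR (fun _ : HeightOneSpectrum (𝓞 K) => (1 : ℝ)) ε)) (𝓝[>] 0)
        (𝓝 (lam / 2 * δ + 1 / (2 * lam) * (B ^ 2 * 1))) :=
      (hgδ.const_mul _).add ((MR_one.const_mul _).const_mul _)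
    have h2 : lam / 2 * δ + 1 / (2 * lam) * (B ^ 2 * 1) < η := by
      rw [hδ0, mul_zero, zero_add, mul_one, div_mul_eq_mul_div, one_mul, div_lt_iff₀ (by positivity),
        hlam]
      have h3 : η * (2 * ((B ^ 2 * 2 + 1) / η)) = 2 * (B ^ 2 * 2 + 1) := by
        field_simp
      rw [h3]
      nlinarith [sq_nonneg B]
    filter_upwards [key lam hlam0, h1.eventually (gt_mem_nhds h2), eventually_unit] with ε h3 h4 hε
    have h5 : MR (fun v => ‖W v‖ ^ 2) ε ≤
        B ^ 2 * MR (fun _ : HeightOneSpectrum (𝓞 K) => (1 : ℝ)) ε := by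
      rw [← MR_const_mul]
      refine MR_mono hBKW (BK.one.const_mul _) (fun v => ?_) hε.1 hε.2
      rw [mul_one]
      exact pow_le_pow_left₀ (norm_nonneg _) (hWB v) 2
    have h6 := mul_le_mul_of_nonneg_left h5 (by positivity : 0 ≤ 1 / (2 * lam))
    linarith
  · have hδ1 : 0 ≤ δ := by
      refine ge_of_tendsto hgδ ?_
      filter_upwards [hg, eventually_unit] with ε h1 hε
      refine le_trans ?_ h1
      have h2 : MR (fun _ : HeightOneSpectrum (𝓞 K) => (0 : ℝ)) ε ≤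
          MR (fun v => ‖nk S t i v‖ ^ 2) ε :=
        MR_mono ⟨0, fun _ => by simp⟩ hBKa (fun v => by positivity) hε.1 hε.2
      have h3 : MR (fun _ : HeightOneSpectrum (𝓞 K) => (0 : ℝ)) ε = 0 := by
        unfold MR SR
        simp
      linarith
    have hδ2 : 0 < δ := lt_of_le_of_ne hδ1 (Ne.symm hδ0)
    obtain ⟨lam, hlam0, hlam⟩ : ∃ lam : ℝ, 0 < lam ∧
        lam / 2 * δ + 1 / (2 * lam) * ν < Real.sqrt (δ * ν) + η := by
      rcases eq_or_lt_of_le hν0 with h1 | h1
      · refine ⟨η / δ, by positivity, ?_⟩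
        rw [← h1, mul_zero, mul_zero, Real.sqrt_zero, add_zero, zero_add]
        have : η / δ / 2 * δ = η / 2 := by field_simp
        rw [this]
        linarith
      · refine ⟨Real.sqrt (δ * ν) / δ, by positivity, ?_⟩
        have hs : 0 < Real.sqrt (δ * ν) := Real.sqrt_pos.2 (by positivity)
        have h2 : Real.sqrt (δ * ν) * Real.sqrt (δ * ν) = δ * ν :=
          Real.mul_self_sqrt (by positivity)
        have h3 : Real.sqrt (δ * ν) / δ / 2 * δ = Real.sqrt (δ * ν) / 2 := by field_simp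
        have h4 : 1 / (2 * (Real.sqrt (δ * ν) / δ)) * ν = Real.sqrt (δ * ν) / 2 := by
          rw [div_mul_eq_mul_div, one_mul, div_eq_div_iff (by positivity) (by norm_num)]
          have : Real.sqrt (δ * ν) * (2 * (Real.sqrt (δ * ν) / δ)) =
              2 * (Real.sqrt (δ * ν) * Real.sqrt (δ * ν)) / δ := by ring
          rw [this, h2]
          field_simp
        rw [h3, h4]
        linarith
    -- a small margin
    set μ : ℝ := Real.sqrt (δ * ν) + η - (lam / 2 * δ + 1 / (2 * lam) * ν) with hμ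
    have hμ0 : 0 < μ := by rw [hμ]; linarith
    have hη' : 0 < lam * μ := by positivity
    have h1 := (hgδ.const_mul (lam / 2)).eventually (gt_mem_nhds (show lam / 2 * δ <
      lam / 2 * δ + μ / 2 by linarith))
    filter_upwards [key lam hlam0, h1, hW hδ0 _ hη'] with ε h3 h4 h5
    have h6 := mul_le_mul_of_nonneg_left h5 (by positivity : 0 ≤ 1 / (2 * lam))
    have h7 : 1 / (2 * lam) * (ν + lam * μ) = 1 / (2 * lam) * ν + μ / 2 := by
      field_simp
    rw [h7] at h6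
    linarith

end One

end Pool.Agent.Work.MP_2b9663_nt.Nf
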