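import Pool.Agent.Work.MP_2b9663_nt.Nf.Theta
import Pool.Agent.Work.MP_2b9663_nt.Mo.Cont

set_option autoImplicit false
set_option linter.unusedSectionVars false

/-! Rankin-Selberg for all weights and characters: the analytic continuation of the integral against
the Eisenstein series, in the cases without pole. -/

namespace Pool.Agent.Work.MP_2b9663_nt.Nf

open UpperHalfPlane ModularGroup MeasureTheory CongruenceSubgroup Set
open scoped MatrixGroups Modular Topology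

namespace Ct

open Mo.Tt

/-! ## Continuity of theta series -/

/-- a theta series with bounded coefficients -/
noncomputable def gen (w : ℤ × ℤ → ℂ) (r : ℕ) (d : ℝ) (t : ℝ) (z : ℍ) : ℂ :=
  ∑' v : ℤ × ℤ, w v * lv z v ^ r * (Real.exp (-(Real.pi * t * Mo.qf z.re z.im v / d)) : ℂ)

theorem norm_lv_sq (z : ℍ) (v : ℤ × ℤ) : ‖lv z v‖ ^ 2 = z.im * Mo.qf z.re z.im v := by
  have hz := z.im_pos.ne'
  rw [← Complex.normSq_eq_norm_sq, Complex.normSq_apply]
  unfold lv Mo.qf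
  simp
  field_simp

theorem term_bound {w : ℤ × ℤ → ℂ} {W : ℝ} (hW : ∀ v, ‖w v‖ ≤ W) (r : ℕ) {d : ℝ} (hd : 0 < d)
    {t : ℝ} (ht : 0 < t) (z : ℍ) (v : ℤ × ℤ) :
    ‖w v * lv z v ^ r * (Real.exp (-(Real.pi * t * Mo.qf z.re z.im v / d)) : ℂ)‖ ≤
      W * (1 + z.im ^ r * (r.factorial * (2 * d / (Real.pi * t)) ^ r)) *
        Real.exp (-(Real.pi / (2 * d) * (t * kap z.re z.im) * nn v)) := by
  have hW0 : 0 ≤ W := (norm_nonneg _).trans (hW v)
  have hz := z.im_pos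
  set q := Mo.qf z.re z.im v with hq
  have hq0 : 0 ≤ q := qf_nonneg hz v
  set X := Real.pi * t * q / (2 * d) with hX
  have hX0 : 0 ≤ X := by positivity
  have h1 : ‖lv z v‖ ^ r ≤ 1 + z.im ^ r * q ^ r := by
    have h2 : (‖lv z v‖ ^ r) ^ 2 = z.im ^ r * q ^ r := by
      rw [← pow_mul, mul_comm r 2, pow_mul, norm_lv_sq, mul_pow]
    nlinarith [sq_nonneg (‖lv z v‖ ^ r - 1), sq_nonneg (‖lv z v‖ ^ r)]
  have h3 : q ^ r ≤ r.factorial * (2 * d / (Real.pi * t)) ^ r * Real.exp X := by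
    have h4 := Real.pow_div_factorial_le_exp X hX0 r
    rw [div_le_iff₀ (by positivity)] at h4
    have h5 : q = 2 * d / (Real.pi * t) * X := by
      rw [hX]
      field_simp
    rw [h5, mul_pow]
    calc (2 * d / (Real.pi * t)) ^ r * X ^ r
        ≤ (2 * d / (Real.pi * t)) ^ r * (Real.exp X * r.factorial) := by gcongr
      _ = _ := by ring
  have h6 : 1 ≤ Real.exp X := Real.one_le_exp hX0
  have h7 : ‖lv z v‖ ^ r ≤ (1 + z.im ^ r * (r.factorial * (2 * d / (Real.pi * t)) ^ r)) *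
      Real.exp X := by
    calc ‖lv z v‖ ^ r ≤ 1 + z.im ^ r * q ^ r := h1
      _ ≤ Real.exp X + z.im ^ r * (r.factorial * (2 * d / (Real.pi * t)) ^ r * Real.exp X) := by
        gcongr
      _ = _ := by ring
  have h8 : Real.exp (-(Real.pi * t * q / d)) = Real.exp (-X) * Real.exp (-X) := by
    rw [← Real.exp_add]
    congr 1
    rw [hX]
    field_simp
    ring
  have h9 : Real.exp (-X) ≤ Real.exp (-(Real.pi / (2 * d) * (t * kap z.re z.im) * nn v)) := by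
    rw [Real.exp_le_exp, neg_le_neg_iff]
    have := kap_le (x := z.re) hz v
    calc Real.pi / (2 * d) * (t * kap z.re z.im) * nn v
        = Real.pi / (2 * d) * t * (kap z.re z.im * nn v) := by ring
      _ ≤ Real.pi / (2 * d) * t * q := by gcongr
      _ = X := by rw [hX]; ring
  rw [norm_mul, norm_mul, norm_pow, Complex.norm_real, Real.norm_of_nonneg (Real.exp_nonneg _), h8]
  calc ‖w v‖ * ‖lv z v‖ ^ r * (Real.exp (-X) * Real.exp (-X))
      ≤ W * ((1 + z.im ^ r * (r.factorial * (2 * d / (Real.pi * t)) ^ r)) * Real.exp X) *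
          (Real.exp (-X) * Real.exp (-X)) := by
        gcongr
        exact hW v
    _ = W * (1 + z.im ^ r * (r.factorial * (2 * d / (Real.pi * t)) ^ r)) *
          (Real.exp X * Real.exp (-X)) * Real.exp (-X) := by ring
    _ = W * (1 + z.im ^ r * (r.factorial * (2 * d / (Real.pi * t)) ^ r)) * Real.exp (-X) := by
        rw [← Real.exp_add, add_neg_cancel, Real.exp_zero, mul_one]
    _ ≤ _ := by
        gcongr

theorem continuousOn_kap : Continuous fun p : ℝ × ℍ => kap p.2.re p.2.im := by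
  unfold kap
  have h1 : Continuous fun p : ℝ × ℍ => p.2.re := UpperHalfPlane.continuous_re.comp continuous_snd
  have h2 : Continuous fun p : ℝ × ℍ => p.2.im := UpperHalfPlane.continuous_im.comp continuous_snd
  refine h2.div (by fun_prop) fun p => ?_
  positivity

theorem gen_continuousOn {w : ℤ × ℤ → ℂ} {W : ℝ} (hW : ∀ v, ‖w v‖ ≤ W) (r : ℕ) {d : ℝ} (hd : 0 < d) :
    ContinuousOn (fun p : ℝ × ℍ => gen w r d p.1 p.2) (Ioi 0 ×ˢ univ) := by
  have hW0 : 0 ≤ W := (norm_nonneg _).trans (hW 0)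
  have hre : Continuous fun p : ℝ × ℍ => p.2.re := UpperHalfPlane.continuous_re.comp continuous_snd
  have him : Continuous fun p : ℝ × ℍ => p.2.im := UpperHalfPlane.continuous_im.comp continuous_snd
  refine continuousOn_of_forall_continuousAt fun p₀ hp₀ => ?_
  have ht₀ : 0 < p₀.1 := hp₀.1
  set A : ℝ × ℍ → ℝ := fun p => p.1 * kap p.2.re p.2.im with hA
  set B : ℝ × ℍ → ℝ := fun p => p.2.im ^ r * (r.factorial * (2 * d / (Real.pi * p.1)) ^ r) with hB
  have hA0 : 0 < A p₀ := mul_pos ht₀ (kap_pos p₀.2.im_pos)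
  have hAc : Continuous A := continuous_fst.mul continuousOn_kap
  have hBc : ContinuousAt B p₀ := by
    refine (him.continuousAt.pow r).mul (continuousAt_const.mul (ContinuousAt.pow ?_ r))
    refine continuousAt_const.div (continuousAt_const.mul continuous_fst.continuousAt) ?_
    positivity
  set U : Set (ℝ × ℍ) := {p | 0 < p.1 ∧ A p₀ / 2 < A p ∧ B p < B p₀ + 1} with hU
  have hUn : U ∈ 𝓝 p₀ := by
    have e1 : ∀ᶠ p : ℝ × ℍ in 𝓝 p₀, 0 < p.1 := 
      Filter.Tendsto.eventually_const_lt ht₀ continuous_fst.continuousAt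
    have e2 : ∀ᶠ p : ℝ × ℍ in 𝓝 p₀, A p₀ / 2 < A p :=
      Filter.Tendsto.eventually_const_lt (half_lt_self hA0) hAc.continuousAt
    have e3 : ∀ᶠ p : ℝ × ℍ in 𝓝 p₀, B p < B p₀ + 1 :=
      hBc.eventually_lt_const (lt_add_one _)
    filter_upwards [e1, e2, e3] with p h1 h2 h3
    exact ⟨h1, h2, h3⟩
  refine ContinuousOn.continuousAt (s := U) ?_ hUn
  unfold gen
  refine continuousOn_tsum (u := fun v => W * (1 + (B p₀ + 1)) *
    Real.exp (-(Real.pi / (2 * d) * (A p₀ / 2) * nn v))) ?_ ?_ ?_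
  · intro v
    have hlv : Continuous fun p : ℝ × ℍ => lv p.2 v := by
      unfold lv
      exact (continuous_const.mul (UpperHalfPlane.continuous_coe.comp continuous_snd)).add
        continuous_const
    have hqf : Continuous fun p : ℝ × ℍ => Mo.qf p.2.re p.2.im v := by
      unfold Mo.qf
      refine Continuous.div (by fun_prop) him fun p => p.2.im_pos.ne'
    refine Continuous.continuousOn ?_
    refine (continuous_const.mul (hlv.pow r)).mul ?_
    refine Complex.continuous_ofReal.comp (Real.continuous_exp.comp ?_)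
    exact (((continuous_const.mul continuous_fst).mul hqf).div_const d).neg
  · refine Summable.mul_left _ (gauss_summable ?_)
    positivity
  · intro v p hp
    obtain ⟨h1, h2, h3⟩ := hp
    refine (term_bound hW r hd h1 p.2 v).trans ?_
    have hnn := nn_nonneg v
    have hB0 : 0 ≤ B p := by
      have := p.2.im_pos
      simp only [hB]
      positivity
    have h4 : 1 + p.2.im ^ r * (r.factorial * (2 * d / (Real.pi * p.1)) ^ r) ≤ 1 + (B p₀ + 1) := by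
      have : p.2.im ^ r * (r.factorial * (2 * d / (Real.pi * p.1)) ^ r) = B p := rfl
      linarith
    have h5 : Real.exp (-(Real.pi / (2 * d) * (p.1 * kap p.2.re p.2.im) * nn v)) ≤
        Real.exp (-(Real.pi / (2 * d) * (A p₀ / 2) * nn v)) := by
      rw [Real.exp_le_exp, neg_le_neg_iff]
      have h6 : A p₀ / 2 ≤ p.1 * kap p.2.re p.2.im := h2.le
      gcongr
    have h7 : 0 ≤ 1 + (B p₀ + 1) := by linarith
    exact mul_le_mul (mul_le_mul_of_nonneg_left h4 hW0) h5 (Real.exp_nonneg _)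
      (mul_nonneg hW0 h7)

variable {N : ℕ} [NeZero N] {ω : DirichletCharacter ℂ N} {r : ℕ} {F : ℍ → ℂ}

theorem Th_eq_gen (ω : DirichletCharacter ℂ N) (r : ℕ) (t : ℝ) (z : ℍ) :
    Th N ω r t z = gen (fun v => if (N : ℤ) ∣ v.1 then ω ((v.2 : ℤ) : ZMod N) else 0) r 1 t z := by
  unfold Th gen
  refine tsum_congr fun v => ?_
  rw [div_one]
  beta_reduce
  by_cases hv : (N : ℤ) ∣ v.1
  · rw [if_pos hv, if_pos hv]
  · rw [if_neg hv, if_neg hv]
    simp

theorem Th_continuousOn (ω : DirichletCharacter ℂ N) (r : ℕ) :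
    ContinuousOn (fun p : ℝ × ℍ => Th N ω r p.1 p.2) (Ioi 0 ×ˢ univ) := by
  simp only [Th_eq_gen]
  refine gen_continuousOn (W := 1) (fun v => ?_) r one_pos
  split_ifs
  · exact DirichletCharacter.norm_le_one _ _
  · simp

theorem tau_bound (ω : DirichletCharacter ℂ N) (m : ℤ) : ‖tau N ω m‖ ≤ N := by
  unfold tau
  refine (norm_sum_le _ _).trans ?_
  calc ∑ ρ : ZMod N, ‖ω ρ * ZMod.stdAddChar (-((m : ZMod N) * ρ))‖
      ≤ ∑ _ρ : ZMod N, (1 : ℝ) := by
        refine Finset.sum_le_sum fun ρ _ => ?_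
        rw [norm_mul]
        have h1 := DirichletCharacter.norm_le_one ω ρ
        have h2 : ‖ZMod.stdAddChar (-((m : ZMod N) * ρ))‖ = 1 := AddChar.norm_apply _ _
        rw [h2, mul_one]
        exact h1
    _ = N := by simp

theorem Thd_eq_gen (ω : DirichletCharacter ℂ N) (r : ℕ) (t : ℝ) (z : ℍ) :
    Thd N ω r t z = (N : ℂ) ^ (-((r : ℤ) + 2)) *
      gen (fun v => tau N ω v.1) r ((N : ℝ) ^ 2) t z := rfl

theorem Thd_continuousOn (ω : DirichletCharacter ℂ N) (r : ℕ) :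
    ContinuousOn (fun p : ℝ × ℍ => Thd N ω r p.1 p.2) (Ioi 0 ×ˢ univ) := by
  simp only [Thd_eq_gen]
  have hN : (0 : ℝ) < (N : ℝ) ^ 2 := by
    have : (0 : ℝ) < N := by exact_mod_cast Nat.pos_of_ne_zero (NeZero.ne N)
    positivity
  exact continuousOn_const.mul (gen_continuousOn (W := N) (fun v => tau_bound ω v.1) r hN)

/-! ## Theta like functions -/

/-- continuity and decay of a theta function -/
structure Like (r : ℕ) (Θ : ℝ → ℍ → ℂ) : Prop where
  cont : ContinuousOn (fun p : ℝ × ℍ => Θ p.1 p.2) (Ioi 0 ×ˢ univ)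
  bound : ∃ C c : ℝ, 0 < c ∧ ∀ (t : ℝ) (z : ℍ), 0 < t →
    ‖Θ t z‖ ≤ C * (t ^ (-((r : ℝ) / 2)) * z.im ^ ((r : ℝ) / 2) * (Mo.Th (t / c) z.re z.im - 1))

theorem like_Th (h : 0 < r ∨ ω ≠ 1) : Like r (Th N ω r) := by
  refine ⟨Th_continuousOn ω r, ?_⟩
  obtain ⟨C, hC⟩ := Th_bound ω r h
  exact ⟨C, 2, by norm_num, hC⟩

theorem like_Thd (h : 0 < r ∨ ω ≠ 1) : Like r (Thd N ω r) := by
  refine ⟨Thd_continuousOn ω r, ?_⟩
  obtain ⟨C, hC⟩ := Thd_bound ω r h
  have hN : (0 : ℝ) < N := by exact_mod_cast Nat.pos_of_ne_zero (NeZero.ne N)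
  exact ⟨C, 2 * N ^ 2, by positivity, hC⟩

theorem MoTh_bound (γ : SL(2, ℤ)) {c σ : ℝ} (hc : 0 < c) (hσ : 1 < σ) :
    ∃ C : ℝ, 0 ≤ C ∧ ∀ u : ℝ, 0 < u → ∀ z ∈ 𝒟,
      Mo.Th (u / c) (γ • z).re (γ • z).im - 1 ≤ C * u ^ (-σ) * z.im ^ σ := by
  obtain ⟨C, hC0, hC⟩ := Mo.Ct.Dl_bound (l := 1) one_pos γ hσ
  refine ⟨C * c ^ σ, by positivity, fun u hu z hz => ?_⟩
  have h := hC (u / c) (div_pos hu hc) z hz
  unfold Mo.Ct.Dl at h
  simp only [Nat.cast_one, one_mul] at h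
  have e : (u / c) ^ (-σ) = c ^ σ * u ^ (-σ) := by
    rw [Real.div_rpow hu.le hc.le, Real.rpow_neg hc.le, div_inv_eq_mul, mul_comm]
  rw [e] at h
  linarith

theorem exp_bound {a : ℝ} (ha : 0 < a) (σ : ℝ) : ∃ K : ℝ, 0 ≤ K ∧ ∀ y : ℝ, 1 / 2 ≤ y →
    Real.exp (-(a * y)) * y ^ σ ≤ K := by
  obtain ⟨n, hn⟩ := exists_nat_ge σ
  refine ⟨(2 : ℝ) ^ (n - σ) * (n.factorial / a ^ n), by positivity, fun y hy => ?_⟩
  have hy0 : 0 < y := by linarith
  have h1 : y ^ σ ≤ (2 : ℝ) ^ (n - σ) * y ^ n := by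
    have e1 : y ^ σ = (2 : ℝ) ^ (-σ) * (2 * y) ^ σ := by
      rw [Real.mul_rpow (by norm_num) hy0.le, ← mul_assoc, ← Real.rpow_add (by norm_num)]
      simp
    have e2 : (2 * y) ^ σ ≤ (2 * y) ^ (n : ℝ) :=
      Real.rpow_le_rpow_of_exponent_le (by linarith) hn
    rw [e1]
    calc (2 : ℝ) ^ (-σ) * (2 * y) ^ σ ≤ (2 : ℝ) ^ (-σ) * (2 * y) ^ (n : ℝ) := by gcongr
      _ = (2 : ℝ) ^ (n - σ) * y ^ n := by
        rw [Real.mul_rpow (by norm_num) hy0.le, ← mul_assoc, ← Real.rpow_add (by norm_num),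
          Real.rpow_natCast y]
        congr 2
        ring
  have h2 : y ^ n ≤ n.factorial / a ^ n * Real.exp (a * y) := by
    have := Real.pow_div_factorial_le_exp (a * y) (by positivity) n
    rw [mul_pow, div_le_iff₀ (by positivity)] at this
    rw [div_mul_eq_mul_div, le_div_iff₀ (by positivity)]
    nlinarith
  calc Real.exp (-(a * y)) * y ^ σ
      ≤ Real.exp (-(a * y)) * ((2 : ℝ) ^ (n - σ) * (n.factorial / a ^ n * Real.exp (a * y))) := by
        gcongr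
        exact h1.trans (mul_le_mul_of_nonneg_left h2 (by positivity))
    _ = (2 : ℝ) ^ (n - σ) * (n.factorial / a ^ n) * (Real.exp (-(a * y)) * Real.exp (a * y)) := by
        ring
    _ = _ := by rw [← Real.exp_add]; simp

/-- the integrand -/
noncomputable def FT (F : ℍ → ℂ) (Θ : ℝ → ℍ → ℂ) (γ : SL(2, ℤ)) (u : ℝ) (z : ℍ) : ℂ :=
  F (γ • z) * Θ u (γ • z)

theorem FT_bound (hF : RSFun N ω r F) {Θ : ℝ → ℍ → ℂ} (hΘ : Like r Θ) (γ : SL(2, ℤ)) {σ : ℝ}
    (hσ : 1 < σ) : ∃ C : ℝ, 0 ≤ C ∧ ∀ u : ℝ, 0 < u → ∀ z ∈ 𝒟,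
      ‖FT F Θ γ u z‖ ≤ C * u ^ (-(σ + (r : ℝ) / 2)) := by
  obtain ⟨C₁, c, hc, hC₁⟩ := hΘ.bound
  obtain ⟨C₂, hC₂0, hC₂⟩ := MoTh_bound γ hc hσ
  obtain ⟨C₃, a, ha, hC₃⟩ := hF.decay γ
  obtain ⟨K, hK0, hK⟩ := exp_bound ha σ
  refine ⟨|C₁| * C₂ * |C₃| * K, by positivity, fun u hu z hz => ?_⟩
  have hz2 := Mo.Ct.half_le_im_of_mem_fd hz
  have hy0 := z.im_pos
  have hg0 := (γ • z).im_pos
  have h1 := hC₁ u (γ • z) hu
  have h2 := hC₂ u hu z hz
  have h3 := hC₃ z hz2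
  have h4 := hK z.im hz2
  have h5 : 0 ≤ Mo.Th (u / c) (γ • z).re (γ • z).im - 1 := by
    have := Mo.one_le_Th (x := (γ • z).re) (t := u / c) (div_pos hu hc) hg0
    linarith
  unfold FT
  rw [norm_mul]
  calc ‖F (γ • z)‖ * ‖Θ u (γ • z)‖
      ≤ ‖F (γ • z)‖ * (|C₁| * (u ^ (-((r : ℝ) / 2)) * (γ • z).im ^ ((r : ℝ) / 2) *
          (C₂ * u ^ (-σ) * z.im ^ σ))) := by
        gcongr
        refine h1.trans ?_
        have h6 : 0 ≤ u ^ (-((r : ℝ) / 2)) * (γ • z).im ^ ((r : ℝ) / 2) := by positivity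
        calc C₁ * (u ^ (-((r : ℝ) / 2)) * (γ • z).im ^ ((r : ℝ) / 2) *
              (Mo.Th (u / c) (γ • z).re (γ • z).im - 1))
            ≤ |C₁| * (u ^ (-((r : ℝ) / 2)) * (γ • z).im ^ ((r : ℝ) / 2) *
              (Mo.Th (u / c) (γ • z).re (γ • z).im - 1)) :=
              mul_le_mul_of_nonneg_right (le_abs_self _) (mul_nonneg h6 h5)
          _ ≤ _ := mul_le_mul_of_nonneg_left (mul_le_mul_of_nonneg_left h2 h6) (abs_nonneg _)
    _ = |C₁| * C₂ * (u ^ (-((r : ℝ) / 2)) * u ^ (-σ)) *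
          ((‖F (γ • z)‖ * (γ • z).im ^ ((r : ℝ) / 2)) * z.im ^ σ) := by ring
    _ ≤ |C₁| * C₂ * (u ^ (-((r : ℝ) / 2)) * u ^ (-σ)) *
          ((|C₃| * Real.exp (-(a * z.im))) * z.im ^ σ) := by
        refine mul_le_mul_of_nonneg_left (mul_le_mul_of_nonneg_right ?_ (by positivity))
          (by positivity)
        exact h3.trans (mul_le_mul_of_nonneg_right (le_abs_self _) (Real.exp_nonneg _))
    _ = |C₁| * C₂ * |C₃| * (u ^ (-((r : ℝ) / 2)) * u ^ (-σ)) *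
          (Real.exp (-(a * z.im)) * z.im ^ σ) := by ring
    _ ≤ |C₁| * C₂ * |C₃| * (u ^ (-((r : ℝ) / 2)) * u ^ (-σ)) * K := by gcongr
    _ = _ := by
        rw [← Real.rpow_add hu]
        have : -((r : ℝ) / 2) + -σ = -(σ + (r : ℝ) / 2) := by ring
        rw [this]
        ring

theorem FT_continuousOn (hF : RSFun N ω r F) {Θ : ℝ → ℍ → ℂ} (hΘ : Like r Θ) (γ : SL(2, ℤ)) :
    ContinuousOn (fun p : ℝ × ℍ => FT F Θ γ p.1 p.2) (Ioi 0 ×ˢ univ) := by
  have hγ : Continuous fun p : ℝ × ℍ => γ • p.2 :=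
    (Mo.Ct.continuous_sl_smul γ).comp continuous_snd
  unfold FT
  refine (hF.cont.comp hγ).continuousOn.mul ?_
  exact hΘ.cont.comp (f := fun p : ℝ × ℍ => ((p.1, γ • p.2) : ℝ × ℍ))
    (continuous_fst.prodMk hγ).continuousOn (fun p hp => ⟨hp.1, mem_univ _⟩)

theorem FT_continuous (hF : RSFun N ω r F) {Θ : ℝ → ℍ → ℂ} (hΘ : Like r Θ) (γ : SL(2, ℤ)) {u : ℝ}
    (hu : 0 < u) : Continuous (FT F Θ γ u) := by
  have h := (FT_continuousOn hF hΘ γ).comp (f := fun z : ℍ => ((u, z) : ℝ × ℍ)) (s := univ)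
    (by fun_prop) (fun z _ => ⟨hu, mem_univ _⟩)
  exact continuousOn_univ.1 h

theorem FT_continuousOn_left (hF : RSFun N ω r F) {Θ : ℝ → ℍ → ℂ} (hΘ : Like r Θ) (γ : SL(2, ℤ))
    (z : ℍ) : ContinuousOn (fun u => FT F Θ γ u z) (Ioi 0) :=
  (FT_continuousOn hF hΘ γ).comp (f := fun u : ℝ => ((u, z) : ℝ × ℍ)) (s := Ioi 0)
    (by fun_prop) (fun u hu => ⟨hu, mem_univ _⟩)

/-- the theta integral over a fundamental domain -/
noncomputable def Hg (F : ℍ → ℂ) (Θ : ℝ → ℍ → ℂ) (γ : SL(2, ℤ)) (u : ℝ) : ℂ :=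
  ∫ z in 𝒟, FT F Θ γ u z

theorem Hg_bound (hF : RSFun N ω r F) {Θ : ℝ → ℍ → ℂ} (hΘ : Like r Θ) (γ : SL(2, ℤ)) {σ : ℝ}
    (hσ : 1 < σ) : ∃ C : ℝ, ∀ u : ℝ, 0 < u → ‖Hg F Θ γ u‖ ≤ C * u ^ (-(σ + (r : ℝ) / 2)) := by
  obtain ⟨C, hC0, hC⟩ := FT_bound hF hΘ γ hσ
  refine ⟨C * (volume.real (𝒟 : Set ℍ)), fun u hu => ?_⟩
  have := norm_setIntegral_le_of_norm_le_const (μ := volume) (s := (𝒟 : Set ℍ)) (f := FT F Θ γ u)
    (C := C * u ^ (-(σ + (r : ℝ) / 2))) Mo.Ct.volume_fd_lt_top (fun z hz => hC u hu z hz)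
  calc ‖Hg F Θ γ u‖ ≤ C * u ^ (-(σ + (r : ℝ) / 2)) * volume.real (𝒟 : Set ℍ) := this
    _ = _ := by ring

theorem Hg_continuousOn (hF : RSFun N ω r F) {Θ : ℝ → ℍ → ℂ} (hΘ : Like r Θ) (γ : SL(2, ℤ)) :
    ContinuousOn (Hg F Θ γ) (Ioi 0) := by
  obtain ⟨C, hC0, hC⟩ := FT_bound hF hΘ γ (σ := 2) (by norm_num)
  have hr : (0 : ℝ) ≤ (r : ℝ) / 2 := by positivity
  refine continuousOn_of_forall_continuousAt fun u₀ hu₀ => ?_
  have hu₀' : 0 < u₀ := hu₀
  have h : ContinuousOn (Hg F Θ γ) (Ioi (u₀ / 2)) := by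
    refine continuousOn_of_dominated (bound := fun _ => C * (u₀ / 2) ^ (-(2 + (r : ℝ) / 2)))
      ?_ ?_ ?_ ?_
    · intro u hu
      exact (FT_continuous hF hΘ γ (lt_trans (half_pos hu₀') hu)).aestronglyMeasurable
    · intro u hu
      refine (ae_restrict_iff' Mo.Ct.measurableSet_fd).2 (Filter.Eventually.of_forall fun z hz => ?_)
      have hu' : u₀ / 2 < u := hu
      refine (hC u (by linarith) z hz).trans ?_
      gcongr ?_ * ?_
      exact Real.rpow_le_rpow_of_nonpos (by positivity) hu'.le (by linarith)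
    · exact integrable_const _
    · refine Filter.Eventually.of_forall fun z => ?_
      exact (FT_continuousOn_left hF hΘ γ z).mono (fun u hu => lt_trans (half_pos hu₀') hu)
  exact h.continuousAt (Ioi_mem_nhds (by linarith))

/-- the majorant -/
theorem integrable_prod (hF : RSFun N ω r F) {Θ : ℝ → ℍ → ℂ} (hΘ : Like r Θ) (γ : SL(2, ℤ)) {s : ℂ}
    (hs : 1 + (r : ℝ) / 2 < s.re) :
    Integrable (fun p : ℝ × ℍ => (p.1 : ℂ) ^ (s - 1) * FT F Θ γ p.1 p.2)
      ((volume.restrict (Ioi (0 : ℝ))).prod (volume.restrict (𝒟 : Set ℍ))) := by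
  set ρ : ℝ := s.re - (r : ℝ) / 2 with hρ
  have hρ1 : 1 < ρ := by rw [hρ]; linarith
  obtain ⟨C₁, hC₁0, hC₁⟩ := FT_bound hF hΘ γ (σ := (1 + ρ) / 2) (by linarith)
  obtain ⟨C₂, hC₂0, hC₂⟩ := FT_bound hF hΘ γ (σ := ρ + 1) (by linarith)
  set g₁ : ℝ → ℝ := (Ioc (0 : ℝ) 1).indicator (fun u : ℝ => C₁ * u ^ ((ρ - 1) / 2 - 1)) with hg₁
  set g₂ : ℝ → ℝ := (Ioi (1 : ℝ)).indicator (fun u : ℝ => C₂ * u ^ (-2 : ℝ)) with hg₂
  set g : ℝ → ℝ := fun u : ℝ => g₁ u + g₂ u with hg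
  have hg1 : Integrable g (volume.restrict (Ioi 0)) := by
    refine Integrable.add ?_ ?_
    · refine Integrable.integrableOn ?_
      refine (integrable_indicator_iff measurableSet_Ioc).2 (Integrable.const_mul ?_ _)
      have := intervalIntegral.intervalIntegrable_rpow' (a := 0) (b := 1)
        (r := (ρ - 1) / 2 - 1) (by linarith)
      exact (intervalIntegrable_iff_integrableOn_Ioc_of_le zero_le_one).1 this
    · refine Integrable.integrableOn ?_
      refine (integrable_indicator_iff measurableSet_Ioi).2 (Integrable.const_mul ?_ _)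
      exact integrableOn_Ioi_rpow_of_lt (by norm_num) (by norm_num)
  have hg2 : Integrable (fun p : ℝ × ℍ => g p.1 * 1)
      ((volume.restrict (Ioi (0 : ℝ))).prod (volume.restrict (𝒟 : Set ℍ))) :=
    hg1.mul_prod (g := fun _ : ℍ => (1 : ℝ)) (integrable_const _)
  refine hg2.mono' ?_ ?_
  · rw [Measure.prod_restrict]
    refine ContinuousOn.aestronglyMeasurable ?_ (measurableSet_Ioi.prod Mo.Ct.measurableSet_fd)
    refine ContinuousOn.mul ?_ ((FT_continuousOn hF hΘ γ).mono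
      (prod_mono_right (subset_univ _)))
    refine ContinuousOn.cpow_const (Complex.continuous_ofReal.comp continuous_fst).continuousOn ?_
    intro p hp
    exact Complex.ofReal_mem_slitPlane.2 hp.1
  · rw [Measure.prod_restrict]
    refine (ae_restrict_iff' (measurableSet_Ioi.prod Mo.Ct.measurableSet_fd)).2
      (Filter.Eventually.of_forall fun p hp => ?_)
    obtain ⟨hp1, hp2⟩ := hp
    have hp1' : 0 < p.1 := hp1
    rw [norm_mul, Complex.norm_cpow_eq_rpow_re_of_pos hp1', mul_one]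
    have e : (s - 1).re = ρ + (r : ℝ) / 2 - 1 := by simp [hρ]
    rw [e]
    rcases le_or_gt p.1 1 with h1 | h1
    · have hgv : g p.1 = C₁ * p.1 ^ ((ρ - 1) / 2 - 1) := by
        simp [hg, hg₁, hg₂, indicator_of_mem (show p.1 ∈ Ioc (0 : ℝ) 1 from ⟨hp1', h1⟩),
          indicator_of_notMem (show p.1 ∉ Ioi (1 : ℝ) from not_lt.2 h1)]
      rw [hgv]
      calc p.1 ^ (ρ + (r : ℝ) / 2 - 1) * ‖FT F Θ γ p.1 p.2‖
          ≤ p.1 ^ (ρ + (r : ℝ) / 2 - 1) * (C₁ * p.1 ^ (-((1 + ρ) / 2 + (r : ℝ) / 2))) := by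
            gcongr
            exact hC₁ p.1 hp1' p.2 hp2
        _ = C₁ * (p.1 ^ (ρ + (r : ℝ) / 2 - 1) * p.1 ^ (-((1 + ρ) / 2 + (r : ℝ) / 2))) := by ring
        _ = _ := by
            rw [← Real.rpow_add hp1']
            congr 2
            ring
    · have hgv : g p.1 = C₂ * p.1 ^ (-2 : ℝ) := by
        simp [hg, hg₁, hg₂, indicator_of_notMem (show p.1 ∉ Ioc (0 : ℝ) 1 from fun h => not_lt.2 h.2 h1),
          indicator_of_mem (show p.1 ∈ Ioi (1 : ℝ) from h1)]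
      rw [hgv]
      calc p.1 ^ (ρ + (r : ℝ) / 2 - 1) * ‖FT F Θ γ p.1 p.2‖
          ≤ p.1 ^ (ρ + (r : ℝ) / 2 - 1) * (C₂ * p.1 ^ (-(ρ + 1 + (r : ℝ) / 2))) := by
            gcongr
            exact hC₂ p.1 hp1' p.2 hp2
        _ = C₂ * (p.1 ^ (ρ + (r : ℝ) / 2 - 1) * p.1 ^ (-(ρ + 1 + (r : ℝ) / 2))) := by ring
        _ = _ := by
            rw [← Real.rpow_add hp1']
            congr 2
            ring

theorem inner_mellin (h : 0 < r ∨ ω ≠ 1) (F : ℍ → ℂ) (γ : SL(2, ℤ)) {s : ℂ}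
    (hs : 1 + (r : ℝ) / 2 < s.re) (z : ℍ) :
    ∫ u in Ioi (0 : ℝ), (u : ℂ) ^ (s - 1) * FT F (Th N ω r) γ u z =
      (Real.pi : ℂ) ^ (-s) * Complex.Gamma s * (F (γ • z) * Er N ω r (γ • z) s) := by
  have h := (Th_mellin ω r h hs (γ • z)).2
  unfold mellin at h
  simp only [smul_eq_mul] at h
  calc ∫ u in Ioi (0 : ℝ), (u : ℂ) ^ (s - 1) * FT F (Th N ω r) γ u z
      = ∫ u in Ioi (0 : ℝ), F (γ • z) * ((u : ℂ) ^ (s - 1) * Th N ω r u (γ • z)) := by
        congr 1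
        ext u
        unfold FT
        ring
    _ = _ := by rw [integral_const_mul, h]; ring

theorem Hg_mellin (h : 0 < r ∨ ω ≠ 1) (hF : RSFun N ω r F) (γ : SL(2, ℤ)) {s : ℂ}
    (hs : 1 + (r : ℝ) / 2 < s.re) :
    (∫ u in Ioi (0 : ℝ), (u : ℂ) ^ (s - 1) * Hg F (Th N ω r) γ u) =
      (Real.pi : ℂ) ^ (-s) * Complex.Gamma s *
        ∫ z in 𝒟, F (γ • z) * Er N ω r (γ • z) s := by
  have h2 := integral_integral_swap
    (f := fun (u : ℝ) (z : ℍ) => (u : ℂ) ^ (s - 1) * FT F (Th N ω r) γ u z)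
    (integrable_prod hF (like_Th h) γ hs)
  calc (∫ u in Ioi (0 : ℝ), (u : ℂ) ^ (s - 1) * Hg F (Th N ω r) γ u)
      = ∫ u in Ioi (0 : ℝ), ∫ z in 𝒟, (u : ℂ) ^ (s - 1) * FT F (Th N ω r) γ u z := by
        congr 1
        ext u
        rw [Hg, integral_const_mul]
    _ = ∫ z in 𝒟, ∫ u in Ioi (0 : ℝ), (u : ℂ) ^ (s - 1) * FT F (Th N ω r) γ u z := h2
    _ = _ := by
        rw [← integral_const_mul]
        congr 1
        ext z
        exact inner_mellin h F γ hs z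

theorem Hg_top (hF : RSFun N ω r F) {Θ : ℝ → ℍ → ℂ} (hΘ : Like r Θ) [Fintype (SL(2, ℤ) ⧸ Gamma0 N)]
    (g : (SL(2, ℤ) ⧸ Gamma0 N) → SL(2, ℤ)) (R : ℝ) :
    (fun u => ∑ q, Hg F Θ (g q) u) =O[Filter.atTop] (fun u : ℝ => u ^ R) := by
  set σ : ℝ := max 2 (-R) with hσ
  have hσ1 : 1 < σ := lt_of_lt_of_le (by norm_num) (le_max_left _ _)
  have hr : (0 : ℝ) ≤ (r : ℝ) / 2 := by positivity
  have hσ2 : -(σ + (r : ℝ) / 2) ≤ R := by have := le_max_right 2 (-R); linarith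
  choose C hC using fun q => Hg_bound hF hΘ (g q) hσ1
  refine Asymptotics.IsBigO.of_bound (∑ q, |C q|) ?_
  filter_upwards [Filter.eventually_ge_atTop (1 : ℝ)] with u hu
  have hu0 : 0 < u := by linarith
  rw [Real.norm_of_nonneg (Real.rpow_nonneg hu0.le _), Finset.sum_mul]
  refine (norm_sum_le _ _).trans (Finset.sum_le_sum fun q _ => ?_)
  calc ‖Hg F Θ (g q) u‖ ≤ C q * u ^ (-(σ + (r : ℝ) / 2)) := hC q u hu0
    _ ≤ |C q| * u ^ (-(σ + (r : ℝ) / 2)) := by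
      gcongr
      exact le_abs_self _
    _ ≤ |C q| * u ^ R := by
      gcongr

end Ct

open Ct

theorem continuation {N : ℕ} [NeZero N] {ω : DirichletCharacter ℂ N} {r : ℕ} (h : 0 < r ∨ ω ≠ 1)
    {F : ℍ → ℂ} (hF : RSFun N ω r F) :
    ∃ Λ : ℂ → ℂ, Differentiable ℂ Λ ∧ ∀ s : ℂ, 1 + (r : ℝ) / 2 < s.re →
      (Real.pi : ℂ) ^ (-s) * Complex.Gamma s * Mo.avg N (fun w => F w * Er N ω r w s) = Λ s := by
  classical
  have : Finite (SL(2, ℤ) ⧸ Gamma0 N) := Subgroup.finite_quotient_of_finiteIndex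
  let _ : Fintype (SL(2, ℤ) ⧸ Gamma0 N) := Fintype.ofFinite _
  set g : (SL(2, ℤ) ⧸ Gamma0 N) → SL(2, ℤ) := fun q => (Quotient.out q)⁻¹ with hg
  have hint : ∀ {Θ : ℝ → ℍ → ℂ}, Like r Θ →
      LocallyIntegrableOn (fun u => ∑ q, Hg F Θ (g q) u) (Ioi 0) := fun hΘ =>
    (continuousOn_finsetSum _ fun q _ => Hg_continuousOn hF hΘ (g q)).locallyIntegrableOn
      measurableSet_Ioi
  let P : WeakFEPair ℂ :=
    { f := fun u => ∑ q, Hg F (Th N ω r) (g q) u
      g := fun u => ∑ q, Hg F (Thd N ω r) (g q) u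
      k := r + 1, ε := 1, f₀ := 0, g₀ := 0
      hf_int := hint (like_Th h), hg_int := hint (like_Thd h)
      hk := by positivity
      hε := one_ne_zero
      h_feq := by
        intro u hu
        have hu' : (0 : ℝ) < u := hu
        rw [smul_eq_mul, Finset.mul_sum]
        refine Finset.sum_congr rfl fun q _ => ?_
        unfold Hg
        rw [← integral_const_mul]
        congr 1
        ext z
        unfold FT
        rw [Th_inv ω r hu']
        have e : ((u ^ ((r : ℝ) + 1) : ℝ) : ℂ) = (u : ℂ) ^ (r + 1) := by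
          rw [← Complex.ofReal_pow]
          congr 1
          rw [← Real.rpow_natCast]
          push_cast
          rfl
        rw [e]
        ring
      hf_top := fun R => by simpa using Hg_top hF (like_Th h) g R
      hg_top := fun R => by simpa using Hg_top hF (like_Thd h) g R }
  have hP : IsStrongFEPair P := ⟨rfl, rfl⟩
  refine ⟨P.Λ, hP.differentiable_Λ, fun s hs => ?_⟩
  have hm := (hP.hasMellin s).2
  rw [← hm]
  show _ = mellin (fun u => ∑ q, Hg F (Th N ω r) (g q) u) s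
  unfold mellin
  have e2 : (∫ t : ℝ in Ioi 0, (t : ℂ) ^ (s - 1) • ∑ q, Hg F (Th N ω r) (g q) t) =
      ∫ t : ℝ in Ioi 0, ∑ q, (t : ℂ) ^ (s - 1) * Hg F (Th N ω r) (g q) t := by
    refine setIntegral_congr_fun measurableSet_Ioi fun t ht => ?_
    simp only [smul_eq_mul]
    rw [Finset.mul_sum]
  rw [e2, integral_finsetSum]
  · rw [Mo.Ct.avg_eq_sum, Finset.mul_sum]
    exact Finset.sum_congr rfl fun q _ => (Hg_mellin h hF (g q) hs).symm
  · intro q _
    have h := (integrable_prod hF (like_Th h) (g q) hs).integral_prod_left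
    refine h.congr (Filter.Eventually.of_forall fun u => ?_)
    simp only
    rw [Hg, integral_const_mul]

end Pool.Agent.Work.MP_2b9663_nt.Nf
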