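import Pool.Agent.Work.MP_2b9663_nt.Mo.Defs

set_option autoImplicit false

/-! Rankin-Selberg for eigenforms of any weight and character: definitions. -/

namespace Pool.Agent.Work.MP_2b9663_nt.Nf

open UpperHalfPlane ModularGroup MeasureTheory CongruenceSubgroup
open scoped MatrixGroups Modular

/-- the lattice point `m z + n` -/
noncomputable def lv (z : ℍ) (v : ℤ × ℤ) : ℂ := v.1 * (z : ℂ) + v.2

/-- Functions which transform under `Γ₀(N)` with the factor `ω(d) (c z + d) ^ r` and decay at all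
cusps. -/
structure RSFun (N : ℕ) (ω : DirichletCharacter ℂ N) (r : ℕ) (F : ℍ → ℂ) : Prop where
  inv : ∀ γ : SL(2, ℤ), γ ∈ Gamma0 N → ∀ z : ℍ,
    F (γ • z) = ω ((γ 1 1 : ℤ) : ZMod N) * denom γ z ^ r * F z
  cont : Continuous F
  decay : ∀ γ : SL(2, ℤ), ∃ C a : ℝ, 0 < a ∧ ∀ z : ℍ, 1 / 2 ≤ z.im →
    ‖F (γ • z)‖ * (γ • z).im ^ ((r : ℝ) / 2) ≤ C * Real.exp (-(a * z.im))

/-- the Eisenstein series over all the lattice vectors `(m, n)` with `N ∣ m` -/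
noncomputable def Er (N : ℕ) (ω : DirichletCharacter ℂ N) (r : ℕ) (z : ℍ) (s : ℂ) : ℂ :=
  ∑' v : ℤ × ℤ, if (N : ℤ) ∣ v.1 then
    ω ((v.2 : ℤ) : ZMod N) * lv z v ^ r * (Mo.qf z.re z.im v : ℂ) ^ (-s) else 0

/-- the same over the primitive vectors -/
noncomputable def Ep (N : ℕ) (ω : DirichletCharacter ℂ N) (r : ℕ) (z : ℍ) (s : ℂ) : ℂ :=
  ∑' v : ℤ × ℤ, if IsCoprime v.1 v.2 ∧ (N : ℤ) ∣ v.1 then
    ω ((v.2 : ℤ) : ZMod N) * lv z v ^ r * (Mo.qf z.re z.im v : ℂ) ^ (-s) else 0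

/-- the theta series -/
noncomputable def Th (N : ℕ) (ω : DirichletCharacter ℂ N) (r : ℕ) (t : ℝ) (z : ℍ) : ℂ :=
  ∑' v : ℤ × ℤ, if (N : ℤ) ∣ v.1 then
    ω ((v.2 : ℤ) : ZMod N) * lv z v ^ r * (Real.exp (-(Real.pi * t * Mo.qf z.re z.im v)) : ℂ) else 0

/-- the finite Fourier transform of `ω` -/
noncomputable def tau (N : ℕ) [NeZero N] (ω : DirichletCharacter ℂ N) (m : ℤ) : ℂ :=
  ∑ ρ : ZMod N, ω ρ * ZMod.stdAddChar (-((m : ZMod N) * ρ))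

/-- the dual theta series -/
noncomputable def Thd (N : ℕ) [NeZero N] (ω : DirichletCharacter ℂ N) (r : ℕ) (t : ℝ) (z : ℍ) : ℂ :=
  (N : ℂ) ^ (-((r : ℤ) + 2)) * ∑' v : ℤ × ℤ,
    tau N ω v.1 * lv z v ^ r * (Real.exp (-(Real.pi * t * Mo.qf z.re z.im v / (N : ℝ) ^ 2)) : ℂ)

/-- `a` is the sequence of the coefficients of a cusp form of weight `k`, level `N` and character
`χ` which is a normalised eigenform of all Hecke operators `T_p` (and `U_p` for `p ∣ N`), with the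
bounds of Deligne for the roots of the Hecke polynomials. -/
structure IsEigenform (k N : ℕ) (χ : DirichletCharacter ℂ N) (a : ℕ → ℂ) : Prop where
  cusp : ∃ f : CuspForm (Gamma1 N : Subgroup (GL (Fin 2) ℝ)) (k : ℤ),
    (∀ γ : SL(2, ℤ), γ ∈ Gamma0 N → ∀ z : ℍ,
      f (γ • z) = χ ((γ 1 1 : ℤ) : ZMod N) * denom γ z ^ k * f z) ∧
    ∀ z : ℍ, HasSum (fun n : ℕ => a n * Complex.exp (2 * Real.pi * Complex.I * n * z)) (f z)
  zero : a 0 = 0
  one : a 1 = 1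
  mul : ∀ m n : ℕ, m.Coprime n → a (m * n) = a m * a n
  hecke : ∀ p r : ℕ, p.Prime → a (p ^ (r + 2)) = a p * a (p ^ (r + 1)) -
    χ ((p : ℕ) : ZMod N) * (p : ℂ) ^ (k - 1) * a (p ^ r)
  bound : ∀ p : ℕ, p.Prime → ∀ z : ℂ,
    z ^ 2 - a p * z + χ ((p : ℕ) : ZMod N) * (p : ℂ) ^ (k - 1) = 0 →
      ‖z‖ ≤ (p : ℝ) ^ (((k : ℝ) - 1) / 2)

/-- The trace of the `r`-th power of the Frobenius element at `p` on the Galois representation of
the eigenform: `α_p ^ r + β_p ^ r`, if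
`1 - a_p X + χ(p) p ^ (k - 1) X ^ 2 = (1 - α_p X) (1 - β_p X)` (`r ≥ 1`). -/
noncomputable def mtr (k N : ℕ) (χ : DirichletCharacter ℂ N) (a : ℕ → ℂ) (p r : ℕ) : ℂ :=
  a (p ^ r) - if 2 ≤ r then χ ((p : ℕ) : ZMod N) * (p : ℂ) ^ (k - 1) * a (p ^ (r - 2)) else 0

/-- The same, normalised to be unitary. -/
noncomputable def ntr (k N : ℕ) (χ : DirichletCharacter ℂ N) (a : ℕ → ℂ) (p r : ℕ) : ℂ :=
  mtr k N χ a p r / ((p : ℝ) ^ ((r : ℝ) * ((k : ℝ) - 1) / 2) : ℝ)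

/-- The normalised coefficients. -/
noncomputable def lam (k : ℕ) (a : ℕ → ℂ) (n : ℕ) : ℂ := a n / ((n : ℝ) ^ (((k : ℝ) - 1) / 2) : ℝ)

/-- The Euler factor at `p` of the logarithm of the Rankin-Selberg `L`-function. -/
noncomputable def locE (k l N M : ℕ) (χ : DirichletCharacter ℂ N) (ψ : DirichletCharacter ℂ M)
    (a b : ℕ → ℂ) (s : ℂ) (p : ℕ) : ℂ :=
  ∑' r : ℕ, starRingEnd ℂ (ntr k N χ a p (r + 1)) * ntr l M ψ b p (r + 1) *
    (p : ℂ) ^ (-(((r : ℂ) + 1) * s)) / (r + 1)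

/-- the character `χ⁻¹ ψ` of common level -/
noncomputable def quo {N M : ℕ} (χ : DirichletCharacter ℂ N) (ψ : DirichletCharacter ℂ M) :
    DirichletCharacter ℂ (N.lcm M) :=
  (DirichletCharacter.changeLevel (Nat.dvd_lcm_left N M) χ)⁻¹ *
    DirichletCharacter.changeLevel (Nat.dvd_lcm_right N M) ψ

end Pool.Agent.Work.MP_2b9663_nt.Nf
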