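import Pool.Agent.Work.MP_2b9663_nt.Nf.DefsT

set_option autoImplicit false

/-!
Twists of eigenforms by Dirichlet characters: definitions.
-/

namespace Pool.Agent.Work.MP_2b9663_nt

open NumberField IsDedekindDomain

/-- The twist of the eigenform `f` by the Dirichlet character `χ` and the twist of the eigenform `g`
by `ψ` are different: they have different weights, or their coefficients at some prime not dividing
the levels are different. -/
def DifferTwist {M : ℕ} (f g : Eigenform) (χ ψ : DirichletCharacter ℂ M) : Prop :=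
  f.weight ≠ g.weight ∨ ∃ p : ℕ, p.Prime ∧ ¬ p ∣ f.level ∧ ¬ p ∣ g.level ∧ ¬ p ∣ M ∧
    χ ((p : ℕ) : ZMod M) * f.coeff p ≠ ψ ((p : ℕ) : ZMod M) * g.coeff p

/-- The system `u` of traces on a representation `U` at the primes `v` of `L` does not change if it is
twisted by the Dirichlet characters in `X`. This holds if `X` is trivial, or if all the characters in
`X` are `1` on the norms of the primes of `L`: for instance, if they are characters of the Galois group
of an abelian extension of `ℚ` in `L`. -/
def SelfTwists {L : Type} [Field L] [NumberField L] (u : HeightOneSpectrum (𝓞 L) → ℕ → ℂ) {M : ℕ}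
    (X : Subgroup (DirichletCharacter ℂ M)) : Prop :=
  ∃ T : Finset (HeightOneSpectrum (𝓞 L)), ∀ v, v ∉ T → ∀ χ ∈ X,
    χ ((Ideal.absNorm v.asIdeal : ℕ) : ZMod M) * u v 1 = u v 1

/-- For all `j` with `θ j ≠ 0`, no two of the twists of the eigenforms `f a j r` by the characters in
`X j` are equal. -/
def DistinctTwists {ι κ' : Type} {z M : κ' → ℕ} (X : ∀ j, Subgroup (DirichletCharacter ℂ (M j)))
    (θ : κ' → ℝ) (f : ι → ∀ j, Fin (z j) → Eigenform) : Prop :=
  ∀ j, θ j ≠ 0 → ∀ (a a' : ι) (r r' : Fin (z j)), ∀ χ ∈ X j, ∀ χ' ∈ X j, (a, r, χ) ≠ (a', r', χ') →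
    DifferTwist (f a j r) (f a' j r') χ χ'

end Pool.Agent.Work.MP_2b9663_nt
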