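import Pool.Agent.Work.MP_2b9663_nt.Nf.DefsX

set_option autoImplicit false

/-!
Upper bounds in the mean square for families of orders.
-/

namespace Pool.Agent.Work.MP_2b9663_nt

/-- The orders `m a` are at most `-c` up to an error bounded by `D` in the mean square: the sum of the
squares of the positive parts of the `m a + c` over any finite set of indices is at most `D ^ 2`. So, if
`c > -1`, then `m a > 0` for at most `(D / (1 + c)) ^ 2` of the indices `a`. -/
def NearlyAtMost {ι : Type} (m : ι → ℤ) (c D : ℝ) : Prop :=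
  (∀ s : Finset ι, ∑ a ∈ s, (max ((m a : ℝ) + c) 0) ^ 2 ≤ D ^ 2) ∧
    (-1 < c → {a | 0 < m a}.encard ≤ (⌊(D / (1 + c)) ^ 2⌋₊ : ℕ))

end Pool.Agent.Work.MP_2b9663_nt
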