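import Pool.Agent.Work.MP_2b9663_nt.Mo.Euler
import Pool.Agent.Work.MP_2b9663_nt.Nf.Defs

set_option autoImplicit false

/-! The Euler product of the Rankin-Selberg series, complex coefficients, characters. -/

namespace Pool.Agent.Work.MP_2b9663_nt.Nf

open Complex
open Pool.Agent.Work.MP_2b9663_nt.Mo (hh hh_zero hh_succ hh_rec hh_trace norm_hh_le hh_unique
  hh_gen norm_Xp_lt local_bound summable_of_mult exp_geom)

/-- A multiplicative function `f` with Satake parameters `α_p, β_p` of absolute value at most `1`,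
power sums `t p r = α_p ^ r + β_p ^ r` (`r ≥ 1`) and products `w p = α_p β_p`. -/
structure HasSatake (f : ℕ → ℂ) (t : ℕ → ℕ → ℂ) (w : ℕ → ℂ) : Prop where
  zero : f 0 = 0
  one : f 1 = 1
  mul : ∀ m n : ℕ, m.Coprime n → f (m * n) = f m * f n
  roots : ∀ p : ℕ, p.Prime → ∃ α β : ℂ, ‖α‖ ≤ 1 ∧ ‖β‖ ≤ 1 ∧ α * β = w p ∧
    (∀ e, f (p ^ e) = hh α β e) ∧ ∀ r, 1 ≤ r → t p r = α ^ r + β ^ r

lemma conj_hh (α β : ℂ) (e : ℕ) :
    (starRingEnd ℂ) (hh α β e) = hh ((starRingEnd ℂ) α) ((starRingEnd ℂ) β) e := by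
  induction e with
  | zero => simp [hh_zero]
  | succ e ih => rw [hh_succ, hh_succ, map_add, map_mul, map_pow, ih]

theorem HasSatake.conj {f : ℕ → ℂ} {t : ℕ → ℕ → ℂ} {w : ℕ → ℂ} (h : HasSatake f t w) :
    HasSatake (fun n => (starRingEnd ℂ) (f n)) (fun p r => (starRingEnd ℂ) (t p r))
      (fun p => (starRingEnd ℂ) (w p)) := by
  refine ⟨by simp [h.zero], by simp [h.one], fun m n hmn => by rw [h.mul m n hmn, map_mul], ?_⟩
  intro p hp
  obtain ⟨α, β, hα, hβ, h1, h2, h3⟩ := h.roots p hp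
  refine ⟨(starRingEnd ℂ) α, (starRingEnd ℂ) β, by rwa [RCLike.norm_conj],
    by rwa [RCLike.norm_conj], by rw [← h1, map_mul], fun e => by rw [h2, conj_hh], fun r hr => ?_⟩
  rw [h3 r hr, map_add, map_pow, map_pow]

section

variable {f g : ℕ → ℂ} {t u : ℕ → ℕ → ℂ} {w v : ℕ → ℂ}

theorem HasSatake.norm_pow_le (h : HasSatake f t w) {p : ℕ} (hp : p.Prime) (e : ℕ) :
    ‖f (p ^ e)‖ ≤ e + 1 := by
  obtain ⟨α, β, hα, hβ, -, h1, -⟩ := h.roots p hp
  rw [h1]
  exact norm_hh_le hα hβ e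

theorem HasSatake.norm_t_le (h : HasSatake f t w) {p r : ℕ} (hp : p.Prime) (hr : 1 ≤ r) :
    ‖t p r‖ ≤ 2 := by
  obtain ⟨α, β, hα, hβ, -, -, h1⟩ := h.roots p hp
  rw [h1 r hr]
  refine (norm_add_le _ _).trans ?_
  rw [norm_pow, norm_pow]
  have h2 := pow_le_one₀ (n := r) (norm_nonneg α) hα
  have h3 := pow_le_one₀ (n := r) (norm_nonneg β) hβ
  linarith

/-- the terms of the series -/
noncomputable def ccC (f g : ℕ → ℂ) (s : ℂ) (n : ℕ) : ℂ := f n * g n * (n : ℂ) ^ (-s)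

lemma natpow_cpow (s : ℂ) (p e : ℕ) : ((p ^ e : ℕ) : ℂ) ^ s = ((p : ℂ) ^ s) ^ e := by
  induction e with
  | zero => simp
  | succ e ih =>
    rw [pow_succ, Nat.cast_mul, Complex.natCast_mul_natCast_cpow, ih, pow_succ]

lemma ccC_pow (s : ℂ) (p e : ℕ) :
    ccC f g s (p ^ e) = f (p ^ e) * g (p ^ e) * ((p : ℂ) ^ (-s)) ^ e := by
  rw [ccC, natpow_cpow]

lemma ccC_mul (hf : HasSatake f t w) (hg : HasSatake g u v) (s : ℂ) {m n : ℕ}
    (h : m.Coprime n) : ccC f g s (m * n) = ccC f g s m * ccC f g s n := by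
  unfold ccC
  rw [hf.mul m n h, hg.mul m n h, Nat.cast_mul, Complex.natCast_mul_natCast_cpow]
  ring

lemma norm_ccC_pow_le (hf : HasSatake f t w) (hg : HasSatake g u v) (s : ℂ) {p : ℕ} (hp : p.Prime)
    (e : ℕ) : ‖ccC f g s (p ^ e)‖ ≤ ((e : ℝ) + 1) ^ 2 * ‖(p : ℂ) ^ (-s)‖ ^ e := by
  rw [ccC_pow, norm_mul, norm_mul, norm_pow, sq]
  refine mul_le_mul_of_nonneg_right ?_ (by positivity)
  exact mul_le_mul (hf.norm_pow_le hp e) (hg.norm_pow_le hp e) (norm_nonneg _) (by positivity)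

/-- Absolute convergence of the Rankin-Selberg series. -/
theorem ccC_summable (hf : HasSatake f t w) (hg : HasSatake g u v) {s : ℂ} (hs : 1 < s.re) :
    Summable fun n => ‖ccC f g s n‖ := by
  set C : ℝ := ∑' e : ℕ, ((e : ℝ) + 2) ^ 2 * (1 / 2) ^ e with hC
  have hsucc : ∀ p : Nat.Primes, (Summable fun e => ‖ccC f g s ((p : ℕ) ^ (e + 1))‖) ∧
      ∑' e, ‖ccC f g s ((p : ℕ) ^ (e + 1))‖ ≤ C * ((p : ℕ) : ℝ) ^ (-s.re) := by
    intro p
    obtain ⟨h1, h2⟩ := norm_Xp_lt hs p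
    obtain ⟨h3, h4⟩ := local_bound (norm_nonneg (((p : ℕ) : ℂ) ^ (-s))) h2.le
    have hle : ∀ e : ℕ, ‖ccC f g s ((p : ℕ) ^ (e + 1))‖ ≤
        ((e : ℝ) + 2) ^ 2 * ‖((p : ℕ) : ℂ) ^ (-s)‖ ^ (e + 1) := by
      intro e
      refine (norm_ccC_pow_le hf hg s p.2 (e + 1)).trans (le_of_eq ?_)
      push_cast
      ring
    have h5 : Summable fun e => ‖ccC f g s ((p : ℕ) ^ (e + 1))‖ :=
      Summable.of_nonneg_of_le (fun _ => norm_nonneg _) hle h3
    refine ⟨h5, (h5.tsum_le_tsum hle h3).trans (h4.trans (le_of_eq ?_))⟩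
    rw [h1]
  refine summable_of_mult (fun _ => norm_nonneg _) (by simp [ccC, hf.zero])
    (by simp [ccC, hf.one, hg.one]) (fun {m n} h => by rw [ccC_mul hf hg s h, norm_mul]) ?_ ?_
  · intro p hp
    exact (summable_nat_add_iff 1).1 (hsucc ⟨p, hp⟩).1
  · refine Summable.of_nonneg_of_le (fun p => tsum_nonneg fun _ => norm_nonneg _)
      (fun p => (hsucc p).2) ?_
    exact (Nat.Primes.summable_rpow.2 (by linarith)).mul_left C

/-- The sum over the prime powers in the logarithm of the Rankin-Selberg series. -/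
noncomputable def locC (t u : ℕ → ℕ → ℂ) (s : ℂ) (p : ℕ) : ℂ :=
  ∑' r : ℕ, t p (r + 1) * u p (r + 1) * (p : ℂ) ^ (-(((r : ℂ) + 1) * s)) / (r + 1)

/-- the local factor of the character series -/
lemma omega_pow {ω : ℕ → ℂ} {p : ℕ} (hω : ∀ e, ω (p ^ e) = (w p * v p) ^ e) (s : ℂ) (e : ℕ) :
    ω (p ^ e) * ((p ^ e : ℕ) : ℂ) ^ (-(2 * s)) = (w p * v p * ((p : ℂ) ^ (-s)) ^ 2) ^ e := by
  rw [natpow_cpow, hω, ← mul_pow]
  congr 2
  rw [← Complex.cpow_nat_mul]
  congr 1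
  push_cast
  ring

/-- The local identity. -/
lemma local_identityC (hf : HasSatake f t w) (hg : HasSatake g u v) {ω : ℕ → ℂ}
    (hω : ∀ p e : ℕ, p.Prime → ω (p ^ e) = (w p * v p) ^ e) {s : ℂ} (hs : 1 < s.re)
    (p : Nat.Primes) :
    (∑' e, ω ((p : ℕ) ^ e) * (((p : ℕ) ^ e : ℕ) : ℂ) ^ (-(2 * s))) *
      ∑' e, ccC f g s ((p : ℕ) ^ e) = Complex.exp (locC t u s p) := by
  obtain ⟨α, β, hα, hβ, hαβ, h1, h2⟩ := hf.roots p p.2
  obtain ⟨γ, δ, hγ, hδ, hγδ, h3, h4⟩ := hg.roots p p.2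
  set X : ℂ := ((p : ℕ) : ℂ) ^ (-s) with hXdef
  have hX := (norm_Xp_lt hs p).2
  rw [← hXdef] at hX
  have hX1 : ‖X‖ < 1 := by linarith
  obtain ⟨g1, g2⟩ := hh_gen hα hβ hγ hδ hX1
  -- the values of the four products
  have hz : ∀ {a b : ℂ}, ‖a‖ ≤ 1 → ‖b‖ ≤ 1 → ‖a * b * X‖ < 1 := by
    intro a b hu hv
    rw [norm_mul, norm_mul]
    calc ‖a‖ * ‖b‖ * ‖X‖ ≤ 1 * 1 * ‖X‖ := by
          refine mul_le_mul_of_nonneg_right ?_ (norm_nonneg _)
          exact mul_le_mul hu hv (norm_nonneg _) zero_le_one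
      _ < 1 := by simpa using hX1
  have hne : ∀ {a b : ℂ}, ‖a‖ ≤ 1 → ‖b‖ ≤ 1 → 1 - a * b * X ≠ 0 := by
    intro a b hu hv h0
    have h5 : a * b * X = 1 := by linear_combination -h0
    have h6 := hz hu hv
    rw [h5, norm_one] at h6
    exact lt_irrefl _ h6
  have hL : α * β * γ * δ = w p * v p := by
    rw [← hαβ, ← hγδ]
    ring
  -- the zeta factor
  have hc : ‖α * β * γ * δ * X ^ 2‖ < 1 := by
    have h5 : α * β * γ * δ * X ^ 2 = (α * γ * X) * (β * δ * X) := by ring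
    rw [h5, norm_mul]
    have h6 := hz hα hγ
    have h7 := hz hβ hδ
    nlinarith [norm_nonneg (α * γ * X), norm_nonneg (β * δ * X)]
  have hzeta : ∑' e, ω ((p : ℕ) ^ e) * (((p : ℕ) ^ e : ℕ) : ℂ) ^ (-(2 * s)) =
      (1 - α * β * γ * δ * X ^ 2)⁻¹ := by
    rw [← tsum_geometric_of_norm_lt_one hc]
    refine tsum_congr fun e => ?_
    rw [omega_pow (fun e => hω p e p.2), hL]
  have hcc : ∑' e, ccC f g s ((p : ℕ) ^ e) = ∑' e, hh α β e * hh γ δ e * X ^ e := by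
    refine tsum_congr fun e => ?_
    rw [ccC_pow, h1, h3]
  have hE : locC t u s p = -Complex.log (1 - α * γ * X) + -Complex.log (1 - α * δ * X) +
      -Complex.log (1 - β * γ * X) + -Complex.log (1 - β * δ * X) := by
    have hs' := (((exp_geom (hz hα hγ)).1.add (exp_geom (hz hα hδ)).1).add
      (exp_geom (hz hβ hγ)).1).add (exp_geom (hz hβ hδ)).1
    rw [← hs'.tsum_eq, locC]
    refine tsum_congr fun r => ?_
    have h5 : ((p : ℕ) : ℂ) ^ (-(((r : ℂ) + 1) * s)) = X ^ (r + 1) := by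
      rw [hXdef, ← Complex.cpow_nat_mul]
      congr 1
      push_cast
      ring
    rw [h5, h2 (r + 1) (Nat.succ_pos r), h4 (r + 1) (Nat.succ_pos r)]
    ring
  rw [hzeta, hcc, hE, Complex.exp_add, Complex.exp_add, Complex.exp_add, (exp_geom (hz hα hγ)).2,
    (exp_geom (hz hα hδ)).2, (exp_geom (hz hβ hγ)).2, (exp_geom (hz hβ hδ)).2]
  have hq : 1 - α * β * γ * δ * X ^ 2 ≠ 0 := by
    intro h0
    have h5 : α * β * γ * δ * X ^ 2 = 1 := by linear_combination -h0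
    rw [h5, norm_one] at hc
    exact lt_irrefl _ hc
  have e1 := hne hα hγ
  have e2 := hne hα hδ
  have e3 := hne hβ hγ
  have e4 := hne hβ hδ
  rw [inv_mul_eq_iff_eq_mul₀ hq, ← g2]
  have key : ∀ T u v w x : ℂ, u ≠ 0 → v ≠ 0 → w ≠ 0 → x ≠ 0 →
      T = T * (u * v * w * x) * (u⁻¹ * v⁻¹ * w⁻¹ * x⁻¹) := by
    intro T u v w x hu hv hw hx
    field_simp
  exact key _ _ _ _ _ e1 e2 e3 e4

/-- Bound for the local logarithm. -/
lemma norm_locC_le (hf : HasSatake f t w) (hg : HasSatake g u v) {s : ℂ} (hs : 1 < s.re)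
    (p : Nat.Primes) : ‖locC t u s p‖ ≤ 8 * ((p : ℕ) : ℝ) ^ (-s.re) := by
  obtain ⟨h1, h2⟩ := norm_Xp_lt hs p
  set X : ℂ := ((p : ℕ) : ℂ) ^ (-s) with hXdef
  have hterm : ∀ r : ℕ, ‖t p (r + 1) * u p (r + 1) *
      ((p : ℕ) : ℂ) ^ (-(((r : ℂ) + 1) * s)) / (r + 1)‖ ≤ 4 * ‖X‖ * (1 / 2) ^ r := by
    intro r
    have h5 : ((p : ℕ) : ℂ) ^ (-(((r : ℂ) + 1) * s)) = X ^ (r + 1) := by
      rw [hXdef, ← Complex.cpow_nat_mul]
      congr 1
      push_cast
      ring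
    rw [h5, norm_div, norm_mul, norm_pow, norm_mul]
    have h6 : ‖t p (r + 1)‖ * ‖u p (r + 1)‖ ≤ 2 * 2 :=
      mul_le_mul (hf.norm_t_le p.2 (Nat.succ_pos r)) (hg.norm_t_le p.2 (Nat.succ_pos r))
        (norm_nonneg _) (by norm_num)
    have h7 : (1 : ℝ) ≤ ‖((r : ℂ) + 1)‖ := by
      have : ((r : ℂ) + 1) = ((r + 1 : ℕ) : ℂ) := by push_cast; ring
      rw [this, Complex.norm_natCast]
      push_cast
      linarith [Nat.cast_nonneg (α := ℝ) r]
    have h8 : ‖X‖ ^ (r + 1) ≤ ‖X‖ * (1 / 2) ^ r := by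
      rw [pow_succ, mul_comm]
      exact mul_le_mul_of_nonneg_left (pow_le_pow_left₀ (norm_nonneg _) h2.le r) (norm_nonneg _)
    calc ‖t p (r + 1)‖ * ‖u p (r + 1)‖ * ‖X‖ ^ (r + 1) / ‖((r : ℂ) + 1)‖
        ≤ ‖t p (r + 1)‖ * ‖u p (r + 1)‖ * ‖X‖ ^ (r + 1) :=
          div_le_self (by positivity) h7
      _ ≤ 2 * 2 * (‖X‖ * (1 / 2) ^ r) := mul_le_mul h6 h8 (by positivity) (by norm_num)
      _ = 4 * ‖X‖ * (1 / 2) ^ r := by ring
  have hsum : Summable fun r : ℕ => 4 * ‖X‖ * (1 / 2 : ℝ) ^ r :=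
    (summable_geometric_of_lt_one (by norm_num) (by norm_num)).mul_left _
  have h9 := tsum_of_norm_bounded hsum.hasSum hterm
  rw [tsum_mul_left, tsum_geometric_of_lt_one (by norm_num) (by norm_num), h1] at h9
  refine h9.trans (le_of_eq ?_)
  ring

/-- **The Euler product of the Rankin-Selberg series**, general form. -/
theorem euler_satake (hf : HasSatake f t w) (hg : HasSatake g u v) {ω : ℕ → ℂ} (hω1 : ω 1 = 1)
    (hωm : ∀ m n : ℕ, m.Coprime n → ω (m * n) = ω m * ω n) (hωb : ∀ n, ‖ω n‖ ≤ 1)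
    (hω : ∀ p e : ℕ, p.Prime → ω (p ^ e) = (w p * v p) ^ e) {s : ℂ} (hs : 1 < s.re) :
    (∑' e : ℕ, ω e * (e : ℂ) ^ (-(2 * s))) * ∑' n : ℕ, f n * g n * (n : ℂ) ^ (-s) =
      Complex.exp (∑' p : Nat.Primes, locC t u s p) := by
  have h2s : 1 < (2 * s).re := by
    simp only [Complex.mul_re, Complex.re_ofNat, Complex.im_ofNat, zero_mul, sub_zero]
    linarith
  have hsum : Summable fun e : ℕ => ‖ω e * (e : ℂ) ^ (-(2 * s))‖ := by
    have h1 : Summable fun n : ℕ => ‖(n : ℂ) ^ (-(2 * s))‖ := by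
      have h2 := (Complex.summable_one_div_nat_cpow (p := 2 * s)).2 h2s
      refine h2.norm.congr fun n => ?_
      rw [Complex.cpow_neg, one_div]
    refine Summable.of_nonneg_of_le (fun _ => norm_nonneg _) (fun n => ?_) h1
    rw [norm_mul]
    exact mul_le_of_le_one_left (norm_nonneg _) (hωb n)
  have hzero : ω 0 * ((0 : ℕ) : ℂ) ^ (-(2 * s)) = 0 := by
    rw [Nat.cast_zero, Complex.zero_cpow, mul_zero]
    intro h0
    rw [neg_eq_zero] at h0
    rw [h0, Complex.zero_re] at h2s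
    linarith
  have h1 := EulerProduct.eulerProduct_hasProd (f := fun e : ℕ => ω e * (e : ℂ) ^ (-(2 * s)))
    (by simp [hω1]) (fun {m n} h => by
      rw [hωm m n h, Nat.cast_mul, Complex.natCast_mul_natCast_cpow]
      ring) hsum hzero
  have h2 := EulerProduct.eulerProduct_hasProd (f := ccC f g s) (by simp [ccC, hf.one, hg.one])
    (fun {m n} h => ccC_mul hf hg s h) (ccC_summable hf hg hs) (by simp [ccC, hf.zero])
  have h3 := h1.mul h2
  have h4 : Summable fun p : Nat.Primes => locC t u s p := by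
    refine Summable.of_norm_bounded ?_ (fun p => norm_locC_le hf hg hs p)
    exact (Nat.Primes.summable_rpow.2 (by linarith)).mul_left 8
  have h5 := h4.hasSum.cexp
  have h6 : (fun p : Nat.Primes => (∑' e, ω ((p : ℕ) ^ e) * (((p : ℕ) ^ e : ℕ) : ℂ) ^ (-(2 * s))) *
      ∑' e, ccC f g s ((p : ℕ) ^ e)) = cexp ∘ fun p : Nat.Primes => locC t u s p := by
    funext p
    exact local_identityC hf hg hω hs p
  rw [h6] at h3
  exact h3.unique h5

end

/-! ### Eigenforms -/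

section

variable {k l N M : ℕ} {χ : DirichletCharacter ℂ N} {ψ : DirichletCharacter ℂ M} {a b : ℕ → ℂ}

/-- the normalising factor -/
noncomputable def PP (k p : ℕ) : ℝ := (p : ℝ) ^ (((k : ℝ) - 1) / 2)

lemma PP_pos {p : ℕ} (hp : 0 < p) : 0 < PP k p :=
  Real.rpow_pos_of_pos (by exact_mod_cast hp) _

lemma PP_sq (hk : 1 ≤ k) (p : ℕ) : PP k p ^ 2 = (p : ℝ) ^ (k - 1) := by
  have h0 : (0 : ℝ) ≤ p := Nat.cast_nonneg _
  unfold PP
  rw [← Real.rpow_natCast, ← Real.rpow_mul h0, ← Real.rpow_natCast, Nat.cast_sub hk]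
  congr 1
  push_cast
  ring

lemma lam_pow {p : ℕ} (e : ℕ) : lam k a (p ^ e) = a (p ^ e) / (PP k p : ℂ) ^ e := by
  unfold lam PP
  rw [← Complex.ofReal_pow]
  congr 2
  push_cast
  rw [← Real.rpow_natCast, ← Real.rpow_natCast, ← Real.rpow_mul (Nat.cast_nonneg _),
    ← Real.rpow_mul (Nat.cast_nonneg _), mul_comm]

lemma ntr_eq {p : ℕ} (r : ℕ) : ntr k N χ a p r = mtr k N χ a p r / (PP k p : ℂ) ^ r := by
  unfold ntr PP
  rw [← Complex.ofReal_pow]
  congr 2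
  rw [← Real.rpow_natCast, ← Real.rpow_mul (Nat.cast_nonneg _)]
  congr 1
  ring

theorem ntr_one {p : ℕ} : ntr k N χ a p 1 = lam k a p := by
  have h := lam_pow (k := k) (a := a) (p := p) 1
  rw [pow_one] at h
  rw [h, ntr_eq, mtr, if_neg (by norm_num), pow_one, sub_zero]

/-- The Satake parameters. -/
theorem IsEigenform.satake (hk : 1 ≤ k) (ha : IsEigenform k N χ a) :
    HasSatake (lam k a) (ntr k N χ a) (fun p => χ ((p : ℕ) : ZMod N)) := by
  refine ⟨by simp [lam, ha.zero], by simp [lam, ha.one], ?_, ?_⟩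
  · intro m n h
    unfold lam
    rw [ha.mul m n h, Nat.cast_mul, Real.mul_rpow (Nat.cast_nonneg _) (Nat.cast_nonneg _)]
    push_cast
    rw [mul_div_mul_comm]
  · intro p hp
    have hP := PP_pos (k := k) hp.pos
    have hPP := PP_sq hk p
    have hPPc : ((PP k p : ℝ) : ℂ) ^ 2 = (p : ℂ) ^ (k - 1) := by
      rw [← Complex.ofReal_pow, hPP]
      push_cast
      rfl
    have hPc : ((PP k p : ℝ) : ℂ) ≠ 0 := by exact_mod_cast hP.ne'
    have hb := ha.bound p hp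
    set P := PP k p with hPdef
    set c : ℂ := χ ((p : ℕ) : ZMod N) with hc
    obtain ⟨d, hd⟩ : ∃ d : ℂ, d ^ 2 = a p ^ 2 - 4 * (c * (p : ℂ) ^ (k - 1)) := by
      refine ⟨(a p ^ 2 - 4 * (c * (p : ℂ) ^ (k - 1))) ^ (((2 : ℕ) : ℂ)⁻¹), ?_⟩
      exact Complex.cpow_nat_inv_pow _ two_ne_zero
    set z1 : ℂ := (a p + d) / 2 with hz1
    set z2 : ℂ := (a p - d) / 2 with hz2
    have r1 : ‖z1‖ ≤ P := by
      refine hb z1 ?_
      rw [hz1]
      linear_combination (1 / 4 : ℂ) * hd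
    have r2 : ‖z2‖ ≤ P := by
      refine hb z2 ?_
      rw [hz2]
      linear_combination (1 / 4 : ℂ) * hd
    have hsum : z1 / P + z2 / P = a p / P := by
      rw [hz1, hz2]
      field_simp
      ring
    have hprod : z1 / P * (z2 / P) = c := by
      rw [div_mul_div_comm, ← sq, hPPc, div_eq_iff (by rw [← hPPc]; exact pow_ne_zero 2 hPc), hz1, hz2]
      linear_combination (-1 / 4 : ℂ) * hd
    have hnorm : ∀ {z : ℂ}, ‖z‖ ≤ P → ‖z / (P : ℂ)‖ ≤ 1 := by
      intro z hz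
      rw [norm_div, Complex.norm_real, Real.norm_eq_abs, abs_of_pos hP, div_le_one hP]
      exact hz
    have hu : ∀ e, lam k a (p ^ e) = hh (z1 / P) (z2 / P) e := by
      refine hh_unique (x := a p / P) (y := c) hsum hprod ?_ ?_ ?_
      · rw [lam_pow]
        simp [ha.one]
      · rw [lam_pow, ← hPdef, pow_one, pow_one]
      · intro e
        rw [lam_pow, lam_pow, lam_pow, ha.hecke p e hp, ← hPPc, ← hPdef, ← hc]
        field_simp
        ring
    refine ⟨z1 / P, z2 / P, hnorm r1, hnorm r2, hprod, hu, ?_⟩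
    intro r hr
    obtain rfl | hr2 := Nat.eq_or_lt_of_le hr
    · rw [ntr_one, pow_one, pow_one]
      have h1 := hu 1
      rw [pow_one, hh_succ, hh_zero] at h1
      rw [h1]
      ring
    · obtain ⟨e, rfl⟩ := Nat.exists_eq_add_of_le' (show 2 ≤ r by omega)
      have h1 := hh_trace (z1 / P) (z2 / P) e
      rw [hprod, ← hu, ← hu] at h1
      rw [← h1, ntr_eq, mtr, if_pos (by omega), lam_pow, lam_pow, ← hPPc, ← hPdef, ← hc,
        show e + 2 - 2 = e by omega]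
      field_simp
      ring

theorem ntr_norm_le (hk : 1 ≤ k) (ha : IsEigenform k N χ a) {p r : ℕ} (hp : p.Prime)
    (hr : 1 ≤ r) : ‖ntr k N χ a p r‖ ≤ 2 :=
  (ha.satake hk).norm_t_le hp hr

lemma a_eq_lam (n : ℕ) (hn : 0 < n) : a n = lam k a n * ((PP k n : ℝ) : ℂ) := by
  have h : ((PP k n : ℝ) : ℂ) ≠ 0 := by exact_mod_cast (PP_pos (k := k) hn).ne'
  unfold lam
  change a n = a n / ((PP k n : ℝ) : ℂ) * ((PP k n : ℝ) : ℂ)
  rw [div_mul_cancel₀ _ h]

theorem cc_summable (hk : 1 ≤ k) (hl : 1 ≤ l) (ha : IsEigenform k N χ a)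
    (hb : IsEigenform l M ψ b) {σ : ℝ} (hσ : 1 < σ) :
    Summable fun n : ℕ => ‖a n * b n‖ * (n : ℝ) ^ (-(σ + ((k : ℝ) + l) / 2 - 1)) := by
  have h := ccC_summable (ha.satake hk) (hb.satake hl) (s := (σ : ℂ)) (by simpa using hσ)
  refine h.congr fun n => ?_
  rcases Nat.eq_zero_or_pos n with rfl | hn
  · simp [ccC, lam, ha.zero]
  · have hn' : (0 : ℝ) < n := by exact_mod_cast hn
    have h1 := PP_pos (k := k) hn
    have h2 := PP_pos (k := l) hn
    rw [a_eq_lam (k := k) (a := a) n hn, a_eq_lam (k := l) (a := b) n hn, ccC, norm_mul, norm_mul,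
      norm_mul, norm_mul, norm_mul, Complex.norm_natCast_cpow_of_pos hn, Complex.norm_real,
      Complex.norm_real, Real.norm_eq_abs, Real.norm_eq_abs, abs_of_pos h1, abs_of_pos h2]
    have h3 : ((n : ℝ)) ^ (-(σ : ℂ)).re = PP k n * PP l n * (n : ℝ) ^ (-(σ + ((k : ℝ) + l) / 2 - 1)) := by
      unfold PP
      rw [← Real.rpow_add hn', ← Real.rpow_add hn']
      congr 1
      simp
      ring
    rw [h3]
    ring

lemma quo_prime_pow [NeZero N] [NeZero M] (p e : ℕ) (hp : p.Prime) :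
    quo χ ψ (((p ^ e : ℕ) : ℕ) : ZMod (N.lcm M)) =
      ((starRingEnd ℂ) (χ ((p : ℕ) : ZMod N)) * ψ ((p : ℕ) : ZMod M)) ^ e := by
  rw [Nat.cast_pow, map_pow]
  congr 1
  by_cases hN : p ∣ N
  · have h1 : ¬ IsUnit ((p : ℕ) : ZMod N) := by
      rw [ZMod.isUnit_prime_iff_not_dvd hp]
      exact not_not.2 hN
    have h2 : ¬ IsUnit ((p : ℕ) : ZMod (N.lcm M)) := by
      rw [ZMod.isUnit_prime_iff_not_dvd hp]
      exact not_not.2 (hN.trans (Nat.dvd_lcm_left N M))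
    rw [MulChar.map_nonunit _ h1, MulChar.map_nonunit _ h2, map_zero, zero_mul]
  · by_cases hM : p ∣ M
    · have h1 : ¬ IsUnit ((p : ℕ) : ZMod M) := by
        rw [ZMod.isUnit_prime_iff_not_dvd hp]
        exact not_not.2 hM
      have h2 : ¬ IsUnit ((p : ℕ) : ZMod (N.lcm M)) := by
        rw [ZMod.isUnit_prime_iff_not_dvd hp]
        exact not_not.2 (hM.trans (Nat.dvd_lcm_right N M))
      rw [MulChar.map_nonunit _ h1, MulChar.map_nonunit _ h2, mul_zero]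
    · have hL : ¬ p ∣ N.lcm M := by
        intro h6
        rcases (Nat.Prime.dvd_mul hp).1 (h6.trans (Nat.lcm_dvd_mul N M)) with h8 | h8
        · exact hN h8
        · exact hM h8
      have hco : p.Coprime (N.lcm M) := (Nat.Prime.coprime_iff_not_dvd hp).2 hL
      have h1 : ((p : ℕ) : ZMod (N.lcm M)) = ((ZMod.unitOfCoprime p hco : (ZMod (N.lcm M))ˣ) :
          ZMod (N.lcm M)) := (ZMod.coe_unitOfCoprime p hco).symm
      have e1 : DirichletCharacter.changeLevel (Nat.dvd_lcm_left N M) χ ((p : ℕ) : ZMod (N.lcm M)) =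
          χ ((p : ℕ) : ZMod N) := by
        rw [h1, DirichletCharacter.changeLevel_eq_cast_of_dvd, ← h1,
          ZMod.cast_natCast (Nat.dvd_lcm_left N M)]
      have e2 : DirichletCharacter.changeLevel (Nat.dvd_lcm_right N M) ψ ((p : ℕ) : ZMod (N.lcm M)) =
          ψ ((p : ℕ) : ZMod M) := by
        rw [h1, DirichletCharacter.changeLevel_eq_cast_of_dvd, ← h1,
          ZMod.cast_natCast (Nat.dvd_lcm_right N M)]
      rw [quo, MulChar.mul_apply, e2, ← e1, ← MulChar.star_apply']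
      rfl

/-- **The Euler product of the Rankin-Selberg series.** -/
theorem euler_rs [NeZero N] [NeZero M] (hk : 1 ≤ k) (hl : 1 ≤ l)
    (ha : IsEigenform k N χ a) (hb : IsEigenform l M ψ b) {s : ℂ} (hs : 1 < s.re) :
    (∑' e : ℕ, quo χ ψ ((e : ℕ) : ZMod (N.lcm M)) * (e : ℂ) ^ (-(2 * s))) *
      ∑' n : ℕ, starRingEnd ℂ (a n) * b n * (n : ℂ) ^ (-(s + ((k : ℂ) + l) / 2 - 1)) =
      Complex.exp (∑' p : Nat.Primes, locE k l N M χ ψ a b s p) := by
  have h := euler_satake (ha.satake hk).conj (hb.satake hl)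
    (ω := fun e : ℕ => quo χ ψ ((e : ℕ) : ZMod (N.lcm M))) (by simp)
    (fun m n _ => by rw [Nat.cast_mul, map_mul]) (fun n => DirichletCharacter.norm_le_one _ _)
    (fun p e hp => quo_prime_pow p e hp) hs
  have h2 : ∀ n : ℕ, starRingEnd ℂ (a n) * b n * (n : ℂ) ^ (-(s + ((k : ℂ) + l) / 2 - 1)) =
      starRingEnd ℂ (lam k a n) * lam l b n * (n : ℂ) ^ (-s) := by
    intro n
    rcases Nat.eq_zero_or_pos n with rfl | hn
    · simp [lam, ha.zero]
    · have hn' : (n : ℂ) ≠ 0 := by exact_mod_cast hn.ne'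
      have h3 : ∀ j : ℕ, ((PP j n : ℝ) : ℂ) = (n : ℂ) ^ (((j : ℂ) - 1) / 2) := by
        intro j
        unfold PP
        rw [Complex.ofReal_cpow (Nat.cast_nonneg _)]
        push_cast
        rfl
      have h4 : (n : ℂ) ^ (-s) = ((PP k n : ℝ) : ℂ) * ((PP l n : ℝ) : ℂ) *
          (n : ℂ) ^ (-(s + ((k : ℂ) + l) / 2 - 1)) := by
        rw [h3, h3, ← Complex.cpow_add _ _ hn', ← Complex.cpow_add _ _ hn']
        congr 1
        ring
      rw [a_eq_lam (k := k) (a := a) n hn, a_eq_lam (k := l) (a := b) n hn, h4, map_mul,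
        Complex.conj_ofReal]
      ring
  rw [tsum_congr h2]
  exact h

end

end Pool.Agent.Work.MP_2b9663_nt.Nf
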