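import Pool.Agent.Work.MP_2b9663_nt.Nf.Ortho
import Pool.Agent.Work.MP_2b9663_nt.Nf.DefsT

set_option autoImplicit false

/-! The twist of an eigenform by a Dirichlet character. -/

namespace Pool.Agent.Work.MP_2b9663_nt.Nf

open UpperHalfPlane ModularGroup MeasureTheory CongruenceSubgroup Filter Topology
open scoped MatrixGroups Modular ConjAct Pointwise ModularForm

namespace Tw

open Mo.Or (mapGL_coe mem_Gamma0 det_eq mk restr restr_coe σ_pos)
open Nf.Or (mem_Gamma1)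

/-- the translation by `x` -/
noncomputable def tg (x : ℝ) : GL (Fin 2) ℝ :=
  Matrix.GeneralLinearGroup.mkOfDetNeZero !![1, x; 0, 1] (by
    rw [Matrix.det_fin_two_of]
    norm_num)

theorem tg_coe (x : ℝ) : (tg x : Matrix (Fin 2) (Fin 2) ℝ) = !![1, x; 0, 1] := rfl

theorem det_tg (x : ℝ) : (tg x).det.val = 1 := by
  show (tg x : Matrix (Fin 2) (Fin 2) ℝ).det = 1
  rw [tg_coe, Matrix.det_fin_two_of]
  ring

theorem det_tg_pos (x : ℝ) : 0 < (tg x).det.val := by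
  rw [det_tg]
  norm_num

theorem tg_smul (x : ℝ) (z : ℍ) : ((tg x • z : ℍ) : ℂ) = z + x := by
  rw [coe_smul_of_det_pos (det_tg_pos x)]
  simp [num, denom, tg_coe]

variable {N M : ℕ}

/-- the matrix `s'` with `tg (u / M) * s = s' * tg (u' / M)` -/
theorem key (hM : M ≠ 0) {s : SL(2, ℤ)} {C u u' e : ℤ} (hC : s 1 0 = N * (M : ℤ) ^ 2 * C)
    (he : u * s 1 1 - s 0 0 * u' = M * e) :
    ∃ h : (s 0 0 + u * N * M * C) * (s 1 1 - u' * N * M * C) -
      (s 0 1 + e - u * u' * N * C) * (N * (M : ℤ) ^ 2 * C) = 1,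
      tg (u / M) * Matrix.SpecialLinearGroup.mapGL ℝ s =
        Matrix.SpecialLinearGroup.mapGL ℝ (mk (s 0 0 + u * N * M * C)
          (s 0 1 + e - u * u' * N * C) (N * (M : ℤ) ^ 2 * C) (s 1 1 - u' * N * M * C) h) *
        tg (u' / M) := by
  have hdet := det_eq s
  rw [hC] at hdet
  have h : (s 0 0 + u * N * M * C) * (s 1 1 - u' * N * M * C) -
      (s 0 1 + e - u * u' * N * C) * (N * (M : ℤ) ^ 2 * C) = 1 := by
    linear_combination hdet + (N * M * C) * he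
  refine ⟨h, ?_⟩
  have hMr : (M : ℝ) ≠ 0 := by exact_mod_cast hM
  have her : (u : ℝ) * s 1 1 - s 0 0 * u' = M * e := by exact_mod_cast he
  have hCr : ((s 1 0 : ℤ) : ℝ) = N * (M : ℝ) ^ 2 * C := by rw [hC]; push_cast; ring
  apply Units.ext
  rw [Units.val_mul, Units.val_mul, tg_coe, tg_coe, Mo.Or.mk_coe, mapGL_coe, Matrix.mul_fin_two,
    Matrix.mul_fin_two, hCr]
  push_cast
  congr 1
  ext i j
  fin_cases i <;> fin_cases j <;> simp only [Matrix.cons_val', Matrix.cons_val_zero,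
    Matrix.cons_val_one, Fin.zero_eta, Fin.mk_one, Fin.isValue, Matrix.cons_val_fin_one]
  · field_simp
    ring
  · field_simp
    linear_combination her
  · ring
  · field_simp
    ring

theorem le_tg (hM : M ≠ 0) (u : ℤ) :
    (Gamma1 (N * M ^ 2) : Subgroup (GL (Fin 2) ℝ)) ≤
      ConjAct.toConjAct (tg (u / M))⁻¹ • (Gamma1 N : Subgroup (GL (Fin 2) ℝ)) := by
  rintro _ ⟨s, hs, rfl⟩
  rw [Subgroup.mem_pointwise_smul_iff_inv_smul_mem, ← ConjAct.toConjAct_inv, inv_inv,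
    ConjAct.toConjAct_smul]
  have hs' : s ∈ Gamma1 (N * M ^ 2) := hs
  rw [mem_Gamma1] at hs'
  obtain ⟨⟨A, hA⟩, ⟨D, hD⟩, C, hC⟩ := hs'
  push_cast at hA hD hC
  obtain ⟨h, h2⟩ := key (N := N) (M := M) (u := u) (u' := u) (e := u * N * M * (D - A)) hM hC (by
    linear_combination u * hD - u * hA)
  refine ⟨_, ?_, (eq_mul_inv_iff_mul_eq.2 h2.symm)⟩
  show _ ∈ Gamma1 N
  rw [mem_Gamma1]
  refine ⟨⟨M ^ 2 * A + u * M * C, ?_⟩, ⟨M ^ 2 * D - u * M * C, ?_⟩, ⟨M ^ 2 * C, ?_⟩⟩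
  · show s 0 0 + u * N * M * C - 1 = _
    linear_combination hA
  · show s 1 1 - u * N * M * C - 1 = _
    linear_combination hD
  · show N * (M : ℤ) ^ 2 * C = _
    ring

variable {k : ℤ}

/-- `f(z + u / M)` -/
noncomputable def sh (hM : M ≠ 0) (u : ℤ) (f : CuspForm (Gamma1 N : Subgroup (GL (Fin 2) ℝ)) k) :
    CuspForm (Gamma1 (N * M ^ 2) : Subgroup (GL (Fin 2) ℝ)) k :=
  restr (le_tg hM u) (CuspForm.translate f (tg (u / M)))

theorem sh_apply (hM : M ≠ 0) (u : ℤ) (f : CuspForm (Gamma1 N : Subgroup (GL (Fin 2) ℝ)) k)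
    (z : ℍ) : sh hM u f z = f (tg (u / M) • z) := by
  show ((f : ℍ → ℂ) ∣[k] tg (u / M)) z = _
  rw [ModularForm.slash_apply, σ_pos (det_tg_pos _), det_tg]
  simp [denom, tg_coe]

/-- the sum of the translates -/
noncomputable def tw [NeZero M] (c : ZMod M → ℂ) (f : CuspForm (Gamma1 N : Subgroup (GL (Fin 2) ℝ)) k) :
    CuspForm (Gamma1 (N * M ^ 2) : Subgroup (GL (Fin 2) ℝ)) k :=
  ∑ ρ : ZMod M, c ρ • sh (NeZero.ne M) (ρ.val : ℤ) f

theorem tw_apply [NeZero M] (c : ZMod M → ℂ) (f : CuspForm (Gamma1 N : Subgroup (GL (Fin 2) ℝ)) k)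
    (z : ℍ) : tw c f z = ∑ ρ : ZMod M, c ρ * f (tg ((ρ.val : ℤ) / M) • z) := by
  unfold tw
  simp [sh_apply]

/-- the character of the twist -/
noncomputable def twc (χ : DirichletCharacter ℂ N) (φ : DirichletCharacter ℂ M) :
    DirichletCharacter ℂ (N * M ^ 2) :=
  DirichletCharacter.changeLevel (dvd_mul_right N (M ^ 2)) χ *
    DirichletCharacter.changeLevel (((dvd_pow_self M two_ne_zero)).trans (dvd_mul_left (M ^ 2) N)) φ ^ 2

theorem twc_apply (χ : DirichletCharacter ℂ N) (φ : DirichletCharacter ℂ M) {d : ℤ}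
    (hd : IsCoprime d ((N * M ^ 2 : ℕ) : ℤ)) :
    twc χ φ ((d : ℤ) : ZMod (N * M ^ 2)) = χ ((d : ℤ) : ZMod N) * φ ((d : ℤ) : ZMod M) ^ 2 := by
  unfold twc
  rw [MulChar.mul_apply, MulChar.pow_apply' _ two_ne_zero,
    DirichletCharacter.changeLevel_eq_cast_of_dvd' _ _ hd,
    DirichletCharacter.changeLevel_eq_cast_of_dvd' _ _ hd]

theorem twc_zero [NeZero N] [NeZero M] (χ : DirichletCharacter ℂ N) (φ : DirichletCharacter ℂ M)
    {p : ℕ} (hp : p.Prime) (h : p ∣ N * M ^ 2) : twc χ φ ((p : ℕ) : ZMod (N * M ^ 2)) = 0 := by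
  refine MulChar.map_nonunit _ ?_
  rw [ZMod.isUnit_iff_coprime]
  intro hc
  exact (hp.coprime_iff_not_dvd).1 hc h

/-- the coefficients of the additive expansion of `φ` -/
noncomputable def cf [NeZero M] (φ : DirichletCharacter ℂ M) (ρ : ZMod M) : ℂ :=
  (M : ℂ)⁻¹ * ∑ v : ZMod M, ZMod.stdAddChar (-(v * ρ)) * φ v

theorem cf_sum [NeZero M] (φ : DirichletCharacter ℂ M) (n : ZMod M) :
    ∑ ρ : ZMod M, cf φ ρ * ZMod.stdAddChar (ρ * n) = φ n := by
  have h := ZMod.dft_dft (N := M) (E := ℂ) (fun v => φ v)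
  have h2 := congrFun h (-n)
  simp only [ZMod.dft_apply, smul_eq_mul, neg_neg] at h2
  have hM : (M : ℂ) ≠ 0 := by exact_mod_cast NeZero.ne M
  have h3 : ∀ ρ : ZMod M, cf φ ρ * ZMod.stdAddChar (ρ * n) =
      (M : ℂ)⁻¹ * (ZMod.stdAddChar (-(ρ * -n)) * ∑ v : ZMod M, ZMod.stdAddChar (-(v * ρ)) * φ v) := by
    intro ρ
    unfold cf
    rw [mul_neg, neg_neg]
    ring
  rw [Finset.sum_congr rfl fun ρ _ => h3 ρ, ← Finset.mul_sum, h2]
  field_simp

theorem cf_mul [NeZero M] (φ : DirichletCharacter ℂ M) (u : (ZMod M)ˣ) (ρ : ZMod M) :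
    φ (u : ZMod M) * cf φ ((u : ZMod M) * ρ) = cf φ ρ := by
  unfold cf
  rw [← Equiv.sum_comp (Units.mulLeft u⁻¹) (fun v : ZMod M =>
    ZMod.stdAddChar (-(v * ((u : ZMod M) * ρ))) * φ v), mul_left_comm]
  congr 1
  rw [Finset.mul_sum]
  refine Finset.sum_congr rfl fun v _ => ?_
  simp only [Units.mulLeft_apply]
  have h1 : ((u⁻¹ : (ZMod M)ˣ) : ZMod M) * v * ((u : ZMod M) * ρ) = v * ρ := by
    have := Units.inv_mul u
    linear_combination (v * ρ) * this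
  rw [h1, mul_left_comm, ← map_mul, ← mul_assoc, Units.mul_inv, one_mul]

theorem denom_mk (a b c d : ℤ) (h : a * d - b * c = 1) (w : ℍ) :
    denom (mk a b c d h) w = (c : ℂ) * w + d := by
  rw [ModularGroup.denom_apply]
  rfl

theorem term_trans [NeZero M] {χ : DirichletCharacter ℂ N}
    {f : CuspForm (Gamma1 N : Subgroup (GL (Fin 2) ℝ)) k}
    (hf : ∀ γ : SL(2, ℤ), γ ∈ Gamma0 N → ∀ z : ℍ,
      f (γ • z) = χ ((γ 1 1 : ℤ) : ZMod N) * denom γ z ^ k * f z)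
    (γ : SL(2, ℤ)) (z : ℍ) {C u u' e : ℤ} (hC : γ 1 0 = N * (M : ℤ) ^ 2 * C)
    (he : u * γ 1 1 - γ 0 0 * u' = M * e) :
    f (tg (u / M) • γ • z) = χ ((γ 1 1 : ℤ) : ZMod N) * denom γ z ^ k * f (tg (u' / M) • z) := by
  have hM : M ≠ 0 := NeZero.ne M
  have hMc : (M : ℂ) ≠ 0 := by exact_mod_cast hM
  obtain ⟨h, h2⟩ := key (N := N) (M := M) hM hC he
  have h3 : tg (u / M) • γ • z = mk (γ 0 0 + u * N * M * C) (γ 0 1 + e - u * u' * N * C)
      (N * (M : ℤ) ^ 2 * C) (γ 1 1 - u' * N * M * C) h • (tg (u' / M) • z) := by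
    have h4 := congrArg (fun g : GL (Fin 2) ℝ => g • z) h2
    beta_reduce at h4
    rw [mul_smul, mul_smul] at h4
    exact h4
  have h6 : (((mk (γ 0 0 + u * N * M * C) (γ 0 1 + e - u * u' * N * C)
      (N * (M : ℤ) ^ 2 * C) (γ 1 1 - u' * N * M * C) h) 1 1 : ℤ) : ZMod N) =
      ((γ 1 1 : ℤ) : ZMod N) := by
    show ((γ 1 1 - u' * N * M * C : ℤ) : ZMod N) = _
    push_cast
    rw [ZMod.natCast_self]
    ring
  have h7 : denom (mk (γ 0 0 + u * N * M * C) (γ 0 1 + e - u * u' * N * C)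
      (N * (M : ℤ) ^ 2 * C) (γ 1 1 - u' * N * M * C) h) ((tg (u' / M) • z : ℍ) : ℂ) =
      denom γ z := by
    rw [denom_mk, ModularGroup.denom_apply, tg_smul, hC]
    have e1 : ((u' / M : ℝ) : ℂ) * M = u' := by
      push_cast
      exact div_mul_cancel₀ _ hMc
    push_cast at e1 ⊢
    linear_combination (N * M * C : ℂ) * e1
  rw [h3, hf _ (by
    rw [mem_Gamma0]
    exact ⟨(M : ℤ) ^ 2 * C, by show N * (M : ℤ) ^ 2 * C = _; ring⟩), h6, h7]

theorem tw_trans [NeZero M] {χ : DirichletCharacter ℂ N} (φ : DirichletCharacter ℂ M)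
    {f : CuspForm (Gamma1 N : Subgroup (GL (Fin 2) ℝ)) k}
    (hf : ∀ γ : SL(2, ℤ), γ ∈ Gamma0 N → ∀ z : ℍ,
      f (γ • z) = χ ((γ 1 1 : ℤ) : ZMod N) * denom γ z ^ k * f z)
    (γ : SL(2, ℤ)) (hγ : γ ∈ Gamma0 (N * M ^ 2)) (z : ℍ) :
    tw (cf φ) f (γ • z) = twc χ φ ((γ 1 1 : ℤ) : ZMod (N * M ^ 2)) * denom γ z ^ k *
      tw (cf φ) f z := by
  rw [mem_Gamma0] at hγ
  obtain ⟨C, hC⟩ := hγ
  have hC' : γ 1 0 = N * (M : ℤ) ^ 2 * C := by
    rw [hC]
    push_cast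
    ring
  have hdet := det_eq γ
  -- the lower right entry is prime to the level
  have hcop : IsCoprime (γ 1 1) ((N * M ^ 2 : ℕ) : ℤ) := by
    refine ⟨γ 0 0, -(γ 0 1 * C), ?_⟩
    rw [hC] at hdet
    linear_combination hdet
  have hcopM : IsCoprime (γ 1 1) (M : ℤ) := by
    refine hcop.of_isCoprime_of_dvd_right ?_
    push_cast
    exact (dvd_pow_self _ two_ne_zero).trans (dvd_mul_left _ _)
  obtain ⟨u, huc⟩ : ∃ u : (ZMod M)ˣ, (u : ZMod M) = ((γ 1 1 : ℤ) : ZMod M) :=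
    ⟨ZMod.unitOfIsCoprime (γ 1 1) hcopM, ZMod.coe_unitOfIsCoprime _ hcopM⟩
  have had : ((γ 0 0 : ℤ) : ZMod M) * u = 1 := by
    rw [huc]
    have h1 : ((γ 0 0 * γ 1 1 - γ 0 1 * γ 1 0 : ℤ) : ZMod M) = 1 := by
      rw [hdet]
      simp
    rw [hC'] at h1
    push_cast at h1
    rw [ZMod.natCast_self] at h1
    simpa using h1
  rw [tw_apply, tw_apply, twc_apply χ φ hcop, ← huc]
  -- the terms
  have hterm : ∀ ρ : ZMod M, f (tg ((ρ.val : ℤ) / M) • γ • z) =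
      χ ((γ 1 1 : ℤ) : ZMod N) * denom γ z ^ k *
        f (tg ((((u : ZMod M) ^ 2 * ρ).val : ℤ) / M) • z) := by
    intro ρ
    obtain ⟨e, he⟩ : (M : ℤ) ∣ (ρ.val : ℤ) * γ 1 1 - γ 0 0 * (((u : ZMod M) ^ 2 * ρ).val : ℤ) := by
      rw [← ZMod.intCast_zmod_eq_zero_iff_dvd]
      push_cast
      rw [ZMod.natCast_zmod_val, ZMod.natCast_zmod_val, ← huc]
      linear_combination (-(u : ZMod M) * ρ) * had
    exact term_trans hf γ z hC' he
  rw [Finset.sum_congr rfl fun ρ _ => congrArg (cf φ ρ * ·) (hterm ρ), Finset.mul_sum]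
  rw [← Equiv.sum_comp (Units.mulLeft (u ^ 2)) (fun ρ : ZMod M =>
    χ ((γ 1 1 : ℤ) : ZMod N) * φ (u : ZMod M) ^ 2 * denom γ z ^ k *
      (cf φ ρ * f (tg ((ρ.val : ℤ) / M) • z)))]
  refine Finset.sum_congr rfl fun ρ _ => ?_
  have h10 : Units.mulLeft (u ^ 2) ρ = (u : ZMod M) ^ 2 * ρ := by
    simp
  have h11 : φ (u : ZMod M) ^ 2 * cf φ ((u : ZMod M) ^ 2 * ρ) = cf φ ρ := by
    rw [← cf_mul φ u ρ, ← cf_mul φ u (u * ρ), ← mul_assoc (u : ZMod M) (u : ZMod M) ρ, ← pow_two]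
    ring
  rw [h10, ← h11]
  ring

theorem hasSum_tw [NeZero M] (φ : DirichletCharacter ℂ M)
    (f : CuspForm (Gamma1 N : Subgroup (GL (Fin 2) ℝ)) k) {a : ℕ → ℂ}
    (hf : ∀ z : ℍ, HasSum (fun n : ℕ => a n * Complex.exp (2 * Real.pi * Complex.I * n * z)) (f z))
    (z : ℍ) : HasSum (fun n : ℕ => φ ((n : ℕ) : ZMod M) * a n *
      Complex.exp (2 * Real.pi * Complex.I * n * z)) (tw (cf φ) f z) := by
  have hMc : (M : ℂ) ≠ 0 := by exact_mod_cast NeZero.ne M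
  rw [tw_apply]
  have h1 : HasSum (fun n : ℕ => ∑ ρ : ZMod M, cf φ ρ * (a n *
      Complex.exp (2 * Real.pi * Complex.I * n * ((tg ((ρ.val : ℤ) / M) • z : ℍ) : ℂ))))
      (∑ ρ : ZMod M, cf φ ρ * f (tg ((ρ.val : ℤ) / M) • z)) :=
    hasSum_sum fun ρ _ => (hf _).mul_left _
  refine h1.congr_fun fun n => ?_
  rw [← cf_sum φ ((n : ℕ) : ZMod M), Finset.sum_mul, Finset.sum_mul]
  refine Finset.sum_congr rfl fun ρ _ => ?_
  have h2 : (ZMod.stdAddChar (ρ * ((n : ℕ) : ZMod M)) : ℂ) =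
      Complex.exp (2 * Real.pi * Complex.I * n * ((ρ.val : ℤ) / M : ℝ)) := by
    have : ρ * ((n : ℕ) : ZMod M) = (((ρ.val : ℤ) * (n : ℤ) : ℤ) : ZMod M) := by
      push_cast
      rw [ZMod.natCast_zmod_val]
    rw [this, ZMod.stdAddChar_coe]
    congr 1
    push_cast
    ring
  rw [h2, tg_smul, mul_add, Complex.exp_add]
  ring

theorem twc_prime [NeZero N] [NeZero M] (χ : DirichletCharacter ℂ N) (φ : DirichletCharacter ℂ M)
    {p : ℕ} (hp : p.Prime) : twc χ φ ((p : ℕ) : ZMod (N * M ^ 2)) =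
      χ ((p : ℕ) : ZMod N) * φ ((p : ℕ) : ZMod M) ^ 2 := by
  by_cases h : p ∣ N * M ^ 2
  · rw [twc_zero χ φ hp h]
    rcases (Nat.Prime.dvd_mul hp).1 h with h1 | h1
    · have : χ ((p : ℕ) : ZMod N) = 0 := by
        refine MulChar.map_nonunit _ ?_
        rw [ZMod.isUnit_iff_coprime]
        exact fun hc => (hp.coprime_iff_not_dvd).1 hc h1
      rw [this, zero_mul]
    · have : φ ((p : ℕ) : ZMod M) = 0 := by
        refine MulChar.map_nonunit _ ?_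
        rw [ZMod.isUnit_iff_coprime]
        exact fun hc => (hp.coprime_iff_not_dvd).1 hc (hp.dvd_of_dvd_pow h1)
      rw [this]
      ring
  · have hc : IsCoprime (p : ℤ) ((N * M ^ 2 : ℕ) : ℤ) :=
      Nat.isCoprime_iff_coprime.2 ((hp.coprime_iff_not_dvd).2 h)
    have := twc_apply χ φ hc
    push_cast at this ⊢
    exact this

/-- the twist of an eigenform by a character -/
theorem twist {k N M : ℕ} [NeZero N] [NeZero M] {χ : DirichletCharacter ℂ N} {a : ℕ → ℂ}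
    (ha : IsEigenform k N χ a) (φ : DirichletCharacter ℂ M) :
    IsEigenform k (N * M ^ 2) (twc χ φ) (fun n => φ ((n : ℕ) : ZMod M) * a n) := by
  refine ⟨?_, ?_, ?_, ?_, ?_, ?_⟩
  · obtain ⟨f, hf1, hf2⟩ := ha.cusp
    exact ⟨tw (cf φ) f, tw_trans φ hf1, hasSum_tw φ f hf2⟩
  · rw [ha.zero, mul_zero]
  · rw [ha.one]
    simp
  · intro m n hmn
    rw [ha.mul m n hmn, Nat.cast_mul, map_mul]
    ring
  · intro p r hp
    rw [ha.hecke p r hp, twc_prime χ φ hp]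
    push_cast
    simp only [map_pow]
    ring
  · intro p hp z hz
    rw [twc_prime χ φ hp] at hz
    by_cases h : φ ((p : ℕ) : ZMod M) = 0
    · rw [h] at hz
      have : z ^ 2 = 0 := by linear_combination hz
      have hz0 : z = 0 := by simpa using this
      rw [hz0, norm_zero]
      positivity
    · have hu : IsUnit ((p : ℕ) : ZMod M) := by
        by_contra hn
        exact h (MulChar.map_nonunit _ hn)
      have hn1 : ‖φ ((p : ℕ) : ZMod M)‖ = 1 := by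
        obtain ⟨u, hu⟩ := hu
        rw [← hu]
        exact DirichletCharacter.unit_norm_eq_one φ u
      have h2 := ha.bound p hp (z / φ ((p : ℕ) : ZMod M)) (by
        field_simp
        linear_combination hz)
      rwa [norm_div, hn1, div_one] at h2

end Tw

theorem exists_twist (f : Eigenform) {M : ℕ} (hM : 0 < M) (χ : DirichletCharacter ℂ M) :
    ∃ g : Eigenform, g.weight = f.weight ∧ g.level = f.level * M ^ 2 ∧
      (∀ n : ℕ, g.coeff n = χ ((n : ℕ) : ZMod M) * f.coeff n) ∧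
      ∀ p : ℕ, p.Prime → g.char ((p : ℕ) : ZMod g.level) =
        f.char ((p : ℕ) : ZMod f.level) * χ ((p : ℕ) : ZMod M) ^ 2 := by
  have : NeZero M := ⟨hM.ne'⟩
  have : NeZero f.level := ⟨f.level_pos.ne'⟩
  exact ⟨⟨f.weight, f.level * M ^ 2, Tw.twc f.char χ, fun n => χ ((n : ℕ) : ZMod M) * f.coeff n,
    f.weight_pos, Nat.mul_pos f.level_pos (pow_pos hM 2), Tw.twist f.isEigenform χ⟩, rfl, rfl,
    fun n => rfl, fun p hp => Tw.twc_prime f.char χ hp⟩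

end Pool.Agent.Work.MP_2b9663_nt.Nf
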