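import Pool.Agent.Work.MP_2b9663_nt.Nf.Family
import Pool.Agent.Work.MP_2b9663_nt.Nf.DefsX
import Pool.Agent.Work.MP_2b9663_nt.Nf.Twist

set_option autoImplicit false

/-!
Bessel's inequality for families of twists by eigenforms, with the gain from the Dirichlet characters
which do not change the system.
-/

namespace Pool.Agent.Work.MP_2b9663_nt.Nf

open NumberField Ideal Filter Topology IsDedekindDomain He

variable {M : ℕ}

/-- the twist of `f` by `χ`, with its traces -/
lemma twist_traces (f : Eigenform) (hM : 0 < M) (χ : DirichletCharacter ℂ M) :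
    ∃ g : Eigenform, g.weight = f.weight ∧ g.level = f.level * M ^ 2 ∧
      (∀ n : ℕ, g.coeff n = χ (n : ZMod M) * f.coeff n) ∧
      ∀ q : ℕ, IsPrimePow q → g.trace q 1 = χ (q : ZMod M) * f.trace q 1 := by
  obtain ⟨g, hw, hl, hc, hχ⟩ := exists_twist f hM χ
  refine ⟨g, hw, hl, hc, fun q hq => ?_⟩
  have hp : q.minFac.Prime := Nat.minFac_prime hq.one_lt.ne'
  have hqe : q = q.minFac ^ q.factorization q.minFac :=
    (isPrimePow_iff_minFac_pow_factorization_eq hq.one_lt.ne').1 hq |>.symm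
  unfold Eigenform.trace
  set p := q.minFac with hpd
  set r := q.factorization p with hr
  have h1 : χ ((q : ℕ) : ZMod M) = χ ((p : ℕ) : ZMod M) ^ r := by
    rw [hqe, Nat.cast_pow, map_pow]
  rw [one_mul, h1]
  unfold ntr mtr
  rw [hw, hc, ← mul_div_assoc]
  congr 1
  rw [Nat.cast_pow, map_pow, mul_sub]
  congr 1
  split_ifs with h2
  · rw [hχ p hp, hc, Nat.cast_pow, map_pow]
    have h3 : χ ((p : ℕ) : ZMod M) ^ r = χ ((p : ℕ) : ZMod M) ^ 2 * χ ((p : ℕ) : ZMod M) ^ (r - 2) := by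
      rw [← pow_add]
      congr 1
      omega
    rw [h3]
    ring
  · rw [mul_zero]

section One

variable {K : Type} [Field K] [NumberField K] {S : Finset (HeightOneSpectrum (𝓞 K))}
  {t : HeightOneSpectrum (𝓞 K) → ℕ → ℂ} {i : ℕ}

lemma isPrimePow_absNorm (v : HeightOneSpectrum (𝓞 K)) : IsPrimePow (absNorm v.asIdeal) := by
  obtain ⟨p, -, n, hn, h⟩ := exists_below v
  rw [h]
  exact p.2.isPrimePow.pow hn.ne'

/-- the combination of eigenforms can be replaced by a shorter one: its mean value over the characters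
in `X` -/
theorem exists_shorter [NeZero M] {X : Subgroup (DirichletCharacter ℂ M)} (hX : SelfTwists t X)
    {ρ : Type} (P : Finset ρ) (y : ρ → ℝ) (f : ρ → Eigenform) :
    ∃ (P' : Finset (ρ × X)) (y' : ρ × X → ℝ) (g : ρ × X → Eigenform),
      ∑ p ∈ P', y' p ^ 2 = (∑ r ∈ P, y r ^ 2) / Nat.card X ∧
      ((∀ r ∈ P, ∀ r' ∈ P, ∀ χ ∈ X, ∀ χ' ∈ X, (r, χ) ≠ (r', χ') → DifferTwist (f r) (f r') χ χ') →
        ∀ p ∈ P', ∀ p' ∈ P', p ≠ p' → (g p).Differ (g p')) ∧
      ∃ T : Finset (HeightOneSpectrum (𝓞 K)), ∀ v, v ∉ T →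
        nk S t i v * WF P y f (absNorm v.asIdeal) = nk S t i v * WF P' y' g (absNorm v.asIdeal) := by
  classical
  have hM : 0 < M := Nat.pos_of_ne_zero (NeZero.ne M)
  haveI : Fintype X := Fintype.ofFinite X
  choose g hgw hgl hgc hgt using fun (p : ρ × X) => twist_traces (f p.1) hM (p.2 : DirichletCharacter ℂ M)
  set N : ℕ := Nat.card X with hN
  have hNc : N = Fintype.card X := Nat.card_eq_fintype_card
  have hN0 : (0 : ℝ) < N := by
    rw [hN]
    exact_mod_cast Nat.card_pos
  have hNC : (N : ℂ) ≠ 0 := by exact_mod_cast hN0.ne'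
  obtain ⟨T, hT⟩ := hX
  refine ⟨P ×ˢ (Finset.univ : Finset X), fun p => y p.1 / N, g, ?_, ?_, T, ?_⟩
  · rw [Finset.sum_product]
    simp only [Finset.sum_const, Finset.card_univ, nsmul_eq_mul]
    rw [← hNc, Finset.sum_div]
    refine Finset.sum_congr rfl fun r _ => ?_
    field_simp
  · intro h p hp p' hp' hne
    rw [Finset.mem_product] at hp hp'
    have h1 := h p.1 hp.1 p'.1 hp'.1 p.2 p.2.2 p'.2 p'.2.2 (fun hc => hne (by
      simp only [Prod.mk.injEq] at hc
      exact Prod.ext hc.1 (Subtype.ext hc.2)))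
    rcases h1 with h1 | ⟨q, hq, h2, h3, h4, h5⟩
    · left
      rw [hgw, hgw]
      exact h1
    · right
      refine ⟨q, hq, ?_, ?_, ?_⟩
      · rw [hgl]
        intro h6
        rcases (Nat.Prime.dvd_mul hq).1 h6 with h7 | h7
        · exact h2 h7
        · exact h4 (hq.dvd_of_dvd_pow h7)
      · rw [hgl]
        intro h6
        rcases (Nat.Prime.dvd_mul hq).1 h6 with h7 | h7
        · exact h3 h7
        · exact h4 (hq.dvd_of_dvd_pow h7)
      · rw [hgc, hgc]
        exact h5
  · intro v hv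
    have hnk : ∀ χ : X, nk S t i v * (χ : DirichletCharacter ℂ M) ((absNorm v.asIdeal : ℕ) : ZMod M) =
        nk S t i v := by
      intro χ
      unfold nk
      split_ifs with h1
      · rw [zero_mul]
      · rw [div_mul_eq_mul_div, mul_comm, hT v hv χ χ.2]
    unfold WF
    rw [Finset.sum_product, Finset.mul_sum, Finset.mul_sum]
    refine Finset.sum_congr rfl fun r _ => ?_
    rw [Finset.mul_sum]
    have h3 : ∀ χ : X, nk S t i v * (((y r / N : ℝ) : ℂ) * (g (r, χ)).trace (absNorm v.asIdeal) 1) =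
        nk S t i v * ((y r : ℂ) * (f r).trace (absNorm v.asIdeal) 1) / N := by
      intro χ
      rw [hgt _ _ (isPrimePow_absNorm v)]
      push_cast
      calc nk S t i v * ((y r : ℂ) / N * ((χ : DirichletCharacter ℂ M)
            ((absNorm v.asIdeal : ℕ) : ZMod M) * (f r).trace (absNorm v.asIdeal) 1))
          = (nk S t i v * (χ : DirichletCharacter ℂ M) ((absNorm v.asIdeal : ℕ) : ZMod M)) *
            ((y r : ℂ) * (f r).trace (absNorm v.asIdeal) 1) / N := by ring
        _ = _ := by rw [hnk χ]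
    simp only [h3, Finset.sum_const, Finset.card_univ, nsmul_eq_mul]
    rw [← hNc]
    field_simp

/-- **The bound for a combination of eigenforms**, with the gain from the characters. -/
theorem component_WF [NeZero M] {X : Subgroup (DirichletCharacter ℂ M)} (hX : SelfTwists t X)
    {d δ : ℝ} (hd : 0 ≤ d) (h : WeilK S t i d) (hδ : SecondMoment S t i d δ)
    {ρ : Type} (P : Finset ρ) (y : ρ → ℝ) (f : ρ → Eigenform)
    (hdist : δ ≠ 0 → ∀ r ∈ P, ∀ r' ∈ P, ∀ χ ∈ X, ∀ χ' ∈ X, (r, χ) ≠ (r', χ') →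
      DifferTwist (f r) (f r') χ χ') {η : ℝ} (hη : 0 < η) :
    ∀ᶠ ε : ℝ in 𝓝[>] 0, MR (fun v => (nk S t i v * WF P y f (absNorm v.asIdeal)).re) ε ≤
      Real.sqrt (δ * (Module.finrank ℚ K * ((∑ r ∈ P, y r ^ 2) / Nat.card X))) + η := by
  classical
  obtain ⟨P', y', g, hsum, hdiff, T, hT⟩ := exists_shorter (S := S) (i := i) hX P y f
  have h1 := component_abs (B := 2 * ∑ p ∈ P', |y' p|)
    (ν := Module.finrank ℚ K * ((∑ r ∈ P, y r ^ 2) / Nat.card X)) hd h hδ
    (W := fun v => WF P' y' g (absNorm v.asIdeal))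
    (fun v => norm_WF_le P' _ _ (absNorm_ne_one v) (absNorm_ne_zero v))
    (mul_nonneg (Nat.cast_nonneg _) (div_nonneg (Finset.sum_nonneg fun _ _ => sq_nonneg _)
      (Nat.cast_nonneg _)))
    (fun hδ0 η hη => by
      have h2 := WF_mean (K := K) P' y' g (hdiff (hdist hδ0)) hη
      rw [hsum] at h2
      exact h2) (show 0 < η / 2 by linarith)
  have hb : ∀ (ρ' : Type) (Q : Finset ρ') (c : ρ' → ℝ) (k : ρ' → Eigenform),
      BK fun v => (nk S t i v * WF Q c k (absNorm v.asIdeal)).re := by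
    intro ρ' Q c k
    refine ⟨d * (2 * ∑ r ∈ Q, |c r|), fun v => ?_⟩
    refine (Complex.abs_re_le_norm _).trans ?_
    rw [norm_mul]
    exact mul_le_mul (nk_norm_le hd h v)
      (norm_WF_le Q c k (absNorm_ne_one v) (absNorm_ne_zero v)) (norm_nonneg _) hd
  have hval : ∀ v : HeightOneSpectrum (𝓞 K), v ∉ T →
      (nk S t i v * WF P y f (absNorm v.asIdeal)).re +
        (-1) * (nk S t i v * WF P' y' g (absNorm v.asIdeal)).re = 0 := by
    intro v hv
    rw [hT v hv]
    ring
  have h2 : Tendsto (MR fun v : HeightOneSpectrum (𝓞 K) =>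
      (nk S t i v * WF P y f (absNorm v.asIdeal)).re +
        (-1) * (nk S t i v * WF P' y' g (absNorm v.asIdeal)).re) (𝓝[>] 0) (𝓝 0) := by
    refine tendsto_div_log (C := ∑ v ∈ T, |(nk S t i v * WF P y f (absNorm v.asIdeal)).re +
        (-1) * (nk S t i v * WF P' y' g (absNorm v.asIdeal)).re|) ?_
    filter_upwards [eventually_unit] with ε hε
    exact SR_finite T hval hε.1
  filter_upwards [h1, h2.eventually (gt_mem_nhds (show (0 : ℝ) < η / 2 by linarith)),
    eventually_unit] with ε h3 h4 hε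
  rw [MR_add (hb _ P y f) ((hb _ P' y' g).const_mul (-1)) hε.1, MR_const_mul] at h4
  linarith

end One

end Pool.Agent.Work.MP_2b9663_nt.Nf
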