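import Pool.Agent.Work.MP_2b9663_nt.Nf.Family

set_option autoImplicit false

/-!
The theorem on families of twists by Hecke characters and eigenforms.
-/

namespace Pool.Agent.Work.MP_2b9663_nt

open NumberField Ideal Filter Topology IsDedekindDomain He Nf

section

variable {κ κ' : Type} [Fintype κ] [Fintype κ'] {K₀ : Type} [Field K₀] [NumberField K₀]
  {K : κ → Type} [∀ j, Field (K j)] [∀ j, NumberField (K j)]
  {L : κ' → Type} [∀ j, Field (L j)] [∀ j, NumberField (L j)]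
  {S₀ : Finset (HeightOneSpectrum (𝓞 K₀))} {t₀ : HeightOneSpectrum (𝓞 K₀) → ℕ → ℂ}
  {S : ∀ j, Finset (HeightOneSpectrum (𝓞 (K j)))}
  {t : ∀ j, HeightOneSpectrum (𝓞 (K j)) → ℕ → ℂ}
  {R : ∀ j, Finset (HeightOneSpectrum (𝓞 (L j)))}
  {u : ∀ j, HeightOneSpectrum (𝓞 (L j)) → ℕ → ℂ} {i : ℕ} {w : κ → ℕ} {z : κ' → ℕ} {b₀ : ℝ}
  {d δ : κ → ℝ} {e θ : κ' → ℝ}

namespace Nf

/-- the mean values of the components with eigenforms -/
noncomputable def cf (R : ∀ j, Finset (HeightOneSpectrum (𝓞 (L j))))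
    (u : ∀ j, HeightOneSpectrum (𝓞 (L j)) → ℕ → ℂ) (i : ℕ) (f : ∀ j, Fin (z j) → Eigenform)
    (j : κ') (ε : ℝ) : ℝ :=
  MR (fun v => (nk (R j) (u j) i v * ∑ r, (f j r).trace (absNorm v.asIdeal) 1).re) ε

lemma member (hb₀ : 0 ≤ b₀) (h₀ : WeilK S₀ t₀ i b₀) (hd : ∀ j, 0 ≤ d j)
    (h : ∀ j, WeilK (S j) (t j) i (d j)) (he : ∀ j, 0 ≤ e j)
    (h' : ∀ j, WeilK (R j) (u j) i (e j)) {ψ : ∀ j, Fin (w j) → HeckeChar (K j)}
    {f : ∀ j, Fin (z j) → Eigenform} {F : ℂ → ℂ}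
    (hF : IsTwistContinuation S₀ t₀ S t R u i ψ f F) :
    ∃ m : ℤ, meromorphicOrderAt F ((i : ℂ) / 2 + 1) = m ∧
      Tendsto (fun ε => MR (fun v => (nk S₀ t₀ i v).re) ε +
        (∑ j, cm S t i ψ j ε + ∑ j, cf R u i f j ε)) (𝓝[>] 0) (𝓝 (-(m : ℝ))) := by
  obtain ⟨hm, E₀, E, E', hE₀, hE, hE', hprod⟩ := hF
  obtain ⟨C₀, hC₀⟩ := He.log_euler hb₀ h₀ hE₀
  have hEl : ∀ j, ∃ C : ℝ, ∀ᶠ ε : ℝ in 𝓝[>] 0, E j (spt i ε) ≠ 0 ∧
      |Real.log ‖E j (spt i ε)‖ -
        SR (fun v => (nk (S j) (twistK (t j) (ψ j)) i v).re) ε| ≤ C := fun j =>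
    He.log_euler (mul_nonneg (hd j) (Nat.cast_nonneg (w j))) (weil_twist (hd j) (h j) (ψ j)) (hE j)
  have hEl' : ∀ j, ∃ C : ℝ, ∀ᶠ ε : ℝ in 𝓝[>] 0, E' j (spt i ε) ≠ 0 ∧
      |Real.log ‖E' j (spt i ε)‖ -
        SR (fun v => (nk (R j) (twistF (u j) (f j)) i v).re) ε| ≤ C := fun j =>
    He.log_euler (mul_nonneg (he j) (by positivity)) (weil_twistF (he j) (h' j) (f j)) (hE' j)
  choose C hC using hEl
  choose C₂ hC₂ using hEl'
  have hall : ∀ᶠ ε : ℝ in 𝓝[>] 0, ∀ j, E j (spt i ε) ≠ 0 ∧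
      |Real.log ‖E j (spt i ε)‖ -
        SR (fun v => (nk (S j) (twistK (t j) (ψ j)) i v).re) ε| ≤ C j :=
    eventually_all.2 hC
  have hall' : ∀ᶠ ε : ℝ in 𝓝[>] 0, ∀ j, E' j (spt i ε) ≠ 0 ∧
      |Real.log ‖E' j (spt i ε)‖ -
        SR (fun v => (nk (R j) (twistF (u j) (f j)) i v).re) ε| ≤ C₂ j :=
    eventually_all.2 hC₂
  have hval : ∀ᶠ ε : ℝ in 𝓝[>] 0, F (spt i ε) =
      E₀ (spt i ε) * (∏ j, E j (spt i ε)) * ∏ j, E' j (spt i ε) := by
    filter_upwards [eventually_unit] with ε hε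
    exact hprod _ (by rw [spt_re]; linarith [hε.1])
  have hne : ∀ᶠ ε : ℝ in 𝓝[>] 0, F (spt i ε) ≠ 0 := by
    filter_upwards [hC₀, hall, hall', hval] with ε h1 h2 h2' h3
    rw [h3]
    exact mul_ne_zero (mul_ne_zero h1.1 (Finset.prod_ne_zero_iff.2 fun j _ => (h2 j).1))
      (Finset.prod_ne_zero_iff.2 fun j _ => (h2' j).1)
  obtain ⟨m, hmo, C', hC'⟩ := log_mero hm hne
  refine ⟨m, hmo, ?_⟩
  have key : Tendsto (fun ε => (SR (fun v => (nk S₀ t₀ i v).re) ε +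
      (∑ j, SR (fun v => (nk (S j) (t j) i v * ∑ r, ψ j r v.asIdeal).re) ε +
      ∑ j, SR (fun v => (nk (R j) (u j) i v * ∑ r, (f j r).trace (absNorm v.asIdeal) 1).re) ε)) /
        (-Real.log ε)) (𝓝[>] 0) (𝓝 (-(m : ℝ))) := by
    refine tendsto_of_log (C := C₀ + ∑ j, C j + ∑ j, C₂ j + C') ?_
    filter_upwards [hC₀, hall, hall', hval, hC'] with ε h1 h2 h2' h3 h4
    have h5 : Real.log ‖F (spt i ε)‖ = Real.log ‖E₀ (spt i ε)‖ +
        ∑ j, Real.log ‖E j (spt i ε)‖ + ∑ j, Real.log ‖E' j (spt i ε)‖ := by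
      rw [h3, norm_mul, norm_mul, norm_prod, norm_prod, Real.log_mul
        (mul_ne_zero (norm_ne_zero_iff.2 h1.1)
          (Finset.prod_ne_zero_iff.2 fun j _ => norm_ne_zero_iff.2 (h2 j).1))
        (Finset.prod_ne_zero_iff.2 fun j _ => norm_ne_zero_iff.2 (h2' j).1),
        Real.log_mul (norm_ne_zero_iff.2 h1.1)
        (Finset.prod_ne_zero_iff.2 fun j _ => norm_ne_zero_iff.2 (h2 j).1),
        Real.log_prod fun j _ => norm_ne_zero_iff.2 (h2 j).1,
        Real.log_prod fun j _ => norm_ne_zero_iff.2 (h2' j).1]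
    have h6 : |∑ j, (Real.log ‖E j (spt i ε)‖ -
        SR (fun v => (nk (S j) (twistK (t j) (ψ j)) i v).re) ε)| ≤ ∑ j, C j :=
      (Finset.abs_sum_le_sum_abs _ _).trans (Finset.sum_le_sum fun j _ => (h2 j).2)
    have h6' : |∑ j, (Real.log ‖E' j (spt i ε)‖ -
        SR (fun v => (nk (R j) (twistF (u j) (f j)) i v).re) ε)| ≤ ∑ j, C₂ j :=
      (Finset.abs_sum_le_sum_abs _ _).trans (Finset.sum_le_sum fun j _ => (h2' j).2)
    rw [Finset.sum_sub_distrib] at h6 h6'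
    have h7 : ∀ j, SR (fun v => (nk (S j) (twistK (t j) (ψ j)) i v).re) ε =
        SR (fun v => (nk (S j) (t j) i v * ∑ r, ψ j r v.asIdeal).re) ε := by
      intro j
      congr 1
      funext v
      rw [nk_twist]
    have h7' : ∀ j, SR (fun v => (nk (R j) (twistF (u j) (f j)) i v).re) ε =
        SR (fun v => (nk (R j) (u j) i v * ∑ r, (f j r).trace (absNorm v.asIdeal) 1).re) ε := by
      intro j
      congr 1
      funext v
      rw [nk_twistF]
    simp only [h7] at h6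
    simp only [h7'] at h6'
    rw [h5] at h4
    have a1 := abs_le.1 h1.2
    have a2 := abs_le.1 h6
    have a2' := abs_le.1 h6'
    have a3 := abs_le.1 h4
    rw [abs_le]
    constructor <;> linarith [a1.1, a1.2, a2.1, a2.2, a2'.1, a2'.2, a3.1, a3.2]
  refine key.congr fun ε => ?_
  unfold cm cf MR
  rw [add_div, add_div, Finset.sum_div, Finset.sum_div]

variable {ι : Type} {f : ι → ∀ j, Fin (z j) → Eigenform}

/-- the bound for one component with eigenforms -/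
theorem component_form (j : κ') (he : 0 ≤ e j) (h : WeilK (R j) (u j) i (e j))
    (hθ : SecondMoment (R j) (u j) i (e j) (θ j)) (hdist : DistinctForms θ f) (s : Finset ι)
    (x : ι → ℝ) {η : ℝ} (hη : 0 < η) :
    ∀ᶠ ε : ℝ in 𝓝[>] 0, ∑ a ∈ s, x a * cf R u i (f a) j ε ≤
      Real.sqrt (z j * θ j * Module.finrank ℚ (L j)) * Real.sqrt (∑ a ∈ s, x a ^ 2) + η := by
  classical
  set ν : ℝ := ∑ a ∈ s, x a ^ 2 with hν
  have hν0 : 0 ≤ ν := Finset.sum_nonneg fun a _ => sq_nonneg _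
  set P : Finset (ι × Fin (z j)) := s ×ˢ (Finset.univ : Finset (Fin (z j))) with hP
  set W : HeightOneSpectrum (𝓞 (L j)) → ℂ := fun v =>
    WF P (fun p => x p.1) (fun p => f p.1 j p.2) (absNorm v.asIdeal) with hW
  have hsum : ∑ p ∈ P, x p.1 ^ 2 = z j * ν := by
    rw [hP, Finset.sum_product]
    simp only [Finset.sum_const, Finset.card_univ, Fintype.card_fin, nsmul_eq_mul]
    rw [← Finset.mul_sum]
  have h1 := component_abs (S := R j) (t := u j) (i := i) (B := 2 * ∑ p ∈ P, |x p.1|)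
    (ν := Module.finrank ℚ (L j) * (z j * ν)) he h hθ (W := W)
    (fun v => norm_WF_le P _ _ (absNorm_ne_one v) (absNorm_ne_zero v)) (by positivity)
    (fun hθ0 η hη => by
      have h2 := WF_mean (K := L j) P (fun p => x p.1) (fun p => f p.1 j p.2)
        (fun p _ p' _ hne => hdist j hθ0 p.1 p'.1 p.2 p'.2 (fun hc => hne hc)) hη
      rw [hsum] at h2
      exact h2) hη
  filter_upwards [h1, eventually_unit] with ε h3 hε
  have h4 : (fun v => (nk (R j) (u j) i v * W v).re) = fun v => ∑ a ∈ s, x a *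
      (nk (R j) (u j) i v * ∑ r, (f a j r).trace (absNorm v.asIdeal) 1).re := by
    funext v
    simp only [hW, WF]
    rw [hP, Finset.sum_product, Finset.mul_sum, Complex.re_sum]
    refine Finset.sum_congr rfl fun a _ => ?_
    dsimp only
    rw [← Finset.mul_sum, mul_left_comm, Complex.re_ofReal_mul]
  have hbk : ∀ a : ι, BK fun v => (nk (R j) (u j) i v *
      ∑ r, (f a j r).trace (absNorm v.asIdeal) 1).re := by
    intro a
    refine ⟨e j * (2 * z j), fun v => ?_⟩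
    refine (Complex.abs_re_le_norm _).trans ?_
    rw [norm_mul]
    exact mul_le_mul (nk_norm_le he h v) (norm_sum_trace_le (f a j) v one_ne_zero)
      (norm_nonneg _) he
  rw [h4, MR_sum s (fun a _ => (hbk a).const_mul _) hε.1] at h3
  have h5 : ∀ a, MR (fun v => x a * (nk (R j) (u j) i v *
      ∑ r, (f a j r).trace (absNorm v.asIdeal) 1).re) ε = x a * cf R u i (f a) j ε := fun a =>
    MR_const_mul _ _ _
  simp only [h5] at h3
  refine h3.trans (le_of_eq ?_)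
  rw [← Real.sqrt_mul' _ hν0]
  congr 2
  ring

/-- **The mean inequality** for the components with eigenforms. -/
theorem core_form (he : ∀ j, 0 ≤ e j) (h : ∀ j, WeilK (R j) (u j) i (e j))
    (hθ : ∀ j, SecondMoment (R j) (u j) i (e j) (θ j)) (hdist : DistinctForms θ f) :
    CoreBound (fun a ε => ∑ j, cf R u i (f a) j ε)
      (∑ j, Real.sqrt (z j * θ j * Module.finrank ℚ (L j))) := by
  intro s x η hη
  set η' : ℝ := η / (Fintype.card κ' + 1) with hη'
  have hη'0 : 0 < η' := by positivity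
  have h1 := fun j => component_form j (he j) (h j) (hθ j) hdist s x hη'0
  filter_upwards [eventually_all.2 h1] with ε h2
  have h3 : ∑ a ∈ s, x a * ∑ j, cf R u i (f a) j ε =
      ∑ j, ∑ a ∈ s, x a * cf R u i (f a) j ε := by
    simp only [Finset.mul_sum]
    exact Finset.sum_comm
  rw [h3, Finset.sum_mul]
  refine (Finset.sum_le_sum fun j _ => h2 j).trans ?_
  rw [Finset.sum_add_distrib]
  refine add_le_add le_rfl ?_
  rw [Finset.sum_const, Finset.card_univ, nsmul_eq_mul, hη', mul_div_assoc',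
    div_le_iff₀ (by positivity)]
  nlinarith [hη.le]

lemma CoreBound.add {y y' : ι → ℝ → ℝ} {D D' : ℝ} (h : CoreBound y D) (h' : CoreBound y' D') :
    CoreBound (fun a ε => y a ε + y' a ε) (D + D') := by
  intro s x η hη
  filter_upwards [h s x (η / 2) (by linarith), h' s x (η / 2) (by linarith)] with ε h1 h2
  simp only [mul_add, Finset.sum_add_distrib]
  rw [add_mul]
  linarith

end Nf

/-- **Families of twists by Hecke characters and by eigenforms.** -/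
theorem twist_families {ι : Type} (hb₀ : 0 ≤ b₀) (h₀ : WeilK S₀ t₀ i b₀) (hd : ∀ j, 0 ≤ d j)
    (h : ∀ j, WeilK (S j) (t j) i (d j)) (hδ : ∀ j, SecondMoment (S j) (t j) i (d j) (δ j))
    (G : ∀ j, Subgroup (K j ≃ₐ[ℚ] K j)) (hG : ∀ j, InvariantK (S j) (t j) (G j))
    (he : ∀ j, 0 ≤ e j) (h' : ∀ j, WeilK (R j) (u j) i (e j))
    (hθ : ∀ j, SecondMoment (R j) (u j) i (e j) (θ j))
    (ψ : ι → ∀ j, Fin (w j) → HeckeChar (K j)) (hdist : DistinctOrbits G δ ψ)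
    (f : ι → ∀ j, Fin (z j) → Eigenform) (hdist' : DistinctForms θ f) (F : ι → ℂ → ℂ)
    (hF : ∀ a, IsTwistContinuation S₀ t₀ S t R u i (ψ a) (f a) (F a)) :
    ∃ m : ι → ℤ, (∀ a, meromorphicOrderAt (F a) ((i : ℂ) / 2 + 1) = m a) ∧
      (∀ n, OrdK S₀ t₀ i n → NearlyEqual m n (∑ j, Real.sqrt (w j * δ j / Nat.card (G j)) +
        ∑ j, Real.sqrt (z j * θ j * Module.finrank ℚ (L j))) ∧
        ∀ c, LowerK t₀ i c → (n : ℝ) ≤ -c) ∧
      (Infinite ι → ∃ n, NearlyEqual m n (∑ j, Real.sqrt (w j * δ j / Nat.card (G j)) +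
        ∑ j, Real.sqrt (z j * θ j * Module.finrank ℚ (L j))) ∧
        ∀ c, LowerK t₀ i c → (n : ℝ) ≤ -c) := by
  choose m hm hmean using fun a => Nf.member hb₀ h₀ hd h he h' (hF a)
  have hcp := Nf.CoreBound.add (core_orbit hd h hδ hG hdist) (Nf.core_form he h' hθ hdist')
  have hD : 0 ≤ ∑ j, Real.sqrt ((w j : ℝ) * δ j / Nat.card (G j)) +
      ∑ j, Real.sqrt (z j * θ j * Module.finrank ℚ (L j)) :=
    add_nonneg (Finset.sum_nonneg fun _ _ => Real.sqrt_nonneg _)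
      (Finset.sum_nonneg fun _ _ => Real.sqrt_nonneg _)
  refine ⟨m, hm, fun n hn => ⟨knownA hD hcp hmean n (fixed_mean hb₀ h₀ hn), fun c hc => ?_⟩,
    fun _ => ?_⟩
  · have h1 := fixed_mean hb₀ h₀ hn
    have h2 : c ≤ -(n : ℝ) := by
      refine le_of_forall_sub_le fun η hη => ?_
      exact ge_of_tendsto h1 (lower_mean hb₀ h₀ hc hη)
    linarith
  · obtain ⟨n, hn, hinf⟩ := infiniteA hD hcp hmean
    exact ⟨n, hn, fun c hc => lowerA hcp hmean hinf fun η hη => lower_mean hb₀ h₀ hc hη⟩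

end

end Pool.Agent.Work.MP_2b9663_nt
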