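import Pool.Agent.Work.MP_2b9663_nt.Nf.Final
import Pool.Agent.Work.MP_2b9663_nt.Nf.Family2

set_option autoImplicit false

/-!
The theorem on families of twists by Hecke characters and eigenforms, with the gain from the
Dirichlet characters which do not change the systems.
-/

namespace Pool.Agent.Work.MP_2b9663_nt

open NumberField Ideal Filter Topology IsDedekindDomain He Nf

section

variable {κ κ' : Type} [Fintype κ] [Fintype κ'] {K₀ : Type} [Field K₀] [NumberField K₀]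
  {K : κ → Type} [∀ j, Field (K j)] [∀ j, NumberField (K j)]
  {L : κ' → Type} [∀ j, Field (L j)] [∀ j, NumberField (L j)]
  {S₀ : Finset (HeightOneSpectrum (𝓞 K₀))} {t₀ : HeightOneSpectrum (𝓞 K₀) → ℕ → ℂ}
  {S : ∀ j, Finset (HeightOneSpectrum (𝓞 (K j)))}
  {t : ∀ j, HeightOneSpectrum (𝓞 (K j)) → ℕ → ℂ}
  {R : ∀ j, Finset (HeightOneSpectrum (𝓞 (L j)))}
  {u : ∀ j, HeightOneSpectrum (𝓞 (L j)) → ℕ → ℂ} {i : ℕ} {w : κ → ℕ} {z : κ' → ℕ} {b₀ : ℝ}
  {d δ : κ → ℝ} {e θ : κ' → ℝ}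

namespace Nf

variable {ι : Type} {f : ι → ∀ j, Fin (z j) → Eigenform} {M : κ' → ℕ} [∀ j, NeZero (M j)]
  {X : ∀ j, Subgroup (DirichletCharacter ℂ (M j))}

/-- the bound for one component with eigenforms -/
theorem component_formX (j : κ') (he : 0 ≤ e j) (h : WeilK (R j) (u j) i (e j))
    (hθ : SecondMoment (R j) (u j) i (e j) (θ j)) (hX : SelfTwists (u j) (X j))
    (hdist : DistinctTwists X θ f) (s : Finset ι) (x : ι → ℝ) {η : ℝ} (hη : 0 < η) :
    ∀ᶠ ε : ℝ in 𝓝[>] 0, ∑ a ∈ s, x a * cf R u i (f a) j ε ≤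
      Real.sqrt (z j * θ j * Module.finrank ℚ (L j) / Nat.card (X j)) *
        Real.sqrt (∑ a ∈ s, x a ^ 2) + η := by
  classical
  set ν : ℝ := ∑ a ∈ s, x a ^ 2 with hν
  have hν0 : 0 ≤ ν := Finset.sum_nonneg fun a _ => sq_nonneg _
  set P : Finset (ι × Fin (z j)) := s ×ˢ (Finset.univ : Finset (Fin (z j))) with hP
  have hsum : ∑ p ∈ P, x p.1 ^ 2 = z j * ν := by
    rw [hP, Finset.sum_product]
    simp only [Finset.sum_const, Finset.card_univ, Fintype.card_fin, nsmul_eq_mul]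
    rw [← Finset.mul_sum]
  have h1 := component_WF hX he h hθ P (fun p => x p.1) (fun p => f p.1 j p.2)
    (fun hθ0 p _ p' _ χ hχ χ' hχ' hne => hdist j hθ0 p.1 p'.1 p.2 p'.2 χ hχ χ' hχ'
      (fun hc => hne (by
        simp only [Prod.mk.injEq] at hc
        exact Prod.ext (Prod.ext hc.1 hc.2.1) hc.2.2))) hη
  rw [hsum] at h1
  filter_upwards [h1, eventually_unit] with ε h3 hε
  have h4 : (fun v => (nk (R j) (u j) i v *
      WF P (fun p => x p.1) (fun p => f p.1 j p.2) (absNorm v.asIdeal)).re) = fun v => ∑ a ∈ s, x a *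
      (nk (R j) (u j) i v * ∑ r, (f a j r).trace (absNorm v.asIdeal) 1).re := by
    funext v
    simp only [WF]
    rw [hP, Finset.sum_product, Finset.mul_sum, Complex.re_sum]
    refine Finset.sum_congr rfl fun a _ => ?_
    dsimp only
    rw [← Finset.mul_sum, mul_left_comm, Complex.re_ofReal_mul]
  have hbk : ∀ a : ι, BK fun v => (nk (R j) (u j) i v *
      ∑ r, (f a j r).trace (absNorm v.asIdeal) 1).re := by
    intro a
    refine ⟨e j * (2 * z j), fun v => ?_⟩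
    refine (Complex.abs_re_le_norm _).trans ?_
    rw [norm_mul]
    exact mul_le_mul (nk_norm_le he h v) (norm_sum_trace_le (f a j) v one_ne_zero)
      (norm_nonneg _) he
  rw [h4, MR_sum s (fun a _ => (hbk a).const_mul _) hε.1] at h3
  have h5 : ∀ a, MR (fun v => x a * (nk (R j) (u j) i v *
      ∑ r, (f a j r).trace (absNorm v.asIdeal) 1).re) ε = x a * cf R u i (f a) j ε := fun a =>
    MR_const_mul _ _ _
  simp only [h5] at h3
  refine h3.trans (le_of_eq ?_)
  rw [← Real.sqrt_mul' _ hν0]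
  congr 2
  ring

/-- **The mean inequality** for the components with eigenforms. -/
theorem core_formX (he : ∀ j, 0 ≤ e j) (h : ∀ j, WeilK (R j) (u j) i (e j))
    (hθ : ∀ j, SecondMoment (R j) (u j) i (e j) (θ j)) (hX : ∀ j, SelfTwists (u j) (X j))
    (hdist : DistinctTwists X θ f) :
    CoreBound (fun a ε => ∑ j, cf R u i (f a) j ε)
      (∑ j, Real.sqrt (z j * θ j * Module.finrank ℚ (L j) / Nat.card (X j))) := by
  intro s x η hη
  set η' : ℝ := η / (Fintype.card κ' + 1) with hη'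
  have hη'0 : 0 < η' := by positivity
  have h1 := fun j => component_formX j (he j) (h j) (hθ j) (hX j) hdist s x hη'0
  filter_upwards [eventually_all.2 h1] with ε h2
  have h3 : ∑ a ∈ s, x a * ∑ j, cf R u i (f a) j ε =
      ∑ j, ∑ a ∈ s, x a * cf R u i (f a) j ε := by
    simp only [Finset.mul_sum]
    exact Finset.sum_comm
  rw [h3, Finset.sum_mul]
  refine (Finset.sum_le_sum fun j _ => h2 j).trans ?_
  rw [Finset.sum_add_distrib]
  refine add_le_add le_rfl ?_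
  rw [Finset.sum_const, Finset.card_univ, nsmul_eq_mul, hη', mul_div_assoc',
    div_le_iff₀ (by positivity)]
  nlinarith [hη.le]

end Nf

/-- **Families of twists by Hecke characters and by eigenforms.** -/
theorem twist_familiesX {ι : Type} {M : κ' → ℕ} [∀ j, NeZero (M j)]
    (X : ∀ j, Subgroup (DirichletCharacter ℂ (M j))) (hX : ∀ j, SelfTwists (u j) (X j))
    (hb₀ : 0 ≤ b₀) (h₀ : WeilK S₀ t₀ i b₀) (hd : ∀ j, 0 ≤ d j)
    (h : ∀ j, WeilK (S j) (t j) i (d j)) (hδ : ∀ j, SecondMoment (S j) (t j) i (d j) (δ j))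
    (G : ∀ j, Subgroup (K j ≃ₐ[ℚ] K j)) (hG : ∀ j, InvariantK (S j) (t j) (G j))
    (he : ∀ j, 0 ≤ e j) (h' : ∀ j, WeilK (R j) (u j) i (e j))
    (hθ : ∀ j, SecondMoment (R j) (u j) i (e j) (θ j))
    (ψ : ι → ∀ j, Fin (w j) → HeckeChar (K j)) (hdist : DistinctOrbits G δ ψ)
    (f : ι → ∀ j, Fin (z j) → Eigenform) (hdist' : DistinctTwists X θ f) (F : ι → ℂ → ℂ)
    (hF : ∀ a, IsTwistContinuation S₀ t₀ S t R u i (ψ a) (f a) (F a)) :
    ∃ m : ι → ℤ, (∀ a, meromorphicOrderAt (F a) ((i : ℂ) / 2 + 1) = m a) ∧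
      (∀ n, OrdK S₀ t₀ i n → NearlyEqual m n (∑ j, Real.sqrt (w j * δ j / Nat.card (G j)) +
        ∑ j, Real.sqrt (z j * θ j * Module.finrank ℚ (L j) / Nat.card (X j))) ∧
        ∀ c, LowerK t₀ i c → (n : ℝ) ≤ -c) ∧
      (Infinite ι → ∃ n, NearlyEqual m n (∑ j, Real.sqrt (w j * δ j / Nat.card (G j)) +
        ∑ j, Real.sqrt (z j * θ j * Module.finrank ℚ (L j) / Nat.card (X j))) ∧
        ∀ c, LowerK t₀ i c → (n : ℝ) ≤ -c) := by
  choose m hm hmean using fun a => Nf.member hb₀ h₀ hd h he h' (hF a)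
  have hcp := Nf.CoreBound.add (core_orbit hd h hδ hG hdist) (Nf.core_formX he h' hθ hX hdist')
  have hD : 0 ≤ ∑ j, Real.sqrt ((w j : ℝ) * δ j / Nat.card (G j)) +
      ∑ j, Real.sqrt (z j * θ j * Module.finrank ℚ (L j) / Nat.card (X j)) :=
    add_nonneg (Finset.sum_nonneg fun _ _ => Real.sqrt_nonneg _)
      (Finset.sum_nonneg fun _ _ => Real.sqrt_nonneg _)
  refine ⟨m, hm, fun n hn => ⟨knownA hD hcp hmean n (fixed_mean hb₀ h₀ hn), fun c hc => ?_⟩,
    fun _ => ?_⟩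
  · have h1 := fixed_mean hb₀ h₀ hn
    have h2 : c ≤ -(n : ℝ) := by
      refine le_of_forall_sub_le fun η hη => ?_
      exact ge_of_tendsto h1 (lower_mean hb₀ h₀ hc hη)
    linarith
  · obtain ⟨n, hn, hinf⟩ := infiniteA hD hcp hmean
    exact ⟨n, hn, fun c hc => lowerA hcp hmean hinf fun η hη => lower_mean hb₀ h₀ hc hη⟩

end

end Pool.Agent.Work.MP_2b9663_nt
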