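import Pool.Agent.Work.MP_2b9663_nt.Nf.Final2
import Pool.Agent.Work.MP_2b9663_nt.Nf.DefsZ

set_option autoImplicit false

/-!
The theorem on families of twists by Hecke characters and eigenforms, with the upper bound for the
orders in terms of the traces of the fixed part.
-/

namespace Pool.Agent.Work.MP_2b9663_nt

open NumberField Ideal Filter Topology IsDedekindDomain He Nf

namespace Nf

variable {ι : Type} {μ : ℝ → ℝ} {y : ι → ℝ → ℝ} {m : ι → ℤ} {D c : ℝ}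

/-- the number of positive orders -/
lemma atMost_of_sum (H : ∀ s : Finset ι, ∑ a ∈ s, (max ((m a : ℝ) + c) 0) ^ 2 ≤ D ^ 2) :
    NearlyAtMost m c D := by
  classical
  refine ⟨H, fun hc => ?_⟩
  have hc0 : 0 < 1 + c := by linarith
  have hcard : ∀ s : Finset ι, (∀ a ∈ s, 0 < m a) → s.card ≤ ⌊(D / (1 + c)) ^ 2⌋₊ := by
    intro s hs
    rw [Nat.le_floor_iff (sq_nonneg _), div_pow, le_div_iff₀ (by positivity)]
    refine le_trans ?_ (H s)
    have h1 : ∀ a ∈ s, (1 + c) ^ 2 ≤ (max ((m a : ℝ) + c) 0) ^ 2 := by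
      intro a ha
      refine pow_le_pow_left₀ hc0.le (le_max_of_le_left ?_) 2
      have h2 : (1 : ℝ) ≤ m a := by exact_mod_cast hs a ha
      linarith
    calc (s.card : ℝ) * (1 + c) ^ 2 = ∑ a ∈ s, (1 + c) ^ 2 := by simp
      _ ≤ _ := Finset.sum_le_sum h1
  have hfin : {a | 0 < m a}.Finite := by
    by_contra hinf
    obtain ⟨s, hs, hc⟩ := Set.Infinite.exists_subset_card_eq hinf (⌊(D / (1 + c)) ^ 2⌋₊ + 1)
    have := hcard s fun a ha => hs ha
    omega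
  rw [hfin.encard_eq_coe_toFinset_card]
  exact_mod_cast hcard _ fun a ha => by simpa using ha

/-- a lower bound for the fixed part gives an upper bound for the orders, one by one and in the mean -/
theorem atMostA (hD : 0 ≤ D) (hcp : CoreBound y D)
    (hm : ∀ a, Tendsto (fun ε => μ ε + y a ε) (𝓝[>] 0) (𝓝 (-(m a : ℝ))))
    (hc : ∀ η : ℝ, 0 < η → ∀ᶠ ε : ℝ in 𝓝[>] 0, c - η ≤ μ ε) : NearlyAtMost m c D := by
  classical
  refine atMost_of_sum fun s => ?_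
  set x : ι → ℝ := fun a => max ((m a : ℝ) + c) 0 with hx
  have hx0 : ∀ a, 0 ≤ x a := fun a => le_max_right _ _
  have hxx : ∀ a, x a * ((m a : ℝ) + c) = x a ^ 2 := by
    intro a
    rcases le_total ((m a : ℝ) + c) 0 with h | h
    · simp [hx, max_eq_right h]
    · simp only [hx, max_eq_left h]
      ring
  refine sq_le_of_core (Finset.sum_nonneg fun a _ => sq_nonneg _) hD ?_
  refine le_of_forall_pos_le_add fun e he => ?_
  have hX : 0 ≤ ∑ a ∈ s, x a := Finset.sum_nonneg fun a _ => hx0 a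
  set η : ℝ := e / (1 + ∑ a ∈ s, x a) with hη
  have hη0 : 0 < η := by positivity
  have hlim : Tendsto (fun ε => ∑ a ∈ s, x a * (μ ε + y a ε)) (𝓝[>] 0)
      (𝓝 (∑ a ∈ s, x a * (-(m a : ℝ)))) :=
    tendsto_finsetSum _ fun a _ => (hm a).const_mul _
  have h1 : (∑ a ∈ s, x a) * (c - η) - (D * Real.sqrt (∑ a ∈ s, x a ^ 2) + η) ≤
      ∑ a ∈ s, x a * (-(m a : ℝ)) := by
    refine ge_of_tendsto hlim ?_
    filter_upwards [hc η hη0, hcp s (fun a => -x a) η hη0] with ε h2 h3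
    have h4 : ∑ a ∈ s, (-x a) ^ 2 = ∑ a ∈ s, x a ^ 2 :=
      Finset.sum_congr rfl fun a _ => by ring
    rw [h4] at h3
    have h5 : ∑ a ∈ s, x a * (μ ε + y a ε) = (∑ a ∈ s, x a) * μ ε - ∑ a ∈ s, -x a * y a ε := by
      rw [Finset.sum_mul, ← Finset.sum_sub_distrib]
      exact Finset.sum_congr rfl fun a _ => by ring
    rw [h5]
    have h6 := mul_le_mul_of_nonneg_left h2 hX
    linarith
  have h2 : ∑ a ∈ s, x a ^ 2 = (∑ a ∈ s, x a) * c - ∑ a ∈ s, x a * (-(m a : ℝ)) := by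
    rw [Finset.sum_mul, ← Finset.sum_sub_distrib]
    refine Finset.sum_congr rfl fun a _ => ?_
    rw [← hxx a]
    ring
  have h3 : (1 + ∑ a ∈ s, x a) * η = e := by
    rw [hη]
    field_simp
  have h4 : (∑ a ∈ s, max ((m a : ℝ) + c) 0 ^ 2) = ∑ a ∈ s, x a ^ 2 := rfl
  rw [h4]
  nlinarith

end Nf

section

variable {κ κ' : Type} [Fintype κ] [Fintype κ'] {K₀ : Type} [Field K₀] [NumberField K₀]
  {K : κ → Type} [∀ j, Field (K j)] [∀ j, NumberField (K j)]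
  {L : κ' → Type} [∀ j, Field (L j)] [∀ j, NumberField (L j)]
  {S₀ : Finset (HeightOneSpectrum (𝓞 K₀))} {t₀ : HeightOneSpectrum (𝓞 K₀) → ℕ → ℂ}
  {S : ∀ j, Finset (HeightOneSpectrum (𝓞 (K j)))}
  {t : ∀ j, HeightOneSpectrum (𝓞 (K j)) → ℕ → ℂ}
  {R : ∀ j, Finset (HeightOneSpectrum (𝓞 (L j)))}
  {u : ∀ j, HeightOneSpectrum (𝓞 (L j)) → ℕ → ℂ} {i : ℕ} {w : κ → ℕ} {z : κ' → ℕ} {b₀ : ℝ}
  {d δ : κ → ℝ} {e θ : κ' → ℝ}

/-- **Families of twists by Hecke characters and by eigenforms.** -/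
theorem twist_familiesZ {ι : Type} {M : κ' → ℕ} [∀ j, NeZero (M j)]
    (X : ∀ j, Subgroup (DirichletCharacter ℂ (M j))) (hX : ∀ j, SelfTwists (u j) (X j))
    (hb₀ : 0 ≤ b₀) (h₀ : WeilK S₀ t₀ i b₀) (hd : ∀ j, 0 ≤ d j)
    (h : ∀ j, WeilK (S j) (t j) i (d j)) (hδ : ∀ j, SecondMoment (S j) (t j) i (d j) (δ j))
    (G : ∀ j, Subgroup (K j ≃ₐ[ℚ] K j)) (hG : ∀ j, InvariantK (S j) (t j) (G j))
    (he : ∀ j, 0 ≤ e j) (h' : ∀ j, WeilK (R j) (u j) i (e j))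
    (hθ : ∀ j, SecondMoment (R j) (u j) i (e j) (θ j))
    (ψ : ι → ∀ j, Fin (w j) → HeckeChar (K j)) (hdist : DistinctOrbits G δ ψ)
    (f : ι → ∀ j, Fin (z j) → Eigenform) (hdist' : DistinctTwists X θ f) (F : ι → ℂ → ℂ)
    (hF : ∀ a, IsTwistContinuation S₀ t₀ S t R u i (ψ a) (f a) (F a)) {D : ℝ}
    (hD : D = ∑ j, Real.sqrt (w j * δ j / Nat.card (G j)) +
      ∑ j, Real.sqrt (z j * θ j * Module.finrank ℚ (L j) / Nat.card (X j))) :
    ∃ m : ι → ℤ, (∀ a, meromorphicOrderAt (F a) ((i : ℂ) / 2 + 1) = m a) ∧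
      (∀ n, OrdK S₀ t₀ i n → NearlyEqual m n D) ∧ (Infinite ι → ∃ n, NearlyEqual m n D) ∧
      ∀ c, LowerK t₀ i c → NearlyAtMost m c D := by
  choose m hm hmean using fun a => Nf.member hb₀ h₀ hd h he h' (hF a)
  have hcp := Nf.CoreBound.add (core_orbit hd h hδ hG hdist) (Nf.core_formX he h' hθ hX hdist')
  rw [← hD] at hcp
  have hD0 : 0 ≤ D := by
    rw [hD]
    exact add_nonneg (Finset.sum_nonneg fun _ _ => Real.sqrt_nonneg _)
      (Finset.sum_nonneg fun _ _ => Real.sqrt_nonneg _)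
  refine ⟨m, hm, fun n hn => knownA hD0 hcp hmean n (fixed_mean hb₀ h₀ hn), fun _ => ?_,
    fun c hc => Nf.atMostA hD0 hcp hmean fun η hη => lower_mean hb₀ h₀ hc hη⟩
  obtain ⟨n, hn, -⟩ := infiniteA hD0 hcp hmean
  exact ⟨n, hn⟩

end

end Pool.Agent.Work.MP_2b9663_nt
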