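import Pool.Agent.Work.MP_2b9663_nt.Nf.Euler
import Pool.Agent.Work.MP_2b9663_nt.Mo.Nonvan

set_option autoImplicit false

/-! Nonvanishing at `s = 1` and the orthogonality relations for the coefficients at primes, for
eigenforms of any weight and character. -/

namespace Pool.Agent.Work.MP_2b9663_nt.Nf

open Complex Filter Topology

section

variable {k l N M : ℕ} {χ : DirichletCharacter ℂ N} {ψ : DirichletCharacter ℂ M} {a b : ℕ → ℂ}

/-- the logarithm of the Rankin-Selberg `L`-function -/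
noncomputable def LE (k l N M : ℕ) (χ : DirichletCharacter ℂ N) (ψ : DirichletCharacter ℂ M)
    (a b : ℕ → ℂ) (s : ℂ) : ℂ :=
  ∑' p : Nat.Primes, locE k l N M χ ψ a b s p

/-- `Φ` is `(s - 1)` times the Rankin-Selberg `L`-function. -/
structure IsRS (k l N M : ℕ) (χ : DirichletCharacter ℂ N) (ψ : DirichletCharacter ℂ M)
    (a b : ℕ → ℂ) (Φ : ℂ → ℂ) : Prop where
  diff : Differentiable ℂ Φ
  eq : ∀ s : ℂ, 1 < s.re → Φ s = (s - 1) * Complex.exp (LE k l N M χ ψ a b s)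

/-- bound for the terms of the local logarithm -/
lemma norm_term_le (hk : 1 ≤ k) (hl : 1 ≤ l) (ha : IsEigenform k N χ a) (hb : IsEigenform l M ψ b)
    {s : ℂ} (p : Nat.Primes) (r : ℕ) :
    ‖starRingEnd ℂ (ntr k N χ a p (r + 1)) * ntr l M ψ b p (r + 1) *
      ((p : ℕ) : ℂ) ^ (-(((r : ℂ) + 1) * s)) / (r + 1)‖ ≤
      4 * ‖((p : ℕ) : ℂ) ^ (-s)‖ ^ (r + 1) := by
  rw [Mo.cpow_succ_mul, norm_div, norm_mul, norm_mul, norm_pow, RCLike.norm_conj]
  have h6 : ‖ntr k N χ a p (r + 1)‖ * ‖ntr l M ψ b p (r + 1)‖ ≤ 2 * 2 :=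
    mul_le_mul (ntr_norm_le hk ha p.2 (Nat.succ_pos r)) (ntr_norm_le hl hb p.2 (Nat.succ_pos r))
      (norm_nonneg _) (by norm_num)
  have h7 : (1 : ℝ) ≤ ‖((r : ℂ) + 1)‖ := by
    have : ((r : ℂ) + 1) = ((r + 1 : ℕ) : ℂ) := by push_cast; ring
    rw [this, Complex.norm_natCast]
    push_cast
    linarith [Nat.cast_nonneg (α := ℝ) r]
  refine (div_le_self (by positivity) h7).trans ?_
  have h8 : (0 : ℝ) ≤ ‖((p : ℕ) : ℂ) ^ (-s)‖ ^ (r + 1) := by positivity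
  nlinarith

lemma term_summable (hk : 1 ≤ k) (hl : 1 ≤ l) (ha : IsEigenform k N χ a)
    (hb : IsEigenform l M ψ b) {s : ℂ} (hs : 1 < s.re) (p : Nat.Primes) :
    Summable fun r : ℕ => starRingEnd ℂ (ntr k N χ a p (r + 1)) * ntr l M ψ b p (r + 1) *
      ((p : ℕ) : ℂ) ^ (-(((r : ℂ) + 1) * s)) / (r + 1) :=
  Summable.of_norm_bounded (Mo.geom_summable hs p) (norm_term_le hk hl ha hb p)

/-- Bound for the local logarithm. -/
lemma norm_locE_le (hk : 1 ≤ k) (hl : 1 ≤ l) (ha : IsEigenform k N χ a)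
    (hb : IsEigenform l M ψ b) {s : ℂ} (hs : 1 < s.re) (p : Nat.Primes) :
    ‖locE k l N M χ ψ a b s p‖ ≤ 8 * ((p : ℕ) : ℝ) ^ (-s.re) := by
  obtain ⟨h1, h2⟩ := Mo.norm_Xp_lt hs p
  have hterm : ∀ r : ℕ, ‖starRingEnd ℂ (ntr k N χ a p (r + 1)) * ntr l M ψ b p (r + 1) *
      ((p : ℕ) : ℂ) ^ (-(((r : ℂ) + 1) * s)) / (r + 1)‖ ≤
      4 * ‖((p : ℕ) : ℂ) ^ (-s)‖ * (1 / 2) ^ r := by
    intro r
    refine (norm_term_le hk hl ha hb p r).trans ?_
    rw [pow_succ, mul_comm (‖((p : ℕ) : ℂ) ^ (-s)‖ ^ r), ← mul_assoc]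
    exact mul_le_mul_of_nonneg_left (pow_le_pow_left₀ (norm_nonneg _) h2.le r) (by positivity)
  have hsum : Summable fun r : ℕ => 4 * ‖((p : ℕ) : ℂ) ^ (-s)‖ * (1 / 2 : ℝ) ^ r :=
    (summable_geometric_of_lt_one (by norm_num) (by norm_num)).mul_left _
  have h9 := tsum_of_norm_bounded hsum.hasSum hterm
  rw [tsum_mul_left, tsum_geometric_of_lt_one (by norm_num) (by norm_num), h1] at h9
  refine h9.trans (le_of_eq ?_)
  ring

lemma LE_summable (hk : 1 ≤ k) (hl : 1 ≤ l) (ha : IsEigenform k N χ a) (hb : IsEigenform l M ψ b)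
    {s : ℂ} (hs : 1 < s.re) : Summable fun p : Nat.Primes => locE k l N M χ ψ a b s p := by
  refine Summable.of_norm_bounded ?_ (fun p => norm_locE_le hk hl ha hb hs p)
  exact (Nat.Primes.summable_rpow.2 (by linarith)).mul_left 8

/-- the logarithm of `L(s, f × f) L(s, g × g) L(s, f × g) L(s, g × f)` -/
lemma LE_square (hk : 1 ≤ k) (hl : 1 ≤ l) (ha : IsEigenform k N χ a) (hb : IsEigenform l M ψ b)
    {s : ℂ} (hs : 1 < s.re) :
    LE k k N N χ χ a a s + LE l l M M ψ ψ b b s + (LE k l N M χ ψ a b s + LE l k M N ψ χ b a s) =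
      ∑' p : Nat.Primes, ∑' r : ℕ,
      ((‖ntr k N χ a p (r + 1) + ntr l M ψ b p (r + 1)‖ ^ 2 : ℝ) : ℂ) *
      ((p : ℕ) : ℂ) ^ (-(((r : ℂ) + 1) * s)) / (r + 1) := by
  unfold LE
  rw [← (LE_summable hk hk ha ha hs).tsum_add (LE_summable hl hl hb hb hs),
    ← (LE_summable hk hl ha hb hs).tsum_add (LE_summable hl hk hb ha hs),
    ← ((LE_summable hk hk ha ha hs).add (LE_summable hl hl hb hb hs)).tsum_add
      ((LE_summable hk hl ha hb hs).add (LE_summable hl hk hb ha hs))]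
  refine tsum_congr fun p => ?_
  unfold locE
  rw [← (term_summable hk hk ha ha hs p).tsum_add (term_summable hl hl hb hb hs p),
    ← (term_summable hk hl ha hb hs p).tsum_add (term_summable hl hk hb ha hs p),
    ← ((term_summable hk hk ha ha hs p).add (term_summable hl hl hb hb hs p)).tsum_add
      ((term_summable hk hl ha hb hs p).add (term_summable hl hk hb ha hs p))]
  refine tsum_congr fun r => ?_
  have h1 : ∀ u v : ℂ, ((‖u + v‖ ^ 2 : ℝ) : ℂ) = starRingEnd ℂ u * u + starRingEnd ℂ v * v +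
      (starRingEnd ℂ u * v + starRingEnd ℂ v * u) := by
    intro u v
    rw [← Complex.normSq_eq_norm_sq, Complex.normSq_eq_conj_mul_self, map_add]
    ring
  rw [h1]
  ring

lemma locE_conj (s : ℂ) (p : Nat.Primes) :
    locE l k M N ψ χ b a s p = starRingEnd ℂ (locE k l N M χ ψ a b (starRingEnd ℂ s) p) := by
  unfold locE
  rw [Complex.conj_tsum]
  refine tsum_congr fun r => ?_
  have h1 : starRingEnd ℂ (((p : ℕ) : ℂ) ^ (-(((r : ℂ) + 1) * starRingEnd ℂ s))) =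
      ((p : ℕ) : ℂ) ^ (-(((r : ℂ) + 1) * s)) := by
    have h2 := Complex.conj_cpow ((p : ℕ) : ℂ) (-(((r : ℂ) + 1) * s))
      (by rw [Complex.natCast_arg]; exact Real.pi_pos.ne)
    rw [Complex.conj_natCast] at h2
    rw [h2]
    congr 2
    simp
  rw [map_div₀, map_mul, map_mul, h1, Complex.conj_conj]
  simp only [map_add, map_one, Complex.conj_natCast]
  ring

lemma LE_conj (s : ℂ) :
    LE l k M N ψ χ b a s = starRingEnd ℂ (LE k l N M χ ψ a b (starRingEnd ℂ s)) := by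
  unfold LE
  rw [Complex.conj_tsum]
  exact tsum_congr fun p => locE_conj s p

lemma diff_conj {Φ : ℂ → ℂ} (h : Differentiable ℂ Φ) :
    Differentiable ℂ fun s => starRingEnd ℂ (Φ (starRingEnd ℂ s)) := by
  intro s
  have h1 := (h (starRingEnd ℂ s)).conj_conj
  rwa [Complex.conj_conj] at h1

lemma IsRS.symm {Φ : ℂ → ℂ} (hΦ : IsRS k l N M χ ψ a b Φ) :
    IsRS l k M N ψ χ b a (fun s => starRingEnd ℂ (Φ (starRingEnd ℂ s))) := by
  refine ⟨diff_conj hΦ.diff, fun s hs => ?_⟩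
  beta_reduce
  rw [hΦ.eq _ (by rwa [Complex.conj_re]), LE_conj (k := k) (l := l), map_mul, map_sub,
    Complex.conj_conj, map_one, ← Complex.exp_conj]

/-- The Rankin-Selberg `L`-function of `f × f` has a pole at `1`. -/
theorem diag_ne (hk : 1 ≤ k) (ha : IsEigenform k N χ a) {Φ : ℂ → ℂ}
    (hΦ : IsRS k k N N χ χ a a Φ) (hz : Φ (-1) = 0) : Φ 1 ≠ 0 := by
  intro h0
  obtain ⟨hd, hq, -⟩ := Mo.exists_quotient hΦ.diff h0
  classical
  set c : ℕ → ℕ → ℝ := fun p r => if p.Prime ∧ 1 ≤ r then ‖ntr k N χ a p r‖ ^ 2 else 0 with hc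
  have h1 : ∀ p r, 0 ≤ c p r := by
    intro p r
    simp only [hc]
    split_ifs
    · exact sq_nonneg _
    · exact le_rfl
  have h2 : ∀ p r, c p r ≤ 4 := by
    intro p r
    simp only [hc]
    split_ifs with h
    · have h3 := ntr_norm_le hk ha h.1 h.2
      nlinarith [norm_nonneg (ntr k N χ a p r)]
    · norm_num
  refine Mo.landau_exp h1 h2 hd (fun s hs => ?_) (y := -1) (by norm_num) ?_
  · have h3 := hq s
    rw [hΦ.eq s hs] at h3
    have hs1 : s - 1 ≠ 0 := by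
      intro h4
      rw [sub_eq_zero] at h4
      rw [h4] at hs
      simp at hs
    rw [← mul_left_cancel₀ hs1 h3]
    congr 1
    unfold LE locE
    refine tsum_congr fun p => tsum_congr fun r => ?_
    simp only [hc]
    rw [if_pos ⟨p.2, Nat.succ_pos r⟩, ← Complex.normSq_eq_norm_sq, Complex.normSq_eq_conj_mul_self]
  · have h3 := hq (-1)
    rw [hz] at h3
    have h4 : (-1 - 1 : ℂ) ≠ 0 := by norm_num
    have h5 : dslope Φ 1 (-1) = 0 := by
      rcases mul_eq_zero.1 h3.symm with h | h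
      · exact absurd h h4
      · exact h
    push_cast
    exact h5

/-- **Nonvanishing at `1`** of the Rankin-Selberg `L`-function of `f × g`. -/
theorem offdiag_ne (hk : 1 ≤ k) (hl : 1 ≤ l) (ha : IsEigenform k N χ a) (hb : IsEigenform l M ψ b)
    {Φa Φb Φ : ℂ → ℂ} (hΦa : IsRS k k N N χ χ a a Φa) (hz : Φa (-1) = 0)
    (hΦb : IsRS l l M M ψ ψ b b Φb) (hΦ : IsRS k l N M χ ψ a b Φ) (h0 : Φ 1 = 0) :
    deriv Φ 1 ≠ 0 := by
  intro h1
  obtain ⟨hd, hq, hdd⟩ := Mo.exists_quotient hΦ.diff h0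
  rw [h1] at hdd
  obtain ⟨hd', hq', -⟩ := Mo.exists_quotient hd hdd
  set Ψ := dslope (dslope Φ 1) 1 with hΨ
  classical
  set c : ℕ → ℕ → ℝ := fun p r => if p.Prime ∧ 1 ≤ r then
    ‖ntr k N χ a p r + ntr l M ψ b p r‖ ^ 2 else 0 with hc
  have h2 : ∀ p r, 0 ≤ c p r := by
    intro p r
    simp only [hc]
    split_ifs
    · exact sq_nonneg _
    · exact le_rfl
  have h3 : ∀ p r, c p r ≤ 16 := by
    intro p r
    simp only [hc]
    split_ifs with h
    · have h3 := ntr_norm_le hk ha h.1 h.2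
      have h4 := ntr_norm_le hl hb h.1 h.2
      have h5 := norm_add_le (ntr k N χ a p r) (ntr l M ψ b p r)
      nlinarith [norm_nonneg (ntr k N χ a p r + ntr l M ψ b p r)]
    · norm_num
  refine Mo.landau_exp (Z := fun s => Φa s * Φb s * (Ψ s * starRingEnd ℂ (Ψ (starRingEnd ℂ s))))
    h2 h3 ((hΦa.diff.mul hΦb.diff).mul (hd'.mul (diff_conj hd'))) (fun s hs => ?_) (y := -1)
    (by norm_num) ?_
  · have hne : ∀ s : ℂ, 1 < s.re → s - 1 ≠ 0 := by
      intro s hs h4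
      rw [sub_eq_zero] at h4
      rw [h4] at hs
      simp at hs
    have hkey : ∀ s : ℂ, 1 < s.re → Complex.exp (LE k l N M χ ψ a b s) = (s - 1) * Ψ s := by
      intro s hs
      have h4 := hq s
      rw [hq' s, hΦ.eq s hs] at h4
      exact mul_left_cancel₀ (hne s hs) h4
    have h5 : Complex.exp (LE l k M N ψ χ b a s) =
        (s - 1) * starRingEnd ℂ (Ψ (starRingEnd ℂ s)) := by
      rw [LE_conj (k := k) (l := l), Complex.exp_conj, hkey _ (by rwa [Complex.conj_re]), map_mul,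
        map_sub, Complex.conj_conj, map_one]
    have h6 : ∑' p : Nat.Primes, ∑' r : ℕ, ((c p (r + 1) : ℝ) : ℂ) *
        ((p : ℕ) : ℂ) ^ (-(((r : ℂ) + 1) * s)) / (r + 1) =
        LE k k N N χ χ a a s + LE l l M M ψ ψ b b s +
          (LE k l N M χ ψ a b s + LE l k M N ψ χ b a s) := by
      rw [LE_square hk hl ha hb hs]
      refine tsum_congr fun p => tsum_congr fun r => ?_
      simp only [hc]
      rw [if_pos ⟨p.2, Nat.succ_pos r⟩]
    rw [h6, Complex.exp_add, Complex.exp_add, Complex.exp_add, h5, hkey s hs]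
    beta_reduce
    rw [hΦa.eq s hs, hΦb.eq s hs]
    ring
  · beta_reduce
    have h4 : Φa ((-1 : ℝ) : ℂ) = 0 := by
      push_cast
      exact hz
    rw [h4]
    ring

lemma lam_prime_le (hk : 1 ≤ k) (ha : IsEigenform k N χ a) (p : Nat.Primes) : ‖lam k a p‖ ≤ 2 := by
  rw [← ntr_one (N := N) (χ := χ)]
  exact ntr_norm_le hk ha p.2 le_rfl

/-- comparison of the local logarithm with its first term -/
lemma locE_sub (hk : 1 ≤ k) (hl : 1 ≤ l) (ha : IsEigenform k N χ a) (hb : IsEigenform l M ψ b)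
    {s : ℂ} (hs : 1 < s.re) (p : Nat.Primes) :
    ‖locE k l N M χ ψ a b s p - starRingEnd ℂ (lam k a p) * lam l b p * ((p : ℕ) : ℂ) ^ (-s)‖ ≤
      8 * ((p : ℕ) : ℝ) ^ (-2 : ℝ) := by
  obtain ⟨h1, h2⟩ := Mo.norm_Xp_lt hs p
  have h3 := (term_summable hk hl ha hb hs p).tsum_eq_zero_add
  have h4 : locE k l N M χ ψ a b s p -
      starRingEnd ℂ (lam k a p) * lam l b p * ((p : ℕ) : ℂ) ^ (-s) =
      ∑' r : ℕ, starRingEnd ℂ (ntr k N χ a p (r + 1 + 1)) * ntr l M ψ b p (r + 1 + 1) *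
      ((p : ℕ) : ℂ) ^ (-((((r + 1 : ℕ) : ℂ) + 1) * s)) / (((r + 1 : ℕ) : ℂ) + 1) := by
    unfold locE
    rw [h3]
    simp only [zero_add, ntr_one, Nat.cast_zero, one_mul, div_one]
    ring
  rw [h4]
  set x : ℝ := ‖((p : ℕ) : ℂ) ^ (-s)‖ with hx
  have hx0 : 0 ≤ x := norm_nonneg _
  have h5 : ∀ r : ℕ, ‖starRingEnd ℂ (ntr k N χ a p (r + 1 + 1)) * ntr l M ψ b p (r + 1 + 1) *
      ((p : ℕ) : ℂ) ^ (-((((r + 1 : ℕ) : ℂ) + 1) * s)) / (((r + 1 : ℕ) : ℂ) + 1)‖ ≤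
      4 * x ^ 2 * (1 / 2) ^ r := by
    intro r
    refine (norm_term_le hk hl ha hb p (r + 1)).trans ?_
    rw [← hx, show r + 1 + 1 = 2 + r by ring, pow_add, ← mul_assoc]
    exact mul_le_mul_of_nonneg_left (pow_le_pow_left₀ hx0 h2.le r) (by positivity)
  have hsum : Summable fun r : ℕ => 4 * x ^ 2 * (1 / 2 : ℝ) ^ r :=
    (summable_geometric_of_lt_one (by norm_num) (by norm_num)).mul_left _
  have h9 := tsum_of_norm_bounded hsum.hasSum h5
  rw [tsum_mul_left, tsum_geometric_of_lt_one (by norm_num) (by norm_num)] at h9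
  refine h9.trans ?_
  have h10 : x ≤ ((p : ℕ) : ℝ) ^ (-1 : ℝ) := by
    rw [h1]
    exact Real.rpow_le_rpow_of_exponent_le (by exact_mod_cast p.2.one_le) (by linarith)
  have h11 : x ^ 2 ≤ ((p : ℕ) : ℝ) ^ (-2 : ℝ) := by
    calc x ^ 2 ≤ (((p : ℕ) : ℝ) ^ (-1 : ℝ)) ^ 2 := pow_le_pow_left₀ hx0 h10 2
      _ = ((p : ℕ) : ℝ) ^ (-2 : ℝ) := by
          rw [← Real.rpow_natCast, ← Real.rpow_mul (Nat.cast_nonneg _)]
          norm_num
  calc 4 * x ^ 2 * (1 - 1 / 2)⁻¹ = 8 * x ^ 2 := by norm_num; ring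
    _ ≤ 8 * ((p : ℕ) : ℝ) ^ (-2 : ℝ) := mul_le_mul_of_nonneg_left h11 (by norm_num)

/-- the real part of the product of the coefficients at a prime -/
noncomputable def rc (k l : ℕ) (a b : ℕ → ℂ) (p : Nat.Primes) : ℝ :=
  (starRingEnd ℂ (lam k a p) * lam l b p).re

lemma rc_le (hk : 1 ≤ k) (hl : 1 ≤ l) (ha : IsEigenform k N χ a) (hb : IsEigenform l M ψ b)
    (p : Nat.Primes) : |rc k l a b p| ≤ 4 := by
  refine (Complex.abs_re_le_norm _).trans ?_
  rw [norm_mul, RCLike.norm_conj]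
  calc ‖lam k a p‖ * ‖lam l b p‖ ≤ 2 * 2 :=
        mul_le_mul (lam_prime_le hk ha p) (lam_prime_le hl hb p) (norm_nonneg _) (by norm_num)
    _ = 4 := by norm_num

/-- comparison of the logarithm with the sum over the primes -/
lemma LE_sub_PS (hk : 1 ≤ k) (hl : 1 ≤ l) (ha : IsEigenform k N χ a) (hb : IsEigenform l M ψ b)
    {ε : ℝ} (hε : 0 < ε) :
    |(LE k l N M χ ψ a b ((1 + ε : ℝ) : ℂ)).re - PS (rc k l a b) ε| ≤ 8 * P2 := by
  set s : ℂ := ((1 + ε : ℝ) : ℂ) with hs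
  have hs1 : 1 < s.re := by rw [hs, Complex.ofReal_re]; linarith
  set u : Nat.Primes → ℂ := fun p => starRingEnd ℂ (lam k a p) * lam l b p *
    ((p : ℕ) : ℂ) ^ (-s) with hu
  have hpow : ∀ p : Nat.Primes, ((p : ℕ) : ℂ) ^ (-s) = ((((p : ℕ) : ℝ) ^ (-(1 + ε)) : ℝ) : ℂ) := by
    intro p
    rw [Complex.ofReal_cpow (Nat.cast_nonneg _), hs]
    push_cast
    rfl
  have hre : ∀ p, (u p).re = rc k l a b p * ((p : ℕ) : ℝ) ^ (-(1 + ε)) := by
    intro p
    simp only [hu]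
    rw [hpow, Complex.re_mul_ofReal]
    rfl
  have hSu : Summable u := by
    have h1 : ∀ p : Nat.Primes, ‖u p‖ ≤ 4 * ((p : ℕ) : ℝ) ^ (-(1 + ε)) := by
      intro p
      simp only [hu]
      rw [hpow, norm_mul, norm_mul, RCLike.norm_conj, Complex.norm_real, Real.norm_eq_abs,
        abs_of_nonneg (Real.rpow_nonneg (Nat.cast_nonneg _) _)]
      refine mul_le_mul_of_nonneg_right ?_ (Real.rpow_nonneg (Nat.cast_nonneg _) _)
      calc ‖lam k a p‖ * ‖lam l b p‖ ≤ 2 * 2 :=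
            mul_le_mul (lam_prime_le hk ha p) (lam_prime_le hl hb p) (norm_nonneg _) (by norm_num)
        _ = 4 := by norm_num
    exact Summable.of_norm_bounded ((Nat.Primes.summable_rpow.2 (by linarith)).mul_left 4) h1
  have h2 : PS (rc k l a b) ε = (∑' p, u p).re := by
    rw [Complex.re_tsum hSu]
    unfold PS
    exact tsum_congr fun p => (hre p).symm
  rw [h2, ← Complex.sub_re]
  refine (Complex.abs_re_le_norm _).trans ?_
  rw [LE, ← (LE_summable hk hl ha hb hs1).tsum_sub hSu]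
  refine (tsum_of_norm_bounded (P2_summable.mul_left 8).hasSum
    (fun p => locE_sub hk hl ha hb hs1 p)).trans (le_of_eq ?_)
  rw [tsum_mul_left]
  rfl

lemma LA_PS_of_LE (hk : 1 ≤ k) (hl : 1 ≤ l) (ha : IsEigenform k N χ a) (hb : IsEigenform l M ψ b)
    {κ : ℝ} (h : LA (fun ε => (LE k l N M χ ψ a b ((1 + ε : ℝ) : ℂ)).re) κ) :
    LA (PS (rc k l a b)) κ := by
  refine h.congr_bounded (C := 8 * P2) ?_
  filter_upwards [self_mem_nhdsWithin] with ε hε
  rw [abs_sub_comm]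
  exact LE_sub_PS hk hl ha hb hε

/-- a pole -/
theorem LA_pole (hk : 1 ≤ k) (hl : 1 ≤ l) (ha : IsEigenform k N χ a) (hb : IsEigenform l M ψ b)
    {Φ : ℂ → ℂ} (hΦ : IsRS k l N M χ ψ a b Φ) (h1 : Φ 1 ≠ 0) : LA (PS (rc k l a b)) 1 := by
  refine LA_PS_of_LE hk hl ha hb ?_
  have h2 : Tendsto (fun ε : ℝ => ‖Φ ((1 + ε : ℝ) : ℂ)‖) (𝓝[>] 0) (𝓝 ‖Φ 1‖) :=
    ((hΦ.diff.continuous.tendsto 1).comp (Mo.tendsto_path.mono_right nhdsWithin_le_nhds)).norm
  have h3 := Mo.LA_of_limit (κ := 1) (H := fun ε => (LE k l N M χ ψ a b ((1 + ε : ℝ) : ℂ)).re)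
    (norm_pos_iff.2 h1) (h2.congr' ?_)
  · simpa using h3
  · filter_upwards [self_mem_nhdsWithin] with ε hε0
    have hε : (0 : ℝ) < ε := hε0
    rw [hΦ.eq _ (by rw [Complex.ofReal_re]; linarith), norm_mul, Complex.norm_exp]
    have h4 : (((1 + ε : ℝ) : ℂ) - 1) = (ε : ℂ) := by push_cast; ring
    rw [h4, Complex.norm_real, Real.norm_eq_abs, abs_of_pos hε, pow_one]

/-- no pole and no zero -/
theorem LA_nopole (hk : 1 ≤ k) (hl : 1 ≤ l) (ha : IsEigenform k N χ a) (hb : IsEigenform l M ψ b)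
    {Φ : ℂ → ℂ} (hΦ : IsRS k l N M χ ψ a b Φ) (h0 : Φ 1 = 0) (h1 : deriv Φ 1 ≠ 0) :
    LA (PS (rc k l a b)) 0 := by
  refine LA_PS_of_LE hk hl ha hb ?_
  obtain ⟨hd, hq, hdd⟩ := Mo.exists_quotient hΦ.diff h0
  have h2 : Tendsto (fun ε : ℝ => ‖dslope Φ 1 ((1 + ε : ℝ) : ℂ)‖) (𝓝[>] 0) (𝓝 ‖dslope Φ 1 1‖) :=
    ((hd.continuous.tendsto 1).comp (Mo.tendsto_path.mono_right nhdsWithin_le_nhds)).norm
  rw [hdd] at h2
  have h3 := Mo.LA_of_limit (κ := 0) (H := fun ε => (LE k l N M χ ψ a b ((1 + ε : ℝ) : ℂ)).re)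
    (norm_pos_iff.2 h1) (h2.congr' ?_)
  · simpa using h3
  · filter_upwards [self_mem_nhdsWithin] with ε hε0
    have hε : (0 : ℝ) < ε := hε0
    have h4 : (((1 + ε : ℝ) : ℂ) - 1) = (ε : ℂ) := by push_cast; ring
    have h5 := hq ((1 + ε : ℝ) : ℂ)
    rw [hΦ.eq _ (by rw [Complex.ofReal_re]; linarith)] at h5
    have h6 : (((1 + ε : ℝ) : ℂ) - 1) ≠ 0 := by
      rw [h4]
      exact_mod_cast hε.ne'
    rw [← mul_left_cancel₀ h6 h5, Complex.norm_exp, pow_zero, one_mul]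

end

end Pool.Agent.Work.MP_2b9663_nt.Nf
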