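import Pool.Agent.Work.MP_2b9663_nt.Nf.Strip
import Pool.Agent.Work.MP_2b9663_nt.Mo.Assembly
import Pool.Agent.Work.MP_2b9663_nt.Mo.Ortho
import Pool.Agent.Work.MP_2b9663_nt.Mo.Normal

set_option autoImplicit false

/-! Module O2: orthogonality of two eigenforms of `T_p` with the same character and different
eigenvalues. -/

namespace Pool.Agent.Work.MP_2b9663_nt.Nf

open UpperHalfPlane ModularGroup MeasureTheory CongruenceSubgroup Set Filter Topology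
open scoped MatrixGroups Modular ConjAct Pointwise ModularForm ComplexConjugate

namespace Or

open Mo.Or (dg dg_coe mapGL_coe mem_Gamma0 det_eq mk WW WW_coe WW_det WW_norm restr restr_coe
  det_dg det_dg_pos dg_smul σ_pos sc sc_coe det_sc sc_smul slash_sc dg_mul_WW inj_mul)

variable {k : ℤ}

theorem mem_Gamma1 {N : ℕ} {s : SL(2, ℤ)} : s ∈ Gamma1 N ↔
    (N : ℤ) ∣ s 0 0 - 1 ∧ (N : ℤ) ∣ s 1 1 - 1 ∧ (N : ℤ) ∣ s 1 0 := by
  rw [Gamma1_mem]
  have h : ∀ x : ℤ, ((x : ℤ) : ZMod N) = 1 ↔ (N : ℤ) ∣ x - 1 := by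
    intro x
    rw [← ZMod.intCast_zmod_eq_zero_iff_dvd]
    push_cast
    rw [sub_eq_zero]
  rw [h, h, ZMod.intCast_zmod_eq_zero_iff_dvd]

theorem le_one {N L : ℕ} (h : L ∣ N) :
    (Gamma1 N : Subgroup (GL (Fin 2) ℝ)) ≤ (Gamma1 L : Subgroup (GL (Fin 2) ℝ)) := by
  apply Subgroup.map_mono
  intro s hs
  rw [mem_Gamma1] at hs ⊢
  have h' := Int.natCast_dvd_natCast.2 h
  exact ⟨h'.trans hs.1, h'.trans hs.2.1, h'.trans hs.2.2⟩

theorem le_dg {L p : ℕ} (hp : p ≠ 0) :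
    (Gamma1 (p * L) : Subgroup (GL (Fin 2) ℝ)) ≤
      ConjAct.toConjAct (dg p hp)⁻¹ • (Gamma1 L : Subgroup (GL (Fin 2) ℝ)) := by
  rintro _ ⟨s, hs, rfl⟩
  rw [Subgroup.mem_pointwise_smul_iff_inv_smul_mem, ← ConjAct.toConjAct_inv, inv_inv,
    ConjAct.toConjAct_smul]
  have hs' : s ∈ Gamma1 (p * L) := hs
  rw [mem_Gamma1] at hs'
  obtain ⟨h0, h1, C, hC⟩ := hs'
  have hL : (L : ℤ) ∣ ((p * L : ℕ) : ℤ) := by
    rw [Nat.cast_mul]
    exact dvd_mul_left _ _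
  have hdet := det_eq s
  rw [hC] at hdet
  refine ⟨mk (s 0 0) (p * s 0 1) (L * C) (s 1 1) ?_, ?_, ?_⟩
  · refine Eq.trans ?_ hdet
    push_cast
    ring
  · show _ ∈ Gamma1 L
    rw [mem_Gamma1]
    exact ⟨hL.trans h0, hL.trans h1, ⟨C, rfl⟩⟩
  · rw [eq_mul_inv_iff_mul_eq]
    apply Units.ext
    rw [Units.val_mul, Units.val_mul, dg_coe, Mo.Or.mk_coe, mapGL_coe, Matrix.mul_fin_two,
      Matrix.mul_fin_two]
    have hCr : ((s 1 0 : ℤ) : ℝ) = p * L * C := by rw [hC]; push_cast; ring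
    rw [hCr]
    push_cast
    congr 1
    ext i j
    fin_cases i <;> fin_cases j <;> simp only [Matrix.cons_val', Matrix.cons_val_zero,
      Matrix.cons_val_one, Fin.zero_eta, Fin.mk_one, Fin.isValue, Matrix.cons_val_fin_one] <;> ring

/-- `p ^ (k - 1) f(p z)` -/
noncomputable def lift {L p : ℕ} (hp : p ≠ 0) (f : CuspForm (Gamma1 L : Subgroup (GL (Fin 2) ℝ)) k) :
    CuspForm (Gamma1 (p * L) : Subgroup (GL (Fin 2) ℝ)) k :=
  restr (le_dg hp) (CuspForm.translate f (dg p hp))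

theorem lift_coe {L p : ℕ} (hp : p ≠ 0) (f : CuspForm (Gamma1 L : Subgroup (GL (Fin 2) ℝ)) k) :
    (lift hp f : ℍ → ℂ) = (f : ℍ → ℂ) ∣[k] dg p hp := rfl

theorem lift_apply {L p : ℕ} (hp : p ≠ 0) (f : CuspForm (Gamma1 L : Subgroup (GL (Fin 2) ℝ)) k)
    (z : ℍ) : lift hp f z = (p : ℂ) ^ (k - 1) * f (dg p hp • z) := by
  show ((f : ℍ → ℂ) ∣[k] dg p hp) z = _
  rw [ModularForm.slash_apply, σ_pos (det_dg_pos hp), det_dg]
  simp [denom, dg_coe]
  ring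

/-- transformation under `Γ₀(N)` with a factor `ε` -/
def Trans (N : ℕ) (k : ℤ) (ε : ℤ → ℂ) (f : ℍ → ℂ) : Prop :=
  ∀ γ : SL(2, ℤ), γ ∈ Gamma0 N → ∀ z : ℍ, f (γ • z) = ε (γ 1 1) * denom γ z ^ k * f z

theorem Trans.mono {N L : ℕ} (h : L ∣ N) {ε : ℤ → ℂ} {f : ℍ → ℂ} (hf : Trans L k ε f) :
    Trans N k ε f := by
  intro γ hγ
  refine hf γ ?_
  rw [mem_Gamma0] at hγ ⊢
  exact (Int.natCast_dvd_natCast.2 h).trans hγ

theorem slash_mapGL {L : ℕ} {ε : ℤ → ℂ} {f : ℍ → ℂ} (hf : Trans L k ε f) {s : SL(2, ℤ)}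
    (hs : s ∈ Gamma0 L) : f ∣[k] (Matrix.SpecialLinearGroup.mapGL ℝ s : GL (Fin 2) ℝ) =
      fun z => ε (s 1 1) * f z := by
  funext z
  have h1 : (f ∣[k] (Matrix.SpecialLinearGroup.mapGL ℝ s : GL (Fin 2) ℝ)) z =
      f (s • z) * denom s z ^ (-k) := ModularForm.SL_slash_apply f s z
  rw [h1, hf s hs, zpow_neg]
  have : denom s z ^ k ≠ 0 := zpow_ne_zero _ (denom_ne_zero s z)
  field_simp

theorem smul_dg {p : ℕ} (hp : p ≠ 0) (z : ℍ) (s : SL(2, ℤ)) {L : ℕ} {C : ℤ}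
    (hC : s 1 0 = ((p * L : ℕ) : ℤ) * C)
    (h : s 0 0 * s 1 1 - (p * s 0 1) * (L * C) = 1) :
    dg p hp • (s • z) = mk (s 0 0) (p * s 0 1) (L * C) (s 1 1) h • (dg p hp • z) ∧
      denom (mk (s 0 0) (p * s 0 1) (L * C) (s 1 1) h) ((dg p hp • z : ℍ) : ℂ) = denom s z := by
  constructor
  · have h1 : dg p hp * Matrix.SpecialLinearGroup.mapGL ℝ s =
        Matrix.SpecialLinearGroup.mapGL ℝ (mk (s 0 0) (p * s 0 1) (L * C) (s 1 1) h) * dg p hp := by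
      apply Units.ext
      rw [Units.val_mul, Units.val_mul, dg_coe, Mo.Or.mk_coe, mapGL_coe, Matrix.mul_fin_two,
        Matrix.mul_fin_two]
      have hCr : ((s 1 0 : ℤ) : ℝ) = p * L * C := by rw [hC]; push_cast; ring
      rw [hCr]
      push_cast
      congr 1
      ext i j
      fin_cases i <;> fin_cases j <;> simp only [Matrix.cons_val', Matrix.cons_val_zero,
        Matrix.cons_val_one, Fin.zero_eta, Fin.mk_one, Fin.isValue, Matrix.cons_val_fin_one] <;> ring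
    have h2 := congrArg (fun g : GL (Fin 2) ℝ => g • z) h1
    simp only [mul_smul] at h2
    exact h2
  · have h1 : denom (mk (s 0 0) (p * s 0 1) (L * C) (s 1 1) h) ((dg p hp • z : ℍ) : ℂ) =
        ((L * C : ℤ) : ℂ) * ((dg p hp • z : ℍ) : ℂ) + ((s 1 1 : ℤ) : ℂ) := by
      rw [ModularGroup.denom_apply]
      rfl
    rw [h1, ModularGroup.denom_apply, dg_smul, hC]
    push_cast
    ring

theorem Trans.lift {L p : ℕ} (hp : p ≠ 0) {ε : ℤ → ℂ}
    {f : CuspForm (Gamma1 L : Subgroup (GL (Fin 2) ℝ)) k} (hf : Trans L k ε f) :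
    Trans (p * L) k ε (lift hp f) := by
  intro s hs z
  rw [mem_Gamma0] at hs
  obtain ⟨C, hC⟩ := hs
  have hdet := det_eq s
  have hd : s 0 0 * s 1 1 - (p * s 0 1) * (L * C) = 1 := by
    rw [hC] at hdet
    refine Eq.trans ?_ hdet
    push_cast
    ring
  obtain ⟨h1, h2⟩ := smul_dg hp z s hC hd
  rw [lift_apply, lift_apply, h1, hf _ (by rw [mem_Gamma0]; exact ⟨C, rfl⟩), h2]
  show _ * (ε (s 1 1) * _ * _) = _
  ring

/-- the product is a function for the Rankin-Selberg method -/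
theorem RSF {N : ℕ} [NeZero N] {ε : ℤ → ℂ} (hε : ∀ s : SL(2, ℤ), s ∈ Gamma0 N → ‖ε (s 1 1)‖ = 1)
    {f g : CuspForm (Gamma1 N : Subgroup (GL (Fin 2) ℝ)) k} (hf : Trans N k ε f)
    (hg : Trans N k ε g) : Mo.RSFun N (petersson k f g) := by
  refine ⟨fun γ hγ z => ?_, by fun_prop, fun γ => ?_⟩
  · have hd : denom γ z ≠ 0 := denom_ne_zero γ z
    have hd' : conj (denom γ z) ≠ 0 := by simp
    have him : (((γ • z).im : ℝ) : ℂ) = z.im / (conj (denom γ z) * denom γ z) := by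
      rw [ModularGroup.im_smul_eq_div_normSq, Complex.ofReal_div,
        Complex.normSq_eq_conj_mul_self]
    have hε' : conj (ε (γ 1 1)) * ε (γ 1 1) = 1 := by
      rw [Complex.conj_mul', hε γ hγ]
      simp
    simp only [UpperHalfPlane.petersson, hf γ hγ, hg γ hγ, him, map_mul, map_zpow₀]
    rw [div_zpow, mul_zpow]
    have h1 : conj (denom γ z) ^ k ≠ 0 := zpow_ne_zero _ hd'
    have h2 : denom γ z ^ k ≠ 0 := zpow_ne_zero _ hd
    field_simp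
    linear_combination (conj (f z) * g z * (z.im : ℂ) ^ k) * hε'
  · obtain ⟨C, a, hC0, ha, hC⟩ := cusp_decay f γ
    obtain ⟨C', a', hC0', ha', hC'⟩ := cusp_decay g γ
    refine ⟨C * C', a + a', by positivity, fun z hz => ?_⟩
    have h := petersson_norm2 k 0 f g (γ • z)
    rw [Int.cast_zero, zero_div, Real.rpow_zero, mul_one, add_zero] at h
    rw [h]
    calc _ ≤ (C * Real.exp (-(a * z.im))) * (C' * Real.exp (-(a' * z.im))) := by
          refine mul_le_mul (hC z hz) (hC' z hz) ?_ (by positivity)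
          exact mul_nonneg (norm_nonneg _) (Real.rpow_nonneg (γ • z).im_pos.le _)
      _ = _ := by
          rw [show -((a + a') * z.im) = -(a * z.im) + -(a' * z.im) by ring, Real.exp_add]
          ring

theorem slash_WW {p L : ℕ} (hp : p ≠ 0) {x y : ℤ} (h : x * p - y * (L : ℤ) = 1) {ε : ℤ → ℂ}
    {f : CuspForm (Gamma1 L : Subgroup (GL (Fin 2) ℝ)) k} (hf : Trans L k ε f) :
    (f : ℍ → ℂ) ∣[k] WW p hp L x y h = fun z => ε p * lift hp f z := by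
  rw [WW, SlashAction.slash_mul, slash_mapGL hf (by rw [mem_Gamma0]; exact dvd_rfl)]
  have h1 : (fun z => ε (mk x y L p h 1 1) * f z) = ε p • (f : ℍ → ℂ) := by
    funext z
    rfl
  rw [h1, ModularForm.smul_slash, σ_pos (det_dg_pos hp), lift_coe]
  rfl

theorem lift_slash_WW {p L : ℕ} (hp : p ≠ 0) {x y : ℤ} (h : x * p - y * (L : ℤ) = 1) {ε : ℤ → ℂ}
    (hε1 : ε 1 = 1)
    {f : CuspForm (Gamma1 L : Subgroup (GL (Fin 2) ℝ)) k} (hf : Trans L k ε f) :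
    (lift hp f : ℍ → ℂ) ∣[k] WW p hp L x y h = fun z => (p : ℂ) ^ (k - 2) * f z := by
  rw [lift_coe, ← SlashAction.slash_mul, dg_mul_WW, SlashAction.slash_mul,
    slash_mapGL hf (by rw [mem_Gamma0]; exact dvd_rfl), slash_sc]
  funext z
  show _ * (ε 1 * f z) = _
  rw [hε1, one_mul]

theorem pet_WW {p L : ℕ} (hp : p ≠ 0) {x y : ℤ} (h : x * p - y * (L : ℤ) = 1) {ε : ℤ → ℂ}
    (hε1 : ε 1 = 1) {f g : CuspForm (Gamma1 L : Subgroup (GL (Fin 2) ℝ)) k} (hf : Trans L k ε f)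
    (hg : Trans L k ε g) (z : ℍ) :
    petersson k f (lift hp g) (WW p hp L x y h • z) = conj (ε p) * petersson k (lift hp f) g z := by
  have hp' : (p : ℂ) ≠ 0 := by exact_mod_cast hp
  have hdet := WW_det p hp L x y h
  have hpos : 0 < (WW p hp L x y h).det.val := by
    rw [hdet]
    exact_mod_cast Nat.pos_of_ne_zero hp
  have h1 := petersson_slash k f (lift hp g) (WW p hp L x y h) z
  rw [lift_slash_WW hp h hε1 hg, slash_WW hp h hf, σ_pos hpos, hdet] at h1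
  have h2 : petersson k (fun z => ε p * lift hp f z) (fun z => (p : ℂ) ^ (k - 2) * g z) z =
      (p : ℂ) ^ (k - 2) * (conj (ε p) * petersson k (lift hp f) g z) := by
    simp only [petersson, map_mul]
    ring
  rw [h2] at h1
  have h3 : ((|(p : ℝ)| : ℝ) : ℂ) = p := by rw [Nat.abs_cast]; simp
  rw [h3] at h1
  exact (mul_left_cancel₀ (zpow_ne_zero _ hp') h1).symm

/-! ### coefficients -/

/-- the coefficients of `p ^ (k - 1) f(p z)` -/
noncomputable def up (k p : ℕ) (a : ℕ → ℂ) (n : ℕ) : ℂ :=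
  if p ∣ n then (p : ℂ) ^ (k - 1) * a (n / p) else 0

theorem up_mul {p : ℕ} (hp : p ≠ 0) (k : ℕ) (a : ℕ → ℂ) (n : ℕ) :
    up k p a (p * n) = (p : ℂ) ^ (k - 1) * a n := by
  rw [up, if_pos (dvd_mul_right _ _), Nat.mul_div_cancel_left _ (Nat.pos_of_ne_zero hp)]

theorem up_zero {p : ℕ} (k : ℕ) {a : ℕ → ℂ} (a0 : a 0 = 0) : up k p a 0 = 0 := by
  rw [up, if_pos (dvd_zero _), Nat.zero_div, a0, mul_zero]

theorem up_out {p : ℕ} (k : ℕ) (a : ℕ → ℂ) {n : ℕ} (h : n ∉ Set.range fun n : ℕ => p * n) :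
    up k p a n = 0 := by
  rw [up, if_neg]
  rintro ⟨m, rfl⟩
  exact h ⟨m, rfl⟩

theorem hasSum_lift {k L p : ℕ} (hk : 1 ≤ k) (hp : p ≠ 0)
    (f : CuspForm (Gamma1 L : Subgroup (GL (Fin 2) ℝ)) (k : ℤ)) {a : ℕ → ℂ}
    (hf : ∀ z : ℍ, HasSum (fun n : ℕ => a n *
      Complex.exp (2 * Real.pi * Complex.I * n * z)) (f z)) (z : ℍ) :
    HasSum (fun n : ℕ => up k p a n * Complex.exp (2 * Real.pi * Complex.I * n * z))
      (lift hp f z) := by
  rw [← (inj_mul hp).hasSum_iff, lift_apply]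
  · have h1 := (hf (dg p hp • z)).mul_left ((p : ℂ) ^ ((k : ℤ) - 1))
    refine h1.congr_fun fun n => ?_
    simp only [Function.comp]
    rw [up_mul hp, dg_smul]
    have h2 : (p : ℂ) ^ ((k : ℤ) - 1) = (p : ℂ) ^ (k - 1) := by
      rw [← zpow_natCast, Nat.cast_sub hk, Nat.cast_one]
    rw [h2]
    push_cast
    rw [mul_assoc]
    congr 3
    ring
  · intro n hn
    rw [up_out k a hn]
    simp

/-- the Dirichlet series -/
noncomputable def DS (a b : ℕ → ℂ) (w : ℂ) : ℂ := ∑' n : ℕ, conj (a n) * b n * (n : ℂ) ^ (-w)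

theorem summable_DS {a b : ℕ → ℂ} {w : ℂ} (hw : 0 < w.re)
    (h : Summable fun n : ℕ => ‖a n * b n‖ * (n : ℝ) ^ (-w.re)) :
    Summable fun n : ℕ => conj (a n) * b n * (n : ℂ) ^ (-w) := by
  refine Summable.of_norm_bounded h fun n => ?_
  rw [norm_mul, norm_mul, norm_mul, RCLike.norm_conj]
  rcases Nat.eq_zero_or_pos n with rfl | hn
  · have h1 : -w ≠ 0 := by
      intro h
      rw [neg_eq_zero] at h
      rw [h] at hw
      simp at hw
    have h2 : -w.re ≠ 0 := by linarith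
    rw [Nat.cast_zero, Complex.zero_cpow h1, Nat.cast_zero, Real.zero_rpow h2]
    simp
  · rw [Complex.norm_natCast_cpow_of_pos hn, Complex.neg_re]

theorem DS_up_left {k p : ℕ} (hp : p ≠ 0) (a b : ℕ → ℂ) (w : ℂ) :
    DS (up k p a) b w = (p : ℂ) ^ (k - 1) * (p : ℂ) ^ (-w) * DS a (fun n => b (p * n)) w := by
  rw [DS, DS, ← tsum_mul_left, ← (inj_mul hp).tsum_eq]
  · refine tsum_congr fun n => ?_
    rw [up_mul hp, Nat.cast_mul, Complex.natCast_mul_natCast_cpow, map_mul, map_pow,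
      Complex.conj_natCast]
    ring
  · intro n hn
    by_contra hc
    apply hn
    simp only
    rw [up_out k a hc]
    simp

theorem DS_up_right {k p : ℕ} (hp : p ≠ 0) (a b : ℕ → ℂ) (w : ℂ) :
    DS a (up k p b) w = (p : ℂ) ^ (k - 1) * (p : ℂ) ^ (-w) * DS (fun n => a (p * n)) b w := by
  rw [DS, DS, ← tsum_mul_left, ← (inj_mul hp).tsum_eq]
  · refine tsum_congr fun n => ?_
    rw [up_mul hp, Nat.cast_mul, Complex.natCast_mul_natCast_cpow]
    ring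
  · intro n hn
    by_contra hc
    apply hn
    simp only
    rw [up_out k b hc]
    simp

/-- the recursion for the first sequence -/
theorem DS_rec_left {k p : ℕ} {a b : ℕ → ℂ} {w c : ℂ} (hw : 0 < w.re)
    (Ta : ∀ n, a (p * n) + (if p ∣ n then c * (p : ℂ) ^ (k - 1) * a (n / p) else 0) = a p * a n)
    (h0 : Summable fun n : ℕ => ‖a n * b n‖ * (n : ℝ) ^ (-w.re))
    (h1 : Summable fun n : ℕ => ‖up k p a n * b n‖ * (n : ℝ) ^ (-w.re)) :
    DS (fun n => a (p * n)) b w = conj (a p) * DS a b w - conj c * DS (up k p a) b w := by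
  rw [DS, DS, DS, ← tsum_mul_left, ← tsum_mul_left,
    ← ((summable_DS hw h0).mul_left _).tsum_sub ((summable_DS hw h1).mul_left _)]
  refine tsum_congr fun n => ?_
  have h2 : a (p * n) = a p * a n - c * up k p a n := by
    rw [← Ta n, up]
    split_ifs <;> ring
  rw [h2, map_sub, map_mul, map_mul]
  ring

/-- the recursion for the second sequence -/
theorem DS_rec_right {k p : ℕ} {a b : ℕ → ℂ} {w c : ℂ} (hw : 0 < w.re)
    (Tb : ∀ n, b (p * n) + (if p ∣ n then c * (p : ℂ) ^ (k - 1) * b (n / p) else 0) = b p * b n)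
    (h0 : Summable fun n : ℕ => ‖a n * b n‖ * (n : ℝ) ^ (-w.re))
    (h1 : Summable fun n : ℕ => ‖a n * up k p b n‖ * (n : ℝ) ^ (-w.re)) :
    DS a (fun n => b (p * n)) w = b p * DS a b w - c * DS a (up k p b) w := by
  rw [DS, DS, DS, ← tsum_mul_left, ← tsum_mul_left,
    ← ((summable_DS hw h0).mul_left _).tsum_sub ((summable_DS hw h1).mul_left _)]
  refine tsum_congr fun n => ?_
  have h2 : b (p * n) = b p * b n - c * up k p b n := by
    rw [← Tb n, up]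
    split_ifs <;> ring
  rw [h2]
  ring

theorem summable_up_left {k p : ℕ} (hp : p ≠ 0) {a b : ℕ → ℂ} {x : ℝ}
    (h : Summable fun n : ℕ => ‖a n * b (p * n)‖ * (n : ℝ) ^ (-x)) :
    Summable fun n : ℕ => ‖up k p a n * b n‖ * (n : ℝ) ^ (-x) := by
  rw [← (inj_mul hp).summable_iff]
  · refine (h.mul_left ((p : ℝ) ^ (k - 1) * (p : ℝ) ^ (-x))).congr fun n => ?_
    simp only [Function.comp]
    rw [up_mul hp, Nat.cast_mul, Real.mul_rpow (Nat.cast_nonneg _) (Nat.cast_nonneg _), mul_assoc,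
      mul_assoc, norm_mul ((p : ℂ) ^ (k - 1)), norm_pow, Complex.norm_natCast]
    ring
  · intro n hn
    rw [up_out k a hn]
    simp

theorem summable_up_right {k p : ℕ} (hp : p ≠ 0) {a b : ℕ → ℂ} {x : ℝ}
    (h : Summable fun n : ℕ => ‖a (p * n) * b n‖ * (n : ℝ) ^ (-x)) :
    Summable fun n : ℕ => ‖a n * up k p b n‖ * (n : ℝ) ^ (-x) := by
  have h1 := summable_up_left (k := k) hp (a := b) (b := a) (x := x)
    (h.congr fun n => by rw [mul_comm (a (p * n))])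
  exact h1.congr fun n => by rw [mul_comm (up k p b n)]

/-! ### summability -/

theorem sum_div_le {p : ℕ} (hp : p ≠ 0) {u : ℕ → ℝ} (hu : ∀ n, 0 ≤ u n) (T : ℕ) :
    ∑ n ∈ Finset.range T, (if p ∣ n then u (n / p) else 0) ≤ ∑ n ∈ Finset.range T, u n := by
  rw [← Finset.sum_filter]
  have hpos := Nat.pos_of_ne_zero hp
  have hinj : Set.InjOn (fun n => n / p) ((Finset.range T).filter (fun n => p ∣ n) : Set ℕ) := by
    intro m hm n hn h
    simp only [Finset.coe_filter, Finset.mem_range, Set.mem_ofPred_eq] at hm hn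
    have h' : m / p = n / p := h
    rw [← Nat.div_mul_cancel hm.2, ← Nat.div_mul_cancel hn.2, h']
  rw [← Finset.sum_image (f := u) hinj]
  refine Finset.sum_le_sum_of_subset_of_nonneg ?_ fun n _ _ => hu n
  intro m hm
  simp only [Finset.mem_image, Finset.mem_filter, Finset.mem_range] at hm ⊢
  obtain ⟨n, ⟨hn, _⟩, rfl⟩ := hm
  exact (Nat.div_le_self _ _).trans_lt hn

theorem rec_bound {k p : ℕ} (hk : 1 ≤ k) (hp : p ≠ 0) {a b : ℕ → ℂ} {c : ℂ} (hc : ‖c‖ ≤ 1) (σ : ℝ)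
    (Ta : ∀ n, a (p * n) + (if p ∣ n then c * (p : ℂ) ^ (k - 1) * a (n / p) else 0) = a p * a n)
    (n : ℕ) : ‖a (p * n) * b n‖ * (n : ℝ) ^ (-(σ + k - 1)) ≤
      ‖a p‖ * (‖a n * b n‖ * (n : ℝ) ^ (-(σ + k - 1))) + (p : ℝ) ^ (-σ) * (if p ∣ n then
        ‖a (n / p) * b (p * (n / p))‖ * ((n / p : ℕ) : ℝ) ^ (-(σ + k - 1)) else 0) := by
  have hr : (0 : ℝ) ≤ (n : ℝ) ^ (-(σ + k - 1)) := Real.rpow_nonneg (Nat.cast_nonneg _) _
  have h1 : a (p * n) = a p * a n - (if p ∣ n then c * (p : ℂ) ^ (k - 1) * a (n / p) else 0) := by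
    rw [← Ta n]
    ring
  by_cases hd : p ∣ n
  · rw [if_pos hd]
    rw [if_pos hd] at h1
    obtain ⟨m, rfl⟩ := hd
    have hm : p * m / p = m := Nat.mul_div_cancel_left _ (Nat.pos_of_ne_zero hp)
    rw [hm] at h1 ⊢
    have hpr : (0 : ℝ) < p := by exact_mod_cast Nat.pos_of_ne_zero hp
    have h2 : ‖a (p * (p * m)) * b (p * m)‖ ≤ ‖a p‖ * ‖a (p * m) * b (p * m)‖ +
        (p : ℝ) ^ (k - 1) * ‖a m * b (p * m)‖ := by
      rw [h1, sub_mul]
      refine (norm_sub_le _ _).trans (add_le_add (le_of_eq ?_) ?_)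
      · rw [mul_assoc, norm_mul]
      · rw [mul_assoc, norm_mul, norm_mul, norm_pow, Complex.norm_natCast]
        calc ‖c‖ * (p : ℝ) ^ (k - 1) * ‖a m * b (p * m)‖ ≤ 1 * (p : ℝ) ^ (k - 1) *
            ‖a m * b (p * m)‖ := by gcongr
          _ = _ := by ring
    have h3 : (p : ℝ) ^ (k - 1) * ((p * m : ℕ) : ℝ) ^ (-(σ + k - 1)) =
        (p : ℝ) ^ (-σ) * (m : ℝ) ^ (-(σ + k - 1)) := by
      rw [Nat.cast_mul, Real.mul_rpow hpr.le (Nat.cast_nonneg _), ← mul_assoc, ← Real.rpow_natCast,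
        ← Real.rpow_add hpr, Nat.cast_sub hk]
      congr 2
      push_cast
      ring
    calc _ ≤ (‖a p‖ * ‖a (p * m) * b (p * m)‖ + (p : ℝ) ^ (k - 1) * ‖a m * b (p * m)‖) *
          ((p * m : ℕ) : ℝ) ^ (-(σ + k - 1)) := mul_le_mul_of_nonneg_right h2 hr
      _ = _ := by linear_combination ‖a m * b (p * m)‖ * h3
  · rw [if_neg hd, mul_zero, add_zero]
    rw [if_neg hd, sub_zero] at h1
    rw [h1, mul_assoc, norm_mul, mul_assoc]

theorem summable_shift {k p : ℕ} (hk : 1 ≤ k) (hp : p.Prime) {a b : ℕ → ℂ} {c : ℂ} (hc : ‖c‖ ≤ 1)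
    (Ta : ∀ n, a (p * n) + (if p ∣ n then c * (p : ℂ) ^ (k - 1) * a (n / p) else 0) = a p * a n)
    (Tb : ∀ n, b (p * n) + (if p ∣ n then c * (p : ℂ) ^ (k - 1) * b (n / p) else 0) = b p * b n)
    {σ : ℝ} (hσ : 1 < σ) (h0 : Summable fun n : ℕ => ‖a n * b n‖ * (n : ℝ) ^ (-(σ + k - 1))) :
    Summable fun n : ℕ => ‖a (p * n) * b n‖ * (n : ℝ) ^ (-(σ + k - 1)) := by
  have hp0 := hp.ne_zero
  set w : ℕ → ℝ := fun n => ‖a n * b n‖ * (n : ℝ) ^ (-(σ + k - 1)) with hw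
  set u : ℕ → ℝ := fun n => ‖a (p * n) * b n‖ * (n : ℝ) ^ (-(σ + k - 1)) with hu
  set v : ℕ → ℝ := fun n => ‖a n * b (p * n)‖ * (n : ℝ) ^ (-(σ + k - 1)) with hv
  have hw0 : ∀ n, 0 ≤ w n := fun n =>
    mul_nonneg (norm_nonneg _) (Real.rpow_nonneg (Nat.cast_nonneg _) _)
  have hu0 : ∀ n, 0 ≤ u n := fun n =>
    mul_nonneg (norm_nonneg _) (Real.rpow_nonneg (Nat.cast_nonneg _) _)
  have hv0 : ∀ n, 0 ≤ v n := fun n =>
    mul_nonneg (norm_nonneg _) (Real.rpow_nonneg (Nat.cast_nonneg _) _)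
  set q : ℝ := (p : ℝ) ^ (-σ) with hq
  have hp1 : (1 : ℝ) < p := by exact_mod_cast hp.one_lt
  have hq0 : 0 ≤ q := Real.rpow_nonneg (by linarith) _
  have hq1 : q < 1 := Real.rpow_lt_one_of_one_lt_of_neg hp1 (by linarith)
  have hru : ∀ n, u n ≤ ‖a p‖ * w n + q * (if p ∣ n then v (n / p) else 0) := fun n =>
    rec_bound hk hp0 hc σ Ta n
  have hrv : ∀ n, v n ≤ ‖b p‖ * w n + q * (if p ∣ n then u (n / p) else 0) := by
    intro n
    have := rec_bound (b := a) hk hp0 hc σ Tb n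
    simp only [hu, hv, hw]
    rw [mul_comm (a n) (b (p * n)), mul_comm (a n) (b n), mul_comm (a (p * (n / p)))]
    exact this
  have hS : ∀ T : ℕ, ∑ n ∈ Finset.range T, w n ≤ ∑' n, w n := fun T =>
    h0.sum_le_tsum _ fun n _ => hw0 n
  set S := ∑' n, w n with hSdef
  refine summable_of_sum_range_le (c := (‖a p‖ * S + q * (‖b p‖ * S)) / (1 - q * q)) hu0
    fun T => ?_
  have h1 : ∑ n ∈ Finset.range T, u n ≤ ‖a p‖ * S + q * ∑ n ∈ Finset.range T, v n := by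
    refine (Finset.sum_le_sum fun n _ => hru n).trans ?_
    rw [Finset.sum_add_distrib, ← Finset.mul_sum, ← Finset.mul_sum]
    exact add_le_add (mul_le_mul_of_nonneg_left (hS T) (norm_nonneg _))
      (mul_le_mul_of_nonneg_left (sum_div_le hp0 hv0 T) hq0)
  have h2 : ∑ n ∈ Finset.range T, v n ≤ ‖b p‖ * S + q * ∑ n ∈ Finset.range T, u n := by
    refine (Finset.sum_le_sum fun n _ => hrv n).trans ?_
    rw [Finset.sum_add_distrib, ← Finset.mul_sum, ← Finset.mul_sum]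
    exact add_le_add (mul_le_mul_of_nonneg_left (hS T) (norm_nonneg _))
      (mul_le_mul_of_nonneg_left (sum_div_le hp0 hu0 T) hq0)
  have hqq : 0 < 1 - q * q := by nlinarith
  rw [le_div_iff₀ hqq]
  have h3 := mul_le_mul_of_nonneg_left h2 hq0
  nlinarith

theorem SI_eq {k N : ℕ} [NeZero N] (hk : 1 ≤ k) (f g : ℍ → ℂ) {a b : ℕ → ℂ} (a0 : a 0 = 0)
    (hf : ∀ z : ℍ, HasSum (fun n : ℕ => a n *
      Complex.exp (2 * Real.pi * Complex.I * n * z)) (f z))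
    (hg : ∀ z : ℍ, HasSum (fun n : ℕ => b n *
      Complex.exp (2 * Real.pi * Complex.I * n * z)) (g z)) (hR : Mo.RSFun N (petersson k f g))
    {s : ℝ} (hs : 1 < s)
    (hsum : Summable fun n : ℕ => ‖a n * b n‖ * (n : ℝ) ^ (-(s + k - 1))) :
    Mo.SI (petersson k f g) s = Complex.Gamma (s + k - 1) *
      (4 * Real.pi : ℂ) ^ (-((s : ℂ) + k - 1)) * DS a b ((s : ℂ) + k - 1) := by
  have hs' : 1 < (s : ℂ).re := by simpa using hs
  refine strip_integral hk f g a b hf hg a0 ?_ ?_ (Mo.strip_integrable hR hs')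
  · have : (0 : ℝ) ≤ k := Nat.cast_nonneg _
    rw [Complex.ofReal_re]
    linarith
  · simpa using hsum

theorem main {L k p : ℕ} [NeZero L] (hk : 1 ≤ k) (hp : p.Prime) (hpL : ¬ p ∣ L)
    {ε : ℤ → ℂ} (hε : ∀ s : SL(2, ℤ), s ∈ Gamma0 L → ‖ε (s 1 1)‖ = 1) (hε1 : ε 1 = 1)
    (hεp : ‖ε p‖ = 1)
    (f g : CuspForm (Gamma1 L : Subgroup (GL (Fin 2) ℝ)) (k : ℤ))
    (tf : Trans L k ε f) (tg : Trans L k ε g) {a b : ℕ → ℂ}
    (a0 : a 0 = 0) (b0 : b 0 = 0)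
    (hf : ∀ z : ℍ, HasSum (fun n : ℕ => a n *
      Complex.exp (2 * Real.pi * Complex.I * n * z)) (f z))
    (hg : ∀ z : ℍ, HasSum (fun n : ℕ => b n *
      Complex.exp (2 * Real.pi * Complex.I * n * z)) (g z))
    (Ta : ∀ n, a (p * n) + (if p ∣ n then ε p * (p : ℂ) ^ (k - 1) * a (n / p) else 0) = a p * a n)
    (Tb : ∀ n, b (p * n) + (if p ∣ n then ε p * (p : ℂ) ^ (k - 1) * b (n / p) else 0) = b p * b n)
    (hab : conj (a p) ≠ conj (ε p) * b p)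
    (hs0 : ∀ σ : ℝ, 1 < σ → Summable fun n : ℕ => ‖a n * b n‖ * (n : ℝ) ^ (-(σ + k - 1))) :
    Mo.avg L (petersson k f g) = 0 := by
  have hp0 : p ≠ 0 := hp.ne_zero
  have : NeZero (p * L) := ⟨mul_ne_zero hp0 (NeZero.ne L)⟩
  have hεε : conj (ε p) * ε p = 1 := by
    rw [Complex.conj_mul', hεp]
    simp
  have hs1 : ∀ σ : ℝ, 1 < σ → Summable fun n : ℕ => ‖a (p * n) * b n‖ * (n : ℝ) ^ (-(σ + k - 1)) :=
    fun σ hσ => summable_shift hk hp hεp.le Ta Tb hσ (hs0 σ hσ)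
  have hs2 : ∀ σ : ℝ, 1 < σ → Summable fun n : ℕ => ‖a n * b (p * n)‖ * (n : ℝ) ^ (-(σ + k - 1)) :=
    fun σ hσ => (summable_shift hk hp hεp.le Tb Ta hσ
      ((hs0 σ hσ).congr fun n => by rw [mul_comm (a n)])).congr fun n => by
        rw [mul_comm (b (p * n))]
  -- the matrix
  obtain ⟨x, y, hxy⟩ : ∃ x y : ℤ, x * p - y * (L : ℤ) = 1 := by
    have h1 : IsCoprime (p : ℤ) (L : ℤ) :=
      Nat.isCoprime_iff_coprime.2 ((Nat.Prime.coprime_iff_not_dvd hp).2 hpL)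
    obtain ⟨u, v, huv⟩ := h1
    exact ⟨u, -v, by rw [← huv]; ring⟩
  have hdL : L ∣ p * L := dvd_mul_left L p
  have hε' : ∀ s : SL(2, ℤ), s ∈ Gamma0 (p * L) → ‖ε (s 1 1)‖ = 1 := by
    intro s hs
    refine hε s ?_
    rw [mem_Gamma0] at hs ⊢
    exact (Int.natCast_dvd_natCast.2 hdL).trans hs
  set f1 : CuspForm (Gamma1 (p * L) : Subgroup (GL (Fin 2) ℝ)) (k : ℤ) :=
    restr (le_one hdL) f with hf1
  set g1 : CuspForm (Gamma1 (p * L) : Subgroup (GL (Fin 2) ℝ)) (k : ℤ) :=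
    restr (le_one hdL) g with hg1
  have tf1 : Trans (p * L) k ε f1 := Trans.mono hdL tf
  have tg1 : Trans (p * L) k ε g1 := Trans.mono hdL tg
  set φ1 := petersson k f1 (lift hp0 g) with hφ1
  set φ2 := petersson k (lift hp0 f) g1 with hφ2
  have hR1 : Mo.RSFun (p * L) φ1 := RSF hε' tf1 (Trans.lift hp0 tg)
  have hR2 : Mo.RSFun (p * L) φ2 := RSF hε' (Trans.lift hp0 tf) tg1
  have hR0 : Mo.RSFun L (petersson k f g) := RSF hε tf tg
  have havg : Mo.avg (p * L) φ1 = conj (ε p) * Mo.avg (p * L) φ2 := by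
    rw [← Mo.avg_normalizer hR1.inv hR1.cont hR1.bdd (WW p hp0 L x y hxy) ?_ ?_,
      ← Mo.avg_const_mul]
    · congr 1
      funext z
      exact pet_WW hp0 hxy hε1 tf tg z
    · rw [WW_det]
      exact_mod_cast hp.pos
    · exact WW_norm hp0 hxy (by push_cast; rfl)
  obtain ⟨cP, hcP, hP⟩ := Mo.residue_strip (p * L)
  obtain ⟨cL, hcL, hLim⟩ := Mo.residue_strip L
  have hT := (hP φ1 hR1).sub ((hP φ2 hR2).const_mul (conj (ε p)))
  have hz : (cP : ℂ) * Mo.avg (p * L) φ1 - conj (ε p) * (cP * Mo.avg (p * L) φ2) = 0 := by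
    rw [havg]
    ring
  rw [hz] at hT
  have hT0 := hLim _ hR0
  have hpc : Tendsto (fun s : ℝ => (p : ℂ) ^ (-(s : ℂ))) (𝓝[>] 1) (𝓝 ((p : ℂ) ^ (-(1 : ℂ)))) := by
    have h1 : Continuous fun s : ℝ => (p : ℂ) ^ (-(s : ℂ)) := by
      refine Continuous.const_cpow (by fun_prop) (Or.inl ?_)
      exact_mod_cast hp0
    have h2 := h1.tendsto 1
    rw [Complex.ofReal_one] at h2
    exact h2.mono_left nhdsWithin_le_nhds
  -- the identity
  have hid : ∀ s : ℝ, 1 < s → (Mo.SI φ1 s - conj (ε p) * Mo.SI φ2 s) * (1 - (p : ℂ) ^ (-(s : ℂ))) =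
      (p : ℂ) ^ (-(s : ℂ)) * (conj (a p) - conj (ε p) * b p) * Mo.SI (petersson k f g) s := by
    intro s hs
    have hwre : ((s : ℂ) + k - 1).re = s + k - 1 := by simp
    have hw : 0 < ((s : ℂ) + k - 1).re := by
      rw [hwre]
      have : (0 : ℝ) ≤ k := Nat.cast_nonneg _
      linarith
    have e0 := hs0 s hs
    have e2 := summable_up_left (k := k) hp0 (hs2 s hs)
    have e1 := summable_up_right (k := k) hp0 (hs1 s hs)
    have I0 := SI_eq (N := L) hk f g a0 hf hg hR0 hs e0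
    have I1 := SI_eq (N := p * L) hk f1 (lift hp0 g) a0 hf (hasSum_lift hk hp0 g hg) hR1 hs e1
    have I2 := SI_eq (N := p * L) hk (lift hp0 f) g1 (up_zero k a0) (hasSum_lift hk hp0 f hf) hg
      hR2 hs e2
    have hpp : (p : ℂ) ^ (k - 1) * (p : ℂ) ^ (-((s : ℂ) + k - 1)) = (p : ℂ) ^ (-(s : ℂ)) := by
      have hpC : (p : ℂ) ≠ 0 := by exact_mod_cast hp0
      rw [← Complex.cpow_natCast, ← Complex.cpow_add _ _ hpC, Nat.cast_sub hk]
      congr 1
      push_cast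
      ring
    have D1 := DS_rec_left (b := b) (w := (s : ℂ) + k - 1) hw Ta (by rw [hwre]; exact e0)
      (by rw [hwre]; exact e2)
    have D2 := DS_rec_right (a := a) (w := (s : ℂ) + k - 1) hw Tb (by rw [hwre]; exact e0)
      (by rw [hwre]; exact e1)
    have U1 := DS_up_right (k := k) hp0 a b ((s : ℂ) + k - 1)
    have U2 := DS_up_left (k := k) hp0 a b ((s : ℂ) + k - 1)
    rw [hpp] at U1 U2
    rw [D1] at U1
    rw [D2] at U2
    rw [hφ1, hφ2, I0, I1, I2]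
    set G := Complex.Gamma ((s : ℂ) + k - 1) * (4 * Real.pi : ℂ) ^ (-((s : ℂ) + k - 1))
    set X := DS a (up k p b) ((s : ℂ) + k - 1)
    set Y := DS (up k p a) b ((s : ℂ) + k - 1)
    linear_combination G * U1 - conj (ε p) * G * U2 + (G * (p : ℂ) ^ (-(s : ℂ)) * X) * hεε
  -- the limit
  have hlim1 : Tendsto (fun s : ℝ => (((s : ℂ) - 1) * Mo.SI φ1 s - conj (ε p) *
      (((s : ℂ) - 1) * Mo.SI φ2 s)) *
      (1 - (p : ℂ) ^ (-(s : ℂ)))) (𝓝[>] 1) (𝓝 (0 * (1 - (p : ℂ) ^ (-(1 : ℂ))))) :=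
    hT.mul (tendsto_const_nhds.sub hpc)
  have hlim2 : Tendsto (fun s : ℝ => (p : ℂ) ^ (-(s : ℂ)) * (conj (a p) - conj (ε p) * b p) *
      (((s : ℂ) - 1) * Mo.SI (petersson k f g) s)) (𝓝[>] 1)
      (𝓝 ((p : ℂ) ^ (-(1 : ℂ)) * (conj (a p) - conj (ε p) * b p) *
        (cL * Mo.avg L (petersson k f g)))) :=
    (hpc.mul tendsto_const_nhds).mul hT0
  have heq : (fun s : ℝ => (p : ℂ) ^ (-(s : ℂ)) * (conj (a p) - conj (ε p) * b p) *
      (((s : ℂ) - 1) * Mo.SI (petersson k f g) s)) =ᶠ[𝓝[>] 1] fun s : ℝ =>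
      (((s : ℂ) - 1) * Mo.SI φ1 s - conj (ε p) * (((s : ℂ) - 1) * Mo.SI φ2 s)) *
        (1 - (p : ℂ) ^ (-(s : ℂ))) := by
    filter_upwards [self_mem_nhdsWithin] with s hs
    have := hid s hs
    linear_combination (-((s : ℂ) - 1)) * this
  have hfin := tendsto_nhds_unique (hlim2.congr' heq) hlim1
  rw [zero_mul] at hfin
  have hpC : (p : ℂ) ^ (-(1 : ℂ)) ≠ 0 := by
    rw [Complex.cpow_neg_one]
    exact inv_ne_zero (by exact_mod_cast hp0)
  have habC : conj (a p) - conj (ε p) * b p ≠ 0 := sub_ne_zero.2 hab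
  have hcC : (cL : ℂ) ≠ 0 := by exact_mod_cast hcL.ne'
  rcases mul_eq_zero.1 hfin with h | h
  · exact absurd h (mul_ne_zero hpC habC)
  · exact (mul_eq_zero.1 h).resolve_left hcC

end Or

/-- **Orthogonality.** -/
theorem ortho {L k p : ℕ} [NeZero L] (hk : 1 ≤ k) (hp : p.Prime) (hpL : ¬ p ∣ L)
    {χ : DirichletCharacter ℂ L} (f g : CuspForm (Gamma1 L : Subgroup (GL (Fin 2) ℝ)) (k : ℤ))
    (hf : ∀ γ : SL(2, ℤ), γ ∈ Gamma0 L → ∀ z : ℍ,
      f (γ • z) = χ ((γ 1 1 : ℤ) : ZMod L) * denom γ z ^ k * f z)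
    (hg : ∀ γ : SL(2, ℤ), γ ∈ Gamma0 L → ∀ z : ℍ,
      g (γ • z) = χ ((γ 1 1 : ℤ) : ZMod L) * denom γ z ^ k * g z)
    {a b : ℕ → ℂ} (a0 : a 0 = 0) (b0 : b 0 = 0)
    (hfa : ∀ z : ℍ, HasSum (fun n : ℕ => a n * Complex.exp (2 * Real.pi * Complex.I * n * z)) (f z))
    (hgb : ∀ z : ℍ, HasSum (fun n : ℕ => b n * Complex.exp (2 * Real.pi * Complex.I * n * z)) (g z))
    (Ta : ∀ n : ℕ, a (p * n) + (if p ∣ n then χ ((p : ℕ) : ZMod L) * (p : ℂ) ^ (k - 1) * a (n / p)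
      else 0) = a p * a n)
    (Tb : ∀ n : ℕ, b (p * n) + (if p ∣ n then χ ((p : ℕ) : ZMod L) * (p : ℂ) ^ (k - 1) * b (n / p)
      else 0) = b p * b n)
    (hs0 : ∀ σ : ℝ, 1 < σ → Summable fun n : ℕ => ‖a n * b n‖ * (n : ℝ) ^ (-(σ + k - 1)))
    (hab : starRingEnd ℂ (a p) ≠ starRingEnd ℂ (χ ((p : ℕ) : ZMod L)) * b p) :
    Mo.avg L (UpperHalfPlane.petersson k f g) = 0 := by
  have hcast : ((((p : ℕ) : ℤ)) : ZMod L) = ((p : ℕ) : ZMod L) := by push_cast; rfl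
  have hu : IsUnit ((p : ℕ) : ZMod L) :=
    (ZMod.isUnit_iff_coprime p L).2 ((Nat.Prime.coprime_iff_not_dvd hp).2 hpL)
  refine Or.main (ε := fun d : ℤ => χ ((d : ℤ) : ZMod L)) hk hp hpL
    (fun s hs => norm_char χ hs) (by simp) ?_ f g ?_ ?_ a0 b0 hfa hgb ?_ ?_ ?_ hs0
  · show ‖χ ((((p : ℕ) : ℤ)) : ZMod L)‖ = 1
    rw [hcast]
    obtain ⟨u, hu⟩ := hu
    rw [← hu]
    exact χ.unit_norm_eq_one u
  · intro γ hγ z
    rw [hf γ hγ z, zpow_natCast]
  · intro γ hγ z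
    rw [hg γ hγ z, zpow_natCast]
  · simpa using Ta
  · simpa using Tb
  · simpa using hab

end Pool.Agent.Work.MP_2b9663_nt.Nf
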