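import Pool.Agent.Work.MP_2b9663_nt.Nf.Family2

set_option autoImplicit false

/-!
A comparison theorem: traces which are bounded below in terms of the squares of the absolute values of
combinations of Hecke characters and eigenforms.
-/

namespace Pool.Agent.Work.MP_2b9663_nt

open NumberField Ideal Filter Topology IsDedekindDomain He Nf

section

variable {K : Type} [Field K] [NumberField K] {S : Finset (HeightOneSpectrum (𝓞 K))}
  {t : HeightOneSpectrum (𝓞 K) → ℕ → ℂ} {i : ℕ} {b : ℝ}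

namespace Nf

/-- a function bounded below almost everywhere -/
lemma mean_lower {g : HeightOneSpectrum (𝓞 K) → ℝ} (hg : BK g) {α : ℝ}
    (T : Finset (HeightOneSpectrum (𝓞 K))) (h : ∀ v, v ∉ T → α ≤ g v) {η : ℝ} (hη : 0 < η) :
    ∀ᶠ ε : ℝ in 𝓝[>] 0, α - η ≤ MR g ε := by
  classical
  obtain ⟨B, hB⟩ := hg
  set f : HeightOneSpectrum (𝓞 K) → ℝ := fun v => min α (g v) with hf
  have hfB : BK f := ⟨|α| + B, fun v => by
    have h2 := abs_le.1 (hB v)
    have h3 := abs_le.1 (le_refl |α|)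
    rw [abs_le]
    constructor
    · rw [le_min_iff]
      constructor <;> linarith [h2.1, h2.2, h3.1, abs_nonneg α]
    · exact (min_le_left _ _).trans (by linarith [le_abs_self α, (abs_nonneg (g v)).trans (hB v)])⟩
  have h2 : Tendsto (MR fun _ : HeightOneSpectrum (𝓞 K) => α * 1) (𝓝[>] 0) (𝓝 α) := by
    have h3 := (MR_one (K := K)).const_mul α
    rw [mul_one] at h3
    exact h3.congr fun ε => (MR_const_mul _ _ _).symm
  have h3 := MR_congr (BK.one.const_mul α) hfB T (fun v hv => by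
    rw [mul_one, hf]
    exact (min_eq_left (h v hv)).symm) h2
  filter_upwards [h3.eventually (lt_mem_nhds (sub_lt_self α hη)), eventually_unit] with ε h4 hε
  exact h4.le.trans (MR_mono hfB ⟨B, hB⟩ (fun v => min_le_right _ _) hε.1 hε.2)

end Nf

/-- **The comparison theorem.** -/
theorem order_compare {κ κ' : Type} [Fintype κ] [Fintype κ'] {w : κ → ℕ} {z : κ' → ℕ} (hb : 0 ≤ b)
    (h : WeilK S t i b) {F : ℂ → ℂ} (hF : IsEulerK S t i F)
    (hm : MeromorphicAt F ((i : ℂ) / 2 + 1)) {α : ℝ} {β : κ → ℝ} {γ : κ' → ℝ} (hβ : ∀ j, 0 ≤ β j)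
    (hγ : ∀ j, 0 ≤ γ j) (x : ∀ j, Fin (w j) → ℝ) (y : ∀ j, Fin (z j) → ℝ)
    (ψ : ∀ j, Fin (w j) → HeckeChar K) (f : ∀ j, Fin (z j) → Eigenform)
    (hψ : ∀ j, ∀ r r', r ≠ r' → (ψ j r).Differ (ψ j r'))
    (hf : ∀ j, ∀ r r', r ≠ r' → (f j r).Differ (f j r'))
    (hpos : ∃ T : Finset (HeightOneSpectrum (𝓞 K)), ∀ v, v ∉ T →
      (α - ∑ j, β j * ‖∑ r, (x j r : ℂ) * ψ j r v.asIdeal‖ ^ 2 -
        ∑ j, γ j * ‖∑ r, (y j r : ℂ) * (f j r).trace (absNorm v.asIdeal) 1‖ ^ 2) *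
        Real.sqrt (absNorm v.asIdeal : ℝ) ^ i ≤ (t v 1).re) :
    ∃ m : ℤ, meromorphicOrderAt F ((i : ℂ) / 2 + 1) = m ∧
      (m : ℝ) ≤ ∑ j, β j * ∑ r, x j r ^ 2 +
        Module.finrank ℚ K * ∑ j, γ j * ∑ r, y j r ^ 2 - α := by
  classical
  obtain ⟨C, hC⟩ := He.log_euler hb h hF
  obtain ⟨m, hmo, -⟩ := log_mero hm (hC.mono fun ε h => h.1)
  refine ⟨m, hmo, ?_⟩
  have hmean : Tendsto (MR fun v => (nk S t i v).re) (𝓝[>] 0) (𝓝 (-(m : ℝ))) :=
    fixed_mean hb h (Or.inl ⟨F, hF, hm, hmo⟩)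
  obtain ⟨T, hT⟩ := hpos
  set U : ∀ j : κ, HeightOneSpectrum (𝓞 K) → ℝ := fun j v => ‖WW Finset.univ (x j) (ψ j) v‖ ^ 2
    with hU
  set V : ∀ j : κ', HeightOneSpectrum (𝓞 K) → ℝ := fun j v =>
    ‖WF Finset.univ (y j) (f j) (absNorm v.asIdeal)‖ ^ 2 with hV
  have hUB : ∀ j, BK (U j) := fun j => WW_sq_BK _ _ _
  have hVB : ∀ j, BK (V j) := fun j => ⟨(2 * ∑ r, |y j r|) ^ 2, fun v => by
    rw [hV, abs_of_nonneg (by positivity)]
    exact pow_le_pow_left₀ (norm_nonneg _)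
      (norm_WF_le _ _ _ (absNorm_ne_one v) (absNorm_ne_zero v)) 2⟩
  have hUm : ∀ j, Tendsto (MR (U j)) (𝓝[>] 0) (𝓝 (∑ r, x j r ^ 2)) := fun j =>
    WW_mean Finset.univ (x j) (ψ j) fun r _ r' _ hne => hψ j r r' hne
  have hsumU : BK fun v => ∑ j, β j * U j v := BK.sum _ fun j _ => (hUB j).const_mul _
  have hsumV : BK fun v => ∑ j, γ j * V j v := BK.sum _ fun j _ => (hVB j).const_mul _
  have hlow : ∀ v, v ∉ T ∪ S → α ≤ (nk S t i v).re + (∑ j, β j * U j v + ∑ j, γ j * V j v) := by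
    intro v hv
    rw [Finset.mem_union, not_or] at hv
    have hs : 0 < Real.sqrt (qn v) ^ i := pow_pos (Real.sqrt_pos.mpr (qn_pos v)) i
    have h1 := hT v hv.1
    have h2 : (nk S t i v).re = (t v 1).re / Real.sqrt (qn v) ^ i := by
      unfold nk
      rw [if_neg hv.2, Complex.div_ofReal_re]
    have h3 : α - ∑ j, β j * U j v - ∑ j, γ j * V j v ≤ (t v 1).re / Real.sqrt (qn v) ^ i := by
      rw [le_div_iff₀ hs]
      exact h1
    rw [h2]
    linarith
  refine le_of_forall_pos_le_add fun e he => ?_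
  set Γ : ℝ := Module.finrank ℚ K * ∑ j, γ j * ∑ r, y j r ^ 2 with hΓ
  set c : ℝ := ∑ j, γ j with hc
  have hc0 : 0 ≤ c := Finset.sum_nonneg fun j _ => hγ j
  set η : ℝ := e / (2 * (1 + c)) with hη
  have hη0 : 0 < η := by positivity
  have h1 := Nf.mean_lower ((nk_BK hb h).add (hsumU.add hsumV)) (T ∪ S) hlow
    (show 0 < e / 2 by linarith)
  have hVm : ∀ j, ∀ᶠ ε : ℝ in 𝓝[>] 0, MR (V j) ε ≤
      (Module.finrank ℚ K : ℝ) * ∑ r, y j r ^ 2 + η := fun j =>
    WF_mean Finset.univ (y j) (f j) (fun r _ r' _ hne => hf j r r' hne) hη0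
  have hlim : Tendsto (fun ε => MR (fun v => (nk S t i v).re) ε + ∑ j, β j * MR (U j) ε)
      (𝓝[>] 0) (𝓝 (-(m : ℝ) + ∑ j, β j * ∑ r, x j r ^ 2)) :=
    hmean.add (tendsto_finsetSum _ fun j _ => (hUm j).const_mul _)
  have h2 : α - e / 2 - (Γ + e / 2) ≤ -(m : ℝ) + ∑ j, β j * ∑ r, x j r ^ 2 := by
    refine ge_of_tendsto hlim ?_
    filter_upwards [h1, eventually_all.2 hVm, eventually_unit] with ε h3 h4 hε
    rw [MR_add (nk_BK hb h) (hsumU.add hsumV) hε.1, MR_add hsumU hsumV hε.1,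
      MR_sum Finset.univ (fun j _ => (hUB j).const_mul _) hε.1,
      MR_sum Finset.univ (fun j _ => (hVB j).const_mul _) hε.1] at h3
    simp only [MR_const_mul] at h3
    have h5 : ∑ j, γ j * MR (V j) ε ≤ Γ + e / 2 := by
      have h6 : ∑ j, γ j * MR (V j) ε ≤
          ∑ j, (γ j * ((Module.finrank ℚ K : ℝ) * ∑ r, y j r ^ 2) + γ j * η) :=
        Finset.sum_le_sum fun j _ => by
          rw [← mul_add]
          exact mul_le_mul_of_nonneg_left (h4 j) (hγ j)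
      refine h6.trans ?_
      rw [Finset.sum_add_distrib, ← Finset.sum_mul, ← hc]
      have h7 : ∑ j, γ j * ((Module.finrank ℚ K : ℝ) * ∑ r, y j r ^ 2) = Γ := by
        rw [hΓ, Finset.mul_sum]
        exact Finset.sum_congr rfl fun j _ => by ring
      rw [h7]
      have h8 : c * η ≤ e / 2 := by
        have h9 : (1 + c) * η = e / 2 := by
          rw [hη]
          field_simp
        nlinarith
      linarith
    linarith
  linarith

end

end Pool.Agent.Work.MP_2b9663_nt
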