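import Pool.Agent.Work.MP_2b9663_nt.Mo.Strip
import Pool.Agent.Work.MP_2b9663_nt.Nf.Defs

set_option autoImplicit false

/-! Module P2: the Petersson product of two cusp forms with characters and of weights `k`, `k + r`,
and the Rankin-Selberg integral over the strip `0 ≤ Re z < 1`. -/

namespace Pool.Agent.Work.MP_2b9663_nt.Nf

open UpperHalfPlane ModularGroup MeasureTheory CongruenceSubgroup Set
open scoped MatrixGroups Modular NNReal ComplexConjugate
open Mo (strip reim reim_mp reim_me dens_meas integral_H integrable_H integral_char parseval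
  measurableSet_strip)

open ConjAct Pointwise in
/-- A cusp form of weight `k` decays exponentially at all cusps. -/
theorem cusp_decay {k : ℤ} {Γ : Subgroup (GL (Fin 2) ℝ)} [Γ.IsArithmetic] (f : CuspForm Γ k)
    (γ : SL(2, ℤ)) : ∃ C a : ℝ, 0 ≤ C ∧ 0 < a ∧ ∀ z : ℍ, 1 / 2 ≤ z.im →
      ‖f (γ • z)‖ * (γ • z).im ^ ((k : ℝ) / 2) ≤ C * Real.exp (-(a * z.im)) := by
  have key : ∃ C a : ℝ, 0 < a ∧ ∀ z : ℍ, 1 / 2 ≤ z.im →
      ‖UpperHalfPlane.petersson k f f (γ • z)‖ ≤ C * Real.exp (-(a * z.im)) := by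
    obtain ⟨C₀, hC₀⟩ := CuspFormClass.petersson_bounded_left k Γ f f
    have harith : ((ConjAct.toConjAct (γ : GL (Fin 2) ℝ)⁻¹) • Γ).IsArithmetic := by
      simpa [(show Rat.castHom ℝ = algebraMap ℚ ℝ by rfl), map_inv,
        Matrix.SpecialLinearGroup.map_mapGL]
        using! Subgroup.IsArithmetic.conj Γ (Matrix.SpecialLinearGroup.mapGL ℚ γ)⁻¹
    obtain ⟨a, ha, hO⟩ := (CuspFormClass.zero_at_infty
      (CuspForm.translate f (γ : GL (Fin 2) ℝ))).petersson_exp_decay_left k _
      (CuspForm.translate f (γ : GL (Fin 2) ℝ))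
    have hO' : (fun τ => UpperHalfPlane.petersson k f f (γ • τ)) =O[atImInfty]
        fun τ => Real.exp (-a * im τ) := by
      refine hO.congr_left fun τ => ?_
      rw [← petersson_slash_SL]
      rfl
    obtain ⟨C, hC⟩ := hO'.bound
    rw [atImInfty, Filter.eventually_comap, Filter.eventually_atTop] at hC
    obtain ⟨A, hA⟩ := hC
    refine ⟨max C (C₀ * Real.exp (a * max A 0)), a, ha, fun z _ => ?_⟩
    rcases le_total A z.im with hz | hz
    · have := hA z.im hz z rfl
      rw [Real.norm_of_nonneg (Real.exp_pos _).le, neg_mul] at this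
      exact this.trans (mul_le_mul_of_nonneg_right (le_max_left _ _) (Real.exp_pos _).le)
    · have h0 : 0 ≤ C₀ := (norm_nonneg _).trans (hC₀ z)
      calc ‖UpperHalfPlane.petersson k f f (γ • z)‖ ≤ C₀ := hC₀ _
        _ ≤ C₀ * Real.exp (a * max A 0) * Real.exp (-(a * z.im)) := by
          rw [mul_assoc, ← Real.exp_add]
          refine le_mul_of_one_le_right h0 (Real.one_le_exp ?_)
          have : z.im ≤ max A 0 := hz.trans (le_max_left _ _)
          nlinarith
        _ ≤ _ := mul_le_mul_of_nonneg_right (le_max_right _ _) (Real.exp_pos _).le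
  obtain ⟨C, a, ha, hC⟩ := key
  refine ⟨√|C|, a / 2, Real.sqrt_nonneg _, by positivity, fun z hz => ?_⟩
  have h := hC z hz
  have him : 0 < (γ • z).im := (γ • z).im_pos
  have hsq : ‖UpperHalfPlane.petersson k f f (γ • z)‖ =
      (‖f (γ • z)‖ * (γ • z).im ^ ((k : ℝ) / 2)) ^ 2 := by
    rw [UpperHalfPlane.petersson, mul_pow, ← Real.rpow_mul_natCast him.le]
    simp only [norm_mul, RCLike.norm_conj, norm_zpow, Complex.norm_real, Real.norm_eq_abs,
      abs_of_pos him]
    rw [show (k : ℝ) / 2 * ((2 : ℕ) : ℝ) = (k : ℝ) by push_cast; ring, Real.rpow_intCast]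
    ring
  rw [hsq] at h
  have h2 : C * Real.exp (-(a * z.im)) ≤ (√|C| * Real.exp (-(a / 2 * z.im))) ^ 2 := by
    rw [mul_pow, Real.sq_sqrt (abs_nonneg _), ← Real.exp_nat_mul]
    refine mul_le_mul (le_abs_self _) (le_of_eq ?_) (Real.exp_pos _).le (abs_nonneg _)
    congr 1
    push_cast
    ring
  exact le_of_sq_le_sq (h.trans h2) (by positivity)

/-- A cusp form of weight `k` is `O(y ^ (- k / 2))`. -/
theorem cusp_bdd {k : ℤ} {Γ : Subgroup (GL (Fin 2) ℝ)} [Γ.IsArithmetic] (f : CuspForm Γ k) :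
    ∃ C : ℝ, 0 ≤ C ∧ ∀ z : ℍ, ‖f z‖ * z.im ^ ((k : ℝ) / 2) ≤ C := by
  obtain ⟨C, hC⟩ := CuspFormClass.exists_bound f
  refine ⟨|C|, abs_nonneg _, fun z => ?_⟩
  have h := hC z
  rw [le_div_iff₀ (Real.rpow_pos_of_pos z.im_pos _)] at h
  exact h.trans (le_abs_self _)

/-- The Petersson product of a form of weight `k` and a form of weight `k + r`. -/
theorem petersson_norm2 (k r : ℤ) (f g : ℍ → ℂ) (z : ℍ) :
    ‖UpperHalfPlane.petersson k f g z‖ * z.im ^ ((r : ℝ) / 2) =
      (‖f z‖ * z.im ^ ((k : ℝ) / 2)) * (‖g z‖ * z.im ^ (((k + r : ℤ) : ℝ) / 2)) := by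
  have him : 0 < z.im := z.im_pos
  rw [UpperHalfPlane.petersson]
  simp only [norm_mul, RCLike.norm_conj, norm_zpow, Complex.norm_real, Real.norm_eq_abs,
      abs_of_pos him]
  rw [← Real.rpow_intCast]
  have h1 : z.im ^ (k : ℝ) * z.im ^ ((r : ℝ) / 2) =
      z.im ^ ((k : ℝ) / 2) * z.im ^ (((k + r : ℤ) : ℝ) / 2) := by
    rw [← Real.rpow_add him, ← Real.rpow_add him]
    congr 1
    push_cast
    ring
  linear_combination (‖f z‖ * ‖g z‖) * h1

theorem norm_char {N : ℕ} (ω : DirichletCharacter ℂ N) {γ : SL(2, ℤ)} (hγ : γ ∈ Gamma0 N) :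
    ‖ω ((γ 1 1 : ℤ) : ZMod N)‖ = 1 := by
  have hu : IsUnit ((γ 1 1 : ℤ) : ZMod N) := by
    have hdet : γ 0 0 * γ 1 1 - γ 0 1 * γ 1 0 = 1 := by
      have := γ.det_coe
      rwa [Matrix.det_fin_two] at this
    have h2 := congrArg (Int.cast : ℤ → ZMod N) hdet
    push_cast at h2
    rw [Gamma0_mem.mp hγ, mul_zero, sub_zero] at h2
    exact IsUnit.of_mul_eq_one_right _ h2
  obtain ⟨u, hu⟩ := hu
  rw [← hu]
  exact ω.unit_norm_eq_one u

theorem RSFun.petersson {L k r : ℕ} [NeZero L] {ω χ ψ : DirichletCharacter ℂ L} (hω : ω = χ⁻¹ * ψ)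
    (f : CuspForm (Gamma1 L : Subgroup (GL (Fin 2) ℝ)) (k : ℤ))
    (g : CuspForm (Gamma1 L : Subgroup (GL (Fin 2) ℝ)) ((k + r : ℕ) : ℤ))
    (hf : ∀ γ : SL(2, ℤ), γ ∈ Gamma0 L → ∀ z : ℍ,
      f (γ • z) = χ ((γ 1 1 : ℤ) : ZMod L) * denom γ z ^ k * f z)
    (hg : ∀ γ : SL(2, ℤ), γ ∈ Gamma0 L → ∀ z : ℍ,
      g (γ • z) = ψ ((γ 1 1 : ℤ) : ZMod L) * denom γ z ^ (k + r) * g z) :
    RSFun L ω r (UpperHalfPlane.petersson k f g) := by
  refine ⟨fun γ hγ z => ?_, ?_, fun γ => ?_⟩
  · have hd : denom γ z ≠ 0 := denom_ne_zero γ z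
    have hd' : conj (denom γ z) ≠ 0 := by simp
    have him : (((γ • z).im : ℝ) : ℂ) = z.im / (conj (denom γ z) * denom γ z) := by
      rw [ModularGroup.im_smul_eq_div_normSq, Complex.ofReal_div,
        Complex.normSq_eq_conj_mul_self]
    have hz : ((z.im : ℝ) : ℂ) ≠ 0 := by exact_mod_cast z.im_pos.ne'
    simp only [UpperHalfPlane.petersson, hf γ hγ, hg γ hγ, him, zpow_natCast, map_mul, map_pow]
    have hχ : conj (χ ((γ 1 1 : ℤ) : ZMod L)) = χ⁻¹ ((γ 1 1 : ℤ) : ZMod L) := by
      rw [← MulChar.star_apply']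
      rfl
    rw [hχ, hω, MulChar.mul_apply, div_pow, mul_pow, pow_add]
    field_simp
  · fun_prop
  · obtain ⟨C, a, hC0, ha, hC⟩ := cusp_decay f γ
    obtain ⟨C', a', hC0', ha', hC'⟩ := cusp_decay g γ
    refine ⟨C * C', a + a', by positivity, fun z hz => ?_⟩
    have h := petersson_norm2 (k : ℤ) (r : ℤ) f g (γ • z)
    rw [show (((r : ℤ) : ℝ)) = (r : ℝ) by norm_cast] at h
    rw [h]
    have h1 := hC z hz
    have h2 := hC' z hz
    rw [show (((k + r : ℕ) : ℤ) : ℝ) = (((k : ℤ) + (r : ℤ) : ℤ) : ℝ) by push_cast; ring] at h2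
    calc _ ≤ (C * Real.exp (-(a * z.im))) * (C' * Real.exp (-(a' * z.im))) := by
          refine mul_le_mul h1 h2 ?_ (by positivity)
          exact mul_nonneg (norm_nonneg _) (Real.rpow_nonneg (γ • z).im_pos.le _)
      _ = _ := by
          rw [show -((a + a') * z.im) = -(a * z.im) + -(a' * z.im) by ring, Real.exp_add]
          ring

theorem RSFun.norm_inv {N : ℕ} {ω : DirichletCharacter ℂ N} {r : ℕ} {F : ℍ → ℂ}
    (hF : RSFun N ω r F) {γ : SL(2, ℤ)} (hγ : γ ∈ Gamma0 N) (z : ℍ) :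
    ‖F (γ • z)‖ * (γ • z).im ^ ((r : ℝ) / 2) = ‖F z‖ * z.im ^ ((r : ℝ) / 2) := by
  have hd : 0 < ‖denom γ z‖ := norm_pos_iff.mpr (denom_ne_zero γ z)
  rw [hF.inv γ hγ z, norm_mul, norm_mul, norm_char ω hγ, one_mul, norm_pow,
    ModularGroup.im_smul_eq_div_normSq, Complex.normSq_eq_norm_sq,
    Real.div_rpow z.im_pos.le (by positivity), ← Real.rpow_natCast (‖denom γ z‖) 2,
    ← Real.rpow_mul hd.le, show ((2 : ℕ) : ℝ) * ((r : ℝ) / 2) = (r : ℝ) by push_cast; ring,
    Real.rpow_natCast]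
  field_simp

theorem RSFun.bdd {N : ℕ} [NeZero N] {ω : DirichletCharacter ℂ N} {r : ℕ} {F : ℍ → ℂ}
    (hF : RSFun N ω r F) : ∃ C : ℝ, 0 ≤ C ∧ ∀ z : ℍ, ‖F z‖ * z.im ^ ((r : ℝ) / 2) ≤ C := by
  have hc : Continuous fun z : ℍ => ‖F z‖ * z.im ^ ((r : ℝ) / 2) :=
    hF.cont.norm.mul (continuous_im.rpow_const fun z => Or.inl z.im_pos.ne')
  have h := exists_bound_of_subgroup_invariant_of_isBigO (Γ := Gamma0 N) hc (le_refl (0:ℝ))
    (fun g => ?_) (fun g hg z => hF.norm_inv hg z)
  · obtain ⟨C, hC⟩ := h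
    refine ⟨|C|, abs_nonneg _, fun z => ?_⟩
    have := hC z
    rw [Real.rpow_zero, mul_one] at this
    exact (le_abs_self _).trans (this.trans (le_abs_self _))
  · obtain ⟨C, a, ha, hC⟩ := hF.decay g
    have hb : IsBoundedAtImInfty (fun τ => ‖F (g • τ)‖ * (g • τ).im ^ ((r : ℝ) / 2)) := by
      rw [UpperHalfPlane.isBoundedAtImInfty_iff]
      refine ⟨|C|, 1/2, fun z hz => ?_⟩
      rw [Real.norm_of_nonneg (mul_nonneg (norm_nonneg _) (Real.rpow_nonneg (g • z).im_pos.le _))]
      refine (hC z hz).trans ?_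
      calc C * Real.exp (-(a * z.im)) ≤ |C| * 1 := by
            apply mul_le_mul (le_abs_self C) _ (Real.exp_pos _).le (abs_nonneg _)
            rw [Real.exp_le_one_iff]
            have := z.im_pos
            have : 0 < a * z.im := by positivity
            linarith
        _ = |C| := mul_one _
    simpa [IsBoundedAtImInfty, Filter.BoundedAtFilter, Pi.one_def] using hb

/-- the bound on the whole half plane -/
theorem RSFun.exp_bound {N : ℕ} [NeZero N] {ω : DirichletCharacter ℂ N} {r : ℕ} {F : ℍ → ℂ}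
    (hF : RSFun N ω r F) : ∃ C a : ℝ, 0 < a ∧ ∀ z : ℍ,
      ‖F z‖ * z.im ^ ((r : ℝ) / 2) ≤ C * Real.exp (-(a * z.im)) := by
  obtain ⟨C₀, h0, hC₀⟩ := hF.bdd
  obtain ⟨C₁, a, ha, hC₁⟩ := hF.decay 1
  refine ⟨max C₁ (C₀ * Real.exp (a * (1 / 2))), a, ha, fun z => ?_⟩
  rcases le_total (1 / 2) z.im with hz | hz
  · have := hC₁ z hz
    rw [one_smul] at this
    exact this.trans (mul_le_mul_of_nonneg_right (le_max_left _ _) (Real.exp_pos _).le)
  · calc ‖F z‖ * z.im ^ ((r : ℝ) / 2) ≤ C₀ := hC₀ _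
      _ ≤ C₀ * Real.exp (a * (1 / 2)) * Real.exp (-(a * z.im)) := by
        rw [mul_assoc, ← Real.exp_add]
        refine le_mul_of_one_le_right h0 (Real.one_le_exp ?_)
        nlinarith
      _ ≤ _ := mul_le_mul_of_nonneg_right (le_max_right _ _) (Real.exp_pos _).le

theorem strip_integrable {N : ℕ} [NeZero N] {ω : DirichletCharacter ℂ N} {r : ℕ} {F : ℍ → ℂ}
    (hF : RSFun N ω r F) {s : ℂ} (hs : 1 + (r : ℝ) / 2 < s.re) :
    Integrable fun z : ℍ => (Mo.strip.indicator (fun z : ℍ => (z.im : ℂ) ^ s)) z * F z := by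
  obtain ⟨C, a, ha, hC⟩ := hF.exp_bound
  have hb : Integrable fun z : ℍ => (((strip.indicator (fun z : ℍ => z.im ^ (s.re - r / 2))) z *
      (C * Real.exp (-(a * z.im))) : ℝ) : ℂ) := by
    rw [integrable_H (G := fun p : ℝ × ℝ => (((Ico (0:ℝ) 1).indicator (fun _ => (1:ℝ)) p.1 *
      (C * (p.2 ^ (s.re - r / 2) * Real.exp (-(a * p.2)))) : ℝ) : ℂ))]
    · have h1 : Integrable ((Ico (0:ℝ) 1).indicator (fun _ => (1:ℝ))) (volume.restrict univ) := by
        rw [Measure.restrict_univ]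
        exact (integrable_indicator_iff measurableSet_Ico).mpr (by simp)
      have h2 : Integrable (fun y : ℝ => C * (y ^ ((s.re - r / 2) - 2) *
          Real.exp (-a * y ^ (1:ℝ)))) (volume.restrict (Ioi (0:ℝ))) :=
        (integrableOn_rpow_mul_exp_neg_mul_rpow (by linarith) one_pos ha).const_mul _
      have h3 := (h1.mul_prod h2).ofReal (𝕜 := ℂ)
      rw [Measure.prod_restrict] at h3
      refine IntegrableOn.congr_fun h3 (fun p hp => ?_) (MeasurableSet.univ.prod measurableSet_Ioi)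
      have hp2 : 0 < p.2 := hp.2
      simp only [Real.rpow_one]
      rw [Real.rpow_sub hp2 (s.re - r / 2) 2, Real.rpow_two]
      simp only [RCLike.ofReal_eq_complex_ofReal]
      push_cast
      ring_nf
    · intro z
      by_cases hz : z ∈ strip
      · have hz' : z.re ∈ Ico (0:ℝ) 1 := hz
        simp only [indicator_of_mem hz, indicator_of_mem hz']
        push_cast
        ring
      · have hz' : z.re ∉ Ico (0:ℝ) 1 := hz
        simp only [indicator_of_notMem hz, indicator_of_notMem hz']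
        simp
  have hmeas : AEStronglyMeasurable (fun z : ℍ =>
      (strip.indicator (fun z : ℍ => (z.im : ℂ) ^ s)) z * F z) := by
    refine AEStronglyMeasurable.mul ?_ hF.cont.aestronglyMeasurable
    refine AEStronglyMeasurable.indicator ?_ measurableSet_strip
    refine Continuous.aestronglyMeasurable ?_
    refine continuous_iff_continuousAt.mpr fun z => ?_
    exact ContinuousAt.cpow (f := fun z : ℍ => (z.im : ℂ)) (g := fun _ => s)
      (Complex.continuous_ofReal.comp continuous_im).continuousAt continuousAt_const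
      (Or.inl (by simpa using z.im_pos))
  refine hb.mono hmeas (Filter.Eventually.of_forall fun z => ?_)
  rw [Complex.norm_real, norm_mul, norm_mul]
  have hz0 : 0 < z.im := z.im_pos
  by_cases hz : z ∈ strip
  · rw [indicator_of_mem hz, indicator_of_mem hz, Complex.norm_cpow_eq_rpow_re_of_pos hz0,
      Real.norm_of_nonneg (Real.rpow_nonneg hz0.le _)]
    calc z.im ^ s.re * ‖F z‖ = z.im ^ (s.re - r / 2) * (‖F z‖ * z.im ^ ((r : ℝ) / 2)) := by
          rw [mul_comm (‖F z‖), ← mul_assoc, ← Real.rpow_add hz0]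
          congr 2
          ring
      _ ≤ _ := mul_le_mul_of_nonneg_left ((hC z).trans (le_abs_self _)) (by positivity)
  · rw [indicator_of_notMem hz, indicator_of_notMem hz]
    simp

theorem strip_integral {k : ℕ} (_hk : 1 ≤ k) (f g : ℍ → ℂ) (a b : ℕ → ℂ)
    (hf : ∀ z : ℍ, HasSum (fun n : ℕ => a n * Complex.exp (2 * Real.pi * Complex.I * n * z)) (f z))
    (hg : ∀ z : ℍ, HasSum (fun n : ℕ => b n * Complex.exp (2 * Real.pi * Complex.I * n * z)) (g z))
    (a0 : a 0 = 0) {s : ℂ} (hs : 0 < s.re + k - 1)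
    (hsum : Summable fun n : ℕ => ‖a n * b n‖ * (n : ℝ) ^ (-(s.re + k - 1)))
    (hint : Integrable fun z : ℍ => (Mo.strip.indicator (fun z : ℍ => (z.im : ℂ) ^ s)) z *
      UpperHalfPlane.petersson k f g z) :
    ∫ z, (Mo.strip.indicator (fun z : ℍ => (z.im : ℂ) ^ s)) z * UpperHalfPlane.petersson k f g z =
      Complex.Gamma (s + k - 1) * (4 * Real.pi : ℂ) ^ (-(s + k - 1)) *
        ∑' n : ℕ, starRingEnd ℂ (a n) * b n * (n : ℂ) ^ (-(s + k - 1)) := by
  let G : ℝ × ℝ → ℂ := fun p => (Ico (0:ℝ) 1).indicator (fun _ => ((p.2 : ℂ) ^ s)) p.1 *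
    UpperHalfPlane.petersson k f g (ofComplex (p.1 + p.2 * Complex.I))
  have hG : ∀ z : ℍ, G (z.re, z.im) = (strip.indicator (fun z : ℍ => (z.im : ℂ) ^ s)) z *
      UpperHalfPlane.petersson k f g z := by
    intro z
    have h1 : ofComplex ((z.re : ℂ) + z.im * Complex.I) = z := by
      have : ((z.re : ℂ) + z.im * Complex.I) = (z : ℂ) := by
        apply Complex.ext <;> simp
      rw [this, ofComplex_apply]
    simp only [G, h1]
    congr 1
  rw [integrable_H hG] at hint
  rw [integral_H hG]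
  have hprod : (volume : Measure (ℝ × ℝ)).restrict ((univ : Set ℝ) ×ˢ Ioi (0:ℝ)) =
      (volume : Measure ℝ).prod ((volume : Measure ℝ).restrict (Ioi (0:ℝ))) := by
    rw [Measure.volume_eq_prod, ← Measure.prod_restrict, Measure.restrict_univ]
  rw [IntegrableOn, hprod] at hint
  rw [hprod, integral_prod_symm _ hint]
  have hin : ∀ y ∈ Ioi (0:ℝ), (∫ x : ℝ, ((1 / y ^ 2 : ℝ) : ℂ) * G (x, y)) =
      (y : ℂ) ^ ((s + k - 1) - 1) • ∑' n : ℕ, ((starRingEnd ℂ (a n) * b n) *
        ((Real.exp (-(4 * Real.pi * n) * y) : ℝ) : ℂ)) := by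
    intro y hy
    have hy0 : 0 < y := hy
    have hyc : (y : ℂ) ≠ 0 := by exact_mod_cast hy0.ne'
    have him : ∀ x : ℝ, 0 < ((x : ℂ) + y * Complex.I).im := by
      intro x
      simpa using hy0
    let A : ℕ → ℂ := fun n => a n * ((Real.exp (-(2 * Real.pi * n) * y) : ℝ) : ℂ)
    let B : ℕ → ℂ := fun n => b n * ((Real.exp (-(2 * Real.pi * n) * y) : ℝ) : ℂ)
    have hexp : ∀ (n : ℕ) (x : ℝ), Complex.exp (2 * Real.pi * Complex.I * n *
        ((x : ℂ) + y * Complex.I)) = ((Real.exp (-(2 * Real.pi * n) * y) : ℝ) : ℂ) *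
          Complex.exp (2 * Real.pi * Complex.I * n * x) := by
      intro n x
      rw [Complex.ofReal_exp, ← Complex.exp_add]
      congr 1
      push_cast
      linear_combination (2 * Real.pi * n * y : ℂ) * Complex.I_sq
    have hfx : ∀ x : ℝ, HasSum (fun n : ℕ => A n * Complex.exp (2 * Real.pi * Complex.I * n * x))
        (f (ofComplex ((x : ℂ) + y * Complex.I))) := by
      intro x
      have := hf (ofComplex ((x : ℂ) + y * Complex.I))
      rw [ofComplex_apply_of_im_pos (him x)] at this ⊢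
      refine this.congr_fun fun n => ?_
      simp only [A]
      rw [hexp]
      push_cast
      ring
    have hgx : ∀ x : ℝ, HasSum (fun n : ℕ => B n * Complex.exp (2 * Real.pi * Complex.I * n * x))
        (g (ofComplex ((x : ℂ) + y * Complex.I))) := by
      intro x
      have := hg (ofComplex ((x : ℂ) + y * Complex.I))
      rw [ofComplex_apply_of_im_pos (him x)] at this ⊢
      refine this.congr_fun fun n => ?_
      simp only [B]
      rw [hexp]
      push_cast
      ring
    have hA : Summable fun n => ‖A n‖ := by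
      have := (hfx 0).summable.norm
      simpa using this
    have hB : Summable fun n => ‖B n‖ := by
      have := (hgx 0).summable.norm
      simpa using this
    have hP := parseval hA hB
    simp_rw [fun x : ℝ => (hfx x).tsum_eq, fun x : ℝ => (hgx x).tsum_eq] at hP
    have hset : ∀ x : ℝ, ((1 / y ^ 2 : ℝ) : ℂ) * G (x, y) =
        (Ico (0:ℝ) 1).indicator (fun x => (((1 / y ^ 2 : ℝ) : ℂ) * (y : ℂ) ^ s * (y : ℂ) ^ k) *
          (conj (f (ofComplex ((x : ℂ) + y * Complex.I))) *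
            g (ofComplex ((x : ℂ) + y * Complex.I)))) x := by
      intro x
      by_cases hx : x ∈ Ico (0:ℝ) 1
      · simp only [G, indicator_of_mem hx, UpperHalfPlane.petersson]
        have : (ofComplex ((x : ℂ) + y * Complex.I)).im = y := by
          rw [ofComplex_apply_of_im_pos (him x)]
          simp [UpperHalfPlane.im]
        rw [this]
        simp only [zpow_natCast]
        ring
      · simp only [G, indicator_of_notMem hx]
        simp
    simp_rw [hset]
    rw [integral_indicator measurableSet_Ico, integral_const_mul, hP, smul_eq_mul]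
    congr 1
    · rw [show s + k - 1 - 1 = s + (k : ℂ) - 2 by ring, Complex.cpow_sub _ _ hyc,
        Complex.cpow_add _ _ hyc, Complex.cpow_natCast]
      rw [show (2 : ℂ) = ((2 : ℕ) : ℂ) by norm_num, Complex.cpow_natCast]
      push_cast
      ring
    · refine tsum_congr fun n => ?_
      simp only [A, B, map_mul, Complex.conj_ofReal]
      rw [show -(4 * Real.pi * n) * y = -(2 * Real.pi * n) * y + -(2 * Real.pi * n) * y by ring,
        Real.exp_add]
      push_cast
      ring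
  rw [setIntegral_congr_fun measurableSet_Ioi hin]
  have hre : (s + k - 1).re = s.re + k - 1 := by simp
  have hpos : 0 < (s + k - 1).re := by
    rw [hre]
    have : (0:ℝ) ≤ k := Nat.cast_nonneg k
    linarith
  have hM := hasSum_mellin (a := fun n : ℕ => (starRingEnd ℂ (a n) * b n))
    (p := fun n : ℕ => 4 * Real.pi * n)
    (F := fun y => ∑' n : ℕ, ((starRingEnd ℂ (a n) * b n) *
        ((Real.exp (-(4 * Real.pi * n) * y) : ℝ) : ℂ))) (s := s + k - 1) ?_ hpos ?_ ?_
  · rw [mellin] at hM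
    rw [← hM.tsum_eq, ← tsum_mul_left]
    refine tsum_congr fun n => ?_
    rcases Nat.eq_zero_or_pos n with rfl | hn
    · simp [a0]
    · have hn' : (0:ℝ) < n := by exact_mod_cast hn
      have h4 : (0:ℝ) ≤ 4 * Real.pi := by positivity
      rw [Complex.ofReal_mul (4 * Real.pi) n, Complex.mul_cpow_ofReal_nonneg h4 hn'.le,
        Complex.cpow_neg, Complex.cpow_neg]
      push_cast
      field_simp
  · intro n
    rcases Nat.eq_zero_or_pos n with rfl | hn
    · left
      simp [a0]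
    · right
      positivity
  · intro t ht
    have ht0 : 0 < t := ht
    refine Summable.hasSum ?_
    have hz : 0 < ((t : ℂ) * Complex.I).im := by simpa using ht0
    have hexp : ∀ n : ℕ, Complex.exp (2 * Real.pi * Complex.I * n * ((t : ℂ) * Complex.I)) =
        ((Real.exp (-(2 * Real.pi * n) * t) : ℝ) : ℂ) := by
      intro n
      rw [Complex.ofReal_exp]
      congr 1
      push_cast
      linear_combination (2 * Real.pi * n * t : ℂ) * Complex.I_sq
    have h1 : Summable fun n : ℕ => ‖a n * ((Real.exp (-(2 * Real.pi * n) * t) : ℝ) : ℂ)‖ := by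
      refine (hf ⟨(t : ℂ) * Complex.I, hz⟩).summable.norm.congr fun n => ?_
      rw [← hexp n]
    have h2 : Summable fun n : ℕ => ‖b n * ((Real.exp (-(2 * Real.pi * n) * t) : ℝ) : ℂ)‖ := by
      refine (hg ⟨(t : ℂ) * Complex.I, hz⟩).summable.norm.congr fun n => ?_
      rw [← hexp n]
    have h1' : Summable fun n : ℕ =>
        ‖conj (a n) * ((Real.exp (-(2 * Real.pi * n) * t) : ℝ) : ℂ)‖ := by
      refine h1.congr fun n => ?_
      rw [norm_mul, norm_mul, RCLike.norm_conj]
    have h3 := summable_mul_of_summable_norm h1' h2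
    have hinj : Function.Injective (fun n : ℕ => (n, n)) := fun a b h => (Prod.mk.inj h).1
    refine (h3.comp_injective hinj).congr fun n => ?_
    simp only [Function.comp]
    rw [show -(4 * Real.pi * n) * t = -(2 * Real.pi * n) * t + -(2 * Real.pi * n) * t by ring,
      Real.exp_add]
    push_cast
    ring
  · refine (hsum.mul_left ((4 * Real.pi) ^ (-(s.re + k - 1)))).congr fun n => ?_
    rw [hre, norm_mul (conj (a n)), RCLike.norm_conj, norm_mul]
    have h4 : (0:ℝ) ≤ 4 * Real.pi := by positivity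
    rw [Real.mul_rpow h4 (Nat.cast_nonneg n), Real.rpow_neg h4, Real.rpow_neg (Nat.cast_nonneg n)]
    field_simp

end Pool.Agent.Work.MP_2b9663_nt.Nf
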