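import Pool.Agent.Work.MP_2b9663_nt.Nf.Defs
import Pool.Agent.Work.MP_2b9663_nt.Mo.Unfold
import Pool.Agent.Work.MP_2b9663_nt.Mo.Lattice

set_option autoImplicit false

/-! Unfolding without invariance, and the lattice sums with a character and a power of
`c z + d`. -/

namespace Pool.Agent.Work.MP_2b9663_nt.Nf

open UpperHalfPlane ModularGroup MeasureTheory CongruenceSubgroup Set Mo
open scoped MatrixGroups Modular

/-- Unfolding, for a function which need not be invariant. -/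
theorem unfold0 {N : ℕ} [NeZero N] {φ : ℍ → ℂ} (hint : Integrable φ) :
    ∫ z, φ z = (1 / 2 : ℂ) * Mo.avg N (fun w => ∑' δ : Gamma0 N, φ ((δ : SL(2, ℤ)) • w)) := by
  have h := unfold (N := N) (F := fun _ => 1) (h := φ) (fun _ _ _ => rfl) (by simpa using hint)
  simpa using h

/-- The sum over the group, with a weight which depends on the bottom row. -/
theorem strip_sum_weight {N : ℕ} (G : ℤ × ℤ → ℂ) (s : ℂ) (w : ℍ) :
    ∑' δ : Gamma0 N, (strip.indicator (fun z : ℍ => (z.im : ℂ) ^ s)) ((δ : SL(2, ℤ)) • w) *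
      G ((δ : SL(2, ℤ)) 1 0, (δ : SL(2, ℤ)) 1 1) =
    ∑' v : ℤ × ℤ, if IsCoprime v.1 v.2 ∧ (N : ℤ) ∣ v.1 then
      (qf w.re w.im v : ℂ) ^ (-s) * G v else 0 := by
  classical
  rw [tsum_if_eq, ← (rowEquiv N w).tsum_eq]
  have h1 : ∀ δ : Gamma0 N,
      (strip.indicator (fun z : ℍ => (z.im : ℂ) ^ s)) ((δ : SL(2, ℤ)) • w) *
        G ((δ : SL(2, ℤ)) 1 0, (δ : SL(2, ℤ)) 1 1) =
      if ((δ : SL(2, ℤ)) • w ∈ strip) then ((((δ : SL(2, ℤ)) • w).im : ℝ) : ℂ) ^ s *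
        G ((δ : SL(2, ℤ)) 1 0, (δ : SL(2, ℤ)) 1 1) else 0 := by
    intro δ
    rw [Set.indicator_apply, ite_mul, zero_mul]
  rw [tsum_congr h1, tsum_if_eq]
  apply tsum_congr
  intro δ
  have h2 : (rowEquiv N w δ).1 = ((δ.1 : SL(2, ℤ)) 1 0, (δ.1 : SL(2, ℤ)) 1 1) := rfl
  rw [h2, im_smul_qf]
  have h3 := qf_pos (x := w.re) w.im_pos (coprime_ne_zero
    (v := ((δ.1 : SL(2, ℤ)) 1 0, (δ.1 : SL(2, ℤ)) 1 1)) (bottom_row_coprime _))
  rw [Complex.ofReal_inv, Complex.inv_cpow _ _ (by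
    rw [Complex.arg_ofReal_of_nonneg h3.le]
    exact Real.pi_ne_zero.symm), Complex.cpow_neg]

/-- Multiples of primitive vectors, with weights. -/
theorem coprime_lattice_weight {N : ℕ} {ζ : ℕ → ℂ} {G Φ : ℤ × ℤ → ℂ}
    (hζ : Summable fun e => ‖ζ e‖) (hG : Summable fun v => ‖G v‖)
    (h0 : ζ 0 = 0) (h1 : ∀ e : ℕ, ¬ e.Coprime N → ζ e = 0)
    (hΦ : ∀ e : ℕ, e ≠ 0 → e.Coprime N → ∀ v : ℤ × ℤ, ζ e * G v = Φ ((e : ℤ) * v.1, (e : ℤ) * v.2)) :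
    (∑' e, ζ e) * ∑' v : ℤ × ℤ, (if IsCoprime v.1 v.2 ∧ (N : ℤ) ∣ v.1 then G v else 0) =
    ∑' u : ℤ × ℤ, (if u ≠ 0 ∧ (N : ℤ) ∣ u.1 ∧ IsCoprime u.2 (N : ℤ) then Φ u else 0) := by
  classical
  have hsum2 : Summable fun v : ℤ × ℤ =>
      ‖(if IsCoprime v.1 v.2 ∧ (N : ℤ) ∣ v.1 then G v else 0 : ℂ)‖ := by
    refine hG.of_nonneg_of_le (fun v => norm_nonneg _) (fun v => ?_)
    split_ifs
    · exact le_rfl
    · rw [norm_zero]
      exact norm_nonneg _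
  rw [tsum_mul_tsum_of_summable_norm hζ hsum2]
  have h2 : ∀ p : ℕ × (ℤ × ℤ),
      ζ p.1 * (if IsCoprime p.2.1 p.2.2 ∧ (N : ℤ) ∣ p.2.1 then G p.2 else 0) =
      if p.1 ≠ 0 ∧ p.1.Coprime N ∧ IsCoprime p.2.1 p.2.2 ∧ (N : ℤ) ∣ p.2.1 then
        Φ ((p.1 : ℤ) * p.2.1, (p.1 : ℤ) * p.2.2) else 0 := by
    intro p
    by_cases h3 : p.1 ≠ 0 ∧ p.1.Coprime N ∧ IsCoprime p.2.1 p.2.2 ∧ (N : ℤ) ∣ p.2.1
    · rw [if_pos h3, if_pos h3.2.2, hΦ _ h3.1 h3.2.1]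
    · rw [if_neg h3]
      by_cases h4 : p.1 = 0
      · rw [h4, h0, zero_mul]
      · by_cases h5 : p.1.Coprime N
        · rw [if_neg (fun h => h3 ⟨h4, h5, h⟩), mul_zero]
        · rw [h1 _ h5, zero_mul]
  rw [tsum_congr h2, tsum_if_eq, tsum_if_eq, ← (multEquiv N).tsum_eq]
  rfl

/-! ### Powers of `c z + d` -/

theorem norm_lin (w : ℍ) (v : ℤ × ℤ) :
    ‖(v.1 : ℂ) * w + v.2‖ = w.im ^ (1 / 2 : ℝ) * qf w.re w.im v ^ (1 / 2 : ℝ) := by
  have h1 : qf w.re w.im v = ‖(v.1 : ℂ) * w + v.2‖ ^ 2 / w.im := qf_eq_norm w v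
  rw [← Real.mul_rpow w.im_pos.le (qf_nonneg w.im_pos v), h1, mul_div_cancel₀ _ w.im_pos.ne',
    ← Real.sqrt_eq_rpow, Real.sqrt_sq (norm_nonneg _)]

theorem norm_qf_cpow_pow {w : ℍ} {v : ℤ × ℤ} (hv : v ≠ 0) (r : ℕ) (s : ℂ) :
    ‖(qf w.re w.im v : ℂ) ^ (-s) * ((v.1 : ℂ) * w + v.2) ^ r‖ =
      w.im ^ ((r : ℝ) / 2) * ‖(qf w.re w.im v : ℂ) ^ (-(s - r / 2))‖ := by
  rw [norm_mul, norm_pow, norm_lin, norm_qf_cpow hv, norm_qf_cpow hv, mul_pow,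
    ← Real.rpow_natCast, ← Real.rpow_natCast, ← Real.rpow_mul w.im_pos.le,
    ← Real.rpow_mul (qf_nonneg w.im_pos v)]
  have h1 : (1 / 2 : ℝ) * r = (r : ℝ) / 2 := by ring
  have h2 : (s - (r : ℂ) / 2).re = s.re - (r : ℝ) / 2 := by
    have h3 : ((r : ℂ) / 2) = (((r : ℝ) / 2 : ℝ) : ℂ) := by push_cast; rfl
    rw [h3, Complex.sub_re, Complex.ofReal_re]
  rw [h1, h2, mul_left_comm, ← Real.rpow_add (qf_pos w.im_pos hv)]
  congr 2
  ring

theorem qf_pow_summable {r : ℕ} {s : ℂ} (hs : 1 + (r : ℝ) / 2 < s.re) (w : ℍ) :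
    Summable fun v : ℤ × ℤ => ‖(qf w.re w.im v : ℂ) ^ (-s) * ((v.1 : ℂ) * w + v.2) ^ r‖ := by
  have h2 : (s - (r : ℂ) / 2).re = s.re - (r : ℝ) / 2 := by
    have h3 : ((r : ℂ) / 2) = (((r : ℝ) / 2 : ℝ) : ℂ) := by push_cast; rfl
    rw [h3, Complex.sub_re, Complex.ofReal_re]
  have h1 := (qf_summable (s := s - r / 2) (by rw [h2]; linarith) w).mul_left
    (w.im ^ ((r : ℝ) / 2))
  refine h1.of_nonneg_of_le (fun v => norm_nonneg _) (fun v => ?_)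
  by_cases hv : v = 0
  · have hs0 : s ≠ 0 := by
      rintro rfl
      simp at hs
      have : (0 : ℝ) ≤ (r : ℝ) / 2 := by positivity
      linarith
    rw [hv, qf_zero, Complex.ofReal_zero, Complex.zero_cpow (neg_ne_zero.2 hs0), zero_mul, norm_zero]
    have := w.im_pos
    positivity
  · rw [norm_qf_cpow_pow hv]

/-! ### Characters -/

theorem two_mul_sub_re {r : ℕ} {s : ℂ} (hs : 1 + (r : ℝ) / 2 < s.re) : 2 < (2 * s - r).re := by
  have h1 : (2 * s - (r : ℂ)).re = 2 * s.re - r := by simp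
  rw [h1]
  linarith

theorem char_summable {N : ℕ} (ω : DirichletCharacter ℂ N) {r : ℕ} {s : ℂ}
    (hs : 1 + (r : ℝ) / 2 < s.re) :
    Summable fun e : ℕ => ‖ω (e : ZMod N) * (e : ℂ) ^ (-(2 * s - r))‖ := by
  have h1 : Summable fun e : ℕ => ‖1 / (e : ℂ) ^ (2 * s - r)‖ :=
    (Complex.summable_one_div_nat_cpow.2 (by linarith [two_mul_sub_re hs])).norm
  refine h1.of_nonneg_of_le (fun v => norm_nonneg _) (fun e => ?_)
  rw [norm_mul, Complex.cpow_neg, one_div]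
  exact mul_le_of_le_one_left (norm_nonneg _) (DirichletCharacter.norm_le_one _ _)

theorem strip_sum {N : ℕ} [NeZero N] {ω : DirichletCharacter ℂ N} {r : ℕ} {F : ℍ → ℂ}
    (hF : RSFun N ω r F) {s : ℂ} (_hs : 1 + (r : ℝ) / 2 < s.re) (w : ℍ) :
    ∑' δ : Gamma0 N, (Mo.strip.indicator (fun z : ℍ => (z.im : ℂ) ^ s)) ((δ : SL(2, ℤ)) • w) *
      F ((δ : SL(2, ℤ)) • w) = F w * Ep N ω r w s := by
  have h2 := strip_sum_weight (N := N)
    (fun v : ℤ × ℤ => ω ((v.2 : ℤ) : ZMod N) * lv w v ^ r * F w) s w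
  have h1 : ∀ δ : Gamma0 N,
      (Mo.strip.indicator (fun z : ℍ => (z.im : ℂ) ^ s)) ((δ : SL(2, ℤ)) • w) *
        F ((δ : SL(2, ℤ)) • w) =
      (Mo.strip.indicator (fun z : ℍ => (z.im : ℂ) ^ s)) ((δ : SL(2, ℤ)) • w) *
        (fun v : ℤ × ℤ => ω ((v.2 : ℤ) : ZMod N) * lv w v ^ r * F w)
          ((δ : SL(2, ℤ)) 1 0, (δ : SL(2, ℤ)) 1 1) := by
    intro δ
    rw [hF.inv _ δ.2, denom_apply]
    rfl
  refine (tsum_congr h1).trans (h2.trans ?_)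
  rw [Ep, ← tsum_mul_left]
  refine tsum_congr fun v => ?_
  split_ifs
  · ring
  · rw [mul_zero]

theorem lattice_char {N : ℕ} [NeZero N] (ω : DirichletCharacter ℂ N) (r : ℕ) {s : ℂ}
    (hs : 1 + (r : ℝ) / 2 < s.re) (w : ℍ) :
    (∑' e : ℕ, ω (e : ZMod N) * (e : ℂ) ^ (-(2 * s - r))) *
      ∑' v : ℤ × ℤ, (if IsCoprime v.1 v.2 ∧ (N : ℤ) ∣ v.1 then
        (qf w.re w.im v : ℂ) ^ (-s) * (ω (v.2 : ZMod N) * ((v.1 : ℂ) * w + v.2) ^ r) else 0) =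
    ∑' u : ℤ × ℤ, (if (N : ℤ) ∣ u.1 then
      (qf w.re w.im u : ℂ) ^ (-s) * (ω (u.2 : ZMod N) * ((u.1 : ℂ) * w + u.2) ^ r) else 0) := by
  have hr : (0 : ℝ) ≤ (r : ℝ) / 2 := by positivity
  have hs0 : s ≠ 0 := by
    rintro rfl
    simp at hs
    linarith
  have hs1 : 2 * s - (r : ℂ) ≠ 0 := by
    intro h
    have h1 := two_mul_sub_re hs
    rw [h] at h1
    simp at h1
    linarith
  rw [coprime_lattice_weight (N := N)
    (Φ := fun u => (qf w.re w.im u : ℂ) ^ (-s) * (ω (u.2 : ZMod N) * ((u.1 : ℂ) * w + u.2) ^ r))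
    (char_summable ω hs)]
  · refine tsum_congr fun u => ?_
    by_cases h1 : (N : ℤ) ∣ u.1
    · by_cases h2 : u = 0
      · have h3 : (qf w.re w.im u : ℂ) ^ (-s) = 0 := by
          rw [h2, qf_zero, Complex.ofReal_zero, Complex.zero_cpow (neg_ne_zero.2 hs0)]
        rw [h3]
        simp
      · by_cases h3 : IsCoprime u.2 (N : ℤ)
        · rw [if_pos ⟨h2, h1, h3⟩, if_pos h1]
        · have h4 : ω (u.2 : ZMod N) = 0 := by
            apply ω.map_nonunit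
            rw [ZMod.coe_int_isUnit_iff_isCoprime, isCoprime_comm]
            exact h3
          rw [if_neg (fun h => h3 h.2.2), if_pos h1, h4]
          simp
    · rw [if_neg (fun h => h1 h.2.1), if_neg h1]
  · refine (qf_pow_summable hs w).of_nonneg_of_le (fun v => norm_nonneg _) (fun v => ?_)
    rw [norm_mul, norm_mul, norm_mul]
    exact mul_le_mul_of_nonneg_left
      (mul_le_of_le_one_left (norm_nonneg _) (DirichletCharacter.norm_le_one _ _)) (norm_nonneg _)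
  · rw [Nat.cast_zero, Nat.cast_zero, Complex.zero_cpow (neg_ne_zero.2 hs1), mul_zero]
  · intro e he
    rw [ω.map_nonunit (by rwa [ZMod.isUnit_iff_coprime]), zero_mul]
  · intro e he _ v
    have he' : (e : ℂ) ≠ 0 := by exact_mod_cast he
    simp only
    rw [← qf_mul_cpow w.im_pos he]
    have h1 : (e : ℂ) ^ (-(2 * s - r)) = (e : ℂ) ^ (-(2 * s)) * (e : ℂ) ^ r := by
      rw [← Complex.cpow_natCast, ← Complex.cpow_add _ _ he']
      congr 1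
      ring
    have h2 : (((e : ℤ) * v.2 : ℤ) : ZMod N) = (e : ZMod N) * (v.2 : ZMod N) := by push_cast; rfl
    have h3 : ((((e : ℤ) * v.1 : ℤ) : ℂ) * w + (((e : ℤ) * v.2 : ℤ) : ℂ)) ^ r =
        (e : ℂ) ^ r * ((v.1 : ℂ) * w + v.2) ^ r := by
      rw [← mul_pow]
      push_cast
      ring
    rw [h1, h2, map_mul, h3]
    ring

theorem lattice_sum {N : ℕ} [NeZero N] (ω : DirichletCharacter ℂ N) (r : ℕ) {s : ℂ}
    (hs : 1 + (r : ℝ) / 2 < s.re) (w : ℍ) :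
    (∑' e : ℕ, ω ((e : ℕ) : ZMod N) * (e : ℂ) ^ (-(2 * s - r))) * Ep N ω r w s = Er N ω r w s := by
  have h := lattice_char ω r hs w
  have h1 : Ep N ω r w s = ∑' v : ℤ × ℤ, (if IsCoprime v.1 v.2 ∧ (N : ℤ) ∣ v.1 then
      (qf w.re w.im v : ℂ) ^ (-s) * (ω (v.2 : ZMod N) * ((v.1 : ℂ) * w + v.2) ^ r) else 0) := by
    unfold Ep lv
    refine tsum_congr fun v => ?_
    split_ifs
    · ring
    · rfl
  have h2 : Er N ω r w s = ∑' v : ℤ × ℤ, (if (N : ℤ) ∣ v.1 then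
      (qf w.re w.im v : ℂ) ^ (-s) * (ω (v.2 : ZMod N) * ((v.1 : ℂ) * w + v.2) ^ r) else 0) := by
    unfold Er lv
    refine tsum_congr fun v => ?_
    split_ifs
    · ring
    · rfl
  rw [h1, h2, h]

end Pool.Agent.Work.MP_2b9663_nt.Nf
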