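import Pool.Agent.Work.MP_2b9663_nt.Nf.Cont
import Pool.Agent.Work.MP_2b9663_nt.Nf.Unfold
import Pool.Agent.Work.MP_2b9663_nt.Nf.Strip
import Pool.Agent.Work.MP_2b9663_nt.Nf.Nonvan
import Pool.Agent.Work.MP_2b9663_nt.Nf.Ortho
import Pool.Agent.Work.MP_2b9663_nt.Nf.DefsT
import Pool.Agent.Work.MP_2b9663_nt.Mo.RS

set_option autoImplicit false

/-! The Rankin-Selberg `L`-function of two eigenforms of any weights and characters. -/

namespace Pool.Agent.Work.MP_2b9663_nt.Nf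

open UpperHalfPlane ModularGroup MeasureTheory CongruenceSubgroup Filter Topology
open scoped MatrixGroups Modular

lemma Gamma1_mono {N L : ℕ} (h : N ∣ L) : Gamma1 L ≤ Gamma1 N := by
  intro γ hγ
  rw [Gamma1_mem] at hγ ⊢
  have key : ∀ x y : ℤ, (x : ZMod L) = (y : ZMod L) → (x : ZMod N) = (y : ZMod N) := by
    intro x y hxy
    rw [ZMod.intCast_eq_intCast_iff_dvd_sub] at hxy ⊢
    exact (Int.natCast_dvd_natCast.2 h).trans hxy
  refine ⟨?_, ?_, ?_⟩
  · simpa using key _ 1 (by simpa using hγ.1)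
  · simpa using key _ 1 (by simpa using hγ.2.1)
  · simpa using key _ 0 (by simpa using hγ.2.2)

lemma Gamma1_mono' {N L : ℕ} (h : N ∣ L) :
    (Gamma1 L : Subgroup (GL (Fin 2) ℝ)) ≤ (Gamma1 N : Subgroup (GL (Fin 2) ℝ)) :=
  Subgroup.map_mono (Gamma1_mono h)

/-- a form of level `N` as a form of level `L` -/
noncomputable def restrictForm {N L : ℕ} {k : ℤ} (h : N ∣ L)
    (f : CuspForm (Gamma1 N : Subgroup (GL (Fin 2) ℝ)) k) :
    CuspForm (Gamma1 L : Subgroup (GL (Fin 2) ℝ)) k where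
  toFun := f
  slash_action_eq' γ hγ := f.slash_action_eq' γ (Gamma1_mono' h hγ)
  holo' := f.holo'
  zero_at_cusps' hc := f.zero_at_cusps' (hc.mono (Gamma1_mono' h))

section

variable {k N M : ℕ} {χ : DirichletCharacter ℂ N} {a : ℕ → ℂ}

lemma isUnit_of_mem {L : ℕ} {γ : SL(2, ℤ)} (h : γ ∈ Gamma0 L) : IsUnit ((γ 1 1 : ℤ) : ZMod L) := by
  rw [Gamma0_mem] at h
  have h1 := Matrix.SpecialLinearGroup.det_coe γ
  rw [Matrix.det_fin_two] at h1
  have h2 : ((γ 0 0 : ℤ) : ZMod L) * ((γ 1 1 : ℤ) : ZMod L) = 1 := by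
    have h3 := congrArg (Int.cast : ℤ → ZMod L) h1
    push_cast at h3
    have h4 : ((γ 1 0 : ℤ) : ZMod L) = 0 := h
    rw [h4, mul_zero, sub_zero] at h3
    exact h3
  exact IsUnit.of_mul_eq_one _ (by rwa [mul_comm] at h2)

lemma changeLevel_val {L : ℕ} (h : N ∣ L) (χ : DirichletCharacter ℂ N) {d : ℤ}
    (hd : IsUnit ((d : ℤ) : ZMod L)) :
    DirichletCharacter.changeLevel h χ ((d : ℤ) : ZMod L) = χ ((d : ℤ) : ZMod N) := by
  obtain ⟨u, hu⟩ := hd
  rw [← hu, DirichletCharacter.changeLevel_eq_cast_of_dvd χ h u, hu]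
  congr 1
  exact ZMod.cast_intCast h d

/-- the form of an eigenform at a multiple of the level -/
lemma exists_form (ha : IsEigenform k N χ a) {L : ℕ} (h : N ∣ L) :
    ∃ f : CuspForm (Gamma1 L : Subgroup (GL (Fin 2) ℝ)) (k : ℤ),
      (∀ γ : SL(2, ℤ), γ ∈ Gamma0 L → ∀ z : ℍ,
        f (γ • z) = DirichletCharacter.changeLevel h χ ((γ 1 1 : ℤ) : ZMod L) *
          denom γ z ^ k * f z) ∧
      ∀ z : ℍ, HasSum (fun n : ℕ => a n * Complex.exp (2 * Real.pi * Complex.I * n * z)) (f z) := by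
  obtain ⟨f, hf, hs⟩ := ha.cusp
  refine ⟨restrictForm h f, fun γ hγ z => ?_, hs⟩
  rw [changeLevel_val h χ (isUnit_of_mem hγ)]
  exact hf γ (Mo.Gamma0_mono h hγ) z

/-- the Hecke relation at a prime not dividing the level -/
lemma hecke_rel (ha : IsEigenform k N χ a) {L p : ℕ} (h : N ∣ L) (hp : p.Prime) (hpL : ¬ p ∣ L)
    (n : ℕ) : a (p * n) + (if p ∣ n then
      DirichletCharacter.changeLevel h χ ((p : ℕ) : ZMod L) * (p : ℂ) ^ (k - 1) * a (n / p)
      else 0) = a p * a n := by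
  have hunit : IsUnit (((p : ℕ) : ℤ) : ZMod L) := by
    rw [Int.cast_natCast, ZMod.isUnit_iff_coprime]
    exact (Nat.Prime.coprime_iff_not_dvd hp).2 hpL
  have hχ : DirichletCharacter.changeLevel h χ ((p : ℕ) : ZMod L) = χ ((p : ℕ) : ZMod N) := by
    have := changeLevel_val h χ hunit
    simpa using this
  rw [hχ]
  rcases Nat.eq_zero_or_pos n with rfl | hn
  · simp [ha.zero]
  obtain ⟨e, m, hm, rfl⟩ := Nat.exists_eq_pow_mul_and_not_dvd hn.ne' p hp.ne_one
  have hcop : ∀ j : ℕ, (p ^ j).Coprime m := fun j =>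
    Nat.Coprime.pow_left j ((Nat.Prime.coprime_iff_not_dvd hp).2 hm)
  have h1 : p * (p ^ e * m) = p ^ (e + 1) * m := by ring
  rw [h1, ha.mul _ _ (hcop (e + 1)), ha.mul _ _ (hcop e)]
  rcases Nat.eq_zero_or_pos e with rfl | he
  · rw [pow_zero, one_mul, if_neg hm, zero_add, pow_one, ha.one]
    ring
  · obtain ⟨e, rfl⟩ := Nat.exists_eq_add_of_le' (show 1 ≤ e from he)
    rw [if_pos (Dvd.dvd.mul_right (dvd_pow_self p (Nat.succ_ne_zero e)) m)]
    have h2 : p ^ (e + 1) * m / p = p ^ e * m := by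
      rw [pow_succ, mul_assoc, mul_comm p m, ← mul_assoc]
      exact Nat.mul_div_cancel _ hp.pos
    rw [h2, ha.mul _ _ (hcop e), ha.hecke p e hp]
    ring

end

section

variable {k r N M : ℕ} [NeZero N] [NeZero M] {χ : DirichletCharacter ℂ N}
  {ψ : DirichletCharacter ℂ M} {a b : ℕ → ℂ}

instance lcm_neZero : NeZero (N.lcm M) := ⟨Nat.lcm_ne_zero (NeZero.ne N) (NeZero.ne M)⟩

lemma avg_mul_left {L : ℕ} (c : ℂ) (φ : ℍ → ℂ) : Mo.avg L (fun w => c * φ w) = c * Mo.avg L φ := by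
  unfold Mo.avg
  rw [← tsum_mul_left]
  refine tsum_congr fun q => ?_
  rw [integral_const_mul]

/-- the unfolded integral -/
theorem unfolded {L : ℕ} [NeZero L] {ω : DirichletCharacter ℂ L} {F : ℍ → ℂ} (hF : RSFun L ω r F)
    {s : ℂ} (hs : 1 + (r : ℝ) / 2 < s.re) :
    (∑' e : ℕ, ω ((e : ℕ) : ZMod L) * (e : ℂ) ^ (-(2 * s - r))) *
      ∫ z, (Mo.strip.indicator (fun z : ℍ => (z.im : ℂ) ^ s)) z * F z =
      1 / 2 * Mo.avg L (fun w => F w * Er L ω r w s) := by
  rw [unfold0 (N := L) (strip_integrable hF hs)]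
  have h1 : (fun w : ℍ => ∑' δ : Gamma0 L, (Mo.strip.indicator (fun z : ℍ => (z.im : ℂ) ^ s))
      ((δ : SL(2, ℤ)) • w) * F ((δ : SL(2, ℤ)) • w)) = fun w : ℍ => F w * Ep L ω r w s := by
    funext w
    exact strip_sum hF hs w
  rw [h1, mul_left_comm, ← avg_mul_left]
  congr 2
  funext w
  rw [← lattice_sum ω r hs w]
  ring

/-- `s' = s + r / 2` -/
lemma sprime_re {s : ℂ} (hs : 1 < s.re) : 1 + (r : ℝ) / 2 < (s + (r : ℂ) / 2).re := by
  have h1 : ((r : ℂ) / 2).re = (r : ℝ) / 2 := by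
    have : ((r : ℂ) / 2) = (((r : ℝ) / 2 : ℝ) : ℂ) := by push_cast; rfl
    rw [this, Complex.ofReal_re]
  rw [Complex.add_re, h1]
  linarith

/-- **The case without pole.** -/
theorem exists_RS_nopole (hk : 1 ≤ k) (ha : IsEigenform k N χ a) (hb : IsEigenform (k + r) M ψ b)
    (h : 0 < r ∨ quo χ ψ ≠ 1) : ∃ Φ : ℂ → ℂ, IsRS k (k + r) N M χ ψ a b Φ ∧ Φ 1 = 0 := by
  obtain ⟨f, hf, hfa⟩ := exists_form ha (Nat.dvd_lcm_left N M)
  obtain ⟨g, hg, hgb⟩ := exists_form hb (Nat.dvd_lcm_right N M)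
  have hF : RSFun (N.lcm M) (quo χ ψ) r (petersson k f g) := RSFun.petersson rfl f g hf hg
  obtain ⟨Λ, hΛd, hΛ⟩ := continuation h hF
  have hpi : (Real.pi : ℂ) ≠ 0 := by exact_mod_cast Real.pi_ne_zero
  have h4pi : (4 * Real.pi : ℂ) ≠ 0 := mul_ne_zero (by norm_num) hpi
  set sp : ℂ → ℂ := fun s => s + (r : ℂ) / 2 with hsp
  have hspd : Differentiable ℂ sp := differentiable_id.add_const _
  refine ⟨fun s => (s - 1) * (1 / 2 * Λ (sp s) * (Real.pi : ℂ) ^ (sp s) *
    (4 * Real.pi : ℂ) ^ (sp s + k - 1) * (Complex.Gamma (sp s + k - 1))⁻¹ *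
    (Complex.Gamma (sp s))⁻¹), ⟨?_, ?_⟩, by simp⟩
  · have h1 : Differentiable ℂ (fun s : ℂ => (Real.pi : ℂ) ^ (sp s)) := fun s =>
      (hspd s).const_cpow (Or.inl hpi)
    have h2 : Differentiable ℂ (fun s : ℂ => (4 * Real.pi : ℂ) ^ (sp s + k - 1)) := fun s =>
      (((hspd s).add_const (k : ℂ)).sub_const 1).const_cpow (Or.inl h4pi)
    have h3 : Differentiable ℂ (fun s : ℂ => (Complex.Gamma (sp s + k - 1))⁻¹) :=
      Complex.differentiable_one_div_Gamma.comp ((hspd.add_const (k : ℂ)).sub_const 1)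
    have h5 : Differentiable ℂ (fun s : ℂ => (Complex.Gamma (sp s))⁻¹) :=
      Complex.differentiable_one_div_Gamma.comp hspd
    exact (differentiable_id.sub_const 1).mul
      ((((((hΛd.comp hspd).const_mul _)).mul h1).mul h2).mul h3 |>.mul h5)
  · intro s hs
    have hs' : 1 + (r : ℝ) / 2 < (sp s).re := sprime_re hs
    have hl : 1 ≤ k + r := by omega
    have hexp : ∀ x : ℂ, sp x + k - 1 = x + ((k : ℂ) + ((k + r : ℕ) : ℂ)) / 2 - 1 := by
      intro x
      simp only [hsp]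
      push_cast
      ring
    have hexpr : (sp s).re + k - 1 = s.re + ((k : ℝ) + ((k + r : ℕ) : ℝ)) / 2 - 1 := by
      have := congrArg Complex.re (hexp s)
      simp only [Complex.sub_re, Complex.add_re, Complex.natCast_re, Complex.one_re] at this
      rw [this]
      have h1 : (((k : ℂ) + ((k + r : ℕ) : ℂ)) / 2).re = ((k : ℝ) + ((k + r : ℕ) : ℝ)) / 2 := by
        have : (((k : ℂ) + ((k + r : ℕ) : ℂ)) / 2) = ((((k : ℝ) + ((k + r : ℕ) : ℝ)) / 2 : ℝ) : ℂ) := by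
          push_cast; rfl
        rw [this, Complex.ofReal_re]
      rw [h1]
    have hsum : Summable fun n : ℕ => ‖a n * b n‖ * (n : ℝ) ^ (-((sp s).re + k - 1)) := by
      rw [hexpr]
      exact cc_summable hk hl ha hb hs
    have hpos : 0 < (sp s).re + k - 1 := by
      have : (1 : ℝ) ≤ k := by exact_mod_cast hk
      have h0 : (0 : ℝ) ≤ (r : ℝ) / 2 := by positivity
      linarith
    have h1 := strip_integral hk f g a b hfa hgb ha.zero hpos hsum (strip_integrable hF hs')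
    have h2 := euler_rs hk hl ha hb hs
    have h3 := unfolded hF hs'
    have h4 := hΛ (sp s) hs'
    have h5 : ∀ e : ℕ, (e : ℂ) ^ (-(2 * sp s - r)) = (e : ℂ) ^ (-(2 * s)) := by
      intro e
      congr 1
      simp only [hsp]
      ring
    simp only [h5] at h3
    rw [h1] at h3
    have h6 : (∑' e : ℕ, quo χ ψ ((e : ℕ) : ZMod (N.lcm M)) * (e : ℂ) ^ (-(2 * s))) *
        (Complex.Gamma (sp s + k - 1) * (4 * Real.pi : ℂ) ^ (-(sp s + k - 1)) *
        ∑' n : ℕ, starRingEnd ℂ (a n) * b n * (n : ℂ) ^ (-(sp s + k - 1))) =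
        Complex.Gamma (sp s + k - 1) * (4 * Real.pi : ℂ) ^ (-(sp s + k - 1)) *
        Complex.exp (LE k (k + r) N M χ ψ a b s) := by
      unfold LE
      rw [← h2]
      simp only [hexp]
      ring
    rw [h6] at h3
    have hG1 : Complex.Gamma (sp s) ≠ 0 := Complex.Gamma_ne_zero_of_re_pos (by
      have h0 : (0 : ℝ) ≤ (r : ℝ) / 2 := by positivity
      linarith)
    have hG2 : Complex.Gamma (sp s + k - 1) ≠ 0 := by
      refine Complex.Gamma_ne_zero_of_re_pos ?_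
      simpa using hpos
    have e1 : (Real.pi : ℂ) ^ (sp s) ≠ 0 := by simp [Complex.cpow_eq_zero_iff, hpi]
    have e2 : (4 * Real.pi : ℂ) ^ (sp s + k - 1) ≠ 0 := by
      rw [Ne, Complex.cpow_eq_zero_iff]
      exact fun h => h4pi h.1
    rw [← h4]
    rw [Complex.cpow_neg] at h3 ⊢
    beta_reduce
    have h7 : Complex.exp (LE k (k + r) N M χ ψ a b s) = 1 / 2 *
        Mo.avg (N.lcm M) (fun w => petersson k f g w * Er (N.lcm M) (quo χ ψ) r w (sp s)) *
        (4 * Real.pi : ℂ) ^ (sp s + k - 1) * (Complex.Gamma (sp s + k - 1))⁻¹ := by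
      rw [← h3]
      field_simp
    rw [h7]
    field_simp

end

section

variable {k N M : ℕ} [NeZero N] [NeZero M] {χ : DirichletCharacter ℂ N}
  {ψ : DirichletCharacter ℂ M} {a b : ℕ → ℂ}

/-- **The case of equal weights and characters.** -/
theorem exists_RS_pole (hk : 1 ≤ k) (ha : IsEigenform k N χ a) (hb : IsEigenform k M ψ b)
    (h : quo χ ψ = 1) (f g : CuspForm (Gamma1 (N.lcm M) : Subgroup (GL (Fin 2) ℝ)) (k : ℤ))
    (hf : ∀ γ : SL(2, ℤ), γ ∈ Gamma0 (N.lcm M) → ∀ z : ℍ,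
        f (γ • z) = DirichletCharacter.changeLevel (Nat.dvd_lcm_left N M) χ
          ((γ 1 1 : ℤ) : ZMod (N.lcm M)) * denom γ z ^ k * f z)
    (hg : ∀ γ : SL(2, ℤ), γ ∈ Gamma0 (N.lcm M) → ∀ z : ℍ,
        g (γ • z) = DirichletCharacter.changeLevel (Nat.dvd_lcm_right N M) ψ
          ((γ 1 1 : ℤ) : ZMod (N.lcm M)) * denom γ z ^ k * g z)
    (hfa : ∀ z : ℍ, HasSum (fun n : ℕ => a n * Complex.exp (2 * Real.pi * Complex.I * n * z)) (f z))
    (hgb : ∀ z : ℍ, HasSum (fun n : ℕ => b n * Complex.exp (2 * Real.pi * Complex.I * n * z)) (g z)) :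
    ∃ Φ : ℂ → ℂ, IsRS k k N M χ ψ a b Φ ∧ Φ (-1) = 0 ∧
      (Mo.avg (N.lcm M) (petersson k f g) = 0 → Φ 1 = 0) := by
  have hF0 : RSFun (N.lcm M) (quo χ ψ) 0 (petersson k f g) :=
    RSFun.petersson (r := 0) rfl f g hf hg
  have hF : Mo.RSFun (N.lcm M) (petersson k f g) := by
    refine ⟨fun γ hγ z => ?_, hF0.cont, fun γ => ?_⟩
    · rw [hF0.inv γ hγ z, h, MulChar.one_apply (isUnit_of_mem hγ)]
      simp
    · obtain ⟨C, c, hc, h1⟩ := hF0.decay γ
      refine ⟨C, c, hc, fun z hz => ?_⟩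
      have := h1 z hz
      simpa using this
  obtain ⟨Q, hQd, hQ1, hQ⟩ := Mo.completed hF
  refine ⟨fun s => Q s * (Real.pi : ℂ) ^ s * (4 * Real.pi : ℂ) ^ (s + k - 1) *
    (Complex.Gamma (s + k - 1))⁻¹ * (Complex.Gamma (s + 1))⁻¹, ⟨?_, ?_⟩, ?_, ?_⟩
  · have hpi : (Real.pi : ℂ) ≠ 0 := by exact_mod_cast Real.pi_ne_zero
    have h4 : (4 * Real.pi : ℂ) ≠ 0 := mul_ne_zero (by norm_num) hpi
    have h1 : Differentiable ℂ (fun s : ℂ => (Real.pi : ℂ) ^ s) := fun s =>
      differentiableAt_id.const_cpow (Or.inl hpi)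
    have h2 : Differentiable ℂ (fun s : ℂ => (4 * Real.pi : ℂ) ^ (s + k - 1)) := fun s =>
      ((differentiableAt_id.add_const (k : ℂ)).sub_const 1).const_cpow (Or.inl h4)
    have h3 : Differentiable ℂ (fun s : ℂ => (Complex.Gamma (s + k - 1))⁻¹) :=
      Complex.differentiable_one_div_Gamma.comp ((differentiable_id.add_const (k : ℂ)).sub_const 1)
    have h5 : Differentiable ℂ (fun s : ℂ => (Complex.Gamma (s + 1))⁻¹) :=
      Complex.differentiable_one_div_Gamma.comp (differentiable_id.add_const (1 : ℂ))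
    exact (((hQd.mul h1).mul h2).mul h3).mul h5
  · intro s hs
    have hexp : ∀ x : ℂ, x + ((k : ℂ) + (k : ℂ)) / 2 - 1 = x + k - 1 := by
      intro x
      ring
    have hexpr : s.re + ((k : ℝ) + (k : ℝ)) / 2 - 1 = s.re + k - 1 := by ring
    have hsum : Summable fun n : ℕ => ‖a n * b n‖ * (n : ℝ) ^ (-(s.re + k - 1)) := by
      rw [← hexpr]
      exact cc_summable hk hk ha hb hs
    have hpos : 0 < s.re + k - 1 := by
      have : (1 : ℝ) ≤ k := by exact_mod_cast hk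
      linarith
    have h1 := strip_integral hk f g a b hfa hgb ha.zero hpos hsum (Mo.strip_integrable hF hs)
    have h2 := euler_rs hk hk ha hb hs
    have h3 := hQ s hs
    have hzeta : (∑' e : ℕ, quo χ ψ ((e : ℕ) : ZMod (N.lcm M)) * (e : ℂ) ^ (-(2 * s))) =
        Mo.zetaN (N.lcm M) (2 * s) := by
      unfold Mo.zetaN
      refine tsum_congr fun e => ?_
      rw [h]
      split_ifs with h6
      · rw [MulChar.one_apply ((ZMod.isUnit_iff_coprime e _).2 h6), one_mul]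
      · rw [MulChar.map_nonunit _ (fun h7 => h6 ((ZMod.isUnit_iff_coprime e _).1 h7)), zero_mul]
    rw [hzeta] at h2
    simp only [hexp] at h2
    have h4 : Mo.SI (petersson k f g) s = Complex.Gamma (s + k - 1) *
      (4 * Real.pi : ℂ) ^ (-(s + k - 1)) *
        ∑' n : ℕ, starRingEnd ℂ (a n) * b n * (n : ℂ) ^ (-(s + k - 1)) := h1
    have h5 : Mo.zetaN (N.lcm M) (2 * s) * Mo.SI (petersson k f g) s =
        Complex.Gamma (s + k - 1) *
        (4 * Real.pi : ℂ) ^ (-(s + k - 1)) * Complex.exp (LE k k N M χ ψ a b s) := by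
      unfold LE
      rw [h4, ← h2]
      ring
    rw [h5] at h3
    have hpi : (Real.pi : ℂ) ≠ 0 := by exact_mod_cast Real.pi_ne_zero
    have h4pi : (4 * Real.pi : ℂ) ≠ 0 := mul_ne_zero (by norm_num) hpi
    have hs0 : s ≠ 0 := by
      intro h
      rw [h] at hs
      simp at hs
      linarith
    have hG1 : Complex.Gamma s ≠ 0 := Complex.Gamma_ne_zero_of_re_pos (by linarith)
    have hG2 : Complex.Gamma (s + k - 1) ≠ 0 := by
      refine Complex.Gamma_ne_zero_of_re_pos ?_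
      simpa using hpos
    have e1 : (Real.pi : ℂ) ^ s ≠ 0 := by simp [Complex.cpow_eq_zero_iff, hpi]
    have e2 : (4 * Real.pi : ℂ) ^ (s + k - 1) ≠ 0 := by
      rw [Ne, Complex.cpow_eq_zero_iff]
      exact fun h => h4pi h.1
    beta_reduce
    rw [Complex.Gamma_add_one s hs0, ← h3, Complex.cpow_neg, Complex.cpow_neg]
    field_simp
  · simp [Complex.Gamma_zero]
  · intro h0
    rw [h0, zero_mul] at hQ1
    beta_reduce
    rw [hQ1]
    ring

lemma quo_self : quo χ χ = 1 := by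
  unfold quo
  exact inv_mul_cancel _

/-- the Rankin-Selberg function of `f × f` -/
theorem exists_RS_diag (hk : 1 ≤ k) (ha : IsEigenform k N χ a) :
    ∃ Φ : ℂ → ℂ, IsRS k k N N χ χ a a Φ ∧ Φ (-1) = 0 ∧ Φ 1 ≠ 0 := by
  obtain ⟨f, hf, hfa⟩ := exists_form ha (Nat.dvd_lcm_left N N)
  obtain ⟨Φ, h1, h2, -⟩ := exists_RS_pole hk ha ha quo_self f f hf hf hfa hfa
  exact ⟨Φ, h1, h2, diag_ne hk ha h1 h2⟩

/-- the adjointness relation for the coefficients -/
theorem conj_coeff (hk : 1 ≤ k) (ha : IsEigenform k N χ a) {p : ℕ} (hp : p.Prime)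
    (hpN : ¬ p ∣ N) : starRingEnd ℂ (a p) = starRingEnd ℂ (χ ((p : ℕ) : ZMod N)) * a p := by
  by_contra hne
  obtain ⟨f, hf, hfa⟩ := exists_form ha (Nat.dvd_lcm_left N N)
  obtain ⟨Φ, h1, h2, h3⟩ := exists_RS_pole hk ha ha quo_self f f hf hf hfa hfa
  have hpL : ¬ p ∣ N.lcm N := by rwa [Nat.lcm_self]
  have hunit : IsUnit (((p : ℕ) : ℤ) : ZMod (N.lcm N)) := by
    rw [Int.cast_natCast, ZMod.isUnit_iff_coprime]
    exact (Nat.Prime.coprime_iff_not_dvd hp).2 hpL
  have hχ : DirichletCharacter.changeLevel (Nat.dvd_lcm_left N N) χ ((p : ℕ) : ZMod (N.lcm N)) =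
      χ ((p : ℕ) : ZMod N) := by
    have := changeLevel_val (Nat.dvd_lcm_left N N) χ hunit
    simpa using this
  refine diag_ne hk ha h1 h2 (h3 (ortho hk hp hpL f f hf hf ha.zero ha.zero hfa hfa
    (hecke_rel ha (Nat.dvd_lcm_left N N) hp hpL) (hecke_rel ha (Nat.dvd_lcm_left N N) hp hpL)
    (fun σ hσ => ?_) (by rw [hχ]; exact hne)))
  have := cc_summable hk hk ha ha hσ
  have h4 : σ + ((k : ℝ) + (k : ℝ)) / 2 - 1 = σ + k - 1 := by ring
  rwa [h4] at this

end

section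

variable {k l : ℕ} {N M : ℕ} [NeZero N] [NeZero M] {χ : DirichletCharacter ℂ N}
  {ψ : DirichletCharacter ℂ M} {a b : ℕ → ℂ}

/-- different eigenforms, the first weight being at most the second -/
theorem LA_differ_aux (hk : 1 ≤ k) (hkl : k ≤ l) (ha : IsEigenform k N χ a)
    (hb : IsEigenform l M ψ b) (hd : k ≠ l ∨ ∃ p : ℕ, p.Prime ∧ ¬ p ∣ N ∧ ¬ p ∣ M ∧ a p ≠ b p) :
    LA (PS (rc k l a b)) 0 := by
  obtain ⟨r, rfl⟩ := Nat.exists_eq_add_of_le hkl
  have hl : 1 ≤ k + r := by omega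
  obtain ⟨Φa, ha1, ha2, -⟩ := exists_RS_diag hk ha
  obtain ⟨Φb, hb1, -, -⟩ := exists_RS_diag hl hb
  by_cases hc : 0 < r ∨ quo χ ψ ≠ 1
  · obtain ⟨Φ, h1, h2⟩ := exists_RS_nopole hk ha hb hc
    exact LA_nopole hk hl ha hb h1 h2 (offdiag_ne hk hl ha hb ha1 ha2 hb1 h1 h2)
  · push Not at hc
    obtain ⟨hr, hq⟩ := hc
    have hr0 : r = 0 := by omega
    subst hr0
    rcases hd with hd | ⟨p, hp, hpN, hpM, hab⟩
    · exact absurd rfl hd
    · obtain ⟨f, hf, hfa⟩ := exists_form ha (Nat.dvd_lcm_left N M)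
      obtain ⟨g, hg, hgb⟩ := exists_form hb (Nat.dvd_lcm_right N M)
      have hpL : ¬ p ∣ N.lcm M := by
        intro h6
        have h7 := h6.trans (Nat.lcm_dvd_mul N M)
        rcases (Nat.Prime.dvd_mul hp).1 h7 with h8 | h8
        · exact hpN h8
        · exact hpM h8
      have hunit : IsUnit (((p : ℕ) : ℤ) : ZMod (N.lcm M)) := by
        rw [Int.cast_natCast, ZMod.isUnit_iff_coprime]
        exact (Nat.Prime.coprime_iff_not_dvd hp).2 hpL
      have hχ : DirichletCharacter.changeLevel (Nat.dvd_lcm_left N M) χ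
          ((p : ℕ) : ZMod (N.lcm M)) = χ ((p : ℕ) : ZMod N) := by
        have := changeLevel_val (Nat.dvd_lcm_left N M) χ hunit
        simpa using this
      have hchar : DirichletCharacter.changeLevel (Nat.dvd_lcm_right N M) ψ =
          DirichletCharacter.changeLevel (Nat.dvd_lcm_left N M) χ := by
        have h6 : quo χ ψ = 1 := hq
        unfold quo at h6
        exact (inv_mul_eq_one.1 h6).symm
      have hχ0 : χ ((p : ℕ) : ZMod N) ≠ 0 := by
        have h6 : IsUnit ((p : ℕ) : ZMod N) :=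
          (ZMod.isUnit_iff_coprime p N).2 ((Nat.Prime.coprime_iff_not_dvd hp).2 hpN)
        exact (h6.map χ).ne_zero
      have hb' : IsEigenform k M ψ b := hb
      obtain ⟨Φ, h1, -, h3⟩ := exists_RS_pole hk ha hb' hq f g hf hg hfa hgb
      have h0 : Mo.avg (N.lcm M) (petersson k f g) = 0 := by
        refine ortho hk hp hpL f g hf (fun γ hγ z => ?_) ha.zero hb.zero hfa hgb
          (hecke_rel ha (Nat.dvd_lcm_left N M) hp hpL) (fun n => ?_) (fun σ hσ => ?_) ?_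
        · rw [← hchar]
          exact hg γ hγ z
        · rw [← hchar]
          exact hecke_rel hb' (Nat.dvd_lcm_right N M) hp hpL n
        · have := cc_summable hk hk ha hb' hσ
          have h4 : σ + ((k : ℝ) + (k : ℝ)) / 2 - 1 = σ + k - 1 := by ring
          rwa [h4] at this
        · rw [hχ, conj_coeff hk ha hp hpN]
          intro h6
          exact hab (mul_left_cancel₀ ((map_ne_zero _).2 hχ0) h6)
      exact LA_nopole hk hl ha hb h1 (h3 h0) (offdiag_ne hk hl ha hb ha1 ha2 hb1 h1 (h3 h0))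

lemma rc_symm (k l : ℕ) (a b : ℕ → ℂ) : rc k l a b = rc l k b a := by
  funext p
  unfold rc
  rw [← Complex.conj_re, map_mul, Complex.conj_conj, mul_comm]

end

theorem orth_self (f : Eigenform) : LA (PS (rc f.weight f.weight f.coeff f.coeff)) 1 := by
  haveI : NeZero f.level := ⟨f.level_pos.ne'⟩
  obtain ⟨Φ, h1, -, h3⟩ := exists_RS_diag f.weight_pos f.isEigenform
  exact LA_pole f.weight_pos f.weight_pos f.isEigenform f.isEigenform h1 h3

theorem orth_differ {f g : Eigenform} (h : f.Differ g) :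
    LA (PS (rc f.weight g.weight f.coeff g.coeff)) 0 := by
  haveI : NeZero f.level := ⟨f.level_pos.ne'⟩
  haveI : NeZero g.level := ⟨g.level_pos.ne'⟩
  rcases le_total f.weight g.weight with hle | hle
  · exact LA_differ_aux f.weight_pos hle f.isEigenform g.isEigenform h
  · rw [rc_symm]
    refine LA_differ_aux g.weight_pos hle g.isEigenform f.isEigenform ?_
    rcases h with h | ⟨p, hp, h1, h2, h3⟩
    · exact Or.inl h.symm
    · exact Or.inr ⟨p, hp, h2, h1, h3.symm⟩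

end Pool.Agent.Work.MP_2b9663_nt.Nf
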