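import Pool.Agent.Work.MP_2b9663_nt.Nf.Defs

set_option autoImplicit false

/-! Sums over the lattice vectors `(m, n)` with `N ∣ m`, by residue classes of `n`. -/

namespace Pool.Agent.Work.MP_2b9663_nt.Nf

/-- The lattice vectors with second coordinate in the residue class. -/
noncomputable def resEquiv (N : ℕ) [NeZero N] : Fin N × (ℤ × ℤ) ≃ ℤ × ℤ where
  toFun p := (p.2.1, (Int.divModEquiv N).symm (p.2.2, p.1))
  invFun v := (((Int.divModEquiv N) v.2).2, (v.1, ((Int.divModEquiv N) v.2).1))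
  left_inv p := by
    show (((Int.divModEquiv N) ((Int.divModEquiv N).symm (p.2.2, p.1))).2,
      (p.2.1, ((Int.divModEquiv N) ((Int.divModEquiv N).symm (p.2.2, p.1))).1)) = p
    rw [Equiv.apply_symm_apply]
  right_inv v := by
    show (v.1, (Int.divModEquiv N).symm (((Int.divModEquiv N) v.2).1, ((Int.divModEquiv N) v.2).2)) = v
    rw [Prod.mk.eta, Equiv.symm_apply_apply]

theorem residue_tsum {N : ℕ} [NeZero N] {g : ℤ × ℤ → ℂ} (hg : Summable g) :
    ∑' u : ℤ × ℤ, (if (N : ℤ) ∣ u.1 then g u else 0) =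
      ∑ a : Fin N, ∑' v : ℤ × ℤ, g ((N : ℤ) * v.1, v.2 * N + ((a : ℕ) : ℤ)) := by
  have hN : (N : ℤ) ≠ 0 := by exact_mod_cast NeZero.ne N
  have hinj : Function.Injective (fun v : ℤ × ℤ => ((N : ℤ) * v.1, v.2)) := by
    intro v v' h
    simp only [Prod.mk.injEq] at h
    exact Prod.ext (mul_left_cancel₀ hN h.1) h.2
  have hsupp : Function.support (fun u : ℤ × ℤ => (if (N : ℤ) ∣ u.1 then g u else 0)) ⊆
      Set.range (fun v : ℤ × ℤ => ((N : ℤ) * v.1, v.2)) := by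
    intro u hu
    rw [Function.mem_support] at hu
    by_cases h : (N : ℤ) ∣ u.1
    · obtain ⟨a, ha⟩ := h
      exact ⟨(a, u.2), Prod.ext ha.symm rfl⟩
    · rw [if_neg h] at hu
      exact absurd rfl hu
  rw [← hinj.tsum_eq hsupp]
  have hs2 : Summable fun v : ℤ × ℤ => g ((N : ℤ) * v.1, v.2) := hg.comp_injective hinj
  have h2 : ∀ v : ℤ × ℤ, (if (N : ℤ) ∣ ((N : ℤ) * v.1, v.2).1 then g ((N : ℤ) * v.1, v.2) else 0) =
      g ((N : ℤ) * v.1, v.2) := fun v => if_pos (dvd_mul_right _ _)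
  rw [tsum_congr h2]
  have hs3 : Summable fun p : Fin N × (ℤ × ℤ) =>
      g ((N : ℤ) * (resEquiv N p).1, (resEquiv N p).2) := (resEquiv N).summable_iff.2 hs2
  rw [← (resEquiv N).tsum_eq (fun v : ℤ × ℤ => g ((N : ℤ) * v.1, v.2)), hs3.tsum_prod,
    tsum_fintype]
  rfl

end Pool.Agent.Work.MP_2b9663_nt.Nf
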