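import Pool.Agent.Work.MP_2b9663_nt.Mo.Theta
import Pool.Agent.Work.MP_2b9663_nt.Nf.Residue

set_option autoImplicit false

/-! The theta series of `ℤ z + ℤ` with a weight and a character: Poisson summation, bounds,
continuity, Mellin transform. -/

namespace Pool.Agent.Work.MP_2b9663_nt.Nf

open UpperHalfPlane ModularGroup MeasureTheory CongruenceSubgroup Filter Topology
open scoped MatrixGroups Modular

namespace Po

open Mo.Tt

/-- the lattice point -/
noncomputable def lp (x y : ℝ) (v : ℤ × ℤ) : ℂ := v.1 * ((x : ℂ) + y * Complex.I) + v.2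

/-- comparison with a Gauss function -/
theorem summable_of_le {c C D : ℝ} (hc : 0 < c) {f : ℤ × ℤ → ℂ}
    (h : ∀ v : ℤ × ℤ, ‖f v‖ ≤ Real.exp (-(c * nn v) + C * (|(v.1 : ℝ)| + |(v.2 : ℝ)|) + D)) :
    Summable fun v => ‖f v‖ := by
  refine ((gauss_summable (c := c / 2) (by positivity)).mul_left
    (Real.exp (C ^ 2 / c + D))).of_nonneg_of_le (fun v => norm_nonneg _) fun v => ?_
  refine (h v).trans ?_
  rw [← Real.exp_add, Real.exp_le_exp]
  unfold nn
  have h1 : ∀ z : ℝ, C * |z| ≤ c / 2 * z ^ 2 + C ^ 2 / (2 * c) := by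
    intro z
    have h2 : 0 ≤ c / 2 * (|z| - C / c) ^ 2 := by positivity
    have h3 : c / 2 * (|z| - C / c) ^ 2 = c / 2 * z ^ 2 + C ^ 2 / (2 * c) - C * |z| := by
      rw [← sq_abs z]
      field_simp
      ring
    linarith
  have h4 := h1 v.1
  have h5 := h1 v.2
  have h6 : C ^ 2 / c = C ^ 2 / (2 * c) + C ^ 2 / (2 * c) := by
    field_simp
    ring
  rw [h6]
  nlinarith

theorem hasFPS {ι : Type*} {g c : ι → ℂ}
    (h1 : ∀ ρ : ℝ, 0 < ρ → Summable fun i => ‖g i‖ * Real.exp (ρ * ‖c i‖)) :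
    HasFPowerSeriesAt (fun τ => ∑' i, g i * Complex.exp (c i * τ))
      (FormalMultilinearSeries.ofScalars ℂ
        (fun r => (∑' i, g i * c i ^ r) / (r.factorial : ℂ))) 0 := by
  rw [hasFPowerSeriesAt_iff]
  refine Filter.Eventually.of_forall fun τ => ?_
  simp only [zero_add, FormalMultilinearSeries.coeff_ofScalars, smul_eq_mul]
  have hexp : ∀ i, HasSum (fun r : ℕ => g i * ((c i * τ) ^ r / (r.factorial : ℂ)))
      (g i * Complex.exp (c i * τ)) := by
    intro i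
    have := NormedSpace.expSeries_div_hasSum_exp (c i * τ)
    rw [← Complex.exp_eq_exp_ℂ] at this
    exact this.mul_left _
  have hS : Summable fun p : ι × ℕ => g p.1 * ((c p.1 * τ) ^ p.2 / (p.2.factorial : ℂ)) := by
    apply Summable.of_norm
    rw [summable_prod_of_nonneg (fun p => norm_nonneg _)]
    have hexp2 : ∀ i, HasSum (fun r : ℕ => ‖g i * ((c i * τ) ^ r / (r.factorial : ℂ))‖)
        (‖g i‖ * Real.exp (‖τ‖ * ‖c i‖)) := by
      intro i
      have := NormedSpace.expSeries_div_hasSum_exp (‖τ‖ * ‖c i‖)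
      rw [← Real.exp_eq_exp_ℝ] at this
      refine (this.mul_left ‖g i‖).congr_fun fun r => ?_
      rw [norm_mul, norm_div, norm_pow, norm_mul, Complex.norm_natCast, mul_comm ‖c i‖]
    refine ⟨fun i => (hexp2 i).summable, ?_⟩
    simp_rw [fun i => (hexp2 i).tsum_eq]
    refine (h1 (‖τ‖ + 1) (by positivity)).of_nonneg_of_le (fun i => by positivity) fun i => ?_
    gcongr
    linarith
  have hS2 := hS.prod_symm
  have h3 : HasSum (fun p : ℕ × ι => g p.2 * ((c p.2 * τ) ^ p.1 / (p.1.factorial : ℂ)))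
      (∑' i, g i * Complex.exp (c i * τ)) := by
    have h4 : ∑' i, g i * Complex.exp (c i * τ) =
        ∑' p : ι × ℕ, g p.1 * ((c p.1 * τ) ^ p.2 / (p.2.factorial : ℂ)) := by
      rw [hS.tsum_prod]
      exact tsum_congr fun i => (hexp i).tsum_eq.symm
    rw [h4, ← (Equiv.prodComm ℕ ι).tsum_eq]
    exact hS2.hasSum
  refine h3.prod_fiberwise fun r => ?_
  have h5 : Summable fun i => g i * ((c i * τ) ^ r / (r.factorial : ℂ)) := hS2.prod_factor r
  have h6 : τ ^ r * ((∑' i, g i * c i ^ r) / (r.factorial : ℂ)) =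
      ∑' i, g i * ((c i * τ) ^ r / (r.factorial : ℂ)) := by
    rw [← tsum_div_const, ← tsum_mul_left]
    refine tsum_congr fun i => ?_
    rw [mul_pow]
    ring
  rw [h6]
  exact h5.hasSum

/-- power series of sums of exponentials -/
theorem coeff_eq {ι κ : Type*} {g c : ι → ℂ} {g' c' : κ → ℂ}
    (h1 : ∀ ρ : ℝ, 0 < ρ → Summable fun i => ‖g i‖ * Real.exp (ρ * ‖c i‖))
    (h2 : ∀ ρ : ℝ, 0 < ρ → Summable fun i => ‖g' i‖ * Real.exp (ρ * ‖c' i‖))
    (h : ∀ τ : ℂ, ∑' i, g i * Complex.exp (c i * τ) = ∑' i, g' i * Complex.exp (c' i * τ))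
    (r : ℕ) : ∑' i, g i * c i ^ r = ∑' i, g' i * c' i ^ r := by
  have e1 := hasFPS h1
  have e2 := hasFPS h2
  have e3 : (fun τ => ∑' i, g i * Complex.exp (c i * τ)) =
      fun τ => ∑' i, g' i * Complex.exp (c' i * τ) := funext h
  rw [e3] at e1
  have e4 := congrArg (fun p => p.coeff r) (e1.eq_formalMultilinearSeries e2)
  simp only [FormalMultilinearSeries.coeff_ofScalars] at e4
  have hr : (r.factorial : ℂ) ≠ 0 := by exact_mod_cast r.factorial_ne_zero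
  exact (div_left_inj' hr).1 e4

/-- the term of the shifted theta series with a linear exponential -/
noncomputable def gl (t α x y : ℝ) (v : ℤ × ℤ) : ℂ :=
  Complex.exp (-(Real.pi * t * ‖lp x y v + α‖ ^ 2 / y : ℝ))

theorem norm_sq_eq (α x y : ℝ) (v : ℤ × ℤ) :
    ‖lp x y v + α‖ ^ 2 = (v.1 * x + v.2 + α) ^ 2 + (v.1 * y) ^ 2 := by
  rw [← Complex.normSq_eq_norm_sq, Complex.normSq_apply]
  unfold lp
  simp
  ring

/-- the term of the transformed sum -/
noncomputable def gT (t α x y : ℝ) (τ : ℂ) (v : ℤ × ℤ) : ℂ :=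
  Complex.exp (-(Real.pi * y * (t * v.1 ^ 2 + v.2 ^ 2 / t)) -
    2 * Real.pi * Complex.I * (v.1 * v.2 * x) - 2 * Real.pi * Complex.I * (v.2 * α) +
    2 * Real.pi * Complex.I * τ * y * (v.2 / t + v.1))

theorem slice2 {t α x y : ℝ} (ht : 0 < t) (hy : 0 < y) (τ : ℂ) (m : ℤ) :
    ∑' n : ℤ, gl t α x y (m, n) * Complex.exp (2 * Real.pi * (lp x y (m, n) + α) * τ) =
      ((y / t : ℝ) : ℂ) ^ (1 / 2 : ℂ) * Complex.exp (Real.pi * τ ^ 2 * y / t) *
        ∑' n : ℤ, gT t α x y τ (m, n) := by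
  have htc : (t : ℂ) ≠ 0 := by exact_mod_cast ht.ne'
  have hyc : (y : ℂ) ≠ 0 := by exact_mod_cast hy.ne'
  have ha : (0 : ℝ) < ((y / t : ℝ) : ℂ).re := by
    rw [Complex.ofReal_re]
    positivity
  have hane : ((y / t : ℝ) : ℂ) ^ (1 / 2 : ℂ) ≠ 0 := by
    rw [Complex.cpow_ne_zero_iff]
    left
    exact_mod_cast (div_pos hy ht).ne'
  have h := Complex.tsum_exp_neg_quadratic ha (-(Complex.I * (m * x + α - τ * y / t)))
  have hI : Complex.I * (-(Complex.I * (m * x + α - τ * y / t))) = m * x + α - τ * y / t := by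
    linear_combination (-(m * x + α - τ * y / t : ℂ)) * Complex.I_mul_I
  rw [hI] at h
  have h1 : ∀ n : ℤ, gl t α x y (m, n) * Complex.exp (2 * Real.pi * (lp x y (m, n) + α) * τ) =
      Complex.exp (-(Real.pi * t * m ^ 2 * y) + 2 * Real.pi * τ * (Complex.I * m * y) +
        Real.pi * τ ^ 2 * y / t) *
        Complex.exp (-Real.pi / ((y / t : ℝ) : ℂ) * (n + (m * x + α - τ * y / t)) ^ 2) := by
    intro n
    unfold gl
    rw [norm_sq_eq, ← Complex.exp_add, ← Complex.exp_add]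
    congr 1
    unfold lp
    push_cast
    field_simp
    ring
  have h2 : ∀ n : ℤ, gT t α x y τ (m, n) =
      Complex.exp (-(Real.pi * t * m ^ 2 * y) + 2 * Real.pi * τ * (Complex.I * m * y)) *
      Complex.exp (-Real.pi * ((y / t : ℝ) : ℂ) * n ^ 2 +
        2 * Real.pi * (-(Complex.I * (m * x + α - τ * y / t))) * n) := by
    intro n
    rw [← Complex.exp_add]
    unfold gT
    congr 1
    push_cast
    field_simp
    ring
  rw [tsum_congr h1, tsum_congr h2, tsum_mul_left, tsum_mul_left, h, Complex.exp_add]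
  field_simp

theorem norm_lp_le {x y : ℝ} (hy : 0 < y) (α : ℝ) (v : ℤ × ℤ) :
    ‖lp x y v + α‖ ≤ (|x| + y + 1) * (|(v.1 : ℝ)| + |(v.2 : ℝ)|) + |α| := by
  unfold lp
  have h1 : ‖(v.1 : ℂ) * ((x : ℂ) + y * Complex.I)‖ ≤ |(v.1 : ℝ)| * (|x| + y) := by
    rw [norm_mul, Complex.norm_intCast]
    refine mul_le_mul_of_nonneg_left ((norm_add_le _ _).trans ?_) (abs_nonneg _)
    rw [norm_mul, Complex.norm_I, mul_one, Complex.norm_real, Complex.norm_real,
      Real.norm_eq_abs, Real.norm_eq_abs, abs_of_pos hy]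
  have h2 : ‖(v.2 : ℂ)‖ = |(v.2 : ℝ)| := Complex.norm_intCast _
  have h3 : ‖(α : ℂ)‖ = |α| := by rw [Complex.norm_real, Real.norm_eq_abs]
  have h4 := norm_add₃_le (a := (v.1 : ℂ) * ((x : ℂ) + y * Complex.I)) (b := (v.2 : ℂ)) (c := (α : ℂ))
  have h5 := abs_nonneg (v.1 : ℝ)
  have h6 := abs_nonneg (v.2 : ℝ)
  have h7 := abs_nonneg x
  nlinarith

theorem norm_gl (t α x y : ℝ) (v : ℤ × ℤ) :
    ‖gl t α x y v‖ = Real.exp (-(Real.pi * t * ‖lp x y v + α‖ ^ 2 / y)) := by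
  unfold gl
  rw [Complex.norm_exp, Complex.neg_re, Complex.ofReal_re]

theorem norm_lp_sq_ge {x y : ℝ} (hy : 0 < y) (α : ℝ) (v : ℤ × ℤ) :
    y * (kap x y * nn v) / 2 - α ^ 2 ≤ ‖lp x y v + α‖ ^ 2 := by
  have h1 := kap_le (x := x) hy v
  have h2 : y * Mo.qf x y v = (v.1 * x + v.2) ^ 2 + (v.1 * y) ^ 2 := by
    unfold Mo.qf
    field_simp
  rw [norm_sq_eq]
  have h3 : y * (kap x y * nn v) ≤ y * Mo.qf x y v := mul_le_mul_of_nonneg_left h1 hy.le
  rw [h2] at h3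
  nlinarith [sq_nonneg (v.1 * x + v.2 + 2 * α : ℝ), sq_nonneg (v.1 * y : ℝ)]

theorem gl_summable {t x y : ℝ} (ht : 0 < t) (hy : 0 < y) (α : ℝ) {ρ : ℝ} (hρ : 0 ≤ ρ) :
    Summable fun v : ℤ × ℤ => ‖gl t α x y v‖ * Real.exp (ρ * ‖lp x y v + α‖) := by
  have hk := kap_pos (x := x) hy
  have h := summable_of_le (c := Real.pi * t * kap x y / 2) (C := ρ * (|x| + y + 1))
    (D := Real.pi * t * α ^ 2 / y + ρ * |α|)
    (f := fun v => ((‖gl t α x y v‖ * Real.exp (ρ * ‖lp x y v + α‖) : ℝ) : ℂ)) (by positivity) ?_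
  · refine h.congr fun v => ?_
    rw [Complex.norm_real, Real.norm_eq_abs, abs_of_nonneg (by positivity)]
  · intro v
    rw [Complex.norm_real, Real.norm_eq_abs, abs_of_nonneg (by positivity), norm_gl,
      ← Real.exp_add, Real.exp_le_exp]
    have h1 := norm_lp_le (x := x) hy α v
    have h2 := norm_lp_sq_ge (x := x) hy α v
    have h3 := mul_le_mul_of_nonneg_left h1 hρ
    have h4 : Real.pi * t / y * (y * (kap x y * nn v) / 2 - α ^ 2) ≤
        Real.pi * t / y * ‖lp x y v + α‖ ^ 2 := mul_le_mul_of_nonneg_left h2 (by positivity)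
    have h5 : Real.pi * t / y * (y * (kap x y * nn v) / 2 - α ^ 2) =
        Real.pi * t * kap x y / 2 * nn v - Real.pi * t * α ^ 2 / y := by
      field_simp
    have h6 : Real.pi * t / y * ‖lp x y v + α‖ ^ 2 = Real.pi * t * ‖lp x y v + α‖ ^ 2 / y := by
      ring
    rw [h5, h6] at h4
    nlinarith

theorem gT_summable {t x y : ℝ} (ht : 0 < t) (hy : 0 < y) (α : ℝ) (τ : ℂ) :
    Summable (gT t α x y τ) := by
  have hm : 0 < min t (1 / t) := lt_min ht (by positivity)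
  refine Summable.of_norm (summable_of_le (c := Real.pi * y * min t (1 / t))
    (C := 2 * Real.pi * ‖τ‖ * y * (1 / t + 1)) (D := 0) (by positivity) fun v => ?_)
  have h1 : gT t α x y τ v =
      Complex.exp (((-(Real.pi * y * (t * (v.1 : ℝ) ^ 2 + (v.2 : ℝ) ^ 2 / t)) : ℝ) : ℂ) +
      ((-(2 * Real.pi * (v.1 * v.2 * x)) - 2 * Real.pi * (v.2 * α) : ℝ) : ℂ) * Complex.I) *
      Complex.exp (((2 * Real.pi * y * ((v.2 : ℝ) / t + v.1) : ℝ) : ℂ) * (Complex.I * τ)) := by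
    unfold gT
    rw [← Complex.exp_add]
    congr 1
    push_cast
    ring
  rw [h1, norm_mul, Complex.norm_exp, Complex.norm_exp, ← Real.exp_add, Real.exp_le_exp]
  simp only [Complex.add_re, Complex.ofReal_re, Complex.re_ofReal_mul, Complex.I_re, mul_zero,
    add_zero]
  have h2 : min t (1 / t) * (v.1 : ℝ) ^ 2 ≤ t * (v.1 : ℝ) ^ 2 :=
    mul_le_mul_of_nonneg_right (min_le_left _ _) (sq_nonneg _)
  have h3 : min t (1 / t) * (v.2 : ℝ) ^ 2 ≤ 1 / t * (v.2 : ℝ) ^ 2 :=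
    mul_le_mul_of_nonneg_right (min_le_right _ _) (sq_nonneg _)
  have h4 : 1 / t * (v.2 : ℝ) ^ 2 = (v.2 : ℝ) ^ 2 / t := by ring
  have h5 : Real.pi * y * (min t (1 / t) * nn v) ≤
      Real.pi * y * (t * (v.1 : ℝ) ^ 2 + (v.2 : ℝ) ^ 2 / t) := by
    refine mul_le_mul_of_nonneg_left ?_ (by positivity)
    unfold nn
    rw [mul_add]
    linarith
  have h6 : |(Complex.I * τ).re| ≤ ‖τ‖ := by
    refine (Complex.abs_re_le_norm _).trans ?_
    rw [norm_mul, Complex.norm_I, one_mul]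
  have h7 : 2 * Real.pi * y * ((v.2 : ℝ) / t + v.1) * (Complex.I * τ).re ≤
      2 * Real.pi * ‖τ‖ * y * (1 / t + 1) * (|(v.1 : ℝ)| + |(v.2 : ℝ)|) := by
    refine (le_abs_self _).trans ?_
    rw [abs_mul, abs_mul, abs_of_pos (by positivity : 0 < 2 * Real.pi * y)]
    have h8 : |(v.2 : ℝ) / t + v.1| ≤ (1 / t + 1) * (|(v.1 : ℝ)| + |(v.2 : ℝ)|) := by
      refine (abs_add_le _ _).trans ?_
      rw [abs_div, abs_of_pos ht]
      have h9 : |(v.2 : ℝ)| / t = 1 / t * |(v.2 : ℝ)| := by ring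
      rw [h9]
      have h10 : 0 ≤ 1 / t * |(v.1 : ℝ)| := by positivity
      have h11 := abs_nonneg (v.2 : ℝ)
      nlinarith
    calc 2 * Real.pi * y * |(v.2 : ℝ) / t + v.1| * |(Complex.I * τ).re| ≤
        2 * Real.pi * y * ((1 / t + 1) * (|(v.1 : ℝ)| + |(v.2 : ℝ)|)) * ‖τ‖ := by gcongr
      _ = _ := by ring
  nlinarith

/-- the transformation with a linear exponential -/
theorem poisson_exp {t x y : ℝ} (ht : 0 < t) (hy : 0 < y) (α : ℝ) (τ : ℂ) :
    ∑' v, gl t α x y v * Complex.exp (2 * Real.pi * (lp x y v + α) * τ) =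
      ∑' v : ℤ × ℤ, (1 / t * Complex.exp (-(2 * Real.pi * Complex.I * v.1 * α)) *
        gl (1 / t) 0 x y v) * Complex.exp (2 * Real.pi / t * lp x y v * τ) := by
  have hτ : ∀ {t' : ℝ} (_ : 0 < t') (α' : ℝ) (τ' : ℂ), Summable fun v : ℤ × ℤ =>
      gl t' α' x y v * Complex.exp (2 * Real.pi * (lp x y v + α') * τ') := by
    intro t' ht' α' τ'
    refine Summable.of_norm ((gl_summable (x := x) ht' hy α' (ρ := 2 * Real.pi * ‖τ'‖)
      (by positivity)).of_nonneg_of_le (fun v => norm_nonneg _) fun v => ?_)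
    rw [norm_mul]
    refine mul_le_mul_of_nonneg_left ?_ (norm_nonneg _)
    rw [Complex.norm_exp, Real.exp_le_exp]
    refine (Complex.re_le_norm _).trans (le_of_eq ?_)
    rw [norm_mul, norm_mul, norm_mul, Complex.norm_real, Real.norm_eq_abs,
      abs_of_pos Real.pi_pos, Complex.norm_ofNat]
    ring
  have htc : (t : ℂ) ≠ 0 := by exact_mod_cast ht.ne'
  have hyc : (y : ℂ) ≠ 0 := by exact_mod_cast hy.ne'
  have hL : ∑' v, gl t α x y v * Complex.exp (2 * Real.pi * (lp x y v + α) * τ) =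
      ((y / t : ℝ) : ℂ) ^ (1 / 2 : ℂ) * Complex.exp (Real.pi * τ ^ 2 * y / t) *
        ∑' v, gT t α x y τ v := by
    rw [(hτ ht α τ).tsum_prod, (gT_summable ht hy α τ).tsum_prod, ← tsum_mul_left]
    exact tsum_congr fun m => slice2 ht hy τ m
  have ht' : (0 : ℝ) < 1 / t := one_div_pos.2 ht
  have hnorm : ∀ v : ℤ × ℤ, ‖Complex.exp (-(2 * Real.pi * Complex.I * v.1 * α))‖ = 1 := by
    intro v
    have : (-(2 * Real.pi * Complex.I * v.1 * α) : ℂ) =
        ((-(2 * Real.pi * v.1 * α) : ℝ) : ℂ) * Complex.I := by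
      push_cast
      ring
    rw [this, Complex.norm_exp_ofReal_mul_I]
  have hS1 : Summable fun v : ℤ × ℤ => Complex.exp (-(2 * Real.pi * Complex.I * v.1 * α)) *
      (gl (1 / t) 0 x y v * Complex.exp (2 * Real.pi * (lp x y v + (0 : ℝ)) * (τ / t))) := by
    refine Summable.of_norm (((hτ ht' 0 (τ / t)).norm).congr fun v => ?_)
    rw [norm_mul (Complex.exp (-(2 * Real.pi * Complex.I * v.1 * α))), hnorm, one_mul]
  have hS2 : Summable fun v : ℤ × ℤ => Complex.exp (-(2 * Real.pi * Complex.I * v.1 * α)) *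
      gT (1 / t) 0 x y (τ / t) v := by
    refine Summable.of_norm (((gT_summable (x := x) ht' hy 0 (τ / t)).norm).congr fun v => ?_)
    rw [norm_mul (Complex.exp (-(2 * Real.pi * Complex.I * v.1 * α))), hnorm, one_mul]
  have hR : ∑' v : ℤ × ℤ, Complex.exp (-(2 * Real.pi * Complex.I * v.1 * α)) *
      (gl (1 / t) 0 x y v * Complex.exp (2 * Real.pi * (lp x y v + (0 : ℝ)) * (τ / t))) =
      ((y / (1 / t) : ℝ) : ℂ) ^ (1 / 2 : ℂ) *
        Complex.exp (Real.pi * (τ / t) ^ 2 * y / (1 / t : ℝ)) *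
        ∑' v : ℤ × ℤ, Complex.exp (-(2 * Real.pi * Complex.I * v.1 * α)) *
          gT (1 / t) 0 x y (τ / t) v := by
    rw [hS1.tsum_prod, hS2.tsum_prod, ← tsum_mul_left]
    refine tsum_congr fun m => ?_
    dsimp only
    rw [tsum_mul_left, slice2 ht' hy (τ / t) m, tsum_mul_left]
    ring
  have hsw : ∑' v : ℤ × ℤ, Complex.exp (-(2 * Real.pi * Complex.I * v.1 * α)) *
      gT (1 / t) 0 x y (τ / t) v = ∑' v, gT t α x y τ v := by
    rw [← (Equiv.prodComm ℤ ℤ).tsum_eq]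
    refine tsum_congr fun v => ?_
    unfold gT
    rw [← Complex.exp_add]
    congr 1
    simp only [Equiv.prodComm_apply, Prod.fst_swap, Prod.snd_swap]
    push_cast
    field_simp
    ring
  have h3 : ((y / (1 / t) : ℝ) : ℂ) ^ (1 / 2 : ℂ) = t * ((y / t : ℝ) : ℂ) ^ (1 / 2 : ℂ) := by
    have e1 : ((1 / 2 : ℂ)) = ((1 / 2 : ℝ) : ℂ) := by push_cast; rfl
    rw [e1, ← Complex.ofReal_cpow (by positivity), ← Complex.ofReal_cpow (by positivity),
      ← Complex.ofReal_mul]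
    congr 1
    rw [← Real.sqrt_eq_rpow, ← Real.sqrt_eq_rpow]
    rw [show y / (1 / t) = t ^ 2 * (y / t) by field_simp, Real.sqrt_mul (by positivity),
      Real.sqrt_sq ht.le]
  have h4 : ∀ v : ℤ × ℤ, (1 / t * Complex.exp (-(2 * Real.pi * Complex.I * v.1 * α)) *
        gl (1 / t) 0 x y v) * Complex.exp (2 * Real.pi / t * lp x y v * τ) =
      1 / t * (Complex.exp (-(2 * Real.pi * Complex.I * v.1 * α)) *
      (gl (1 / t) 0 x y v * Complex.exp (2 * Real.pi * (lp x y v + (0 : ℝ)) * (τ / t)))) := by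
    intro v
    have : (2 * Real.pi / t * lp x y v * τ : ℂ) = 2 * Real.pi * (lp x y v + (0 : ℝ)) * (τ / t) := by
      push_cast
      ring
    rw [this]
    ring
  rw [hL, tsum_congr h4, tsum_mul_left, hR, hsw, h3]
  have h5 : (Real.pi * (τ / t) ^ 2 * y / (1 / t : ℝ) : ℂ) = Real.pi * τ ^ 2 * y / t := by
    push_cast
    field_simp
  rw [h5]
  field_simp

theorem poisson_aux {t x y : ℝ} (ht : 0 < t) (hy : 0 < y) (α : ℝ) (r : ℕ) :
    ∑' v, gl t α x y v * (lp x y v + α) ^ r =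
      ((t : ℂ) ^ (r + 1))⁻¹ * ∑' v : ℤ × ℤ, Complex.exp (-(2 * Real.pi * Complex.I * v.1 * α)) *
        gl (1 / t) 0 x y v * lp x y v ^ r := by
  have htc : (t : ℂ) ≠ 0 := by exact_mod_cast ht.ne'
  have hpi : (2 * Real.pi : ℂ) ≠ 0 := by
    simp [Real.pi_ne_zero]
  have ht' : (0 : ℝ) < 1 / t := one_div_pos.2 ht
  have hnorm : ∀ v : ℤ × ℤ, ‖Complex.exp (-(2 * Real.pi * Complex.I * v.1 * α))‖ = 1 := by
    intro v
    have : (-(2 * Real.pi * Complex.I * v.1 * α) : ℂ) =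
        ((-(2 * Real.pi * v.1 * α) : ℝ) : ℂ) * Complex.I := by
      push_cast
      ring
    rw [this, Complex.norm_exp_ofReal_mul_I]
  have h := coeff_eq (g := gl t α x y) (c := fun v => 2 * Real.pi * (lp x y v + α))
    (g' := fun v : ℤ × ℤ => 1 / t * Complex.exp (-(2 * Real.pi * Complex.I * v.1 * α)) *
        gl (1 / t) 0 x y v) (c' := fun v => 2 * Real.pi / t * lp x y v) ?_ ?_
    (fun τ => poisson_exp ht hy α τ) r
  · have e1 : ∀ v, gl t α x y v * (2 * Real.pi * (lp x y v + α)) ^ r =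
        (2 * Real.pi) ^ r * (gl t α x y v * (lp x y v + α) ^ r) := by
      intro v
      rw [mul_pow]
      ring
    have e2 : ∀ v : ℤ × ℤ, 1 / t * Complex.exp (-(2 * Real.pi * Complex.I * v.1 * α)) *
        gl (1 / t) 0 x y v * (2 * Real.pi / t * lp x y v) ^ r =
        (2 * Real.pi) ^ r * (((t : ℂ) ^ (r + 1))⁻¹ *
          (Complex.exp (-(2 * Real.pi * Complex.I * v.1 * α)) *
        gl (1 / t) 0 x y v * lp x y v ^ r)) := by
      intro v
      rw [mul_pow, div_pow, pow_succ]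
      field_simp
    rw [tsum_congr e1, tsum_congr e2, tsum_mul_left, tsum_mul_left, tsum_mul_left] at h
    exact mul_left_cancel₀ (pow_ne_zero _ hpi) h
  · intro ρ hρ
    refine (gl_summable (x := x) ht hy α (ρ := ρ * (2 * Real.pi)) (by positivity)).congr fun v => ?_
    rw [norm_mul, norm_mul, Complex.norm_real, Real.norm_eq_abs, abs_of_pos Real.pi_pos,
      Complex.norm_ofNat]
    ring_nf
  · intro ρ hρ
    refine ((gl_summable (x := x) ht' hy 0 (ρ := ρ * (2 * Real.pi / t))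
      (by positivity)).mul_left (1 / t)).congr fun v => ?_
    rw [norm_mul, norm_mul, hnorm, norm_mul, norm_div, norm_div, norm_mul, Complex.norm_real,
      Complex.norm_real, Real.norm_eq_abs, Real.norm_eq_abs, abs_of_pos Real.pi_pos, abs_of_pos ht,
      Complex.norm_ofNat, norm_one, Complex.ofReal_zero, add_zero]
    ring_nf

theorem lv_eq (z : ℍ) (v : ℤ × ℤ) : lv z v = lp z.re z.im v := by
  unfold lv lp
  congr 2
  exact (Complex.re_add_im (z : ℂ)).symm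

end Po

open Po Mo.Tt

theorem poisson {t : ℝ} (ht : 0 < t) (z : ℍ) (r : ℕ) (α : ℝ) :
    ∑' v : ℤ × ℤ, (lv z v + α) ^ r * (Real.exp (-(Real.pi * t * ‖lv z v + α‖ ^ 2 / z.im)) : ℂ) =
      ((t : ℂ) ^ (r + 1))⁻¹ * ∑' v : ℤ × ℤ, Complex.exp (-(2 * Real.pi * Complex.I * v.1 * α)) *
        lv z v ^ r * (Real.exp (-(Real.pi * ‖lv z v‖ ^ 2 / (t * z.im))) : ℂ) := by
  have h := poisson_aux (x := z.re) ht z.im_pos α r
  have e1 : ∀ v : ℤ × ℤ, (lv z v + α) ^ r *
      (Real.exp (-(Real.pi * t * ‖lv z v + α‖ ^ 2 / z.im)) : ℂ) =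
      gl t α z.re z.im v * (lp z.re z.im v + α) ^ r := by
    intro v
    rw [lv_eq, mul_comm]
    unfold gl
    push_cast
    rfl
  have e2 : ∀ v : ℤ × ℤ, Complex.exp (-(2 * Real.pi * Complex.I * v.1 * α)) *
        lv z v ^ r * (Real.exp (-(Real.pi * ‖lv z v‖ ^ 2 / (t * z.im))) : ℂ) =
      Complex.exp (-(2 * Real.pi * Complex.I * v.1 * α)) *
        gl (1 / t) 0 z.re z.im v * lp z.re z.im v ^ r := by
    intro v
    have e3 : gl (1 / t) 0 z.re z.im v =
        (Real.exp (-(Real.pi * ‖lp z.re z.im v‖ ^ 2 / (t * z.im))) : ℂ) := by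
      unfold gl
      rw [Complex.ofReal_zero, add_zero, ← Complex.ofReal_neg, ← Complex.ofReal_exp]
      congr 3
      field_simp
    rw [lv_eq, e3]
    ring
  rw [tsum_congr e1, tsum_congr e2, h]

namespace Po

theorem norm_lv_sq (z : ℍ) (v : ℤ × ℤ) : ‖lv z v‖ ^ 2 = z.im * Mo.qf z.re z.im v := by
  have h := norm_sq_eq 0 z.re z.im v
  rw [Complex.ofReal_zero, add_zero, add_zero, ← lv_eq] at h
  rw [h]
  unfold Mo.qf
  have := z.im_pos.ne'
  field_simp

theorem norm_lv_pow (z : ℍ) (v : ℤ × ℤ) (r : ℕ) :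
    ‖lv z v‖ ^ r = z.im ^ ((r : ℝ) / 2) * Mo.qf z.re z.im v ^ ((r : ℝ) / 2) := by
  rw [← Real.mul_rpow z.im_pos.le (qf_nonneg z.im_pos v), ← norm_lv_sq, ← Real.rpow_natCast,
    ← Real.rpow_natCast, ← Real.rpow_mul (norm_nonneg _)]
  congr 1
  push_cast
  ring

theorem lv_zero (z : ℍ) : lv z 0 = 0 := by simp [lv]

/-- the constant of the bound -/
noncomputable def Cr (r : ℕ) : ℝ := (⌈(r : ℝ) / 2⌉₊.factorial : ℝ) * (Real.pi / 2) ^ (-((r : ℝ) / 2))

theorem Cr_nonneg (r : ℕ) : 0 ≤ Cr r := by unfold Cr; positivity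

theorem pw_le (r : ℕ) {X : ℝ} (hX : 0 ≤ X) :
    X ^ ((r : ℝ) / 2) * Real.exp (-(Real.pi * X / 2)) ≤ Cr r := by
  rcases hX.eq_or_lt with h | h
  · subst h
    rcases Nat.eq_zero_or_pos r with hr | hr
    · subst hr
      simp [Cr]
    · have : ((r : ℝ) / 2) ≠ 0 := by positivity
      rw [Real.zero_rpow this, zero_mul]
      exact Cr_nonneg r
  · have h1 := exp_le (σ := (r : ℝ) / 2) (by positivity) (X := Real.pi / 2 * X) (by positivity)
    rw [Real.mul_rpow (by positivity) h.le, Real.rpow_neg h.le] at h1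
    have h2 : 0 < X ^ ((r : ℝ) / 2) := Real.rpow_pos_of_pos h _
    calc X ^ ((r : ℝ) / 2) * Real.exp (-(Real.pi * X / 2)) =
        X ^ ((r : ℝ) / 2) * Real.exp (-(Real.pi / 2 * X)) := by ring_nf
      _ ≤ X ^ ((r : ℝ) / 2) * ((⌈(r : ℝ) / 2⌉₊.factorial : ℝ) *
          ((Real.pi / 2) ^ (-((r : ℝ) / 2)) * (X ^ ((r : ℝ) / 2))⁻¹)) := by gcongr
      _ = Cr r := by
        unfold Cr
        field_simp

/-- the terms of the theta series -/
theorem term_bound (r : ℕ) {t : ℝ} (ht : 0 < t) (z : ℍ) (v : ℤ × ℤ) :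
    ‖lv z v‖ ^ r * Real.exp (-(Real.pi * t * Mo.qf z.re z.im v)) ≤
      Cr r * (t ^ (-((r : ℝ) / 2)) * z.im ^ ((r : ℝ) / 2)) *
        Real.exp (-(Real.pi * (t / 2) * Mo.qf z.re z.im v)) := by
  have hq := qf_nonneg (x := z.re) z.im_pos v
  have h1 := pw_le r (X := t * Mo.qf z.re z.im v) (by positivity)
  rw [Real.mul_rpow ht.le hq] at h1
  have h2 : Real.exp (-(Real.pi * t * Mo.qf z.re z.im v)) =
      Real.exp (-(Real.pi * (t * Mo.qf z.re z.im v) / 2)) *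
        Real.exp (-(Real.pi * (t / 2) * Mo.qf z.re z.im v)) := by
    rw [← Real.exp_add]
    congr 1
    ring
  rw [norm_lv_pow, h2, Real.rpow_neg ht.le]
  have h3 : 0 < t ^ ((r : ℝ) / 2) := Real.rpow_pos_of_pos ht _
  have h4 : 0 < z.im ^ ((r : ℝ) / 2) := Real.rpow_pos_of_pos z.im_pos _
  calc z.im ^ ((r : ℝ) / 2) * Mo.qf z.re z.im v ^ ((r : ℝ) / 2) *
        (Real.exp (-(Real.pi * (t * Mo.qf z.re z.im v) / 2)) *
        Real.exp (-(Real.pi * (t / 2) * Mo.qf z.re z.im v))) =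
      z.im ^ ((r : ℝ) / 2) * (t ^ ((r : ℝ) / 2))⁻¹ *
        (t ^ ((r : ℝ) / 2) * Mo.qf z.re z.im v ^ ((r : ℝ) / 2) *
        Real.exp (-(Real.pi * (t * Mo.qf z.re z.im v) / 2))) *
        Real.exp (-(Real.pi * (t / 2) * Mo.qf z.re z.im v)) := by
        field_simp
    _ ≤ z.im ^ ((r : ℝ) / 2) * (t ^ ((r : ℝ) / 2))⁻¹ * Cr r *
        Real.exp (-(Real.pi * (t / 2) * Mo.qf z.re z.im v)) := by gcongr
    _ = _ := by ring

/-- the theta series with bounded coefficients -/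
noncomputable def thg (c : ℤ × ℤ → ℂ) (r : ℕ) (t : ℝ) (z : ℍ) : ℂ :=
  ∑' v : ℤ × ℤ, c v * lv z v ^ r * (Real.exp (-(Real.pi * t * Mo.qf z.re z.im v)) : ℂ)

variable {c : ℤ × ℤ → ℂ} {K : ℝ}

theorem norm_term (c : ℤ × ℤ → ℂ) (r : ℕ) (t : ℝ) (z : ℍ) (v : ℤ × ℤ) :
    ‖c v * lv z v ^ r * (Real.exp (-(Real.pi * t * Mo.qf z.re z.im v)) : ℂ)‖ =
      ‖c v‖ * (‖lv z v‖ ^ r * Real.exp (-(Real.pi * t * Mo.qf z.re z.im v))) := by
  rw [norm_mul, norm_mul, norm_pow, Complex.norm_real, Real.norm_eq_abs,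
    abs_of_pos (Real.exp_pos _), mul_assoc]

theorem norm_term_le (hK : ∀ v, ‖c v‖ ≤ K) (r : ℕ) {t : ℝ} (ht : 0 < t) (z : ℍ) (v : ℤ × ℤ) :
    ‖c v * lv z v ^ r * (Real.exp (-(Real.pi * t * Mo.qf z.re z.im v)) : ℂ)‖ ≤
      K * (Cr r * (t ^ (-((r : ℝ) / 2)) * z.im ^ ((r : ℝ) / 2)) *
        Real.exp (-(Real.pi * (t / 2) * Mo.qf z.re z.im v))) := by
  rw [norm_term]
  have h0 : 0 ≤ K := (norm_nonneg _).trans (hK 0)
  exact mul_le_mul (hK v) (term_bound r ht z v) (by positivity) h0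

theorem thg_summable (hK : ∀ v, ‖c v‖ ≤ K) (r : ℕ) {t : ℝ} (ht : 0 < t) (z : ℍ) :
    Summable fun v : ℤ × ℤ => c v * lv z v ^ r *
      (Real.exp (-(Real.pi * t * Mo.qf z.re z.im v)) : ℂ) := by
  refine Summable.of_norm_bounded ?_ (norm_term_le hK r ht z)
  exact ((Mo.Th_summable (x := z.re) (half_pos ht) z.im_pos).mul_left _).mul_left _

theorem thg_bound (hK : ∀ v, ‖c v‖ ≤ K) {r : ℕ} (h : 0 < r ∨ c 0 = 0) {t : ℝ} (ht : 0 < t) (z : ℍ) :
    ‖thg c r t z‖ ≤ K * Cr r * (t ^ (-((r : ℝ) / 2)) * z.im ^ ((r : ℝ) / 2) *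
        (Mo.Th (t / 2) z.re z.im - 1)) := by
  have h1 := (hasSum_sub (x := z.re) (half_pos ht) z.im_pos).mul_left
    (K * Cr r * (t ^ (-((r : ℝ) / 2)) * z.im ^ ((r : ℝ) / 2)))
  unfold thg
  refine (tsum_of_norm_bounded h1 fun v => ?_).trans (le_of_eq (by ring))
  by_cases hv : v = 0
  · subst hv
    rw [if_pos rfl, mul_zero, lv_zero]
    rcases h with h | h
    · rw [zero_pow h.ne', mul_zero, zero_mul, norm_zero]
    · rw [h, zero_mul, zero_mul, norm_zero]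
  · rw [if_neg hv]
    exact (norm_term_le hK r ht z v).trans (le_of_eq (by ring))

theorem thg_continuousOn (hK : ∀ v, ‖c v‖ ≤ K) (r : ℕ) :
    ContinuousOn (fun p : ℝ × ℍ => thg c r p.1 p.2) {p | 0 < p.1} := by
  rintro ⟨t₀, z₀⟩ ht₀
  simp only [Set.mem_ofPred_eq] at ht₀
  refine ContinuousAt.continuousWithinAt ?_
  have hk := kap_pos (x := z₀.re) z₀.im_pos
  have hK0 : 0 ≤ K := (norm_nonneg _).trans (hK 0)
  have hkc : Continuous fun p : ℝ × ℍ => p.1 * kap p.2.re p.2.im := by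
    unfold kap
    refine Continuous.mul (by fun_prop) (Continuous.div ?_ ?_ ?_)
    · exact UpperHalfPlane.continuous_im.comp continuous_snd
    · have h1 : Continuous fun p : ℝ × ℍ => p.2.im := UpperHalfPlane.continuous_im.comp continuous_snd
      have h2 : Continuous fun p : ℝ × ℍ => p.2.re := UpperHalfPlane.continuous_re.comp continuous_snd
      fun_prop
    · intro p
      positivity
  have him : Continuous fun p : ℝ × ℍ => p.2.im := UpperHalfPlane.continuous_im.comp continuous_snd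
  have hre : Continuous fun p : ℝ × ℍ => p.2.re := UpperHalfPlane.continuous_re.comp continuous_snd
  -- the bounds near the point
  have hev : ∀ᶠ p : ℝ × ℍ in 𝓝 (t₀, z₀), 0 < p.1 ∧ t₀ * kap z₀.re z₀.im / 2 < p.1 * kap p.2.re p.2.im ∧
      p.1 ^ (-((r : ℝ) / 2)) * p.2.im ^ ((r : ℝ) / 2) <
        t₀ ^ (-((r : ℝ) / 2)) * z₀.im ^ ((r : ℝ) / 2) + 1 := by
    refine ((continuous_fst.tendsto (t₀, z₀)).eventually (lt_mem_nhds ht₀)).and
      (((hkc.tendsto (t₀, z₀)).eventually (lt_mem_nhds ?_)).and ?_)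
    · have : 0 < t₀ * kap z₀.re z₀.im := by positivity
      simp only
      linarith
    · have h1 : ContinuousAt (fun p : ℝ × ℍ => p.1 ^ (-((r : ℝ) / 2)) * p.2.im ^ ((r : ℝ) / 2))
          (t₀, z₀) := by
        refine ContinuousAt.mul ?_ ?_
        · exact continuous_fst.continuousAt.rpow_const (Or.inl ht₀.ne')
        · exact him.continuousAt.rpow_const (Or.inl z₀.im_pos.ne')
      exact h1.eventually (gt_mem_nhds (lt_add_one _))
  obtain ⟨U, hU, hUo, hp₀⟩ := eventually_nhds_iff.1 hev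
  refine ContinuousOn.continuousAt (s := U) ?_ (hUo.mem_nhds hp₀)
  unfold thg
  refine continuousOn_tsum (u := fun v => K * (Cr r * (t₀ ^ (-((r : ℝ) / 2)) *
      z₀.im ^ ((r : ℝ) / 2) + 1) * Real.exp (-(Real.pi * (t₀ * kap z₀.re z₀.im / 4) * nn v))))
    (fun v => ?_) ?_ fun v p hp => ?_
  · have hq : ContinuousOn (fun p : ℝ × ℍ => Mo.qf p.2.re p.2.im v) U := by
      unfold Mo.qf
      refine ContinuousOn.div (by fun_prop) him.continuousOn ?_
      intro p _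
      exact p.2.im_pos.ne'
    have hlv : Continuous fun p : ℝ × ℍ => lv p.2 v := by
      unfold lv
      have : Continuous fun p : ℝ × ℍ => (p.2 : ℂ) := UpperHalfPlane.continuous_coe.comp continuous_snd
      fun_prop
    refine ContinuousOn.mul (continuous_const.mul (hlv.pow r)).continuousOn
      (Complex.continuous_ofReal.comp_continuousOn ?_)
    refine ContinuousOn.rexp (ContinuousOn.neg (ContinuousOn.mul (by fun_prop) hq))
  · exact ((gauss_summable (by positivity)).mul_left _).mul_left _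
  · obtain ⟨h1, h2, h3⟩ := hU p hp
    refine (norm_term_le hK r h1 p.2 v).trans ?_
    refine mul_le_mul_of_nonneg_left ?_ hK0
    refine mul_le_mul (mul_le_mul_of_nonneg_left h3.le (Cr_nonneg r)) ?_ (Real.exp_pos _).le
      (by have := Cr_nonneg r; positivity)
    refine (term_le (κ := kap p.2.re p.2.im) (half_pos h1) (kap_le p.2.im_pos) v).trans ?_
    rw [Real.exp_le_exp, neg_le_neg_iff]
    refine mul_le_mul_of_nonneg_right ?_ (nn_nonneg v)
    rw [mul_assoc Real.pi]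
    refine mul_le_mul_of_nonneg_left ?_ Real.pi_pos.le
    linarith

/-- summability of the Eisenstein series -/
theorem qfp_summable (r : ℕ) {s : ℂ} (hs : 1 + (r : ℝ) / 2 < s.re) (z : ℍ) :
    Summable fun v : ℤ × ℤ => ‖lv z v ^ r * (Mo.qf z.re z.im v : ℂ) ^ (-s)‖ := by
  have hs0 : s ≠ 0 := by
    rintro rfl
    simp at hs
    have : (0 : ℝ) ≤ r := Nat.cast_nonneg r
    linarith
  have h1 := Mo.Ep_summable (x := z.re) (s := s - (r : ℝ) / 2) z.im_pos (by
    simp only [Complex.sub_re, Complex.div_ofNat_re, Complex.ofReal_re]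
    linarith)
  refine (h1.mul_left (z.im ^ ((r : ℝ) / 2))).of_nonneg_of_le (fun v => norm_nonneg _) fun v => ?_
  by_cases hv : v = 0
  · subst hv
    rw [qf_zero, Complex.ofReal_zero, Complex.zero_cpow (neg_ne_zero.2 hs0), mul_zero, norm_zero]
    have := z.im_pos
    positivity
  · have hq := qf_pos (x := z.re) z.im_pos hv
    rw [norm_mul, norm_pow, norm_lv_pow, Complex.norm_cpow_eq_rpow_re_of_pos hq,
      Complex.norm_cpow_eq_rpow_re_of_pos hq, mul_assoc, ← Real.rpow_add hq]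
    refine le_of_eq ?_
    congr 2
    simp
    ring

theorem thg_mellin (hK : ∀ v, ‖c v‖ ≤ K) {r : ℕ} (h : 0 < r ∨ c 0 = 0) {s : ℂ}
    (hs : 1 + (r : ℝ) / 2 < s.re) (z : ℍ) :
    MellinConvergent (fun t => thg c r t z) s ∧
      mellin (fun t => thg c r t z) s = (Real.pi : ℂ) ^ (-s) * Complex.Gamma s *
        ∑' v : ℤ × ℤ, c v * lv z v ^ r * (Mo.qf z.re z.im v : ℂ) ^ (-s) := by
  have hr0 : (0 : ℝ) ≤ (r : ℝ) / 2 := by positivity
  have hk := kap_pos (x := z.re) z.im_pos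
  have hK0 : 0 ≤ K := (norm_nonneg _).trans (hK 0)
  have hs0 : s ≠ 0 := by
    rintro rfl
    simp at hs
    linarith
  have hO : ∀ σ : ℝ, 1 < σ → ∃ C : ℝ, ∀ t : ℝ, 0 < t →
      ‖thg c r t z‖ ≤ C * ‖t ^ (-((r : ℝ) / 2 + σ))‖ := by
    intro σ hσ
    refine ⟨K * Cr r * (z.im ^ ((r : ℝ) / 2) * ((⌈σ⌉₊.factorial : ℝ) * (∑' v, nn v ^ (-σ)) *
      (Real.pi * kap z.re z.im) ^ (-σ) * (2 : ℝ) ^ σ)), ?_⟩
    intro t ht
    refine (thg_bound hK h ht z).trans ?_
    have h1 := gen_bound hσ hk (half_pos ht) z.im_pos (kap_le (x := z.re) z.im_pos)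
    have h2 : (t / 2) ^ (-σ) = (2 : ℝ) ^ σ * t ^ (-σ) := by
      rw [div_eq_mul_inv, Real.mul_rpow ht.le (by norm_num), Real.inv_rpow (by norm_num),
        Real.rpow_neg (by norm_num : (0 : ℝ) ≤ 2), inv_inv, mul_comm]
    rw [h2] at h1
    have h3 : t ^ (-((r : ℝ) / 2 + σ)) = t ^ (-((r : ℝ) / 2)) * t ^ (-σ) := by
      rw [← Real.rpow_add ht]
      congr 1
      ring
    rw [Real.norm_eq_abs, abs_of_nonneg (by positivity), h3]
    have h4 : 0 < t ^ (-((r : ℝ) / 2)) := Real.rpow_pos_of_pos ht _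
    have h5 : 0 < z.im ^ ((r : ℝ) / 2) := Real.rpow_pos_of_pos z.im_pos _
    have h6 := Cr_nonneg r
    calc K * Cr r * (t ^ (-((r : ℝ) / 2)) * z.im ^ ((r : ℝ) / 2) * (Mo.Th (t / 2) z.re z.im - 1)) ≤
        K * Cr r * (t ^ (-((r : ℝ) / 2)) * z.im ^ ((r : ℝ) / 2) *
          ((⌈σ⌉₊.factorial : ℝ) * (∑' v, nn v ^ (-σ)) *
      (Real.pi * kap z.re z.im) ^ (-σ) * ((2 : ℝ) ^ σ * t ^ (-σ)))) := by gcongr
      _ = _ := by ring
  refine ⟨?_, ?_⟩
  · refine mellinConvergent_of_isBigO_rpow (a := (r : ℝ) / 2 + (s.re + 1))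
      (b := (r : ℝ) / 2 + (1 + s.re - (r : ℝ) / 2) / 2) ?_ ?_ (by linarith) ?_ (by linarith)
    · refine ContinuousOn.locallyIntegrableOn ?_ measurableSet_Ioi
      refine (thg_continuousOn hK r).comp (f := fun t : ℝ => (t, z)) (by fun_prop) ?_
      intro t ht
      exact ht
    · obtain ⟨C, hC⟩ := hO (s.re + 1) (by linarith)
      refine Asymptotics.IsBigO.of_bound C ?_
      filter_upwards [Filter.eventually_gt_atTop 0] with t ht
      exact hC t ht
    · obtain ⟨C, hC⟩ := hO ((1 + s.re - (r : ℝ) / 2) / 2) (by linarith)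
      refine Asymptotics.IsBigO.of_bound C ?_
      filter_upwards [self_mem_nhdsWithin] with t ht
      exact hC t ht
  · have h1 := hasSum_mellin_pi_mul₀ (a := fun v : ℤ × ℤ => c v * lv z v ^ r)
      (p := fun v => Mo.qf z.re z.im v)
      (F := fun t => thg c r t z) (s := s) (fun v => qf_nonneg z.im_pos v) (by linarith)
      ?_ ?_
    · rw [← h1.tsum_eq, ← tsum_mul_left]
      refine tsum_congr fun v => ?_
      rw [Complex.cpow_neg (Mo.qf z.re z.im v : ℂ), div_eq_mul_inv]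
      ring
    · intro t ht
      have h2 := (thg_summable hK r ht z).hasSum
      refine h2.congr_fun ?_
      intro v
      by_cases hv : v = 0
      · subst hv
        rw [if_pos (qf_zero _ _), lv_zero]
        rcases h with h | h
        · rw [zero_pow h.ne', mul_zero, zero_mul]
        · rw [h, zero_mul, zero_mul]
      · rw [if_neg (qf_pos z.im_pos hv).ne']
        congr 3
        ring
    · refine Summable.of_nonneg_of_le (fun v => ?_) (fun v => ?_)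
        ((qfp_summable r hs z).mul_left K)
      · have := qf_nonneg (x := z.re) z.im_pos v
        positivity
      · by_cases hv : v = 0
        · subst hv
          rw [qf_zero, Real.zero_rpow (by linarith), div_zero]
          positivity
        · have hq := qf_pos (x := z.re) z.im_pos hv
          rw [norm_mul, norm_mul, Complex.norm_cpow_eq_rpow_re_of_pos hq, Complex.neg_re,
            Real.rpow_neg hq.le, div_eq_mul_inv, mul_assoc]
          gcongr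
          exact hK v

end Po

theorem Er_summable {N : ℕ} [NeZero N] (_ω : DirichletCharacter ℂ N) (r : ℕ) {s : ℂ}
    (hs : 1 + (r : ℝ) / 2 < s.re) (z : ℍ) :
    Summable fun v : ℤ × ℤ => ‖lv z v ^ r * (Mo.qf z.re z.im v : ℂ) ^ (-s)‖ :=
  qfp_summable r hs z

namespace Po

/-- the coefficients of the theta series -/
noncomputable def cT (N : ℕ) (ω : DirichletCharacter ℂ N) (v : ℤ × ℤ) : ℂ :=
  if (N : ℤ) ∣ v.1 then ω ((v.2 : ℤ) : ZMod N) else 0

theorem cT_le {N : ℕ} (ω : DirichletCharacter ℂ N) (v : ℤ × ℤ) : ‖cT N ω v‖ ≤ 1 := by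
  unfold cT
  split_ifs
  · exact DirichletCharacter.norm_le_one ω _
  · simp

theorem ne_one_of {N : ℕ} {ω : DirichletCharacter ℂ N} (h : ω ≠ 1) : N ≠ 1 := by
  rintro rfl
  exact h (Subsingleton.elim _ _)

theorem om_zero {N : ℕ} {ω : DirichletCharacter ℂ N} (h : ω ≠ 1) : ω 0 = 0 := by
  have hN := ne_one_of h
  have : Nontrivial (ZMod N) := ZMod.nontrivial_iff.2 hN
  exact MulChar.map_nonunit _ not_isUnit_zero

theorem cT_zero {N : ℕ} {ω : DirichletCharacter ℂ N} (h : ω ≠ 1) : cT N ω 0 = 0 := by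
  simp [cT, om_zero h]

theorem tau_le {N : ℕ} [NeZero N] (ω : DirichletCharacter ℂ N) (m : ℤ) : ‖tau N ω m‖ ≤ N := by
  unfold tau
  refine (norm_sum_le _ _).trans ?_
  calc ∑ ρ : ZMod N, ‖ω ρ * ZMod.stdAddChar (-((m : ZMod N) * ρ))‖ ≤ ∑ _ρ : ZMod N, (1 : ℝ) := by
        refine Finset.sum_le_sum fun ρ _ => ?_
        rw [norm_mul, AddChar.norm_apply, mul_one]
        exact DirichletCharacter.norm_le_one ω _
    _ = N := by simp

theorem tau_zero {N : ℕ} [NeZero N] {ω : DirichletCharacter ℂ N} (h : ω ≠ 1) : tau N ω 0 = 0 := by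
  unfold tau
  simp only [Int.cast_zero, zero_mul, neg_zero, AddChar.map_zero_eq_one, mul_one]
  exact MulChar.sum_eq_zero_of_ne_one h

end Po

theorem Th_eq (N : ℕ) (ω : DirichletCharacter ℂ N) (r : ℕ) (t : ℝ) (z : ℍ) :
    Th N ω r t z = thg (cT N ω) r t z := by
  unfold Th thg cT
  refine tsum_congr fun v => ?_
  split_ifs
  · rfl
  · rw [zero_mul, zero_mul]

theorem Thd_eq (N : ℕ) [NeZero N] (ω : DirichletCharacter ℂ N) (r : ℕ) (t : ℝ) (z : ℍ) :
    Thd N ω r t z = (N : ℂ) ^ (-((r : ℤ) + 2)) * thg (fun v => tau N ω v.1) r (t / (N : ℝ) ^ 2) z := by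
  unfold Thd thg
  congr 1
  refine tsum_congr fun v => ?_
  congr 3
  ring

/-- the case without pole -/
theorem Th_bound {N : ℕ} [NeZero N] (ω : DirichletCharacter ℂ N) (r : ℕ) (h : 0 < r ∨ ω ≠ 1) :
    ∃ C : ℝ, ∀ (t : ℝ) (z : ℍ), 0 < t →
      ‖Th N ω r t z‖ ≤ C * (t ^ (-((r : ℝ) / 2)) * z.im ^ ((r : ℝ) / 2) *
        (Mo.Th (t / 2) z.re z.im - 1)) := by
  refine ⟨1 * Cr r, fun t z ht => ?_⟩
  rw [Th_eq]
  exact thg_bound (cT_le ω) (h.imp id cT_zero) ht z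

theorem Thd_bound {N : ℕ} [NeZero N] (ω : DirichletCharacter ℂ N) (r : ℕ) (h : 0 < r ∨ ω ≠ 1) :
    ∃ C : ℝ, ∀ (t : ℝ) (z : ℍ), 0 < t →
      ‖Thd N ω r t z‖ ≤ C * (t ^ (-((r : ℝ) / 2)) * z.im ^ ((r : ℝ) / 2) *
        (Mo.Th (t / (2 * N ^ 2)) z.re z.im - 1)) := by
  have hN : (0 : ℝ) < N := by exact_mod_cast Nat.pos_of_ne_zero (NeZero.ne N)
  refine ⟨‖(N : ℂ) ^ (-((r : ℤ) + 2))‖ * (N * Cr r * ((N : ℝ) ^ 2) ^ ((r : ℝ) / 2)), fun t z ht => ?_⟩
  rw [Thd_eq, norm_mul]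
  have h1 := thg_bound (c := fun v => tau N ω v.1) (K := N) (fun v => tau_le ω v.1)
    (h.imp id fun h => tau_zero h) (r := r) (t := t / (N : ℝ) ^ 2) (by positivity) z
  have h2 : (t / (N : ℝ) ^ 2) ^ (-((r : ℝ) / 2)) =
      ((N : ℝ) ^ 2) ^ ((r : ℝ) / 2) * t ^ (-((r : ℝ) / 2)) := by
    rw [div_eq_mul_inv, Real.mul_rpow ht.le (by positivity), Real.inv_rpow (by positivity),
      Real.rpow_neg (by positivity : (0 : ℝ) ≤ (N : ℝ) ^ 2), inv_inv, mul_comm]
  rw [h2, show t / (N : ℝ) ^ 2 / 2 = t / (2 * N ^ 2) by field_simp] at h1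
  calc ‖(N : ℂ) ^ (-((r : ℤ) + 2))‖ * ‖thg (fun v => tau N ω v.1) r (t / (N : ℝ) ^ 2) z‖ ≤
      ‖(N : ℂ) ^ (-((r : ℤ) + 2))‖ * _ := mul_le_mul_of_nonneg_left h1 (norm_nonneg _)
    _ = _ := by ring

theorem Th_continuousOn {N : ℕ} (ω : DirichletCharacter ℂ N) (r : ℕ) :
    ContinuousOn (fun p : ℝ × ℍ => Th N ω r p.1 p.2) {p | 0 < p.1} := by
  simp_rw [Th_eq]
  exact thg_continuousOn (cT_le ω) r

theorem Thd_continuousOn {N : ℕ} [NeZero N] (ω : DirichletCharacter ℂ N) (r : ℕ) :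
    ContinuousOn (fun p : ℝ × ℍ => Thd N ω r p.1 p.2) {p | 0 < p.1} := by
  have hN : (0 : ℝ) < N := by exact_mod_cast Nat.pos_of_ne_zero (NeZero.ne N)
  simp_rw [Thd_eq]
  refine ContinuousOn.mul continuousOn_const ?_
  refine (thg_continuousOn (c := fun v => tau N ω v.1) (K := N) (fun v => tau_le ω v.1) r).comp
    (f := fun p : ℝ × ℍ => (p.1 / (N : ℝ) ^ 2, p.2)) (by fun_prop) ?_
  intro p hp
  have hp' : 0 < p.1 := hp
  exact (div_pos hp' (by positivity) : 0 < p.1 / (N : ℝ) ^ 2)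

/-- Mellin transform of the theta series -/
theorem Th_mellin {N : ℕ} [NeZero N] (ω : DirichletCharacter ℂ N) (r : ℕ) (h : 0 < r ∨ ω ≠ 1) {s : ℂ}
    (hs : 1 + (r : ℝ) / 2 < s.re) (z : ℍ) :
    MellinConvergent (fun t => Th N ω r t z) s ∧
      mellin (fun t => Th N ω r t z) s = (Real.pi : ℂ) ^ (-s) * Complex.Gamma s * Er N ω r z s := by
  simp_rw [Th_eq]
  obtain ⟨h1, h2⟩ := thg_mellin (c := cT N ω) (cT_le ω) (h.imp id cT_zero) hs z
  refine ⟨h1, ?_⟩
  rw [h2]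
  unfold Er cT
  congr 1
  refine tsum_congr fun v => ?_
  split_ifs
  · rfl
  · rw [zero_mul, zero_mul]

theorem sum_fin {N : ℕ} [NeZero N] (f : ZMod N → ℂ) :
    ∑ a : Fin N, f ((a : ℕ) : ZMod N) = ∑ ρ : ZMod N, f ρ := by
  refine Fintype.sum_bijective (fun a : Fin N => ((a : ℕ) : ZMod N)) ⟨?_, ?_⟩ _ _ (fun _ => rfl)
  · intro a b h
    have h1 := congrArg ZMod.val h
    simp only [ZMod.val_natCast, Nat.mod_eq_of_lt a.2, Nat.mod_eq_of_lt b.2] at h1
    exact Fin.ext h1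
  · intro ρ
    exact ⟨⟨ρ.val, ZMod.val_lt ρ⟩, ZMod.natCast_zmod_val ρ⟩

theorem Th_inv {N : ℕ} [NeZero N] (ω : DirichletCharacter ℂ N) (r : ℕ) {t : ℝ} (ht : 0 < t) (z : ℍ) :
    Th N ω r (1 / t) z = (t : ℂ) ^ (r + 1) * Thd N ω r t z := by
  have hN : (0 : ℝ) < N := by exact_mod_cast Nat.pos_of_ne_zero (NeZero.ne N)
  have hNc : (N : ℂ) ≠ 0 := by exact_mod_cast NeZero.ne N
  have htc : (t : ℂ) ≠ 0 := by exact_mod_cast ht.ne'
  have him := z.im_pos
  have hT : (0 : ℝ) < 1 / t * (N : ℝ) ^ 2 := by positivity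
  -- the form of the terms
  have hqf : ∀ (T : ℝ) (v : ℤ × ℤ), Real.pi * T * Mo.qf z.re z.im v =
      Real.pi * T * ‖lv z v‖ ^ 2 / z.im := by
    intro T v
    rw [norm_lv_sq]
    field_simp
  have hg : Summable fun u : ℤ × ℤ => ω ((u.2 : ℤ) : ZMod N) * lv z u ^ r *
      (Real.exp (-(Real.pi * (1 / t) * Mo.qf z.re z.im u)) : ℂ) :=
    thg_summable (c := fun u : ℤ × ℤ => ω ((u.2 : ℤ) : ZMod N)) (K := 1)
      (fun u => DirichletCharacter.norm_le_one ω _) r (one_div_pos.2 ht) z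
  unfold Th
  rw [residue_tsum hg]
  have hterm : ∀ (a : Fin N) (v : ℤ × ℤ),
      ω (((v.2 * N + ((a : ℕ) : ℤ) : ℤ)) : ZMod N) *
        lv z ((N : ℤ) * v.1, v.2 * N + ((a : ℕ) : ℤ)) ^ r *
        (Real.exp (-(Real.pi * (1 / t) *
          Mo.qf z.re z.im ((N : ℤ) * v.1, v.2 * N + ((a : ℕ) : ℤ)))) : ℂ) =
      (ω ((a : ℕ) : ZMod N) * (N : ℂ) ^ r) * ((lv z v + ((a : ℕ) / N : ℝ)) ^ r *
        (Real.exp (-(Real.pi * (1 / t * (N : ℝ) ^ 2) *
          ‖lv z v + ((a : ℕ) / N : ℝ)‖ ^ 2 / z.im)) : ℂ)) := by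
    intro a v
    have e1 : (((v.2 * N + ((a : ℕ) : ℤ) : ℤ)) : ZMod N) = ((a : ℕ) : ZMod N) := by
      push_cast
      rw [ZMod.natCast_self, mul_zero, zero_add]
    have e2 : lv z ((N : ℤ) * v.1, v.2 * N + ((a : ℕ) : ℤ)) =
        (N : ℂ) * (lv z v + ((a : ℕ) / N : ℝ)) := by
      unfold lv
      push_cast
      field_simp
      ring
    rw [hqf, e1, e2, mul_pow, norm_mul, Complex.norm_natCast, mul_pow]
    have e3 : Real.pi * (1 / t) * ((N : ℝ) ^ 2 * ‖lv z v + ((a : ℕ) / N : ℝ)‖ ^ 2) / z.im =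
        Real.pi * (1 / t * (N : ℝ) ^ 2) * ‖lv z v + ((a : ℕ) / N : ℝ)‖ ^ 2 / z.im := by ring
    rw [e3]
    ring
  have hsum : ∀ a : Fin N, ∑' v : ℤ × ℤ,
      ω (((v.2 * N + ((a : ℕ) : ℤ) : ℤ)) : ZMod N) *
        lv z ((N : ℤ) * v.1, v.2 * N + ((a : ℕ) : ℤ)) ^ r *
        (Real.exp (-(Real.pi * (1 / t) *
          Mo.qf z.re z.im ((N : ℤ) * v.1, v.2 * N + ((a : ℕ) : ℤ)))) : ℂ) =
      (t : ℂ) ^ (r + 1) * (N : ℂ) ^ (-((r : ℤ) + 2)) * ∑' v : ℤ × ℤ,
        (ω ((a : ℕ) : ZMod N) * ZMod.stdAddChar (-((v.1 : ZMod N) * ((a : ℕ) : ZMod N)))) *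
          lv z v ^ r * (Real.exp (-(Real.pi * (t / (N : ℝ) ^ 2) * Mo.qf z.re z.im v)) : ℂ) := by
    intro a
    rw [tsum_congr (hterm a), tsum_mul_left, poisson hT z r ((a : ℕ) / N : ℝ), ← tsum_mul_left,
      ← tsum_mul_left, ← tsum_mul_left]
    refine tsum_congr fun v => ?_
    have e4 : Real.pi * ‖lv z v‖ ^ 2 / (1 / t * (N : ℝ) ^ 2 * z.im) =
        Real.pi * (t / (N : ℝ) ^ 2) * Mo.qf z.re z.im v := by
      rw [norm_lv_sq]
      field_simp
    have e5 : (ZMod.stdAddChar (-((v.1 : ZMod N) * ((a : ℕ) : ZMod N))) : ℂ) =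
        Complex.exp (-(2 * Real.pi * Complex.I * v.1 * ((a : ℕ) / N : ℝ))) := by
      have : (-((v.1 : ZMod N) * ((a : ℕ) : ZMod N))) = ((-(v.1 * (a : ℕ)) : ℤ) : ZMod N) := by
        push_cast
        rfl
      rw [this, ZMod.stdAddChar_coe]
      congr 1
      push_cast
      ring
    have e6 : (((1 / t * (N : ℝ) ^ 2 : ℝ) : ℂ) ^ (r + 1))⁻¹ * (N : ℂ) ^ r =
        (t : ℂ) ^ (r + 1) * (N : ℂ) ^ (-((r : ℤ) + 2)) := by
      push_cast
      rw [zpow_neg, zpow_add₀ hNc, zpow_natCast, mul_pow, div_pow, one_pow]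
      field_simp
      ring
    rw [e4, e5]
    linear_combination (ω ((a : ℕ) : ZMod N) *
      Complex.exp (-(2 * Real.pi * Complex.I * v.1 * ((a : ℕ) / N : ℝ))) *
        lv z v ^ r * (Real.exp (-(Real.pi * (t / (N : ℝ) ^ 2) * Mo.qf z.re z.im v)) : ℂ)) * e6
  rw [Finset.sum_congr rfl fun a _ => hsum a, ← Finset.mul_sum, Thd_eq, ← mul_assoc]
  congr 1
  unfold thg
  rw [← Summable.tsum_finsetSum]
  · refine tsum_congr fun v => ?_
    rw [← Finset.sum_mul, ← Finset.sum_mul]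
    congr 2
    unfold tau
    exact sum_fin fun ρ => ω ρ * ZMod.stdAddChar (-((v.1 : ZMod N) * ρ))
  · intro a _
    refine thg_summable (c := fun v : ℤ × ℤ => ω ((a : ℕ) : ZMod N) *
      ZMod.stdAddChar (-((v.1 : ZMod N) * ((a : ℕ) : ZMod N)))) (K := 1) (fun v => ?_) r
      (by positivity) z
    rw [norm_mul, AddChar.norm_apply, mul_one]
    exact DirichletCharacter.norm_le_one ω _

end Pool.Agent.Work.MP_2b9663_nt.Nf
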